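import Pool.Agent.H115R4.ND2
import Pool.Agent.H303.AG.ND
import Pool.Agent.H459R2.AG.NC
import Pool.Agent.H89R2.AG.NA
import Pool.Agent.H89R2.AG.NB
import Pool.Agent.H895R2.AG.NE
import Pool.Agent.H204R2.AG.NG
import Pool.Agent.H18R2.AG.NF

/-!
The weighted nibble theorem (Frankl–Rödl, Pippenger, Kahn), assembled from the pool files of
`H115R4` without the other parts of that project.
-/

namespace Pool.Agent.V11181.Nib

open H115R4

theorem Ex_sp_T' : Ex_sp := Ex_sp_of Ex_surv_proof
theorem second_moment_T' : second_moment := second_moment_of' cv_bd_proof sp_lower_proof Ex_sp_T'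
theorem Ex_wn_T' : Ex_wn :=
  Ex_wn_of second_moment_T' sp_lower_proof Ex_sp_T' Ex_mono_proof cv_bd_proof
theorem Ex_iso_T' : Ex_iso := Ex_iso_of Ex_pick_proof
theorem one_round_T' : one_round :=
  one_round_of Ex_iso_T' Ex_wn_T' wn_good_proof Ex_exists_proof cv_bd_proof

/-- the weighted nibble theorem -/
theorem nibble' : nibble := nibble_of (nibS_all_of one_round_T')

end Pool.Agent.V11181.Nib
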