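import Mathlib
import Pool.Agent.V11181.Nib

set_option autoImplicit false

/-!
Packing edge-disjoint copies of the graph `K_{w+1} ∪ (t-1) K_w` in the complete graph on `n`
vertices, by the weighted nibble theorem.
-/

namespace Pool.Agent.V11181.Copies

open Finset Function

/-- vertices of the pattern graph: `t` blocks of `w` vertices and one more vertex -/
abbrev J (t w : ℕ) := Option (Fin t × Fin w)

/-- the block of a vertex; the additional vertex belongs to block `0` -/
def blk {t w : ℕ} (ht : 0 < t) : J t w → Fin t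
  | none => ⟨0, ht⟩
  | some p => p.1

/-- ordered edges of the pattern -/
def E {t w : ℕ} (ht : 0 < t) : Finset (J t w × J t w) :=
  univ.filter fun p => p.1 ≠ p.2 ∧ blk ht p.1 = blk ht p.2

lemma mem_E {t w : ℕ} (ht : 0 < t) (p : J t w × J t w) :
    p ∈ E ht ↔ p.1 ≠ p.2 ∧ blk ht p.1 = blk ht p.2 := by simp [E]

lemma card_E_le {t w : ℕ} (ht : 0 < t) : (E (w := w) ht).card ≤ t * (w * (w - 1)) + 2 * w := by
  classical
  have h1 : E (w := w) ht ⊆
      ((univ : Finset (Fin t)) ×ˢ ((univ : Finset (Fin w)).offDiag)).image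
        (fun q => (some (q.1, q.2.1), some (q.1, q.2.2))) ∪
      ((univ : Finset (Fin w)).image (fun i => ((none : J t w), some (⟨0, ht⟩, i))) ∪
        (univ : Finset (Fin w)).image (fun i => (some (⟨0, ht⟩, i), (none : J t w)))) := by
    rintro ⟨x, y⟩ hp
    rw [mem_E] at hp
    obtain ⟨hne, hb⟩ := hp
    simp only [mem_union, mem_image, mem_product, mem_univ, true_and, mem_offDiag, Prod.mk.injEq]
    rcases x with _ | ⟨j, i⟩ <;> rcases y with _ | ⟨j', i'⟩
    · exact absurd rfl hne
    · right; left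
      simp only [blk] at hb
      exact ⟨i', rfl, by rw [hb]⟩
    · right; right
      simp only [blk] at hb
      exact ⟨i, by rw [hb], rfl⟩
    · left
      simp only [blk] at hb
      subst hb
      refine ⟨(j, (i, i')), ?_, rfl, rfl⟩
      intro h
      apply hne
      have h' : i = i' := h
      rw [h']
  have h2 : ((univ : Finset (Fin t)) ×ˢ ((univ : Finset (Fin w)).offDiag)).card =
      t * (w * (w - 1)) := by
    rw [card_product, offDiag_card, card_univ, card_univ, Fintype.card_fin, Fintype.card_fin]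
    congr 1
    rw [Nat.mul_sub_one]
  calc (E (w := w) ht).card ≤ _ := card_le_card h1
    _ ≤ _ := card_union_le _ _
    _ ≤ t * (w * (w - 1)) + (w + w) := by
        refine Nat.add_le_add (card_image_le.trans h2.le) ((card_union_le _ _).trans ?_)
        refine Nat.add_le_add (card_image_le.trans ?_) (card_image_le.trans ?_) <;>
          rw [card_univ, Fintype.card_fin]
    _ = _ := by ring

/-- number of functions with prescribed values on `S` -/
lemma card_fix {V K : Type*} [Fintype V] [DecidableEq V] [Fintype K] [DecidableEq K]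
    (S : Finset V) (f0 : V → K) :
    (univ.filter fun f : V → K => ∀ x ∈ S, f x = f0 x).card * Fintype.card K ^ S.card =
      Fintype.card K ^ Fintype.card V := by
  have h1 : (univ.filter fun f : V → K => ∀ x ∈ S, f x = f0 x) =
      Fintype.piFinset (fun x => if x ∈ S then {f0 x} else univ) := by
    ext f
    simp only [mem_filter, mem_univ, true_and, Fintype.mem_piFinset]
    constructor
    · intro h x
      by_cases hx : x ∈ S
      · simp [hx, h x hx]
      · simp [hx]
    · intro h x hx
      have := h x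
      simpa [hx] using this
  rw [h1, Fintype.card_piFinset]
  have h2 : ∀ x : V, (if x ∈ S then {f0 x} else (univ : Finset K)).card =
      if x ∈ S then 1 else Fintype.card K := by
    intro x; split_ifs <;> simp
  simp only [h2]
  rw [Finset.prod_ite]
  simp only [Finset.prod_const, one_pow, one_mul]
  have h3 : (univ.filter fun x => x ∈ S) = S := by ext; simp
  have h4 : (univ.filter fun x => x ∉ S).card + S.card = Fintype.card V := by
    have := Finset.card_filter_add_card_filter_not (s := (univ : Finset V)) (fun x => x ∈ S)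
    rw [h3, Finset.card_univ] at this
    omega
  rw [← pow_add, h4]

/-- the edges of the copy of the pattern given by `φ` -/
def A {t w : ℕ} (ht : 0 < t) {n : ℕ} (φ : J t w → Fin n) : Finset (Sym2 (Fin n)) :=
  (E ht).image fun p => s(φ p.1, φ p.2)

lemma mem_A {t w : ℕ} (ht : 0 < t) {n : ℕ} (φ : J t w → Fin n) (a b : Fin n) :
    s(a, b) ∈ A ht φ ↔ ∃ x y, x ≠ y ∧ blk ht x = blk ht y ∧ φ x = a ∧ φ y = b := by
  unfold A
  rw [mem_image]
  constructor
  · rintro ⟨⟨x, y⟩, hp, h⟩
    rw [mem_E] at hp
    rw [Sym2.eq_iff] at h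
    rcases h with ⟨h1, h2⟩ | ⟨h1, h2⟩
    · exact ⟨x, y, hp.1, hp.2, h1, h2⟩
    · exact ⟨y, x, hp.1.symm, hp.2.symm, h2, h1⟩
  · rintro ⟨x, y, h1, h2, rfl, rfl⟩
    exact ⟨(x, y), (mem_E ht _).2 ⟨h1, h2⟩, rfl⟩

/-- The packing lemma: for large `n` there are at least `(1 - θ) n² / D`,
`D = t w (w - 1) + 2 w`, injections of the pattern into `Fin n` with pairwise disjoint edge sets. -/
theorem packing (t w : ℕ) (ht : 0 < t) (hw : 2 ≤ w) (θ : ℝ) (hθ : 0 < θ) (hθ1 : θ < 1) :
    ∃ N : ℕ, ∀ n : ℕ, N ≤ n → ∃ M : Finset (J t w → Fin n),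
      (∀ φ ∈ M, Injective φ) ∧ (∀ φ ∈ M, ∀ ψ ∈ M, φ ≠ ψ → Disjoint (A ht φ) (A ht ψ)) ∧
      (1 - θ) * ((n : ℝ) ^ 2 / (t * (w * (w - 1 : ℕ)) + 2 * w : ℕ)) ≤ M.card := by
  classical
  set D : ℕ := t * (w * (w - 1)) + 2 * w with hD
  have hDpos : 0 < D := by omega
  set v : ℕ := t * w + 1 with hv
  have hcardJ : Fintype.card (J t w) = v := by simp [J, hv]
  have htw : 2 ≤ t * w := le_trans hw (Nat.le_mul_of_pos_left w ht)
  obtain ⟨κ, hκ, hnib⟩ := Pool.Agent.V11181.Nib.nibble' D (θ / 2) (by positivity)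
  -- the number of injections
  have hlim : Filter.Tendsto (fun n : ℕ => (((n : ℝ) + 1 - v) / n) ^ v) Filter.atTop
      (nhds 1) := by
    have h1 : Filter.Tendsto (fun n : ℕ => ((n : ℝ) + 1 - v) / n) Filter.atTop (nhds 1) := by
      have h2 : Filter.Tendsto (fun n : ℕ => 1 + (1 - (v : ℝ)) / n) Filter.atTop (nhds (1 + 0)) :=
        tendsto_const_nhds.add (tendsto_const_div_atTop_nhds_zero_nat _)
      rw [add_zero] at h2
      refine h2.congr' ?_
      filter_upwards [Filter.eventually_gt_atTop 0] with n hn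
      have : (n : ℝ) ≠ 0 := by positivity
      field_simp
      ring
    simpa using h1.pow v
  have hev := hlim.eventually (lt_mem_nhds (show 1 - θ / 2 < (1 : ℝ) by linarith))
  obtain ⟨N0, hN0⟩ := Filter.eventually_atTop.1 hev
  obtain ⟨N1, hN1⟩ := exists_nat_gt ((D : ℝ) / κ)
  refine ⟨max N0 (max N1 (v + 1)), ?_⟩
  intro n hn
  have hn0 : N0 ≤ n := le_trans (le_max_left _ _) hn
  have hn1 : N1 ≤ n := le_trans (le_trans (le_max_left _ _) (le_max_right _ _)) hn
  have hnv : v + 1 ≤ n := le_trans (le_trans (le_max_right _ _) (le_max_right _ _)) hn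
  have hnpos : 0 < n := by omega
  have hnr : (0 : ℝ) < n := by exact_mod_cast hnpos
  set c : ℝ := 1 / (D * (n : ℝ) ^ (v - 2)) with hc
  have hcpos : 0 < c := by positivity
  set W : (J t w → Fin n) → ℝ := fun φ => if Injective φ then c else 0 with hW
  have hWle : ∀ φ, W φ ≤ c := by
    intro φ; simp only [hW]; split_ifs <;> [exact le_refl _; exact hcpos.le]
  have hW0 : ∀ φ, 0 ≤ W φ := by
    intro φ; simp only [hW]; split_ifs <;> [exact hcpos.le; exact le_refl _]
  have hDn : (D : ℝ) / n ≤ κ := by
    rw [div_le_iff₀ hnr]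
    have h1 : (N1 : ℝ) ≤ n := by exact_mod_cast hn1
    have h2 : (D : ℝ) / κ < n := lt_of_lt_of_le hN1 h1
    rw [div_lt_iff₀ hκ] at h2
    linarith
  have hfix2 : ∀ (x y : J t w) (a b : Fin n), x ≠ y →
      (univ.filter fun φ : J t w → Fin n => φ x = a ∧ φ y = b).card ≤ n ^ (v - 2) := by
    intro x y a b hxy
    have h1 := card_fix (K := Fin n) ({x, y} : Finset (J t w)) (fun z => if z = x then a else b)
    rw [card_pair hxy, Fintype.card_fin, hcardJ] at h1
    have h2 : (univ.filter fun φ : J t w → Fin n => φ x = a ∧ φ y = b) ⊆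
        (univ.filter fun f : J t w → Fin n => ∀ z ∈ ({x, y} : Finset (J t w)),
          f z = (fun z => if z = x then a else b) z) := by
      intro φ hφ
      obtain ⟨-, h3, h4⟩ := mem_filter.1 hφ
      refine mem_filter.2 ⟨mem_univ _, ?_⟩
      intro z hz
      rw [mem_insert, mem_singleton] at hz
      rcases hz with rfl | rfl
      · simp [h3]
      · simp [h4, hxy.symm]
    have h3 := card_le_card h2
    have h4 : n ^ v = n ^ (v - 2) * n ^ 2 := by rw [← pow_add]; congr 1; omega
    rw [h4] at h1
    have h5 := Nat.eq_of_mul_eq_mul_right (pow_pos hnpos 2) h1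
    exact h3.trans h5.le
  -- loads
  have hload : ∀ u : Sym2 (Fin n), ∑ φ ∈ univ.filter (fun φ => u ∈ A ht φ), W φ ≤ 1 := by
    intro u
    induction u using Sym2.ind with
    | _ a b =>
      have h1 : (univ.filter (fun φ : J t w → Fin n => s(a, b) ∈ A ht φ)) ⊆
          (E ht).biUnion (fun p => univ.filter fun φ : J t w → Fin n => φ p.1 = a ∧ φ p.2 = b) := by
        intro φ hφ
        have h2 := (mem_filter.1 hφ).2
        rw [mem_A] at h2
        obtain ⟨x, y, h3, h4, h5, h6⟩ := h2
        exact mem_biUnion.2 ⟨(x, y), (mem_E ht _).2 ⟨h3, h4⟩, mem_filter.2 ⟨mem_univ _, h5, h6⟩⟩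
      have h2 : (univ.filter (fun φ : J t w → Fin n => s(a, b) ∈ A ht φ)).card ≤
          D * n ^ (v - 2) := by
        calc _ ≤ _ := card_le_card h1
          _ ≤ ∑ p ∈ E ht, (univ.filter fun φ : J t w → Fin n => φ p.1 = a ∧ φ p.2 = b).card :=
              card_biUnion_le
          _ ≤ ∑ p ∈ E (w := w) ht, n ^ (v - 2) :=
              sum_le_sum fun p hp => hfix2 _ _ _ _ ((mem_E ht p).1 hp).1
          _ = (E (w := w) ht).card * n ^ (v - 2) := by rw [sum_const, smul_eq_mul]
          _ ≤ D * n ^ (v - 2) := Nat.mul_le_mul_right _ (card_E_le ht)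
      calc ∑ φ ∈ univ.filter (fun φ => s(a, b) ∈ A ht φ), W φ
          ≤ ∑ φ ∈ univ.filter (fun φ : J t w → Fin n => s(a, b) ∈ A ht φ), c :=
            sum_le_sum fun φ _ => hWle φ
        _ = ((univ.filter (fun φ : J t w → Fin n => s(a, b) ∈ A ht φ)).card : ℝ) * c := by
            rw [sum_const, nsmul_eq_mul]
        _ ≤ (D * (n : ℝ) ^ (v - 2)) * c := by
            apply mul_le_mul_of_nonneg_right _ hcpos.le
            exact_mod_cast h2
        _ = 1 := by rw [hc]; field_simp
  -- codegrees
  have hcodeg : ∀ u u' : Sym2 (Fin n), u ≠ u' →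
      ∑ φ ∈ univ.filter (fun φ => u ∈ A ht φ ∧ u' ∈ A ht φ), W φ ≤ κ := by
    intro u u' huu'
    induction u using Sym2.ind with
    | _ a b =>
    induction u' using Sym2.ind with
    | _ a' b' =>
      set Bd : (J t w × J t w) × (J t w × J t w) → Finset (J t w → Fin n) := fun q =>
        univ.filter fun φ : J t w → Fin n => Injective φ ∧ φ q.1.1 = a ∧ φ q.1.2 = b ∧
          φ q.2.1 = a' ∧ φ q.2.2 = b' with hBd
      have hBdc : ∀ q ∈ (E (w := w) ht) ×ˢ (E (w := w) ht), (Bd q).card ≤ n ^ (v - 3) := by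
        rintro ⟨⟨x, y⟩, ⟨x', y'⟩⟩ hq
        rw [mem_product, mem_E, mem_E] at hq
        obtain ⟨⟨hxy, -⟩, ⟨hxy', -⟩⟩ := hq
        simp only at hxy hxy'
        rcases (Bd ((x, y), (x', y'))).eq_empty_or_nonempty with he | ⟨φ0, hφ0⟩
        · rw [he]; simp
        · obtain ⟨-, hinj, h1, h2, h3, h4⟩ := mem_filter.1 hφ0
          simp only at h1 h2 h3 h4
          set S : Finset (J t w) := {x, y, x', y'} with hS
          have hS3 : 3 ≤ S.card := by
            by_contra hcon
            push Not at hcon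
            have hsub1 : ({x, y} : Finset (J t w)) ⊆ S := by
              intro z hz; rw [mem_insert, mem_singleton] at hz
              rw [hS]; simp only [mem_insert, mem_singleton]; tauto
            have hsub2 : ({x', y'} : Finset (J t w)) ⊆ S := by
              intro z hz; rw [mem_insert, mem_singleton] at hz
              rw [hS]; simp only [mem_insert, mem_singleton]; tauto
            have e1 : ({x, y} : Finset (J t w)) = S :=
              eq_of_subset_of_card_le hsub1 (by rw [card_pair hxy]; omega)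
            have e2 : ({x', y'} : Finset (J t w)) = S :=
              eq_of_subset_of_card_le hsub2 (by rw [card_pair hxy']; omega)
            have e3 : ({x, y} : Finset (J t w)) = {x', y'} := e1.trans e2.symm
            have hx : x ∈ ({x', y'} : Finset (J t w)) := by rw [← e3]; simp
            have hy : y ∈ ({x', y'} : Finset (J t w)) := by rw [← e3]; simp
            rw [mem_insert, mem_singleton] at hx hy
            apply huu'
            rw [← h1, ← h2, ← h3, ← h4, Sym2.eq_iff]
            rcases hx with rfl | rfl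
            · rcases hy with rfl | rfl
              · exact absurd rfl hxy
              · left; exact ⟨rfl, rfl⟩
            · rcases hy with rfl | rfl
              · right; exact ⟨rfl, rfl⟩
              · exact absurd rfl hxy
          have h5 := card_fix (K := Fin n) S φ0
          rw [Fintype.card_fin, hcardJ] at h5
          have h6 : Bd ((x, y), (x', y')) ⊆
              (univ.filter fun f : J t w → Fin n => ∀ z ∈ S, f z = φ0 z) := by
            intro φ hφ
            obtain ⟨-, -, g1, g2, g3, g4⟩ := mem_filter.1 hφ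
            simp only at g1 g2 g3 g4
            refine mem_filter.2 ⟨mem_univ _, ?_⟩
            intro z hz
            rw [hS] at hz
            simp only [mem_insert, mem_singleton] at hz
            rcases hz with rfl | rfl | rfl | rfl
            · rw [g1, h1]
            · rw [g2, h2]
            · rw [g3, h3]
            · rw [g4, h4]
          have h7 := card_le_card h6
          have hSv : S.card ≤ v := by rw [← hcardJ]; exact card_le_univ S
          have h8 : n ^ v = n ^ (v - S.card) * n ^ S.card := by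
            rw [← pow_add]; congr 1; omega
          rw [h8] at h5
          have h9 := Nat.eq_of_mul_eq_mul_right (pow_pos hnpos _) h5
          calc (Bd ((x, y), (x', y'))).card ≤ n ^ (v - S.card) := by omega
            _ ≤ n ^ (v - 3) := Nat.pow_le_pow_right hnpos (by omega)
      have h1 : ∑ φ ∈ univ.filter (fun φ : J t w → Fin n => s(a, b) ∈ A ht φ ∧
          s(a', b') ∈ A ht φ), W φ ≤ ∑ φ ∈ ((E (w := w) ht) ×ˢ (E (w := w) ht)).biUnion Bd, c := by
        rw [← sum_filter_add_sum_filter_not (univ.filter (fun φ : J t w → Fin n =>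
          s(a, b) ∈ A ht φ ∧ s(a', b') ∈ A ht φ)) (fun φ => Injective φ)]
        have hz : ∑ φ ∈ (univ.filter (fun φ : J t w → Fin n => s(a, b) ∈ A ht φ ∧
            s(a', b') ∈ A ht φ)).filter (fun φ => ¬ Injective φ), W φ = 0 := by
          apply sum_eq_zero
          intro φ hφ
          simp only [hW, if_neg (mem_filter.1 hφ).2]
        rw [hz, add_zero]
        refine le_trans (sum_le_sum fun φ _ => hWle φ) ?_
        apply sum_le_sum_of_subset_of_nonneg
        · intro φ hφ
          obtain ⟨hφ1, hinj⟩ := mem_filter.1 hφ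
          obtain ⟨-, h2, h3⟩ := mem_filter.1 hφ1
          rw [mem_A] at h2 h3
          obtain ⟨x, y, g1, g2, g3, g4⟩ := h2
          obtain ⟨x', y', g1', g2', g3', g4'⟩ := h3
          exact mem_biUnion.2 ⟨((x, y), (x', y')),
            mem_product.2 ⟨(mem_E ht _).2 ⟨g1, g2⟩, (mem_E ht _).2 ⟨g1', g2'⟩⟩,
            mem_filter.2 ⟨mem_univ _, hinj, g3, g4, g3', g4'⟩⟩
        · intro φ _ _; exact hcpos.le
      have h2 : (((E (w := w) ht) ×ˢ (E (w := w) ht)).biUnion Bd).card ≤ D * D * n ^ (v - 3) := by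
        calc _ ≤ ∑ q ∈ (E (w := w) ht) ×ˢ (E (w := w) ht), (Bd q).card := card_biUnion_le
          _ ≤ ∑ q ∈ (E (w := w) ht) ×ˢ (E (w := w) ht), n ^ (v - 3) := sum_le_sum hBdc
          _ = (E (w := w) ht).card * (E (w := w) ht).card * n ^ (v - 3) := by
              rw [sum_const, smul_eq_mul, card_product]
          _ ≤ D * D * n ^ (v - 3) :=
              Nat.mul_le_mul_right _ (Nat.mul_le_mul (card_E_le ht) (card_E_le ht))
      refine h1.trans ?_
      rw [sum_const, nsmul_eq_mul]
      calc ((((E (w := w) ht) ×ˢ (E (w := w) ht)).biUnion Bd).card : ℝ) * c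
          ≤ (D * D * (n : ℝ) ^ (v - 3)) * c := by
            apply mul_le_mul_of_nonneg_right _ hcpos.le
            exact_mod_cast h2
        _ = D / n := by
            rw [hc]
            have : (n : ℝ) ^ (v - 2) = (n : ℝ) ^ (v - 3) * n := by
              rw [← pow_succ]; congr 1; omega
            rw [this]
            field_simp
        _ ≤ κ := hDn
  have hWκ : ∀ φ, W φ ≤ κ := by
    intro φ
    refine (hWle φ).trans (le_trans ?_ hDn)
    rw [hc]
    have hD1 : (1 : ℝ) ≤ D := by exact_mod_cast hDpos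
    have hn1' : (1 : ℝ) ≤ n := by exact_mod_cast hnpos
    rw [div_le_div_iff₀ (by positivity) hnr, one_mul]
    have h1 : (n : ℝ) ≤ (n : ℝ) ^ (v - 2) := by
      calc (n : ℝ) = (n : ℝ) ^ 1 := (pow_one _).symm
        _ ≤ (n : ℝ) ^ (v - 2) := pow_le_pow_right₀ hn1' (by omega)
    calc (n : ℝ) ≤ (n : ℝ) ^ (v - 2) := h1
      _ = 1 * (1 * (n : ℝ) ^ (v - 2)) := by ring
      _ ≤ D * (D * (n : ℝ) ^ (v - 2)) := by gcongr
  have hne : ∀ φ : J t w → Fin n, (A ht φ).Nonempty := by
    intro φ
    refine ⟨s(φ none, φ (some (⟨0, ht⟩, ⟨0, by omega⟩))), ?_⟩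
    rw [mem_A]
    exact ⟨none, some (⟨0, ht⟩, ⟨0, by omega⟩), by simp, rfl, rfl, rfl⟩
  have hrank : ∀ φ : J t w → Fin n, (A ht φ).card ≤ D := fun φ =>
    card_image_le.trans (card_E_le ht)
  obtain ⟨M, hM1, hM2, hM3⟩ := hnib (J t w → Fin n) (Sym2 (Fin n)) (A ht) W hW0 hne hrank hload
    hcodeg hWκ
  refine ⟨M, ?_, hM1, ?_⟩
  · intro φ hφ
    by_contra hcon
    have := hM2 φ hφ
    simp only [hW, if_neg hcon, lt_irrefl] at this
  · refine le_trans ?_ hM3
    -- total weight
    have hsum : ∑ φ, W φ = (n.descFactorial v : ℝ) * c := by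
      simp only [hW]
      rw [← sum_filter, sum_const, nsmul_eq_mul]
      congr 2
      rw [← Fintype.card_subtype]
      have h1 := Fintype.card_embedding_eq (α := J t w) (β := Fin n)
      rw [Fintype.card_fin, hcardJ] at h1
      rw [← h1]
      exact Fintype.card_congr (Equiv.subtypeInjectiveEquivEmbedding (J t w) (Fin n))
    rw [hsum]
    have h1 : ((n : ℝ) + 1 - v) ^ v ≤ (n.descFactorial v : ℝ) := by
      have h2 := Nat.pow_sub_le_descFactorial n v
      have h3 : ((n + 1 - v : ℕ) : ℝ) = (n : ℝ) + 1 - v := by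
        rw [Nat.cast_sub (by omega)]; push_cast; ring
      rw [← h3]
      exact_mod_cast h2
    have h4 := hN0 n hn0
    have h5 : (1 - θ / 2) * (n : ℝ) ^ v ≤ (n.descFactorial v : ℝ) := by
      rw [div_pow, lt_div_iff₀ (by positivity)] at h4
      linarith
    have h6 : (n : ℝ) ^ 2 / D = (n : ℝ) ^ v * c := by
      rw [hc]
      have : (n : ℝ) ^ v = (n : ℝ) ^ (v - 2) * (n : ℝ) ^ 2 := by
        rw [← pow_add]; congr 1; omega
      rw [this]
      field_simp
    have h7 : 0 ≤ (n : ℝ) ^ v * c := by positivity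
    have h8 : (1 - θ) ≤ (1 - θ / 2) * (1 - θ / 2) := by nlinarith
    calc (1 - θ) * ((n : ℝ) ^ 2 / D) = (1 - θ) * ((n : ℝ) ^ v * c) := by rw [h6]
      _ ≤ ((1 - θ / 2) * (1 - θ / 2)) * ((n : ℝ) ^ v * c) := mul_le_mul_of_nonneg_right h8 h7
      _ = (1 - θ / 2) * (((1 - θ / 2) * (n : ℝ) ^ v) * c) := by ring
      _ ≤ (1 - θ / 2) * ((n.descFactorial v : ℝ) * c) := by
          apply mul_le_mul_of_nonneg_left _ (by linarith)
          exact mul_le_mul_of_nonneg_right h5 hcpos.le

end Pool.Agent.V11181.Copies
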