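import Mathlib

set_option autoImplicit false

/-!
A hitting set lemma: random colouring of a finite set `V` with `M` colours; the points of colour
`0` contain no triple of a given family `𝒯` and meet every member of a given family `𝒲`.
The proof combines the symmetric local lemma for the triples with a union bound over `𝒲`.
-/

namespace Pool.Agent.V11181.Hit

open Finset

/-- conditional probability step of the symmetric local lemma, in counting form -/
theorem lll_step {α ι : Type*} [DecidableEq ι] (Ω : Finset α) (E : ι → α → Prop)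
    [∀ i, DecidablePred (E i)] (S : Finset ι)
    (nb : ι → Finset ι) (D : ℕ) (q : ℝ) (hq : 0 ≤ q) (hDq : 4 * D * q ≤ 1)
    (hnb : ∀ i ∈ S, (nb i).card ≤ D)
    (hind : ∀ i ∈ S, ∀ T ⊆ S, (∀ j ∈ T, j ∉ nb i) →
      ((Ω.filter fun x => E i x ∧ ∀ j ∈ T, ¬ E j x).card : ℝ) ≤
        q * (Ω.filter fun x => ∀ j ∈ T, ¬ E j x).card) :
    ∀ (n : ℕ) (T : Finset ι), T.card = n → T ⊆ S → ∀ i ∈ S,
      ((Ω.filter fun x => E i x ∧ ∀ j ∈ T, ¬ E j x).card : ℝ) ≤
        2 * q * (Ω.filter fun x => ∀ j ∈ T, ¬ E j x).card := by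
  classical
  intro n
  induction n using Nat.strong_induction_on with
  | _ n ih =>
    intro T hTn hTS i hi
    set S1 : Finset ι := T.filter (fun j => j ∈ nb i) with hS1
    set S2 : Finset ι := T.filter (fun j => j ∉ nb i) with hS2
    have hS2S : S2 ⊆ S := (Finset.filter_subset _ _).trans hTS
    have hcard : S1.card + S2.card = T.card := Finset.card_filter_add_card_filter_not _
    have hG0 : (0 : ℝ) ≤ ((Ω.filter fun x => ∀ j ∈ T, ¬ E j x).card : ℝ) := Nat.cast_nonneg _
    by_cases hemp : S1 = ∅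
    · have h1 : ∀ j ∈ T, j ∉ nb i := by
        intro j hj hjn
        have : j ∈ S1 := Finset.mem_filter.2 ⟨hj, hjn⟩
        rw [hemp] at this
        exact absurd this (Finset.notMem_empty j)
      have h2 := hind i hi T hTS h1
      nlinarith
    · have hpos : 0 < S1.card := Finset.card_pos.2 (Finset.nonempty_iff_ne_empty.2 hemp)
      have hlt : S2.card < n := by omega
      have h1 : ((Ω.filter fun x => E i x ∧ ∀ j ∈ T, ¬ E j x).card : ℝ) ≤
          ((Ω.filter fun x => E i x ∧ ∀ j ∈ S2, ¬ E j x).card : ℝ) := by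
        have hsub : (Ω.filter fun x => E i x ∧ ∀ j ∈ T, ¬ E j x) ⊆
            (Ω.filter fun x => E i x ∧ ∀ j ∈ S2, ¬ E j x) := by
          intro x hx
          rw [Finset.mem_filter] at hx ⊢
          exact ⟨hx.1, hx.2.1, fun j hj => hx.2.2 j (Finset.mem_of_mem_filter j hj)⟩
        exact_mod_cast Finset.card_le_card hsub
      have h2 := hind i hi S2 hS2S (fun j hj => (Finset.mem_filter.1 hj).2)
      have h3 : (Ω.filter fun x => ∀ j ∈ S2, ¬ E j x) ⊆
          (Ω.filter fun x => ∀ j ∈ T, ¬ E j x) ∪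
            S1.biUnion (fun j => Ω.filter fun x => E j x ∧ ∀ k ∈ S2, ¬ E k x) := by
        intro x hx
        rw [Finset.mem_filter] at hx
        by_cases hall : ∀ j ∈ T, ¬ E j x
        · exact Finset.mem_union_left _ (Finset.mem_filter.2 ⟨hx.1, hall⟩)
        · push Not at hall
          obtain ⟨j, hjT, hjE⟩ := hall
          refine Finset.mem_union_right _ (Finset.mem_biUnion.2 ⟨j, ?_, ?_⟩)
          · refine Finset.mem_filter.2 ⟨hjT, ?_⟩
            by_contra hcon
            exact hx.2 j (Finset.mem_filter.2 ⟨hjT, hcon⟩) hjE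
          · exact Finset.mem_filter.2 ⟨hx.1, hjE, hx.2⟩
      have h4 : ((Ω.filter fun x => ∀ j ∈ S2, ¬ E j x).card : ℝ) ≤
          ((Ω.filter fun x => ∀ j ∈ T, ¬ E j x).card : ℝ) +
            ∑ j ∈ S1, ((Ω.filter fun x => E j x ∧ ∀ k ∈ S2, ¬ E k x).card : ℝ) := by
        have := (Finset.card_le_card h3).trans (Finset.card_union_le _ _)
        have h5 := Finset.card_biUnion_le (s := S1)
          (t := fun j => Ω.filter fun x => E j x ∧ ∀ k ∈ S2, ¬ E k x)
        exact_mod_cast this.trans (Nat.add_le_add_left h5 _)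
      have h5 : ∑ j ∈ S1, ((Ω.filter fun x => E j x ∧ ∀ k ∈ S2, ¬ E k x).card : ℝ) ≤
          S1.card * (2 * q * ((Ω.filter fun x => ∀ j ∈ S2, ¬ E j x).card : ℝ)) := by
        rw [← nsmul_eq_mul]
        refine Finset.sum_le_card_nsmul _ _ _ fun j hj => ?_
        exact ih S2.card hlt S2 rfl hS2S j (hTS (Finset.mem_of_mem_filter j hj))
      have hS1D : (S1.card : ℝ) ≤ D := by
        have h6 : S1 ⊆ nb i := fun j hj => (Finset.mem_filter.1 hj).2
        exact_mod_cast (Finset.card_le_card h6).trans (hnb i hi)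
      set g2 : ℝ := ((Ω.filter fun x => ∀ j ∈ S2, ¬ E j x).card : ℝ) with hg2
      have hg20 : 0 ≤ g2 := Nat.cast_nonneg _
      have h6 : (S1.card : ℝ) * (2 * q * g2) ≤ g2 / 2 := by
        have h7 : (S1.card : ℝ) * (2 * q * g2) ≤ D * (2 * q * g2) :=
          mul_le_mul_of_nonneg_right hS1D (by positivity)
        nlinarith
      have h7 : g2 ≤ 2 * ((Ω.filter fun x => ∀ j ∈ T, ¬ E j x).card : ℝ) := by linarith
      calc ((Ω.filter fun x => E i x ∧ ∀ j ∈ T, ¬ E j x).card : ℝ) ≤ q * g2 := h1.trans h2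
        _ ≤ q * (2 * ((Ω.filter fun x => ∀ j ∈ T, ¬ E j x).card : ℝ)) :=
            mul_le_mul_of_nonneg_left h7 hq
        _ = _ := by ring

/-- iterated form: passing from the events in `T0` to the events in `T0 ∪ T1` costs at most
`(1 - 2q)^|T1|`. -/
theorem lll_iter {α ι : Type*} [DecidableEq ι] (Ω : Finset α) (E : ι → α → Prop)
    [∀ i, DecidablePred (E i)] (S : Finset ι)
    (nb : ι → Finset ι) (D : ℕ) (q : ℝ) (hq : 0 ≤ q) (hDq : 4 * D * q ≤ 1) (hq2 : 2 * q ≤ 1)
    (hnb : ∀ i ∈ S, (nb i).card ≤ D)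
    (hind : ∀ i ∈ S, ∀ T ⊆ S, (∀ j ∈ T, j ∉ nb i) →
      ((Ω.filter fun x => E i x ∧ ∀ j ∈ T, ¬ E j x).card : ℝ) ≤
        q * (Ω.filter fun x => ∀ j ∈ T, ¬ E j x).card) (T0 : Finset ι) (hT0 : T0 ⊆ S) :
    ∀ T1 : Finset ι, T1 ⊆ S →
      (1 - 2 * q) ^ T1.card * ((Ω.filter fun x => ∀ j ∈ T0, ¬ E j x).card : ℝ) ≤
        (Ω.filter fun x => ∀ j ∈ T1 ∪ T0, ¬ E j x).card := by
  classical
  intro T1
  induction T1 using Finset.induction_on with
  | empty => intro _; simp
  | insert i T hiT ih =>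
    intro hT
    have hTS : T ⊆ S := (Finset.subset_insert _ _).trans hT
    have hi : i ∈ S := hT (Finset.mem_insert_self _ _)
    have h1 := ih hTS
    have h2 := lll_step Ω E S nb D q hq hDq hnb hind (T ∪ T0).card (T ∪ T0) rfl
      (Finset.union_subset hTS hT0) i hi
    have h3 : (Ω.filter fun x => ∀ j ∈ T ∪ T0, ¬ E j x).card =
        (Ω.filter fun x => E i x ∧ ∀ j ∈ T ∪ T0, ¬ E j x).card +
          (Ω.filter fun x => ∀ j ∈ insert i T ∪ T0, ¬ E j x).card := by
      rw [← Finset.card_filter_add_card_filter_not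
        (s := Ω.filter fun x => ∀ j ∈ T ∪ T0, ¬ E j x) (fun x => E i x)]
      congr 2
      · ext x
        simp only [Finset.mem_filter]
        tauto
      · ext x
        simp only [Finset.mem_filter, Finset.insert_union, Finset.mem_insert, forall_eq_or_imp]
        tauto
    have h3' : ((Ω.filter fun x => ∀ j ∈ T ∪ T0, ¬ E j x).card : ℝ) =
        ((Ω.filter fun x => E i x ∧ ∀ j ∈ T ∪ T0, ¬ E j x).card : ℝ) +
          ((Ω.filter fun x => ∀ j ∈ insert i T ∪ T0, ¬ E j x).card : ℝ) := by exact_mod_cast h3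
    rw [Finset.card_insert_of_notMem hiT, pow_succ]
    have h4 : 0 ≤ 1 - 2 * q := by linarith
    calc (1 - 2 * q) ^ T.card * (1 - 2 * q) *
          ((Ω.filter fun x => ∀ j ∈ T0, ¬ E j x).card : ℝ) =
          (1 - 2 * q) * ((1 - 2 * q) ^ T.card *
            ((Ω.filter fun x => ∀ j ∈ T0, ¬ E j x).card : ℝ)) := by ring
      _ ≤ (1 - 2 * q) * ((Ω.filter fun x => ∀ j ∈ T ∪ T0, ¬ E j x).card : ℝ) :=
          mul_le_mul_of_nonneg_left h1 h4
      _ ≤ _ := by linarith

/-- the same for events indexed by finite subsets of a finite type (other decidability instances) -/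
theorem lll_iterV {α V : Type*} [Fintype V] [DecidableEq V] (Ω : Finset α)
    (E : Finset V → α → Prop) [∀ i, DecidablePred (E i)] (S : Finset (Finset V))
    (nb : Finset V → Finset (Finset V)) (D : ℕ) (q : ℝ) (hq : 0 ≤ q) (hDq : 4 * D * q ≤ 1)
    (hq2 : 2 * q ≤ 1) (hnb : ∀ i ∈ S, (nb i).card ≤ D)
    (hind : ∀ i ∈ S, ∀ T ⊆ S, (∀ j ∈ T, j ∉ nb i) →
      ((Ω.filter fun x => E i x ∧ ∀ j ∈ T, ¬ E j x).card : ℝ) ≤
        q * (Ω.filter fun x => ∀ j ∈ T, ¬ E j x).card) (T0 : Finset (Finset V)) (hT0 : T0 ⊆ S)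
    (T1 : Finset (Finset V)) (hT1 : T1 ⊆ S) :
      (1 - 2 * q) ^ T1.card * ((Ω.filter fun x => ∀ j ∈ T0, ¬ E j x).card : ℝ) ≤
        (Ω.filter fun x => ∀ j ∈ T1 ∪ T0, ¬ E j x).card := by
  have := lll_iter Ω E S nb D q hq hDq hq2 hnb
    (by intro i hi T hT h; convert hind i hi T hT h) T0 hT0 T1 hT1
  convert this

section product

variable {V : Type*} [Fintype V] [DecidableEq V] {K : Type*} [Fintype K] [DecidableEq K]

omit [DecidableEq K] in
/-- independence on a product space -/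
lemma indep (T : Finset V) (P Q : (V → K) → Prop) [DecidablePred P] [DecidablePred Q]
    (hQ : ∀ f g : V → K, (∀ x ∈ T, f x = g x) → Q f → Q g)
    (hP : ∀ f g : V → K, (∀ x, x ∉ T → f x = g x) → P f → P g) :
    (univ.filter fun f => Q f ∧ P f).card * Fintype.card (V → K) =
      (univ.filter fun f => Q f).card * (univ.filter fun f => P f).card := by
  rw [← Finset.card_univ, ← Finset.card_product, ← Finset.card_product]
  let sw : (V → K) × (V → K) → (V → K) × (V → K) :=
    fun p => (T.piecewise p.1 p.2, T.piecewise p.2 p.1)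
  have hsw : ∀ p, sw (sw p) = p := by
    rintro ⟨f, g⟩
    simp only [sw, Prod.mk.injEq]
    constructor <;> · funext x; by_cases hx : x ∈ T <;> simp [hx]
  refine Finset.card_bij' (fun p _ => sw p) (fun p _ => sw p) ?_ ?_ (fun p _ => hsw p)
    (fun p _ => hsw p)
  · rintro ⟨f, g⟩ h
    simp only [mem_product, mem_filter, mem_univ, true_and, and_true] at h ⊢
    refine ⟨hQ f _ (fun x hx => by simp [sw, hx]) h.1, hP f _ (fun x hx => by simp [sw, hx]) h.2⟩
  · rintro ⟨f, g⟩ h
    simp only [mem_product, mem_filter, mem_univ, true_and, and_true] at h ⊢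
    refine ⟨hQ f _ (fun x hx => by simp [sw, hx]) h.1, hP g _ (fun x hx => by simp [sw, hx]) h.2⟩

/-- the number of functions whose values on `S` lie in `R` -/
lemma card_box (S : Finset V) (R : Finset K) :
    (univ.filter fun f : V → K => ∀ x ∈ S, f x ∈ R).card * Fintype.card K ^ S.card =
      R.card ^ S.card * Fintype.card (V → K) := by
  have h1 : (univ.filter fun f : V → K => ∀ x ∈ S, f x ∈ R) =
      Fintype.piFinset (fun x => if x ∈ S then R else univ) := by
    ext f
    simp only [mem_filter, mem_univ, true_and, Fintype.mem_piFinset]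
    constructor
    · intro h x
      by_cases hx : x ∈ S
      · simp [hx, h x hx]
      · simp [hx]
    · intro h x hx
      have := h x
      simpa [hx] using this
  rw [h1, Fintype.card_piFinset]
  have h2 : ∀ x : V, (if x ∈ S then R else (univ : Finset K)).card =
      if x ∈ S then R.card else Fintype.card K := by
    intro x; split_ifs <;> simp
  simp only [h2]
  rw [Finset.prod_ite]
  simp only [Finset.prod_const]
  have h3 : (univ.filter fun x => x ∈ S) = S := by ext; simp
  have h4 : (univ.filter fun x => x ∉ S).card + S.card = Fintype.card V := by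
    have := Finset.card_filter_add_card_filter_not (s := (univ : Finset V)) (fun x => x ∈ S)
    rw [h3, Finset.card_univ] at this
    omega
  rw [h3, mul_assoc, ← pow_add, h4, Fintype.card_fun]

end product

/-- The hitting lemma: under the numerical conditions there is a set `A` containing no triple of
`𝒯` and meeting every member of `𝒲`. -/
theorem exists_hit {V : Type*} [Fintype V] [DecidableEq V] (TT WW : Finset (Finset V))
    (Δ s M : ℕ) (hM : 2 ≤ M) (hT3 : ∀ T ∈ TT, T.card = 3)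
    (hdeg : ∀ x : V, (TT.filter (fun T => x ∈ T)).card ≤ Δ)
    (hW : ∀ W ∈ WW, W.card = s) (h12 : 12 * Δ ≤ M ^ 3)
    (hnum : (WW.card : ℝ) * (1 - 1 / (M : ℝ)) ^ s < (1 - 2 * (1 / (M : ℝ) ^ 3)) ^ (s * Δ)) :
    ∃ A : Finset V, (∀ T ∈ TT, ¬ T ⊆ A) ∧ ∀ W ∈ WW, ∃ x ∈ W, x ∈ A := by
  classical
  set z : Fin M := ⟨0, by omega⟩ with hz
  obtain ⟨Ω, hΩ⟩ : ∃ Ω : Finset (V → Fin M), Ω = univ := ⟨_, rfl⟩
  obtain ⟨E, hE⟩ : ∃ E : Finset V → (V → Fin M) → Prop, ∀ T f, E T f ↔ ∀ x ∈ T, f x = z :=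
    ⟨_, fun _ _ => Iff.rfl⟩
  set nb : Finset V → Finset (Finset V) := fun T => TT.filter (fun T' => ¬ Disjoint T T') with hnb'
  have hM0 : (0 : ℝ) < M := by
    have : 0 < M := by omega
    exact_mod_cast this
  set q : ℝ := 1 / (M : ℝ) ^ 3 with hq'
  have hq : 0 ≤ q := by positivity
  have hMr : (2 : ℝ) ≤ M := by exact_mod_cast hM
  have hM3 : (8 : ℝ) ≤ (M : ℝ) ^ 3 := by
    have : (2 : ℝ) ^ 3 ≤ (M : ℝ) ^ 3 := pow_le_pow_left₀ (by norm_num) hMr 3
    linarith
  have hq8 : q ≤ 1 / 8 := by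
    rw [hq']
    exact one_div_le_one_div_of_le (by norm_num) hM3
  have hq2 : 2 * q ≤ 1 := by linarith
  have hqM : q * (M : ℝ) ^ 3 = 1 := by
    rw [hq']; field_simp
  have hDq : 4 * ((3 * Δ : ℕ) : ℝ) * q ≤ 1 := by
    have h1 : (12 * Δ : ℝ) ≤ (M : ℝ) ^ 3 := by exact_mod_cast h12
    have : 4 * ((3 * Δ : ℕ) : ℝ) * q = (12 * Δ : ℝ) * q := by push_cast; ring
    rw [this, ← hqM, mul_comm q]
    exact mul_le_mul_of_nonneg_right h1 hq
  have hnb : ∀ i ∈ TT, (nb i).card ≤ 3 * Δ := by
    intro i hi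
    have h1 : nb i ⊆ i.biUnion (fun x => TT.filter (fun T => x ∈ T)) := by
      intro T hT
      simp only [hnb', mem_filter] at hT
      rw [Finset.not_disjoint_iff] at hT
      obtain ⟨hT1, x, hx, hxT⟩ := hT
      exact mem_biUnion.2 ⟨x, hx, mem_filter.2 ⟨hT1, hxT⟩⟩
    calc (nb i).card ≤ _ := card_le_card h1
      _ ≤ ∑ x ∈ i, (TT.filter (fun T => x ∈ T)).card := card_biUnion_le
      _ ≤ ∑ x ∈ i, Δ := sum_le_sum (fun x _ => hdeg x)
      _ = 3 * Δ := by rw [sum_const, hT3 i hi, smul_eq_mul]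
  have hcardΩ : (0 : ℝ) < Fintype.card (V → Fin M) := by
    have : 0 < Fintype.card (V → Fin M) := Fintype.card_pos_iff.2 ⟨fun _ => z⟩
    exact_mod_cast this
  -- the events not touching a set are determined outside it
  have hPout : ∀ (U : Finset V) (T : Finset (Finset V)), (∀ j ∈ T, Disjoint U j) →
      ∀ f g : V → Fin M, (∀ x, x ∉ U → f x = g x) → (∀ j ∈ T, ¬ E j f) → (∀ j ∈ T, ¬ E j g) := by
    intro U T hT f g hfg h j hj hjE
    apply h j hj
    rw [hE] at hjE ⊢
    intro x hx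
    have hxU : x ∉ U := fun hxU => (Finset.disjoint_left.1 (hT j hj)) hxU hx
    rw [hfg x hxU]
    exact hjE x hx
  have hind : ∀ i ∈ TT, ∀ T ⊆ TT, (∀ j ∈ T, j ∉ nb i) →
      ((Ω.filter fun x => E i x ∧ ∀ j ∈ T, ¬ E j x).card : ℝ) ≤
        q * (Ω.filter fun x => ∀ j ∈ T, ¬ E j x).card := by
    intro i hi T hT hTi
    have hdis : ∀ j ∈ T, Disjoint i j := by
      intro j hj
      by_contra hcon
      exact hTi j hj (mem_filter.2 ⟨hT hj, hcon⟩)
    have h1 := indep (K := Fin M) i (fun f => ∀ j ∈ T, ¬ E j f) (fun f => E i f)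
      (fun f g hfg hf => by
        rw [hE] at hf ⊢
        intro x hx
        rw [← hfg x hx]; exact hf x hx)
      (hPout i T hdis)
    have h2 := card_box (K := Fin M) i {z}
    rw [card_singleton, one_pow, one_mul, hT3 i hi, Fintype.card_fin] at h2
    have h20 : (univ.filter fun f : V → Fin M => ∀ x ∈ i, f x ∈ ({z} : Finset (Fin M))) =
        univ.filter (fun f => E i f) := by
      ext f
      simp only [mem_filter, mem_univ, true_and, hE, mem_singleton]
    rw [h20] at h2
    have h1' : ((univ.filter fun f => E i f ∧ ∀ j ∈ T, ¬ E j f).card : ℝ) *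
        Fintype.card (V → Fin M) = ((univ.filter fun f => E i f).card : ℝ) *
        ((univ.filter fun f => ∀ j ∈ T, ¬ E j f).card : ℝ) := by exact_mod_cast h1
    have h2' : ((univ.filter fun f => E i f).card : ℝ) * (M : ℝ) ^ 3 =
        Fintype.card (V → Fin M) := by exact_mod_cast h2
    have h3 : ((univ.filter fun f => E i f).card : ℝ) = q * Fintype.card (V → Fin M) := by
      rw [← h2', mul_comm, mul_assoc, mul_comm _ q, hqM, mul_one]
    rw [h3] at h1'
    have h4 : ((univ.filter fun f => E i f ∧ ∀ j ∈ T, ¬ E j f).card : ℝ) *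
        Fintype.card (V → Fin M) = (q *
        ((univ.filter fun f => ∀ j ∈ T, ¬ E j f).card : ℝ)) * Fintype.card (V → Fin M) := by
      rw [h1']; ring
    rw [hΩ]
    exact le_of_eq (mul_right_cancel₀ hcardΩ.ne' h4)
  -- the good functions
  obtain ⟨good, hgood⟩ : ∃ good : Finset (V → Fin M),
      good = Ω.filter fun f => ∀ j ∈ TT, ¬ E j f := ⟨_, rfl⟩
  have hpos1 : 0 < 1 - 2 * q := by linarith
  have hgoodpos : (0 : ℝ) < good.card := by
    have h1 := lll_iterV Ω E TT nb (3 * Δ) q hq hDq hq2 hnb hind ∅ (empty_subset _) TT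
      (Subset.refl _)
    rw [union_empty, ← hgood] at h1
    have h10 : (Ω.filter fun x => ∀ j ∈ (∅ : Finset (Finset V)), ¬ E j x) = Ω := by
      apply filter_true_of_mem
      intro x _ j hj
      exact absurd hj (notMem_empty j)
    rw [h10] at h1
    have h2 : (0 : ℝ) < (1 - 2 * q) ^ TT.card * (Ω.card : ℝ) := by
      have : (0 : ℝ) < Ω.card := by rw [hΩ, card_univ]; exact hcardΩ
      positivity
    exact lt_of_lt_of_le h2 h1
  -- the bad event of a member of `WW`
  obtain ⟨B, hB⟩ : ∃ B : Finset V → (V → Fin M) → Prop,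
      ∀ W f, B W f ↔ ∀ x ∈ W, f x ∈ (univ.erase z) := ⟨_, fun _ _ => Iff.rfl⟩
  have hbad : ∀ W ∈ WW, ((good.filter fun f => B W f).card : ℝ) * (1 - 2 * q) ^ (s * Δ) ≤
      (1 - 1 / (M : ℝ)) ^ s * good.card := by
    intro W hWW
    set near : Finset (Finset V) := TT.filter (fun T => ¬ Disjoint W T) with hnear
    set far : Finset (Finset V) := TT.filter (fun T => Disjoint W T) with hfar
    have hnearcard : near.card ≤ s * Δ := by
      have h1 : near ⊆ W.biUnion (fun x => TT.filter (fun T => x ∈ T)) := by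
        intro T hT
        simp only [hnear, mem_filter] at hT
        rw [Finset.not_disjoint_iff] at hT
        obtain ⟨hT1, x, hx, hxT⟩ := hT
        exact mem_biUnion.2 ⟨x, hx, mem_filter.2 ⟨hT1, hxT⟩⟩
      calc near.card ≤ _ := card_le_card h1
        _ ≤ ∑ x ∈ W, (TT.filter (fun T => x ∈ T)).card := card_biUnion_le
        _ ≤ ∑ x ∈ W, Δ := sum_le_sum (fun x _ => hdeg x)
        _ = s * Δ := by rw [sum_const, hW W hWW, smul_eq_mul]
    have hunion : near ∪ far = TT := by
      ext T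
      simp only [hnear, hfar, mem_union, mem_filter]
      tauto
    have h1 := lll_iterV Ω E TT nb (3 * Δ) q hq hDq hq2 hnb hind far (filter_subset _ _) near
      (filter_subset _ _)
    rw [hunion, ← hgood] at h1
    have h2 := indep (K := Fin M) W (fun f => ∀ j ∈ far, ¬ E j f) (fun f => B W f)
      (fun f g hfg hf => by
        rw [hB] at hf ⊢
        intro x hx
        rw [← hfg x hx]; exact hf x hx)
      (hPout W far (fun j hj => (mem_filter.1 hj).2))
    have h3 := card_box (K := Fin M) W (univ.erase z)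
    have h30 : (univ.filter fun f : V → Fin M => ∀ x ∈ W, f x ∈ (univ.erase z)) =
        univ.filter (fun f => B W f) := by
      ext f
      simp only [mem_filter, mem_univ, true_and, hB]
    rw [card_erase_of_mem (mem_univ z), card_univ, Fintype.card_fin, hW W hWW, h30] at h3
    have h4 : ((good.filter fun f => B W f).card : ℝ) ≤
        ((univ.filter fun f => B W f ∧ ∀ j ∈ far, ¬ E j f).card : ℝ) := by
      have : (good.filter fun f => B W f) ⊆ (univ.filter fun f => B W f ∧ ∀ j ∈ far, ¬ E j f) := by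
        intro f hf
        rw [hgood, hΩ] at hf
        simp only [mem_filter, mem_univ, true_and] at hf ⊢
        exact ⟨hf.2, fun j hj => hf.1 j (filter_subset _ _ hj)⟩
      exact_mod_cast card_le_card this
    have h2' : ((univ.filter fun f => B W f ∧ ∀ j ∈ far, ¬ E j f).card : ℝ) *
        Fintype.card (V → Fin M) = ((univ.filter fun f => B W f).card : ℝ) *
        ((univ.filter fun f => ∀ j ∈ far, ¬ E j f).card : ℝ) := by exact_mod_cast h2
    have h3' : ((univ.filter fun f => B W f).card : ℝ) * (M : ℝ) ^ s =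
        ((M - 1 : ℕ) : ℝ) ^ s * Fintype.card (V → Fin M) := by exact_mod_cast h3
    have h5 : ((univ.filter fun f => B W f).card : ℝ) =
        (1 - 1 / (M : ℝ)) ^ s * Fintype.card (V → Fin M) := by
      have h6 : (1 - 1 / (M : ℝ)) ^ s * (M : ℝ) ^ s = ((M - 1 : ℕ) : ℝ) ^ s := by
        rw [← mul_pow]
        congr 1
        have : ((M - 1 : ℕ) : ℝ) = (M : ℝ) - 1 := by
          rw [Nat.cast_sub (by omega), Nat.cast_one]
        rw [this]
        field_simp
      have h7 : (M : ℝ) ^ s ≠ 0 := by positivity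
      apply mul_right_cancel₀ h7
      rw [h3', ← h6]
      ring
    have h8 : ((univ.filter fun f => B W f ∧ ∀ j ∈ far, ¬ E j f).card : ℝ) =
        (1 - 1 / (M : ℝ)) ^ s * ((univ.filter fun f => ∀ j ∈ far, ¬ E j f).card : ℝ) := by
      apply mul_right_cancel₀ hcardΩ.ne'
      rw [h2', h5]; ring
    have h9 : (1 - 2 * q) ^ (s * Δ) * ((Ω.filter fun x => ∀ j ∈ far, ¬ E j x).card : ℝ) ≤
        good.card := by
      refine le_trans ?_ h1
      apply mul_le_mul_of_nonneg_right _ (Nat.cast_nonneg _)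
      exact pow_le_pow_of_le_one hpos1.le (by linarith) hnearcard
    have h10 : 0 ≤ (1 - 1 / (M : ℝ)) ^ s := by
      have : 1 / (M : ℝ) ≤ 1 := by
        rw [div_le_one hM0]; linarith
      apply pow_nonneg; linarith
    calc ((good.filter fun f => B W f).card : ℝ) * (1 - 2 * q) ^ (s * Δ)
        ≤ ((1 - 1 / (M : ℝ)) ^ s * ((univ.filter fun f => ∀ j ∈ far, ¬ E j f).card : ℝ)) *
          (1 - 2 * q) ^ (s * Δ) := by
          rw [← h8]
          exact mul_le_mul_of_nonneg_right h4 (pow_nonneg hpos1.le _)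
      _ = (1 - 1 / (M : ℝ)) ^ s * ((1 - 2 * q) ^ (s * Δ) *
          ((Ω.filter fun x => ∀ j ∈ far, ¬ E j x).card : ℝ)) := by rw [hΩ]; ring
      _ ≤ _ := mul_le_mul_of_nonneg_left h9 h10
  -- union bound
  have hex : ∃ f ∈ good, ∀ W ∈ WW, ¬ B W f := by
    by_contra hcon
    push Not at hcon
    have h1 : good ⊆ WW.biUnion (fun W => good.filter fun f => B W f) := by
      intro f hf
      obtain ⟨W, hWW, hb⟩ := hcon f hf
      exact mem_biUnion.2 ⟨W, hWW, mem_filter.2 ⟨hf, hb⟩⟩
    have h2 : (good.card : ℝ) ≤ ∑ W ∈ WW, ((good.filter fun f => B W f).card : ℝ) := by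
      exact_mod_cast (card_le_card h1).trans card_biUnion_le
    have h3 : (good.card : ℝ) * (1 - 2 * q) ^ (s * Δ) ≤
        (WW.card : ℝ) * ((1 - 1 / (M : ℝ)) ^ s * good.card) := by
      calc (good.card : ℝ) * (1 - 2 * q) ^ (s * Δ)
          ≤ (∑ W ∈ WW, ((good.filter fun f => B W f).card : ℝ)) * (1 - 2 * q) ^ (s * Δ) :=
            mul_le_mul_of_nonneg_right h2 (pow_nonneg hpos1.le _)
        _ = ∑ W ∈ WW, ((good.filter fun f => B W f).card : ℝ) * (1 - 2 * q) ^ (s * Δ) := by
            rw [sum_mul]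
        _ ≤ ∑ W ∈ WW, ((1 - 1 / (M : ℝ)) ^ s * good.card) := sum_le_sum hbad
        _ = _ := by rw [sum_const, nsmul_eq_mul]
    have h4 : (good.card : ℝ) * ((WW.card : ℝ) * (1 - 1 / (M : ℝ)) ^ s) <
        (good.card : ℝ) * (1 - 2 * q) ^ (s * Δ) := mul_lt_mul_of_pos_left hnum hgoodpos
    have : (WW.card : ℝ) * ((1 - 1 / (M : ℝ)) ^ s * good.card) =
        (good.card : ℝ) * ((WW.card : ℝ) * (1 - 1 / (M : ℝ)) ^ s) := by ring
    linarith
  obtain ⟨f, hf, hfW⟩ := hex
  refine ⟨univ.filter fun x => f x = z, ?_, ?_⟩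
  · intro T hT hTA
    rw [hgood] at hf
    have h1 := (mem_filter.1 hf).2 T hT
    apply h1
    rw [hE]
    intro x hx
    exact (mem_filter.1 (hTA hx)).2
  · intro W hWW
    have h1 := hfW W hWW
    rw [hB] at h1
    simp only [not_forall] at h1
    obtain ⟨x, hx, hxz⟩ := h1
    refine ⟨x, hx, mem_filter.2 ⟨mem_univ _, ?_⟩⟩
    by_contra hne
    exact hxz (mem_erase.2 ⟨hne, mem_univ _⟩)

end Pool.Agent.V11181.Hit
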