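import Pool.Agent.V11181.Stan5

set_option autoImplicit false

namespace Pool.Agent.V11181.Stan

theorem att_9_even {l : ℕ} (h : l % 18 = 4 ∨ l % 18 = 16) : Att 9 l := by
  rcases h with h | h
  · have := s_4.shift ((l - 4) / 18)
    rwa [show 4 + 2 * 9 * ((l - 4) / 18) = l by omega] at this
  · have := s_16.shift ((l - 16) / 18)
    rwa [show 16 + 2 * 9 * ((l - 16) / 18) = l by omega] at this

theorem ndvd29 (i w : ℕ) (hw : 0 < w) (hw2 : w < 29) : (1 + 3 ^ i * w) % 29 ≠ 1 := by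
  intro h
  have h1 : 29 ∣ 3 ^ i * w := by omega
  have hp : Nat.Prime 29 := by norm_num
  rcases (Nat.Prime.dvd_mul hp).1 h1 with h2 | h2
  · have := hp.dvd_of_dvd_pow h2
    omega
  · have := Nat.le_of_dvd hw h2
    omega

theorem cover_even {l : ℕ} (h2 : l % 2 = 0) : ∃ N, Att N l := by
  by_cases h6 : l % 6 = 4
  · obtain ⟨i, w, hw3, hiw⟩ := Nat.exists_eq_pow_mul_and_not_dvd (n := l - 1) (by omega) 3
      (by norm_num)
    have hl : l = 1 + 3 ^ i * w := by omega
    have hi : i ≠ 0 := by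
      rintro rfl
      rw [pow_zero, one_mul] at hiw
      omega
    have hodd : w % 2 = 1 := by
      by_contra hne
      have h1 : 2 ∣ w := by omega
      have h2 : 2 ∣ l - 1 := hiw ▸ Dvd.dvd.mul_left h1 _
      omega
    have hw6 : w % 6 = 1 ∨ w % 6 = 5 := by omega
    by_cases hw1 : w = 1 ∨ w = 5
    · rcases Nat.lt_or_ge l 92 with hsm | hbig
      · -- finitely many
        have hi5 : i < 5 := by
          by_contra hge
          push Not at hge
          have h3 : 3 ^ 5 ≤ 3 ^ i := Nat.pow_le_pow_right (by norm_num) hge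
          have h4 : 3 ^ i ≤ 3 ^ i * w := Nat.le_mul_of_pos_right _ (by omega)
          omega
        have hc : l = 4 ∨ l = 10 ∨ l = 28 ∨ l = 82 ∨ l = 16 ∨ l = 46 := by
          rcases hw1 with rfl | rfl
          · interval_cases i <;> omega
          · interval_cases i <;> omega
        rcases hc with rfl | rfl | rfl | rfl | rfl | rfl
        exacts [⟨_, s_4⟩, ⟨_, s_10⟩, ⟨_, s_28⟩, ⟨_, s_82⟩, ⟨_, s_16⟩, ⟨_, s_46⟩]
      · refine ⟨29, att_29 h2 hbig ?_⟩
        rw [hl]
        exact ndvd29 i w (by omega) (by omega)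
    · rcases hw6 with h | h
      · have := att_fam2 (i := i) (c := w / 6) (by omega)
        rw [show 6 * (w / 6) + 1 = w by omega, ← hl] at this
        exact ⟨_, this⟩
      · have := att_fam1 (i := i) (q := (w + 1) / 6) (by omega)
        rw [show 6 * ((w + 1) / 6) - 1 = w by omega, ← hl] at this
        exact ⟨_, this⟩
  · have := att_three (m := l / 2 + 1) (by omega)
    rw [show 2 * (l / 2 + 1) - 2 = l by omega] at this
    exact ⟨_, this⟩

theorem cover_odd {l : ℕ} (h2 : l % 2 = 1) (h1 : l ≠ 1) (h3 : l ≠ 3) (h5 : l ≠ 5) (h9 : l ≠ 9)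
    (h11 : l ≠ 11) (h15 : l ≠ 15) : ∃ N, Att N l := by
  by_cases h6 : l % 6 = 1
  · rcases Nat.lt_or_ge l 295 with hsm | hbig
    · by_cases h18 : 67 ≤ l ∧ l % 18 ≠ 1
      · have h := (att_9_even (l := l - 63) (by omega)).mul att_10_7
        rw [show l - 63 + 9 * 7 = l by omega] at h
        exact ⟨_, h⟩
      · have hc : l = 7 ∨ l = 13 ∨ l = 19 ∨ l = 25 ∨ l = 31 ∨ l = 37 ∨ l = 43 ∨ l = 49 ∨ l = 55 ∨
            l = 61 ∨ l = 73 ∨ l = 91 ∨ l = 109 ∨ l = 127 ∨ l = 145 ∨ l = 163 ∨ l = 181 ∨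
            l = 199 ∨ l = 217 ∨ l = 235 ∨ l = 253 ∨ l = 271 ∨ l = 289 := by omega
        rcases hc with rfl | rfl | rfl | rfl | rfl | rfl | rfl | rfl | rfl | rfl | rfl | rfl |
          rfl | rfl | rfl | rfl | rfl | rfl | rfl | rfl | rfl | rfl | rfl
        exacts [⟨_, s_7⟩, ⟨_, s_13⟩, ⟨_, s_19⟩, ⟨_, s_25⟩, ⟨_, s_31⟩, ⟨_, s_37⟩, ⟨_, s_43⟩,
          ⟨_, s_49⟩, ⟨_, s_55⟩, ⟨_, s_61⟩, ⟨_, s_73⟩, ⟨_, s_91⟩, ⟨_, s_109⟩, ⟨_, s_127⟩,
          ⟨_, s_145⟩, ⟨_, s_163⟩, ⟨_, s_181⟩, ⟨_, s_199⟩, ⟨_, s_217⟩, ⟨_, s_235⟩, ⟨_, s_253⟩,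
          ⟨_, s_271⟩, ⟨_, s_289⟩]
    · obtain ⟨i, w, hw3, hiw⟩ := Nat.exists_eq_pow_mul_and_not_dvd (n := l - 1) (by omega) 3
        (by norm_num)
      have hl : l = 1 + 3 ^ i * w := by omega
      have hi : i ≠ 0 := by
        rintro rfl
        rw [pow_zero, one_mul] at hiw
        omega
      have heven : w % 2 = 0 := by
        have h3i : 3 ^ i % 2 = 1 := by rw [Nat.pow_mod]; norm_num
        by_contra hne
        have h4 : (3 ^ i * w) % 2 = 1 := by
          rw [Nat.mul_mod, h3i, show w % 2 = 1 by omega]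
        omega
      have hw0 : w ≠ 0 := by rintro rfl; simp at hw3
      rcases Nat.lt_or_ge w 28 with hwsm | hwbig
      · have hnd : (l - 203) % 29 ≠ 1 := by
          have := ndvd29 i w (by omega) (by omega)
          rw [← hl] at this
          omega
        have h := (att_29 (l := l - 203) (by omega) (by omega) hnd).mul att_10_7
        rw [show l - 203 + 29 * 7 = l by omega] at h
        exact ⟨_, h⟩
      · have hw6 : w % 6 = 4 ∨ w % 6 = 2 := by omega
        have e : 1 + 3 ^ i * (w - 21) + 3 ^ (i + 1) * 7 = l := by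
          have h5 : 3 ^ i * w = 3 ^ i * (w - 21) + 3 ^ i * 21 := by
            rw [← mul_add]; congr 1; omega
          have h6 : 3 ^ (i + 1) * 7 = 3 ^ i * 21 := by rw [pow_succ]; ring
          omega
        rcases hw6 with h | h
        · have h7 := (att_fam2 (i := i) (c := (w - 21) / 6) (by omega)).mul att_10_7
          rw [show 6 * ((w - 21) / 6) + 1 = w - 21 by omega, e] at h7
          exact ⟨_, h7⟩
        · have h7 := (att_fam1 (i := i) (q := (w - 20) / 6) (by omega)).mul att_10_7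
          rw [show 6 * ((w - 20) / 6) - 1 = w - 21 by omega, e] at h7
          exact ⟨_, h7⟩
  · by_cases h21 : 21 ≤ l
    · have h := (att_three (m := (l - 21) / 2 + 1) (by omega)).mul att_10_7
      rw [show 2 * ((l - 21) / 2 + 1) - 2 + 3 * 7 = l by omega] at h
      exact ⟨_, h⟩
    · have : l = 17 := by omega
      subst this
      exact ⟨_, s_17⟩

theorem cover {l : ℕ} (h1 : l ≠ 1) (h3 : l ≠ 3) (h5 : l ≠ 5) (h9 : l ≠ 9)
    (h11 : l ≠ 11) (h15 : l ≠ 15) : ∃ N, Att N l := by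
  rcases Nat.mod_two_eq_zero_or_one l with h | h
  · exact cover_even h
  · exact cover_odd h h1 h3 h5 h9 h11 h15

end Pool.Agent.V11181.Stan
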