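import Mathlib

/-!
# The discrete fundamental group of a graph

Homotopy of walks generated by the three moves (Sub), (Ins), (Del), the group of homotopy classes
of closed walks at a vertex, and a criterion for it to be cyclic.
-/

set_option autoImplicit false

namespace Pool.Agent.V11181.Cyc

open SimpleGraph

universe u w

variable {V : Type u} {G : SimpleGraph V}

/-- The elementary moves between walks with the same ends: (Sub) replaces an inner vertex `b` of
a walk by any common neighbour `b'` of its two neighbours on the walk, (Ins) replaces a vertex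
`a` by `a w a` for a neighbour `w` of `a`, and (Del) is the reverse of (Ins). -/
inductive Move : {u v : V} → G.Walk u v → G.Walk u v → Prop
  | sub {u a b b' c v : V} (p : G.Walk u a) (h₁ : G.Adj a b) (h₂ : G.Adj b c)
      (h₁' : G.Adj a b') (h₂' : G.Adj b' c) (q : G.Walk c v) :
      Move (p.append (Walk.cons h₁ (Walk.cons h₂ q)))
        (p.append (Walk.cons h₁' (Walk.cons h₂' q)))
  | ins {u a w v : V} (p : G.Walk u a) (h : G.Adj a w) (q : G.Walk a v) :
      Move (p.append q) (p.append (Walk.cons h (Walk.cons h.symm q)))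
  | del {u a w v : V} (p : G.Walk u a) (h : G.Adj a w) (q : G.Walk a v) :
      Move (p.append (Walk.cons h (Walk.cons h.symm q))) (p.append q)

lemma Move.append_left {a b c : V} (r : G.Walk a b) {p q : G.Walk b c} (h : Move p q) :
    Move (r.append p) (r.append q) := by
  cases h with
  | sub p h₁ h₂ h₁' h₂' q =>
    rw [Walk.append_assoc, Walk.append_assoc]
    exact Move.sub _ h₁ h₂ h₁' h₂' q
  | ins p h q =>
    rw [Walk.append_assoc, Walk.append_assoc]
    exact Move.ins _ h q
  | del p h q =>
    rw [Walk.append_assoc, Walk.append_assoc]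
    exact Move.del _ h q

lemma Move.append_right {a b c : V} {p q : G.Walk a b} (r : G.Walk b c) (h : Move p q) :
    Move (p.append r) (q.append r) := by
  cases h with
  | sub p h₁ h₂ h₁' h₂' q =>
    rw [← Walk.append_assoc, ← Walk.append_assoc, Walk.cons_append, Walk.cons_append,
      Walk.cons_append, Walk.cons_append]
    exact Move.sub p h₁ h₂ h₁' h₂' _
  | ins p h q =>
    rw [← Walk.append_assoc, ← Walk.append_assoc, Walk.cons_append, Walk.cons_append]
    exact Move.ins p h _
  | del p h q =>
    rw [← Walk.append_assoc, ← Walk.append_assoc, Walk.cons_append, Walk.cons_append]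
    exact Move.del p h _

lemma rev_two {a b c u v : V} (p : G.Walk u a) (h₁ : G.Adj a b) (h₂ : G.Adj b c)
    (q : G.Walk c v) : (p.append (Walk.cons h₁ (Walk.cons h₂ q))).reverse =
      q.reverse.append (Walk.cons h₂.symm (Walk.cons h₁.symm p.reverse)) := by
  rw [Walk.reverse_append, Walk.reverse_cons, Walk.reverse_cons, ← Walk.append_assoc,
    ← Walk.append_assoc, Walk.cons_append, Walk.nil_append, Walk.cons_append, Walk.nil_append]

lemma Move.reverse {a b : V} {p q : G.Walk a b} (h : Move p q) : Move p.reverse q.reverse := by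
  cases h with
  | sub p h₁ h₂ h₁' h₂' q =>
    rw [rev_two, rev_two]
    exact Move.sub _ _ _ _ _ _
  | ins p h q =>
    rw [rev_two, Walk.reverse_append]
    exact Move.ins _ _ _
  | del p h q =>
    rw [rev_two, Walk.reverse_append]
    exact Move.del _ _ _

/-- Homotopy classes of walks from `a` to `b`: the quotient by the equivalence relation generated
by the moves. -/
def Cls (G : SimpleGraph V) (a b : V) : Type u := Quot (@Move V G a b)

/-- The class of a walk. -/
def cls {a b : V} (p : G.Walk a b) : Cls G a b := Quot.mk _ p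

/-- Concatenation of classes. -/
def Cls.comp {a b c : V} : Cls G a b → Cls G b c → Cls G a c :=
  Quot.map₂ (fun p q => p.append q) (fun r _ _ h => Move.append_left r h)
    (fun _ _ r h => Move.append_right r h)

/-- Reversal of classes. -/
def Cls.inv {a b : V} : Cls G a b → Cls G b a :=
  Quot.map Walk.reverse (fun _ _ h => Move.reverse h)

/-- The class of the constant walk. -/
def Cls.one (a : V) : Cls G a a := cls Walk.nil

lemma comp_cls {a b c : V} (p : G.Walk a b) (q : G.Walk b c) :
    (cls p).comp (cls q) = cls (p.append q) := rfl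

lemma inv_cls {a b : V} (p : G.Walk a b) : (cls p).inv = cls p.reverse := rfl

lemma comp_assoc {a b c d : V} (x : Cls G a b) (y : Cls G b c) (z : Cls G c d) :
    (x.comp y).comp z = x.comp (y.comp z) := by
  induction x using Quot.ind
  induction y using Quot.ind
  induction z using Quot.ind
  exact congrArg cls (Walk.append_assoc _ _ _).symm

lemma one_comp {a b : V} (x : Cls G a b) : (Cls.one a).comp x = x := by
  induction x using Quot.ind
  exact congrArg cls (Walk.nil_append _)

lemma comp_one {a b : V} (x : Cls G a b) : x.comp (Cls.one b) = x := by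
  induction x using Quot.ind
  exact congrArg cls (Walk.append_nil _)

lemma comp_inv_walk {a b : V} (p : G.Walk a b) :
    (cls p).comp (cls p.reverse) = Cls.one a := by
  induction p with
  | nil => exact congrArg cls (Walk.nil_append _)
  | @cons a b c h p ih =>
    rw [Walk.reverse_cons, comp_cls, Walk.cons_append, Walk.append_assoc]
    have h1 : cls (Walk.cons h ((p.append p.reverse).append (Walk.cons h.symm Walk.nil))) =
        (cls (Walk.cons h Walk.nil)).comp ((cls (p.append p.reverse)).comp
          (cls (Walk.cons h.symm Walk.nil))) := by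
      rw [comp_cls, comp_cls, Walk.cons_append, Walk.nil_append]
    rw [h1, ← comp_cls, ih, one_comp, comp_cls]
    exact Quot.sound (Move.del Walk.nil h Walk.nil)

lemma comp_inv {a b : V} (x : Cls G a b) : x.comp x.inv = Cls.one a := by
  induction x using Quot.ind
  exact comp_inv_walk _

lemma inv_comp {a b : V} (x : Cls G a b) : x.inv.comp x = Cls.one b := by
  induction x using Quot.ind with
  | _ p =>
    have := comp_inv_walk p.reverse
    rw [Walk.reverse_reverse] at this
    exact this

/-- The discrete fundamental group `π₁(G, v)`: homotopy classes of closed walks at `v`, with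
concatenation as product and reversal as inverse. -/
abbrev Pi1 (G : SimpleGraph V) (v : V) : Type u := Cls G v v

instance (v : V) : Mul (Pi1 G v) := ⟨Cls.comp⟩
instance (v : V) : One (Pi1 G v) := ⟨Cls.one v⟩
instance (v : V) : Inv (Pi1 G v) := ⟨Cls.inv⟩
instance (v : V) : Group (Pi1 G v) :=
  Group.ofLeftAxioms (fun x y z => comp_assoc x y z) (fun x => one_comp x) (fun x => inv_comp x)

lemma mul_def' (v : V) (x y : Pi1 G v) : x * y = x.comp y := rfl
lemma one_def' (v : V) : (1 : Pi1 G v) = Cls.one v := rfl
lemma inv_def' (v : V) (x : Pi1 G v) : x⁻¹ = x.inv := rfl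

/-- the class of an edge -/
def ed {a b : V} (h : G.Adj a b) : Cls G a b := cls (Walk.cons h Walk.nil)

lemma ed_ed {a b : V} (h : G.Adj a b) (h' : G.Adj b a) : (ed h).comp (ed h') = Cls.one a :=
  Quot.sound (Move.del Walk.nil h Walk.nil)

lemma ed_sub {a b b' c : V} (h₁ : G.Adj a b) (h₂ : G.Adj b c) (h₁' : G.Adj a b')
    (h₂' : G.Adj b' c) : (ed h₁).comp (ed h₂) = (ed h₁').comp (ed h₂') :=
  Quot.sound (Move.sub Walk.nil h₁ h₂ h₁' h₂' Walk.nil)

lemma cls_cons {a b c : V} (h : G.Adj a b) (p : G.Walk b c) :
    cls (Walk.cons h p) = (ed h).comp (cls p) := rfl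

/-- Flat connections with values in a group. -/
structure Flat (G : SimpleGraph V) {Γ : Type w} [Group Γ] (ν : V → V → Γ) : Prop where
  inv : ∀ a b, G.Adj a b → ν a b * ν b a = 1
  sub : ∀ a b b' c, G.Adj a b → G.Adj b c → G.Adj a b' → G.Adj b' c →
    ν a b * ν b c = ν a b' * ν b' c

/-- holonomy -/
def hol {Γ : Type w} [Group Γ] (ν : V → V → Γ) : {a b : V} → G.Walk a b → Γ
  | _, _, Walk.nil => 1
  | a, _, @Walk.cons _ _ _ b _ _ p => ν a b * hol ν p

lemma hol_append {Γ : Type w} [Group Γ] (ν : V → V → Γ) {a b c : V} (p : G.Walk a b)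
    (q : G.Walk b c) : hol ν (p.append q) = hol ν p * hol ν q := by
  induction p with
  | nil => simp [hol]
  | cons h p ih => simp [hol, ih, mul_assoc]

lemma hol_move {Γ : Type w} [Group Γ] (ν : V → V → Γ) (hν : Flat G ν) {a b : V}
    {p q : G.Walk a b} (h : Move p q) : hol ν p = hol ν q := by
  cases h with
  | sub p h₁ h₂ h₁' h₂' q =>
    simp only [hol_append, hol]
    rw [← mul_assoc (ν _ _) (ν _ _) (hol ν q), hν.sub _ _ _ _ h₁ h₂ h₁' h₂', mul_assoc]
  | ins p h q =>
    simp only [hol_append, hol]
    rw [← mul_assoc (ν _ _) (ν _ _) (hol ν q), hν.inv _ _ h, one_mul]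
  | del p h q =>
    simp only [hol_append, hol]
    rw [← mul_assoc (ν _ _) (ν _ _) (hol ν q), hν.inv _ _ h, one_mul]

/-- holonomy as a homomorphism on the fundamental group -/
def holHom {Γ : Type w} [Group Γ] (ν : V → V → Γ) (hν : Flat G ν) (v : V) : Pi1 G v →* Γ where
  toFun := Quot.lift (fun p => hol ν p) (fun _ _ h => hol_move ν hν h)
  map_one' := rfl
  map_mul' := by
    intro x y
    induction x using Quot.ind
    induction y using Quot.ind
    exact hol_append ν _ _

lemma holHom_cls {Γ : Type w} [Group Γ] (ν : V → V → Γ) (hν : Flat G ν) (v : V)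
    (p : G.Walk v v) : holHom ν hν v (cls p : Pi1 G v) = hol ν p := rfl

/-- The criterion: it suffices that every flat connection is gauge equivalent to one with values
in a cyclic group. -/
theorem cyclic_of (hconn : G.Preconnected) (u : V)
    (H : ∀ ν : V → V → Pi1 G u, Flat G ν → ∃ (g : Pi1 G u) (s : V → Pi1 G u), s u = 1 ∧
      ∀ a b, G.Adj a b → s a * ν a b * (s b)⁻¹ ∈ Subgroup.zpowers g) :
    IsCyclic (Pi1 G u) := by
  classical
  obtain ⟨t, ht⟩ : ∃ t : ∀ w, Cls G u w, t u = Cls.one u := by
    refine ⟨fun w => if h : u = w then h ▸ Cls.one u else cls (hconn u w).some, ?_⟩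
    simp
  obtain ⟨ν, hν⟩ : ∃ ν : V → V → Pi1 G u, ν = fun a b =>
      if h : G.Adj a b then (t a).comp ((ed h).comp (t b).inv) else 1 := ⟨_, rfl⟩
  have hval : ∀ a b (h : G.Adj a b), ν a b = (t a).comp ((ed h).comp (t b).inv) := by
    intro a b h
    rw [hν]
    simp only
    rw [dif_pos h]
  have key : ∀ {a b c : V} (x : Cls G a b) (y : Cls G b c),
      ((t a).comp (x.comp (t b).inv)).comp ((t b).comp (y.comp (t c).inv)) =
        (t a).comp ((x.comp y).comp (t c).inv) := by
    intro a b c x y
    rw [comp_assoc, comp_assoc, ← comp_assoc (t b).inv, inv_comp, one_comp, ← comp_assoc x]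
  have hflat : Flat G ν := by
    constructor
    · intro a b h
      rw [hval a b h, hval b a h.symm, mul_def', key, ed_ed, one_comp, comp_inv]
      rfl
    · intro a b b' c h1 h2 h3 h4
      rw [hval a b h1, hval b c h2, hval a b' h3, hval b' c h4, mul_def', mul_def', key, key,
        ed_sub h1 h2 h3 h4]
  obtain ⟨g, s, hs, hg⟩ := H ν hflat
  have h1 : ∀ {a b : V} (p : G.Walk a b), s a * hol ν p * (s b)⁻¹ ∈ Subgroup.zpowers g := by
    intro a b p
    induction p with
    | nil => simp [hol]
    | @cons a b c h p ih =>
      have e : s a * hol ν (Walk.cons h p) * (s c)⁻¹ =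
          (s a * ν a b * (s b)⁻¹) * (s b * hol ν p * (s c)⁻¹) := by
        simp only [hol]
        group
      rw [e]
      exact Subgroup.mul_mem _ (hg a b h) ih
  have h2 : ∀ {a b : V} (p : G.Walk a b), hol ν p = (t a).comp ((cls p).comp (t b).inv) := by
    intro a b p
    induction p with
    | @nil a =>
      simp only [hol]
      have : cls (Walk.nil : G.Walk a a) = Cls.one a := rfl
      rw [this, one_comp, comp_inv]
      rfl
    | @cons a b c h p ih =>
      simp only [hol]
      rw [ih, hval a b h, mul_def', key, cls_cons]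
  refine ⟨⟨g, fun x => ?_⟩⟩
  induction x using Quot.ind with
  | _ p =>
    have h3 := h1 p
    rw [hs, h2 p, ht] at h3
    simp only [inv_one, mul_one, one_mul] at h3
    have h4 : (Cls.one u).inv = Cls.one (G := G) u := rfl
    rw [one_comp, h4, comp_one] at h3
    exact h3

end Pool.Agent.V11181.Cyc
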