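import Pool.Agent.V11181.Cyc

/-!
# Triangle-free graphs of large minimum degree have cyclic fundamental group
-/

set_option autoImplicit false

namespace Pool.Agent.V11181.Cyc

open SimpleGraph Finset

universe u w

variable {V : Type u} {G : SimpleGraph V} {Γ : Type w} [Group Γ]

lemma Flat.inv' {ν : V → V → Γ} (hν : Flat G ν) {a b : V} (h : G.Adj a b) :
    ν b a = (ν a b)⁻¹ := eq_inv_of_mul_eq_one_right (hν.inv a b h)

/-- counting neighbours on a sequence of vertices -/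
lemma count_deg [Fintype V] [DecidableRel G.Adj] {k : ℕ} (v : Fin k → V) (m : ℕ)
    (h : m * Fintype.card V < ∑ i, G.degree (v i)) :
    ∃ w, m < (univ.filter (fun i => G.Adj (v i) w)).card := by
  classical
  by_contra hcon
  push Not at hcon
  have h1 : ∑ i, G.degree (v i) = ∑ w, (univ.filter (fun i => G.Adj (v i) w)).card := by
    have e1 : ∀ i, G.degree (v i) = ∑ w, if G.Adj (v i) w then 1 else 0 := by
      intro i
      rw [← card_neighborFinset_eq_degree, neighborFinset_eq_filter, Finset.card_filter]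
    rw [Finset.sum_congr rfl fun i _ => e1 i, Finset.sum_comm]
    refine Finset.sum_congr rfl fun w _ => ?_
    rw [Finset.card_filter]
  have h2 : ∑ w : V, (univ.filter (fun i => G.Adj (v i) w)).card ≤ ∑ w : V, m :=
    Finset.sum_le_sum fun w _ => hcon w
  rw [Finset.sum_const, card_univ, smul_eq_mul, mul_comm] at h2
  omega

/-- having a common neighbour -/
def Cn (G : SimpleGraph V) (x y : V) : Prop := ∃ w, G.Adj x w ∧ G.Adj w y

lemma Cn.symm {x y : V} (h : Cn G x y) : Cn G y x := by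
  obtain ⟨w, h1, h2⟩ := h
  exact ⟨w, h2.symm, h1.symm⟩

/-- holonomy along two edges -/
def E (G : SimpleGraph V) (ν : V → V → Γ) (x y : V) (c : Γ) : Prop :=
  ∃ w, G.Adj x w ∧ G.Adj w y ∧ c = ν x w * ν w y

/-- holonomy along three edges -/
def O (G : SimpleGraph V) (ν : V → V → Γ) (x y : V) (c : Γ) : Prop :=
  ∃ w z, G.Adj x w ∧ G.Adj w z ∧ G.Adj z y ∧ c = ν x w * ν w z * ν z y

lemma E_unique {ν : V → V → Γ} (hν : Flat G ν) {x y : V} {c c' : Γ} (h : E G ν x y c)
    (h' : E G ν x y c') : c = c' := by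
  obtain ⟨w, h1, h2, rfl⟩ := h
  obtain ⟨w', h1', h2', rfl⟩ := h'
  exact hν.sub _ _ _ _ h1 h2 h1' h2'

lemma E_symm {ν : V → V → Γ} (hν : Flat G ν) {x y : V} {c : Γ} (h : E G ν x y c) :
    E G ν y x c⁻¹ := by
  obtain ⟨w, h1, h2, rfl⟩ := h
  refine ⟨w, h2.symm, h1.symm, ?_⟩
  rw [hν.inv' h1, hν.inv' h2, mul_inv_rev]

lemma Cn.E {x y : V} (h : Cn G x y) (ν : V → V → Γ) : ∃ c, E G ν x y c := by
  obtain ⟨w, h1, h2⟩ := h
  exact ⟨_, w, h1, h2, rfl⟩

lemma E.Cn {ν : V → V → Γ} {x y : V} {c : Γ} (h : E G ν x y c) : Cn G x y := by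
  obtain ⟨w, h1, h2, _⟩ := h
  exact ⟨w, h1, h2⟩

lemma E_edge {ν : V → V → Γ} {x y z : V} {c : Γ} (h : E G ν x y c) (h' : G.Adj y z) :
    O G ν x z (c * ν y z) := by
  obtain ⟨w, h1, h2, rfl⟩ := h
  exact ⟨w, y, h1, h2, h', rfl⟩

lemma edge_E {ν : V → V → Γ} {x y z : V} {c : Γ} (h' : G.Adj x y) (h : E G ν y z c) :
    O G ν x z (ν x y * c) := by
  obtain ⟨w, h1, h2, rfl⟩ := h
  exact ⟨y, w, h', h1, h2, by rw [mul_assoc]⟩

section three

variable [Fintype V] [DecidableRel G.Adj]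

lemma two_of_three (hdeg : ∀ v, Fintype.card V < 3 * G.degree v) (x y z : V) :
    Cn G x y ∨ Cn G y z ∨ Cn G x z := by
  have hsum : ∑ i, G.degree (![x, y, z] i) = G.degree x + G.degree y + G.degree z := by
    rw [Fin.sum_univ_three]
    rfl
  obtain ⟨w, hw⟩ := count_deg (G := G) ![x, y, z] 1 (by
    rw [hsum]
    have := hdeg x
    have := hdeg y
    have := hdeg z
    omega)
  rw [Finset.card_filter, Fin.sum_univ_three] at hw
  simp only [Matrix.cons_val_zero, Matrix.cons_val_one, Matrix.cons_val_two] at hw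
  by_cases hx : G.Adj x w
  · by_cases hy : G.Adj y w
    · exact Or.inl ⟨w, hx, hy.symm⟩
    · by_cases hz : G.Adj z w
      · exact Or.inr (Or.inr ⟨w, hx, hz.symm⟩)
      · simp [hx, hy, hz] at hw
  · by_cases hy : G.Adj y w
    · by_cases hz : G.Adj z w
      · exact Or.inr (Or.inl ⟨w, hy, hz.symm⟩)
      · simp [hx, hy, hz] at hw
    · by_cases hz : G.Adj z w <;> simp [hx, hy, hz] at hw

lemma six (hdeg : ∀ v, Fintype.card V < 3 * G.degree v)
    (htf : ∀ a b c, G.Adj a b → G.Adj a c → ¬ G.Adj b c) (a b c d e f : V)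
    (hab : G.Adj a b) (hbc : G.Adj b c) (hcd : G.Adj c d) (hde : G.Adj d e) (hef : G.Adj e f)
    (hfa : G.Adj f a) :
    ∃ w, (G.Adj a w ∧ G.Adj c w ∧ G.Adj e w) ∨ (G.Adj b w ∧ G.Adj d w ∧ G.Adj f w) := by
  have hsum : ∑ i, G.degree (![a, b, c, d, e, f] i) = G.degree a + G.degree b + G.degree c +
      G.degree d + G.degree e + G.degree f := by
    rw [Fin.sum_univ_six]
    rfl
  obtain ⟨w, hw⟩ := count_deg (G := G) ![a, b, c, d, e, f] 2 (by
    rw [hsum]
    have := hdeg a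
    have := hdeg b
    have := hdeg c
    have := hdeg d
    have := hdeg e
    have := hdeg f
    omega)
  rw [Finset.card_filter, Fin.sum_univ_six] at hw
  simp only [Matrix.cons_val] at hw
  refine ⟨w, ?_⟩
  have h1 : ¬ (G.Adj a w ∧ G.Adj b w) := fun h => htf w a b h.1.symm h.2.symm hab
  have h2 : ¬ (G.Adj b w ∧ G.Adj c w) := fun h => htf w b c h.1.symm h.2.symm hbc
  have h3 : ¬ (G.Adj c w ∧ G.Adj d w) := fun h => htf w c d h.1.symm h.2.symm hcd
  have h4 : ¬ (G.Adj d w ∧ G.Adj e w) := fun h => htf w d e h.1.symm h.2.symm hde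
  have h5 : ¬ (G.Adj e w ∧ G.Adj f w) := fun h => htf w e f h.1.symm h.2.symm hef
  have h6 : ¬ (G.Adj f w ∧ G.Adj a w) := fun h => htf w f a h.1.symm h.2.symm hfa
  by_cases ha : G.Adj a w <;> by_cases hb : G.Adj b w <;> by_cases hc : G.Adj c w <;>
    by_cases hd : G.Adj d w <;> by_cases he : G.Adj e w <;> by_cases hf : G.Adj f w <;>
    simp_all

lemma hol6 (hdeg : ∀ v, Fintype.card V < 3 * G.degree v)
    (htf : ∀ a b c, G.Adj a b → G.Adj a c → ¬ G.Adj b c) {ν : V → V → Γ} (hν : Flat G ν)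
    (a b c d e f : V)
    (hab : G.Adj a b) (hbc : G.Adj b c) (hcd : G.Adj c d) (hde : G.Adj d e) (hef : G.Adj e f)
    (hfa : G.Adj f a) :
    ν a b * ν b c * ν c d * ν d e * ν e f * ν f a = 1 := by
  obtain ⟨w, ⟨h1, h2, h3⟩ | ⟨h1, h2, h3⟩⟩ := six hdeg htf a b c d e f hab hbc hcd hde hef hfa
  · have e1 := hν.sub a b w c hab hbc h1 h2.symm
    have e2 := hν.sub c d w e hcd hde h2 h3.symm
    have e3 := hν.sub e f w a hef hfa h3 h1.symm
    calc ν a b * ν b c * ν c d * ν d e * ν e f * ν f a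
        = (ν a b * ν b c) * (ν c d * ν d e) * (ν e f * ν f a) := by group
      _ = (ν a w * ν w c) * (ν c w * ν w e) * (ν e w * ν w a) := by rw [e1, e2, e3]
      _ = 1 := by
        rw [hν.inv' h1, hν.inv' h2, hν.inv' h3]
        group
  · have e1 := hν.sub b c w d hbc hcd h1 h2.symm
    have e2 := hν.sub d e w f hde hef h2 h3.symm
    have e3 := hν.sub f a w b hfa hab h3 h1.symm
    have e4 : ν a b = (ν f a)⁻¹ * (ν f w * ν w b) := by rw [← e3]; group
    calc ν a b * ν b c * ν c d * ν d e * ν e f * ν f a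
        = ν a b * (ν b c * ν c d) * (ν d e * ν e f) * ν f a := by group
      _ = ν a b * (ν b w * ν w d) * (ν d w * ν w f) * ν f a := by rw [e1, e2]
      _ = 1 := by
        rw [e4, hν.inv' h1, hν.inv' h2, hν.inv' h3]
        group

lemma O_unique (hdeg : ∀ v, Fintype.card V < 3 * G.degree v)
    (htf : ∀ a b c, G.Adj a b → G.Adj a c → ¬ G.Adj b c) {ν : V → V → Γ} (hν : Flat G ν)
    {x y : V} {c c' : Γ} (h : O G ν x y c) (h' : O G ν x y c') : c = c' := by
  obtain ⟨w, z, h1, h2, h3, rfl⟩ := h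
  obtain ⟨w', z', h1', h2', h3', rfl⟩ := h'
  have := hol6 hdeg htf hν x w z y z' w' h1 h2 h3 h3'.symm h2'.symm h1'.symm
  rw [hν.inv' h3', hν.inv' h2', hν.inv' h1'] at this
  calc ν x w * ν w z * ν z y
      = (ν x w * ν w z * ν z y * (ν z' y)⁻¹ * (ν w' z')⁻¹ * (ν x w')⁻¹) *
        (ν x w' * ν w' z' * ν z' y) := by group
    _ = ν x w' * ν w' z' * ν z' y := by rw [this, one_mul]

lemma E_comp (hdeg : ∀ v, Fintype.card V < 3 * G.degree v)
    (htf : ∀ a b c, G.Adj a b → G.Adj a c → ¬ G.Adj b c) {ν : V → V → Γ} (hν : Flat G ν)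
    {x y z : V} {c c' c'' : Γ} (h : E G ν x y c) (h' : E G ν y z c') (h'' : E G ν x z c'') :
    c * c' = c'' := by
  obtain ⟨p, h1, h2, rfl⟩ := h
  obtain ⟨q, h3, h4, rfl⟩ := h'
  obtain ⟨r, h5, h6, rfl⟩ := h''
  have := hol6 hdeg htf hν x p y q z r h1 h2 h3 h4 h6.symm h5.symm
  rw [hν.inv' h6, hν.inv' h5] at this
  calc ν x p * ν p y * (ν y q * ν q z)
      = (ν x p * ν p y * ν y q * ν q z * (ν r z)⁻¹ * (ν x r)⁻¹) * (ν x r * ν r z) := by group
    _ = ν x r * ν r z := by rw [this, one_mul]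

lemma matching (hdeg : ∀ v, Fintype.card V < 3 * G.degree v)
    (htf : ∀ a b c, G.Adj a b → G.Adj a c → ¬ G.Adj b c) {w w' b b' : V} (h : G.Adj w w')
    (h' : G.Adj b b') : (Cn G w b ∧ Cn G w' b') ∨ (Cn G w b' ∧ Cn G w' b) := by
  have hno : ∀ x y, G.Adj x y → ¬ Cn G x y := by
    rintro x y hxy ⟨z, h1, h2⟩
    exact htf x y z hxy h1 h2.symm
  have n1 := hno _ _ h
  have n2 := hno _ _ h'
  rcases two_of_three hdeg w w' b with a1 | a1 | a1
  · exact absurd a1 n1
  · rcases two_of_three hdeg w w' b' with a2 | a2 | a2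
    · exact absurd a2 n1
    · rcases two_of_three hdeg b b' w with a3 | a3 | a3
      · exact absurd a3 n2
      · exact Or.inr ⟨a3.symm, a1⟩
      · exact Or.inl ⟨a3.symm, a2⟩
    · exact Or.inr ⟨a2, a1⟩
  · rcases two_of_three hdeg w w' b' with a2 | a2 | a2
    · exact absurd a2 n1
    · exact Or.inl ⟨a1, a2⟩
    · rcases two_of_three hdeg b b' w' with a3 | a3 | a3
      · exact absurd a3 n2
      · exact Or.inl ⟨a1, a3.symm⟩
      · exact Or.inr ⟨a2, a3.symm⟩

lemma pos_deg (hdeg : ∀ v, Fintype.card V < 3 * G.degree v) (v : V) : ∃ w, G.Adj v w := by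
  have h := hdeg v
  have h1 : 0 < G.degree v := by omega
  exact (G.degree_pos_iff_exists_adj v).1 h1

/-- every flat connection is gauge equivalent to a cyclic one -/
theorem flat_three (hdeg : ∀ v, Fintype.card V < 3 * G.degree v)
    (htf : ∀ a b c, G.Adj a b → G.Adj a c → ¬ G.Adj b c) {ν : V → V → Γ} (hν : Flat G ν)
    (u : V) : ∃ (g : Γ) (s : V → Γ), s u = 1 ∧
      ∀ a b, G.Adj a b → s a * ν a b * (s b)⁻¹ ∈ Subgroup.zpowers g := by
  classical
  have hno : ∀ x y, G.Adj x y → ¬ Cn G x y := by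
    rintro x y hxy ⟨z, h1, h2⟩
    exact htf x y z hxy h1 h2.symm
  -- the gauge
  have hs : ∀ w : V, ∃ c : Γ, E G ν u w c ∨ (¬ Cn G u w ∧ O G ν u w c) := by
    intro w
    by_cases h : Cn G u w
    · obtain ⟨c, hc⟩ := h.E ν
      exact ⟨c, Or.inl hc⟩
    · obtain ⟨z, hz⟩ := pos_deg hdeg w
      rcases two_of_three hdeg u w z with h1 | h1 | h1
      · exact absurd h1 h
      · exact absurd h1 (hno _ _ hz)
      · obtain ⟨c, hc⟩ := h1.E ν
        exact ⟨_, Or.inr ⟨h, E_edge hc hz.symm⟩⟩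
  choose s hs using hs
  have hsE : ∀ w, Cn G u w → E G ν u w (s w) := by
    intro w hw
    rcases hs w with h | h
    · exact h
    · exact absurd hw h.1
  have hsO : ∀ w, ¬ Cn G u w → O G ν u w (s w) := by
    intro w hw
    rcases hs w with h | h
    · exact absurd h.Cn hw
    · exact h.2
  have hsu : s u = 1 := by
    obtain ⟨z, hz⟩ := pos_deg hdeg u
    have h1 : E G ν u u (ν u z * ν z u) := ⟨z, hz, hz.symm, rfl⟩
    rw [E_unique hν (hsE u h1.Cn) h1, hν.inv u z hz]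
  -- the easy edges
  have heasy : ∀ a b, G.Adj a b → Cn G u a → ¬ Cn G u b → s a * ν a b = s b := by
    intro a b hab h1 h2
    exact O_unique hdeg htf hν (E_edge (hsE a h1) hab) (hsO b h2)
  -- the main comparison
  have hcore : ∀ w w' b b', G.Adj w w' → G.Adj b b' → Cn G u w → Cn G u w' → Cn G u b →
      Cn G u b' → Cn G w b → Cn G w' b' →
      s w * ν w w' * (s w')⁻¹ = s b * ν b b' * (s b')⁻¹ := by
    intro w w' b b' hw hb c1 c2 c3 c4 c5 c6
    obtain ⟨x, hx⟩ := c5.E ν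
    obtain ⟨y, hy⟩ := c6.E ν
    have e1 : s w * x = s b := E_comp hdeg htf hν (hsE w c1) hx (hsE b c3)
    have e2 : s w' * y = s b' := E_comp hdeg htf hν (hsE w' c2) hy (hsE b' c4)
    have e3 : x * ν b b' = ν w w' * y :=
      O_unique hdeg htf hν (E_edge hx hb) (edge_E hw hy)
    rw [← e1, ← e2]
    calc s w * ν w w' * (s w')⁻¹ = s w * (ν w w' * y) * (s w' * y)⁻¹ := by group
      _ = s w * (x * ν b b') * (s w' * y)⁻¹ := by rw [e3]
      _ = _ := by group
  have hmain : ∀ w w' b b', G.Adj w w' → G.Adj b b' → Cn G u w → Cn G u w' → Cn G u b →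
      Cn G u b' → s w * ν w w' * (s w')⁻¹ ∈ Subgroup.zpowers (s b * ν b b' * (s b')⁻¹) := by
    intro w w' b b' hw hb c1 c2 c3 c4
    rcases matching hdeg htf hw hb with ⟨h1, h2⟩ | ⟨h1, h2⟩
    · rw [hcore w w' b b' hw hb c1 c2 c3 c4 h1 h2]
      exact Subgroup.mem_zpowers _
    · rw [hcore w w' b' b hw hb.symm c1 c2 c4 c3 h1 h2, hν.inv' hb]
      have : s b' * (ν b b')⁻¹ * (s b)⁻¹ = (s b * ν b b' * (s b')⁻¹)⁻¹ := by group
      rw [this]
      exact Subgroup.inv_mem _ (Subgroup.mem_zpowers _)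
  have hfin : ∀ g : Γ, (∀ a b, G.Adj a b → Cn G u a → Cn G u b →
      s a * ν a b * (s b)⁻¹ ∈ Subgroup.zpowers g) →
      ∀ a b, G.Adj a b → s a * ν a b * (s b)⁻¹ ∈ Subgroup.zpowers g := by
    intro g hg a b hab
    by_cases h1 : Cn G u a
    · by_cases h2 : Cn G u b
      · exact hg a b hab h1 h2
      · rw [heasy a b hab h1 h2, mul_inv_cancel]
        exact Subgroup.one_mem _
    · by_cases h2 : Cn G u b
      · rw [← heasy b a hab.symm h2 h1, hν.inv' hab]
        have : s b * (ν a b)⁻¹ * ν a b * (s b)⁻¹ = 1 := by group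
        rw [this]
        exact Subgroup.one_mem _
      · exfalso
        rcases two_of_three hdeg u a b with h | h | h
        · exact h1 h
        · exact hno _ _ hab h
        · exact h2 h
  by_cases hex : ∃ b b', G.Adj b b' ∧ Cn G u b ∧ Cn G u b'
  · obtain ⟨b, b', hb, c3, c4⟩ := hex
    exact ⟨s b * ν b b' * (s b')⁻¹, s, hsu, hfin _ fun a a' ha c1 c2 =>
      hmain a a' b b' ha hb c1 c2 c3 c4⟩
  · refine ⟨1, s, hsu, hfin _ fun a a' ha c1 c2 => ?_⟩
    exact absurd ⟨a, a', ha, c1, c2⟩ hex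

lemma connected_three (hdeg : ∀ v, Fintype.card V < 3 * G.degree v)
    (htf : ∀ a b c, G.Adj a b → G.Adj a c → ¬ G.Adj b c) : G.Preconnected := by
  have hCn : ∀ x y, Cn G x y → G.Reachable x y := by
    rintro x y ⟨w, h1, h2⟩
    exact h1.reachable.trans h2.reachable
  intro x y
  obtain ⟨z, hz⟩ := pos_deg hdeg y
  rcases two_of_three hdeg x y z with h | h | h
  · exact hCn _ _ h
  · obtain ⟨p, h1, h2⟩ := h
    exact absurd h2.symm (htf y z p hz h1)
  · exact (hCn _ _ h).trans hz.symm.reachable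

/-- **Triangle-free case**: minimum degree larger than `|G| / 3` forces a cyclic group. -/
theorem cyclic_three (hdeg : ∀ v, Fintype.card V < 3 * G.degree v)
    (htf : ∀ a b c, G.Adj a b → G.Adj a c → ¬ G.Adj b c) (u : V) : IsCyclic (Pi1 G u) :=
  cyclic_of (connected_three hdeg htf) u fun _ hν => flat_three hdeg htf hν u

end three

end Pool.Agent.V11181.Cyc
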