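import Pool.Agent.V11181.Cyc2

/-!
# `K_r`-free graphs of large minimum degree, `r ≥ 4`
-/

set_option autoImplicit false

namespace Pool.Agent.V11181.Cyc

open SimpleGraph Finset

universe u w

variable {V : Type u} {G : SimpleGraph V} {Γ : Type w} [Group Γ]

section clique

variable [Fintype V] [DecidableRel G.Adj]

/-- greedy cliques -/
lemma greedy (A : Finset V) (t : ℕ)
    (h : ∀ a ∈ A, (A.filter (fun x => ¬ G.Adj a x)).card ≤ t) :
    ∀ k, k * t < A.card → ∃ Q ⊆ A, G.IsNClique (k + 1) Q := by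
  classical
  intro k
  induction k with
  | zero =>
    intro hk
    have : 0 < A.card := by omega
    obtain ⟨a, ha⟩ := Finset.card_pos.1 this
    exact ⟨{a}, by simpa using ha, by simp⟩
  | succ k ih =>
    intro hk
    have hk' : k * t < A.card := by
      have : k * t ≤ (k + 1) * t := Nat.mul_le_mul_right t (by omega)
      omega
    obtain ⟨Q, hQA, hQ⟩ := ih hk'
    have h1 : (Q.biUnion (fun q => A.filter (fun x => ¬ G.Adj q x))).card ≤ (k + 1) * t := by
      refine (Finset.card_biUnion_le_card_mul _ _ t fun q hq => h q (hQA hq)).trans ?_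
      rw [hQ.card_eq]
    obtain ⟨a, ha, hna⟩ : ∃ a ∈ A, a ∉ Q.biUnion (fun q => A.filter (fun x => ¬ G.Adj q x)) := by
      by_contra hcon
      push Not at hcon
      have := Finset.card_le_card (fun a ha => hcon a ha :
        A ⊆ Q.biUnion (fun q => A.filter (fun x => ¬ G.Adj q x)))
      omega
    have h2 : ∀ b ∈ Q, G.Adj a b := by
      intro b hb
      by_contra hab
      apply hna
      rw [mem_biUnion]
      exact ⟨b, hb, mem_filter.2 ⟨ha, fun h' => hab h'.symm⟩⟩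
    exact ⟨insert a Q, Finset.insert_subset ha hQA, hQ.insert h2⟩

variable {q δ : ℕ}

/-- closed parts of a neighbourhood contain more than half of it -/
lemma half (hfree : G.CliqueFree (q + 4)) (hδ : ∀ v, δ ≤ G.degree v)
    (hn : (2 * q + 4) * Fintype.card V < (3 * q + 7) * δ) (w : V) (A : Finset V)
    (hA : A ⊆ G.neighborFinset w) (hne : A.Nonempty)
    (hcl : ∀ x ∈ A, ∀ y, G.Adj w y → G.Adj x y → y ∈ A) :
    G.degree w < 2 * A.card := by
  classical
  by_contra hcon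
  push Not at hcon
  have hnon : ∀ a ∈ A, (A.filter (fun x => ¬ G.Adj a x)).card + δ + G.degree w ≤
      A.card + Fintype.card V := by
    intro a ha
    have h1 : (A.filter (fun x => G.Adj a x)).card + (A.filter (fun x => ¬ G.Adj a x)).card =
        A.card := Finset.card_filter_add_card_filter_not _
    have h2 : G.neighborFinset a ⊆ A.filter (fun x => G.Adj a x) ∪ (G.neighborFinset w)ᶜ := by
      intro y hy
      rw [mem_neighborFinset] at hy
      rw [mem_union, mem_filter, mem_compl, mem_neighborFinset]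
      by_cases hwy : G.Adj w y
      · exact Or.inl ⟨hcl a ha y hwy hy, hy⟩
      · exact Or.inr hwy
    have h3 := (Finset.card_le_card h2).trans (Finset.card_union_le _ _)
    rw [Finset.card_compl, card_neighborFinset_eq_degree, card_neighborFinset_eq_degree] at h3
    have h4 := hδ a
    have h5 : G.degree w ≤ Fintype.card V := by
      rw [← card_neighborFinset_eq_degree]
      exact Finset.card_le_univ _
    omega
  obtain ⟨t, ht⟩ : ∃ t, t = A.card + Fintype.card V - δ - G.degree w := ⟨_, rfl⟩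
  have hle : δ + G.degree w ≤ A.card + Fintype.card V := by
    obtain ⟨a, ha⟩ := hne
    have := hnon a ha
    omega
  have ht' : t + δ + G.degree w = A.card + Fintype.card V := by omega
  have hnot : ¬ (q + 2) * t < A.card := by
    intro hlt
    obtain ⟨Q, hQA, hQ⟩ := greedy (G := G) A t (fun a ha => by have := hnon a ha; omega) (q + 2) hlt
    have h1 : ∀ b ∈ Q, G.Adj w b := fun b hb => by
      have := hA (hQA hb)
      rwa [mem_neighborFinset] at this
    exact hfree _ (hQ.insert h1)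
  push Not at hnot
  have hδw := hδ w
  zify at *
  nlinarith [mul_nonneg (Int.natCast_nonneg q) (sub_nonneg.2 hcon),
    mul_nonneg (Int.natCast_nonneg q) (sub_nonneg.2 hδw)]

/-- neighbourhoods are connected -/
lemma nbr_conn (hfree : G.CliqueFree (q + 4)) (hδ : ∀ v, δ ≤ G.degree v)
    (hn : (2 * q + 4) * Fintype.card V < (3 * q + 7) * δ) (w : V) (S : V → Prop)
    (hS : ∃ x, S x ∧ G.Adj w x) (hcl : ∀ x, S x → G.Adj w x → ∀ y, G.Adj w y → G.Adj x y → S y) :
    ∀ y, G.Adj w y → S y := by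
  classical
  by_contra hcon
  push Not at hcon
  obtain ⟨y0, hy0, hy0'⟩ := hcon
  obtain ⟨x0, hx0, hx0'⟩ := hS
  have h1 := half hfree hδ hn w ((G.neighborFinset w).filter (fun x => S x))
    (Finset.filter_subset _ _) ⟨x0, by simp [hx0, hx0']⟩ (by
      intro x hx y hwy hxy
      rw [mem_filter, mem_neighborFinset] at hx ⊢
      exact ⟨hwy, hcl x hx.2 hx.1 y hwy hxy⟩)
  have h2 := half hfree hδ hn w ((G.neighborFinset w).filter (fun x => ¬ S x))
    (Finset.filter_subset _ _) ⟨y0, by simp [hy0, hy0']⟩ (by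
      intro x hx y hwy hxy
      rw [mem_filter, mem_neighborFinset] at hx ⊢
      exact ⟨hwy, fun hSy => hx.2 (hcl y hSy hwy x hx.1 hxy.symm)⟩)
  have h3 : ((G.neighborFinset w).filter (fun x => S x)).card +
      ((G.neighborFinset w).filter (fun x => ¬ S x)).card = (G.neighborFinset w).card :=
    Finset.card_filter_add_card_filter_not _
  rw [card_neighborFinset_eq_degree] at h3
  omega

lemma two_lt (hn : (2 * q + 4) * Fintype.card V < (3 * q + 7) * δ) : Fintype.card V < 2 * δ := by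
  have h1 : (2 * q + 4) * Fintype.card V < (2 * q + 4) * (2 * δ) := by
    have : (3 * q + 7) * δ ≤ (2 * q + 4) * (2 * δ) := by nlinarith
    omega
  exact Nat.lt_of_mul_lt_mul_left h1

lemma all_Cn (hδ : ∀ v, δ ≤ G.degree v) (h2 : Fintype.card V < 2 * δ) (x y : V) :
    Cn G x y := by
  have hsum : ∑ i, G.degree (![x, y] i) = G.degree x + G.degree y := by
    rw [Fin.sum_univ_two]
    rfl
  obtain ⟨w, hw⟩ := count_deg (G := G) ![x, y] 1 (by
    rw [hsum]
    have := hδ x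
    have := hδ y
    omega)
  rw [Finset.card_filter, Fin.sum_univ_two] at hw
  simp only [Matrix.cons_val_zero, Matrix.cons_val_one] at hw
  by_cases hx : G.Adj x w
  · by_cases hy : G.Adj y w
    · exact ⟨w, hx, hy.symm⟩
    · simp [hx, hy] at hw
  · by_cases hy : G.Adj y w <;> simp [hx, hy] at hw

end clique

/-- holonomy of a triangle -/
def tri (ν : V → V → Γ) (a b c : V) : Γ := ν a b * ν b c * ν c a

lemma tri_third {ν : V → V → Γ} (hν : Flat G ν) {a b c c' : V} (hac : G.Adj a c)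
    (hbc : G.Adj b c) (hac' : G.Adj a c') (hbc' : G.Adj b c') : tri ν a b c = tri ν a b c' := by
  unfold tri
  rw [mul_assoc, mul_assoc, hν.sub b c c' a hbc hac.symm hbc' hac'.symm]

lemma tri_swap {ν : V → V → Γ} (hν : Flat G ν) {a b c : V} (hab : G.Adj a b)
    (hac : G.Adj a c) (hbc : G.Adj b c) : tri ν a c b = (tri ν a b c)⁻¹ := by
  unfold tri
  rw [hν.inv' hab, hν.inv' hac, hν.inv' hbc]
  group

/-- holonomy of a closed walk of length five -/
def hol5 (ν : V → V → Γ) (a b c d e : V) : Γ := ν a b * ν b c * ν c d * ν d e * ν e a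

/-- A family of cyclic groups containing the holonomies of all triangles. -/
structure Fam (G : SimpleGraph V) (ν : V → V → Γ) (g : V → Γ) : Prop where
  tri : ∀ a b c, G.Adj a b → G.Adj b c → G.Adj a c → tri ν a b c ∈ Subgroup.zpowers (g a)
  conj : ∀ a b, G.Adj a b → ∀ h ∈ Subgroup.zpowers (g b),
    ν a b * h * (ν a b)⁻¹ ∈ Subgroup.zpowers (g a)

section clique

variable [Fintype V] [DecidableRel G.Adj] {q δ : ℕ}

lemma exists_fam (hfree : G.CliqueFree (q + 4)) (hδ : ∀ v, δ ≤ G.degree v)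
    (hn : (2 * q + 4) * Fintype.card V < (3 * q + 7) * δ) {ν : V → V → Γ} (hν : Flat G ν) :
    ∃ g : V → Γ, Fam G ν g := by
  classical
  have hCn := all_Cn hδ (two_lt hn)
  have h1 : ∀ a : V, ∃ g : Γ, ∀ x, G.Adj a x → ∀ y, G.Adj a y → G.Adj x y →
      (tri ν a x y = g ∨ tri ν a x y = g⁻¹) := by
    intro a
    obtain ⟨x0, hx0, _⟩ := hCn a a
    obtain ⟨y0, hy0, hy0'⟩ := hCn a x0
    refine ⟨tri ν a x0 y0, ?_⟩
    refine nbr_conn hfree hδ hn a (fun x => ∀ y, G.Adj a y → G.Adj x y →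
      (tri ν a x y = tri ν a x0 y0 ∨ tri ν a x y = (tri ν a x0 y0)⁻¹)) ⟨x0, ?_, hx0⟩ ?_
    · intro y hy hxy
      exact Or.inl (tri_third hν hy hxy hy0 hy0'.symm)
    · intro x hx hax x' hax' hxx' y hay hxy
      have e1 : tri ν a x' y = (tri ν a x x')⁻¹ := by
        rw [tri_third hν hay hxy hax hxx'.symm, tri_swap hν hax hax' hxx']
      rcases hx x' hax' hxx' with h | h
      · right
        rw [e1, h]
      · left
        rw [e1, h, inv_inv]
  choose g hg using h1
  refine ⟨g, ?_, ?_⟩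
  · intro a b c hab hbc hac
    rcases hg a b hab c hac hbc with h | h
    · rw [h]; exact Subgroup.mem_zpowers _
    · rw [h]; exact Subgroup.inv_mem _ (Subgroup.mem_zpowers _)
  · intro a b hab h hh
    obtain ⟨z, haz, hzb⟩ := hCn a b
    have key : ν a b * g b * (ν a b)⁻¹ ∈ Subgroup.zpowers (g a) := by
      have e1 : ν a b * tri ν b a z * (ν a b)⁻¹ = tri ν a z b := by
        unfold tri
        rw [hν.inv' hab]
        group
      have e2 : tri ν a z b ∈ Subgroup.zpowers (g a) := by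
        rcases hg a z haz b hab hzb with h | h
        · rw [h]; exact Subgroup.mem_zpowers _
        · rw [h]; exact Subgroup.inv_mem _ (Subgroup.mem_zpowers _)
      rcases hg b a hab.symm z hzb.symm haz with h3 | h3
      · rw [h3] at e1
        rw [e1]
        exact e2
      · rw [h3] at e1
        have e4 : ν a b * g b * (ν a b)⁻¹ = (ν a b * (g b)⁻¹ * (ν a b)⁻¹)⁻¹ := by group
        rw [e4, e1]
        exact Subgroup.inv_mem _ e2
    rw [Subgroup.mem_zpowers_iff] at hh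
    obtain ⟨k, rfl⟩ := hh
    rw [← conj_zpow]
    exact Subgroup.zpow_mem _ key k

lemma rot5 {ν : V → V → Γ} (_hν : Flat G ν) {g : V → Γ} (hg : Fam G ν g) {a b c d e : V}
    (hab : G.Adj a b) (h : hol5 ν b c d e a ∈ Subgroup.zpowers (g b)) :
    hol5 ν a b c d e ∈ Subgroup.zpowers (g a) := by
  have h1 := hg.conj a b hab _ h
  have e1 : ν a b * hol5 ν b c d e a * (ν a b)⁻¹ = hol5 ν a b c d e := by
    unfold hol5
    group
  rwa [e1] at h1

lemma pat5 {ν : V → V → Γ} (hν : Flat G ν) {g : V → Γ} (hg : Fam G ν g) {a b c d e z : V}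
    (hab : G.Adj a b) (hbc : G.Adj b c) (hcd : G.Adj c d) (hde : G.Adj d e) (hea : G.Adj e a)
    (h1 : G.Adj a z) (h2 : G.Adj b z) (h3 : G.Adj d z) :
    hol5 ν a b c d e ∈ Subgroup.zpowers (g a) := by
  have e1 := hν.sub b c z d hbc hcd h2 h3.symm
  have e2 := hν.sub d e z a hde hea h3 h1.symm
  have e3 : hol5 ν a b c d e = tri ν a b z := by
    unfold hol5 tri
    calc ν a b * ν b c * ν c d * ν d e * ν e a = ν a b * (ν b c * ν c d) * (ν d e * ν e a) := by
          group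
      _ = ν a b * (ν b z * ν z d) * (ν d z * ν z a) := by rw [e1, e2]
      _ = _ := by
          rw [hν.inv' h3]
          group
  rw [e3]
  exact hg.tri a b z hab h2 h1

/-- the five rotations -/
lemma all5 {ν : V → V → Γ} (hν : Flat G ν) {g : V → Γ} (hg : Fam G ν g) {a b c d e : V}
    (hab : G.Adj a b) (hbc : G.Adj b c) (hcd : G.Adj c d) (hde : G.Adj d e) (hea : G.Adj e a)
    (hbad : hol5 ν a b c d e ∉ Subgroup.zpowers (g a)) (z : V) :
    ¬ (G.Adj a z ∧ G.Adj b z ∧ G.Adj d z) ∧ ¬ (G.Adj b z ∧ G.Adj c z ∧ G.Adj e z) ∧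
    ¬ (G.Adj c z ∧ G.Adj d z ∧ G.Adj a z) ∧ ¬ (G.Adj d z ∧ G.Adj e z ∧ G.Adj b z) ∧
    ¬ (G.Adj e z ∧ G.Adj a z ∧ G.Adj c z) := by
  refine ⟨?_, ?_, ?_, ?_, ?_⟩
  · rintro ⟨h1, h2, h3⟩
    exact hbad (pat5 hν hg hab hbc hcd hde hea h1 h2 h3)
  · rintro ⟨h1, h2, h3⟩
    exact hbad (rot5 hν hg hab (pat5 hν hg hbc hcd hde hea hab h1 h2 h3))
  · rintro ⟨h1, h2, h3⟩
    exact hbad (rot5 hν hg hab (rot5 hν hg hbc (pat5 hν hg hcd hde hea hab hbc h1 h2 h3)))
  · rintro ⟨h1, h2, h3⟩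
    exact hbad (rot5 hν hg hab (rot5 hν hg hbc (rot5 hν hg hcd
      (pat5 hν hg hde hea hab hbc hcd h1 h2 h3))))
  · rintro ⟨h1, h2, h3⟩
    exact hbad (rot5 hν hg hab (rot5 hν hg hbc (rot5 hν hg hcd (rot5 hν hg hde
      (pat5 hν hg hea hab hbc hcd hde h1 h2 h3)))))

/-- the case `r ≥ 5` -/
lemma five_large (hδ : ∀ v, δ ≤ G.degree v) (h3 : 3 * Fintype.card V < 5 * δ)
    {ν : V → V → Γ} (hν : Flat G ν) {g : V → Γ} (hg : Fam G ν g) {a b c d e : V}
    (hab : G.Adj a b) (hbc : G.Adj b c) (hcd : G.Adj c d) (hde : G.Adj d e) (hea : G.Adj e a) :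
    hol5 ν a b c d e ∈ Subgroup.zpowers (g a) := by
  by_contra hbad
  have hsum : ∑ i, G.degree (![a, b, c, d, e] i) = G.degree a + G.degree b + G.degree c +
      G.degree d + G.degree e := by
    rw [Fin.sum_univ_five]
    rfl
  obtain ⟨z, hz⟩ := count_deg (G := G) ![a, b, c, d, e] 3 (by
    rw [hsum]
    have := hδ a
    have := hδ b
    have := hδ c
    have := hδ d
    have := hδ e
    omega)
  rw [Finset.card_filter, Fin.sum_univ_five] at hz
  simp only [Matrix.cons_val] at hz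
  obtain ⟨n1, n2, n3, n4, n5⟩ := all5 hν hg hab hbc hcd hde hea hbad z
  by_cases ha : G.Adj a z <;> by_cases hb : G.Adj b z <;> by_cases hc : G.Adj c z <;>
    by_cases hd : G.Adj d z <;> by_cases he : G.Adj e z <;> simp_all

/-- common neighbours of three vertices -/
def Zs (G : SimpleGraph V) [DecidableRel G.Adj] (a b c : V) : Finset V :=
  univ.filter (fun z => G.Adj a z ∧ G.Adj b z ∧ G.Adj c z)

/-- vertices in none of the five sets -/
def Ys (G : SimpleGraph V) [DecidableRel G.Adj] (a b c d e : V) : Finset V :=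
  univ.filter (fun z => ¬ (G.Adj e z ∧ G.Adj a z ∧ G.Adj b z) ∧
    ¬ (G.Adj a z ∧ G.Adj b z ∧ G.Adj c z) ∧ ¬ (G.Adj b z ∧ G.Adj c z ∧ G.Adj d z) ∧
    ¬ (G.Adj c z ∧ G.Adj d z ∧ G.Adj e z) ∧ ¬ (G.Adj d z ∧ G.Adj e z ∧ G.Adj a z))

lemma Ys_card (hδ : ∀ v, δ ≤ G.degree v)
    {ν : V → V → Γ} (hν : Flat G ν) {g : V → Γ} (hg : Fam G ν g) {a b c d e : V}
    (hab : G.Adj a b) (hbc : G.Adj b c) (hcd : G.Adj c d) (hde : G.Adj d e) (hea : G.Adj e a)
    (hbad : hol5 ν a b c d e ∉ Subgroup.zpowers (g a)) :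
    (Ys G a b c d e).card + 5 * δ ≤ 3 * Fintype.card V := by
  classical
  have hdg : ∀ v, G.degree v = ∑ z, if G.Adj v z then 1 else 0 := by
    intro v
    rw [← card_neighborFinset_eq_degree, neighborFinset_eq_filter, Finset.card_filter]
  have h1 : ∑ z : V, ((if G.Adj a z then 1 else 0) + (if G.Adj b z then 1 else 0) +
      (if G.Adj c z then 1 else 0) + (if G.Adj d z then 1 else 0) +
      (if G.Adj e z then 1 else 0) + (if z ∈ Ys G a b c d e then 1 else 0)) ≤ ∑ z : V, 3 := by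
    refine Finset.sum_le_sum fun z _ => ?_
    obtain ⟨n1, n2, n3, n4, n5⟩ := all5 hν hg hab hbc hcd hde hea hbad z
    have hY : z ∈ Ys G a b c d e ↔ (¬ (G.Adj e z ∧ G.Adj a z ∧ G.Adj b z) ∧
      ¬ (G.Adj a z ∧ G.Adj b z ∧ G.Adj c z) ∧ ¬ (G.Adj b z ∧ G.Adj c z ∧ G.Adj d z) ∧
      ¬ (G.Adj c z ∧ G.Adj d z ∧ G.Adj e z) ∧ ¬ (G.Adj d z ∧ G.Adj e z ∧ G.Adj a z)) := by
      unfold Ys
      rw [mem_filter]
      simp
    by_cases ha : G.Adj a z <;> by_cases hb : G.Adj b z <;> by_cases hc : G.Adj c z <;>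
      by_cases hd : G.Adj d z <;> by_cases he : G.Adj e z <;> simp_all
  simp only [Finset.sum_add_distrib, ← hdg, Finset.sum_const, card_univ, smul_eq_mul] at h1
  rw [← Finset.card_filter] at h1
  have h2 : (univ.filter (fun z => z ∈ Ys G a b c d e)) = Ys G a b c d e := by
    ext z
    simp
  rw [h2] at h1
  have := hδ a
  have := hδ b
  have := hδ c
  have := hδ d
  have := hδ e
  omega

lemma cover_card (a b c d e : V) : Fintype.card V ≤ (Ys G a b c d e).card +
    (Zs G e a b).card + (Zs G a b c).card + (Zs G b c d).card + (Zs G c d e).card +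
    (Zs G d e a).card := by
  classical
  have h1 : (univ : Finset V) ⊆ Ys G a b c d e ∪ Zs G e a b ∪ Zs G a b c ∪ Zs G b c d ∪
      Zs G c d e ∪ Zs G d e a := by
    intro z _
    simp only [mem_union, Ys, Zs, mem_filter, mem_univ, true_and]
    by_cases c1 : G.Adj e z ∧ G.Adj a z ∧ G.Adj b z
    · exact Or.inl (Or.inl (Or.inl (Or.inl (Or.inr c1))))
    by_cases c2 : G.Adj a z ∧ G.Adj b z ∧ G.Adj c z
    · exact Or.inl (Or.inl (Or.inl (Or.inr c2)))
    by_cases c3 : G.Adj b z ∧ G.Adj c z ∧ G.Adj d z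
    · exact Or.inl (Or.inl (Or.inr c3))
    by_cases c4 : G.Adj c z ∧ G.Adj d z ∧ G.Adj e z
    · exact Or.inl (Or.inr c4)
    by_cases c5 : G.Adj d z ∧ G.Adj e z ∧ G.Adj a z
    · exact Or.inr c5
    exact Or.inl (Or.inl (Or.inl (Or.inl (Or.inl ⟨c1, c2, c3, c4, c5⟩))))
  have h2 := Finset.card_le_card h1
  rw [card_univ] at h2
  refine h2.trans ?_
  refine (Finset.card_union_le _ _).trans (Nat.add_le_add_right ?_ _)
  refine (Finset.card_union_le _ _).trans (Nat.add_le_add_right ?_ _)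
  refine (Finset.card_union_le _ _).trans (Nat.add_le_add_right ?_ _)
  refine (Finset.card_union_le _ _).trans (Nat.add_le_add_right ?_ _)
  exact Finset.card_union_le _ _

/-- no `K₄` on two adjacent vertices with two adjacent common neighbours -/
lemma no_four (hfree : G.CliqueFree 4) {a b y z : V} (hab : G.Adj a b) (hay : G.Adj a y)
    (hby : G.Adj b y) (haz : G.Adj a z) (hbz : G.Adj b z) : ¬ G.Adj y z := by
  classical
  intro hyz
  have h3 : G.IsNClique 3 {b, y, z} := is3Clique_triple_iff.2 ⟨hby, hbz, hyz⟩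
  have h4 := h3.insert (a := a) (by
    intro x hx
    simp only [mem_insert, mem_singleton] at hx
    rcases hx with rfl | rfl | rfl
    · exact hab
    · exact hay
    · exact haz)
  exact hfree _ h4

lemma Zs_indep (hfree : G.CliqueFree 4) (hδ : ∀ v, δ ≤ G.degree v) {a b c : V}
    (hab : G.Adj a b) : (Zs G a b c).card = 0 ∨ (Zs G a b c).card + δ ≤ Fintype.card V := by
  classical
  rcases Finset.eq_empty_or_nonempty (Zs G a b c) with h | ⟨z, hz⟩
  · left
    rw [h, Finset.card_empty]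
  · right
    have hz' := hz
    unfold Zs at hz'
    rw [mem_filter] at hz'
    have hdis : Disjoint (Zs G a b c) (G.neighborFinset z) := by
      rw [Finset.disjoint_left]
      intro y hy hyz
      unfold Zs at hy
      rw [mem_filter] at hy
      rw [mem_neighborFinset] at hyz
      exact no_four hfree hab hz'.2.1 hz'.2.2.1 hy.2.1 hy.2.2.1 hyz
    have h1 := Finset.card_le_univ (Zs G a b c ∪ G.neighborFinset z)
    rw [Finset.card_union_of_disjoint hdis, card_neighborFinset_eq_degree] at h1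
    have := hδ z
    omega

/-- adjacent sets: if the set at `a` is nonempty then the sets at `b` and at `e` are small -/
lemma Zs_next (hfree : G.CliqueFree 4) (hδ : ∀ v, δ ≤ G.degree v)
    {ν : V → V → Γ} (hν : Flat G ν) {g : V → Γ} (hg : Fam G ν g) {a b c d e : V}
    (hab : G.Adj a b) (hbc : G.Adj b c) (hcd : G.Adj c d) (hde : G.Adj d e) (hea : G.Adj e a)
    (hbad : hol5 ν a b c d e ∉ Subgroup.zpowers (g a)) :
    (Zs G e a b).card = 0 ∨ ((Zs G a b c).card + 5 * δ ≤ 3 * Fintype.card V ∧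
      (Zs G d e a).card + 5 * δ ≤ 3 * Fintype.card V) := by
  classical
  rcases Finset.eq_empty_or_nonempty (Zs G e a b) with h | ⟨z, hz⟩
  · left
    rw [h, Finset.card_empty]
  · right
    unfold Zs at hz
    rw [mem_filter] at hz
    obtain ⟨_, hez, haz, hbz⟩ := hz
    -- the modified walk
    have hbad' : hol5 ν z b c d e ∉ Subgroup.zpowers (g z) := by
      intro hgood
      apply hbad
      -- rotate to start at `b`
      apply rot5 hν hg hab
      have h1 : hol5 ν b c d e z ∈ Subgroup.zpowers (g b) := by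
        have h2 := hg.conj b z hbz _ hgood
        have e1 : ν b z * hol5 ν z b c d e * (ν b z)⁻¹ = hol5 ν b c d e z := by
          unfold hol5
          rw [hν.inv' hbz]
          group
        rwa [e1] at h2
      have e2 : hol5 ν b c d e a = hol5 ν b c d e z := by
        unfold hol5
        rw [mul_assoc, mul_assoc (ν b c * ν c d * ν d e), hν.sub e a z b hea hab hez hbz.symm]
      rw [e2]
      exact h1
    have hY := Ys_card hδ hν hg hbz.symm hbc hcd hde hez hbad'
    have hsub1 : Zs G a b c ⊆ Ys G z b c d e := by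
      intro y hy
      unfold Zs at hy
      rw [mem_filter] at hy
      obtain ⟨_, hay, hby, hcy⟩ := hy
      obtain ⟨n1, n2, n3, n4, n5⟩ := all5 hν hg hab hbc hcd hde hea hbad y
      have hyz : ¬ G.Adj z y := fun h => no_four hfree hab haz hbz hay hby h
      have hd : ¬ G.Adj d y := fun h => n1 ⟨hay, hby, h⟩
      have he : ¬ G.Adj e y := fun h => n2 ⟨hby, hcy, h⟩
      unfold Ys
      rw [mem_filter]
      exact ⟨mem_univ _, fun h => he h.1, fun h => hyz h.1, fun h => hd h.2.2, fun h => hd h.2.1,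
        fun h => hd h.1⟩
    have hsub2 : Zs G d e a ⊆ Ys G z b c d e := by
      intro y hy
      unfold Zs at hy
      rw [mem_filter] at hy
      obtain ⟨_, hdy, hey, hay⟩ := hy
      obtain ⟨n1, n2, n3, n4, n5⟩ := all5 hν hg hab hbc hcd hde hea hbad y
      have hyz : ¬ G.Adj z y := fun h => no_four hfree hea hez haz hey hay h
      have hb : ¬ G.Adj b y := fun h => n4 ⟨hdy, hey, h⟩
      have hc : ¬ G.Adj c y := fun h => n5 ⟨hey, hay, h⟩
      unfold Ys
      rw [mem_filter]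
      exact ⟨mem_univ _, fun h => hb h.2.2, fun h => hb h.2.1, fun h => hb h.1, fun h => hc h.1,
        fun h => hyz h.2.2⟩
    have c1 := Finset.card_le_card hsub1
    have c2 := Finset.card_le_card hsub2
    omega

omit [Fintype V] [DecidableRel G.Adj] in
lemma arith_one (n m p y z0 z1 z2 z3 z4 : ℕ) (hm : 7 * m < n) (hp : 7 * p < 3 * n)
    (hy : y ≤ m) (cov : n ≤ y + z0 + z1 + z2 + z3 + z4)
    (i0 : z0 ≤ p) (i2 : z2 ≤ p) (i3 : z3 ≤ p)
    (j1 : z1 = 0 ∨ z0 ≤ m) (j4 : z4 = 0 ∨ z0 ≤ m)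
    (j2 : z2 = 0 ∨ z3 ≤ m) (j3 : z3 = 0 ∨ z2 ≤ m) (hbig : m < z0) : False := by
  have h1 : z1 = 0 := by omega
  have h4 : z4 = 0 := by omega
  subst h1 h4
  rcases j2 with h | h
  · omega
  · rcases j3 with h' | h'
    · omega
    · omega

omit [Fintype V] [DecidableRel G.Adj] in
lemma arith_all (n δ y z0 z1 z2 z3 z4 : ℕ) (h4 : 4 * n < 7 * δ) (y0 : y + 5 * δ ≤ 3 * n)
    (cov : n ≤ y + z0 + z1 + z2 + z3 + z4)
    (i0 : z0 = 0 ∨ z0 + δ ≤ n) (i1 : z1 = 0 ∨ z1 + δ ≤ n) (i2 : z2 = 0 ∨ z2 + δ ≤ n)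
    (i3 : z3 = 0 ∨ z3 + δ ≤ n) (i4 : z4 = 0 ∨ z4 + δ ≤ n)
    (j0 : z0 = 0 ∨ (z1 + 5 * δ ≤ 3 * n ∧ z4 + 5 * δ ≤ 3 * n))
    (j1 : z1 = 0 ∨ (z2 + 5 * δ ≤ 3 * n ∧ z0 + 5 * δ ≤ 3 * n))
    (j2 : z2 = 0 ∨ (z3 + 5 * δ ≤ 3 * n ∧ z1 + 5 * δ ≤ 3 * n))
    (j3 : z3 = 0 ∨ (z4 + 5 * δ ≤ 3 * n ∧ z2 + 5 * δ ≤ 3 * n))
    (j4 : z4 = 0 ∨ (z0 + 5 * δ ≤ 3 * n ∧ z3 + 5 * δ ≤ 3 * n)) : False := by
  obtain ⟨m, hm⟩ : ∃ m, m + 5 * δ = 3 * n := ⟨3 * n - 5 * δ, by omega⟩
  obtain ⟨p, hp⟩ : ∃ p, p + δ = n := ⟨n - δ, by omega⟩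
  have hm7 : 7 * m < n := by omega
  have hp7 : 7 * p < 3 * n := by omega
  have hy : y ≤ m := by omega
  have k0 : z0 ≤ p := by omega
  have k1 : z1 ≤ p := by omega
  have k2 : z2 ≤ p := by omega
  have k3 : z3 ≤ p := by omega
  have k4 : z4 ≤ p := by omega
  have a0 : z0 = 0 ∨ z1 ≤ m := by omega
  have b0 : z0 = 0 ∨ z4 ≤ m := by omega
  have a1 : z1 = 0 ∨ z2 ≤ m := by omega
  have b1 : z1 = 0 ∨ z0 ≤ m := by omega
  have a2 : z2 = 0 ∨ z3 ≤ m := by omega
  have b2 : z2 = 0 ∨ z1 ≤ m := by omega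
  have a3 : z3 = 0 ∨ z4 ≤ m := by omega
  have b3 : z3 = 0 ∨ z2 ≤ m := by omega
  have a4 : z4 = 0 ∨ z0 ≤ m := by omega
  have b4 : z4 = 0 ∨ z3 ≤ m := by omega
  clear i0 i1 i2 i3 i4 j0 j1 j2 j3 j4 h4 y0 hm hp
  by_cases c0 : m < z0
  · exact arith_one n m p y z0 z1 z2 z3 z4 hm7 hp7 hy cov k0 k2 k3 b1 a4 a2 b3 c0
  by_cases c1 : m < z1
  · exact arith_one n m p y z1 z2 z3 z4 z0 hm7 hp7 hy (by linarith) k1 k3 k4 b2 a0 a3 b4 c1
  by_cases c2 : m < z2
  · exact arith_one n m p y z2 z3 z4 z0 z1 hm7 hp7 hy (by linarith) k2 k4 k0 b3 a1 a4 b0 c2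
  by_cases c3 : m < z3
  · exact arith_one n m p y z3 z4 z0 z1 z2 hm7 hp7 hy (by linarith) k3 k0 k1 b4 a2 a0 b1 c3
  by_cases c4 : m < z4
  · exact arith_one n m p y z4 z0 z1 z2 z3 hm7 hp7 hy (by linarith) k4 k1 k2 b0 a3 a1 b2 c4
  omega

/-- the case `r = 4` -/
lemma five_four (hfree : G.CliqueFree 4) (hδ : ∀ v, δ ≤ G.degree v)
    (h4 : 4 * Fintype.card V < 7 * δ)
    {ν : V → V → Γ} (hν : Flat G ν) {g : V → Γ} (hg : Fam G ν g) {a b c d e : V}
    (hab : G.Adj a b) (hbc : G.Adj b c) (hcd : G.Adj c d) (hde : G.Adj d e) (hea : G.Adj e a) :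
    hol5 ν a b c d e ∈ Subgroup.zpowers (g a) := by
  by_contra hbad0
  have hbad1 : hol5 ν b c d e a ∉ Subgroup.zpowers (g b) := fun h => hbad0 (rot5 hν hg hab h)
  have hbad2 : hol5 ν c d e a b ∉ Subgroup.zpowers (g c) := fun h => hbad1 (rot5 hν hg hbc h)
  have hbad3 : hol5 ν d e a b c ∉ Subgroup.zpowers (g d) := fun h => hbad2 (rot5 hν hg hcd h)
  have hbad4 : hol5 ν e a b c d ∉ Subgroup.zpowers (g e) := fun h => hbad3 (rot5 hν hg hde h)
  have y0 := Ys_card hδ hν hg hab hbc hcd hde hea hbad0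
  have cov := cover_card (G := G) a b c d e
  have i0 := Zs_indep (c := b) hfree hδ hea
  have i1 := Zs_indep (c := c) hfree hδ hab
  have i2 := Zs_indep (c := d) hfree hδ hbc
  have i3 := Zs_indep (c := e) hfree hδ hcd
  have i4 := Zs_indep (c := a) hfree hδ hde
  have j0 := Zs_next hfree hδ hν hg hab hbc hcd hde hea hbad0
  have j1 := Zs_next hfree hδ hν hg hbc hcd hde hea hab hbad1
  have j2 := Zs_next hfree hδ hν hg hcd hde hea hab hbc hbad2
  have j3 := Zs_next hfree hδ hν hg hde hea hab hbc hcd hbad3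
  have j4 := Zs_next hfree hδ hν hg hea hab hbc hcd hde hbad4
  exact arith_all _ _ _ _ _ _ _ _ h4 y0 cov i0 i1 i2 i3 i4 j0 j1 j2 j3 j4

/-- the gauge for graphs in which any two vertices have a common neighbour -/
lemma flat_of_five (hCn : ∀ x y, Cn G x y) {ν : V → V → Γ} (hν : Flat G ν) {g : V → Γ}
    (h5 : ∀ a b c d e, G.Adj a b → G.Adj b c → G.Adj c d → G.Adj d e → G.Adj e a →
      hol5 ν a b c d e ∈ Subgroup.zpowers (g a)) (u : V) :
    ∃ (g : Γ) (s : V → Γ), s u = 1 ∧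
      ∀ a b, G.Adj a b → s a * ν a b * (s b)⁻¹ ∈ Subgroup.zpowers g := by
  choose s hs using fun w => (hCn u w).E ν
  refine ⟨g u, s, ?_, ?_⟩
  · obtain ⟨z, hz, hz'⟩ := hCn u u
    rw [E_unique hν (hs u) ⟨z, hz, hz', rfl⟩, hν.inv u z hz]
  · intro a b hab
    obtain ⟨x, hx1, hx2, hx⟩ := hs a
    obtain ⟨y, hy1, hy2, hy⟩ := hs b
    have h := h5 u x a b y hx1 hx2 hab hy2.symm hy1.symm
    have e1 : s a * ν a b * (s b)⁻¹ = hol5 ν u x a b y := by
      rw [hx, hy]
      unfold hol5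
      rw [hν.inv' hy1, hν.inv' hy2]
      group
    rw [e1]
    exact h

/-- **Clique case**: for `r = q + 4 ≥ 4`, a `K_r`-free graph with minimum degree larger than
`(2 r - 4) / (3 r - 5) * |G|` has cyclic fundamental group. -/
theorem cyclic_clique (hfree : G.CliqueFree (q + 4)) (hδ : ∀ v, δ ≤ G.degree v)
    (hn : (2 * q + 4) * Fintype.card V < (3 * q + 7) * δ) (u : V) : IsCyclic (Pi1 G u) := by
  have hCn := all_Cn hδ (two_lt hn)
  have hconn : G.Preconnected := by
    intro x y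
    obtain ⟨w, h1, h2⟩ := hCn x y
    exact h1.reachable.trans h2.reachable
  refine cyclic_of hconn u fun ν hν => ?_
  obtain ⟨g, hg⟩ := exists_fam hfree hδ hn hν
  refine flat_of_five hCn hν (g := g) (fun a b c d e hab hbc hcd hde hea => ?_) u
  rcases Nat.eq_zero_or_pos q with h0 | h0
  · subst h0
    exact five_four hfree hδ (by simpa using hn) hν hg hab hbc hcd hde hea
  · refine five_large hδ ?_ hν hg hab hbc hcd hde hea
    have h1 : (2 * q + 4) * (3 * Fintype.card V) < (2 * q + 4) * (5 * δ) := by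
      nlinarith
    exact Nat.lt_of_mul_lt_mul_left h1

end clique

end Pool.Agent.V11181.Cyc
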