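import Pool.Agent.V11181.Cyc3

/-!
# The thresholds for complete graphs
-/

set_option autoImplicit false

namespace Pool.Agent.V11181.Cyc

open SimpleGraph Finset

/-- `α` is admissible for `H`: every finite `H`-free graph `G` (no subgraph isomorphic to `H`)
with `δ(G) > α |G|` has cyclic fundamental group at every vertex. -/
def Adm {W : Type} (H : SimpleGraph W) (α : ℝ) : Prop :=
  ∀ (V : Type) [Fintype V] (G : SimpleGraph V) [DecidableRel G.Adj], H.Free G →
    α * (Fintype.card V : ℝ) < (G.minDegree : ℝ) → ∀ v : V, IsCyclic (Pi1 G v)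

/-- The threshold `δ_cyc(H)`: the infimum of the admissible `α ≥ 0`. -/
noncomputable def deltaCyc {W : Type} (H : SimpleGraph W) : ℝ :=
  sInf {α : ℝ | 0 ≤ α ∧ Adm H α}

lemma deltaCyc_eq {W : Type} (H : SimpleGraph W) (α₀ : ℝ) (h0 : 0 ≤ α₀) (h1 : Adm H α₀)
    (h2 : ∀ α, 0 ≤ α → α < α₀ → ¬ Adm H α) : deltaCyc H = α₀ := by
  have hb : BddBelow {α : ℝ | 0 ≤ α ∧ Adm H α} := ⟨0, fun x hx => hx.1⟩
  have hm : α₀ ∈ {α : ℝ | 0 ≤ α ∧ Adm H α} := ⟨h0, h1⟩
  apply le_antisymm
  · exact csInf_le hb hm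
  · apply le_csInf ⟨α₀, hm⟩
    intro α hα
    by_contra hlt
    exact h2 α hα.1 (not_le.1 hlt) hα.2

abbrev Q2 := Multiplicative (ZMod 2 × ZMod 2)

lemma q2_pow (a : ZMod 2 × ZMod 2) (k : ℤ) : k • a = 0 ∨ k • a = a := by
  have h2 : (2 : ℤ) • a = 0 := by
    revert a
    decide
  rcases Int.even_or_odd' k with ⟨m, hm | hm⟩
  · left
    rw [hm, mul_comm, mul_smul, h2, smul_zero]
  · right
    rw [hm, add_smul, mul_comm, mul_smul, h2, smul_zero, zero_add, one_smul]

/-- two independent holonomies in `(ℤ/2)²` -/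
lemma not_cyclic {V : Type} {G : SimpleGraph V} (ν : V → V → Q2) (hν : Flat G ν) (v : V)
    (p₁ p₂ : G.Walk v v) (h₁ : hol ν p₁ = Multiplicative.ofAdd (1, 0))
    (h₂ : hol ν p₂ = Multiplicative.ofAdd (0, 1)) : ¬ IsCyclic (Pi1 G v) := by
  rintro ⟨⟨g, hg⟩⟩
  obtain ⟨k₁, hk₁⟩ := Subgroup.mem_zpowers_iff.1 (hg (cls p₁ : Pi1 G v))
  obtain ⟨k₂, hk₂⟩ := Subgroup.mem_zpowers_iff.1 (hg (cls p₂ : Pi1 G v))
  have e₁ := congrArg (holHom ν hν v) hk₁
  have e₂ := congrArg (holHom ν hν v) hk₂
  rw [map_zpow, holHom_cls, h₁] at e₁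
  rw [map_zpow, holHom_cls, h₂] at e₂
  obtain ⟨a, ha⟩ : ∃ a : ZMod 2 × ZMod 2, holHom ν hν v g = Multiplicative.ofAdd a :=
    ⟨Multiplicative.toAdd (holHom ν hν v g), rfl⟩
  rw [ha, ← ofAdd_zsmul] at e₁ e₂
  have f₁ : k₁ • a = (1, 0) := Multiplicative.ofAdd.injective e₁
  have f₂ : k₂ • a = (0, 1) := Multiplicative.ofAdd.injective e₂
  rcases q2_pow a k₁ with c | c
  · rw [c] at f₁
    exact absurd f₁ (by decide)
  · rcases q2_pow a k₂ with c' | c'
    · rw [c'] at f₂
      exact absurd f₂ (by decide)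
    · rw [c] at f₁
      rw [c', f₁] at f₂
      exact absurd f₂ (by decide)

/-! ### The example for `K₃` -/

/-- the theta graph with two 5-cycles sharing a path of length two, as a boolean relation -/
def thetaRel (i j : Fin 7) : Bool :=
  (i, j) ∈ [((0 : Fin 7), (1 : Fin 7)), (1, 0), (1, 2), (2, 1), (2, 3), (3, 2), (3, 4), (4, 3),
    (4, 5), (5, 4), (5, 0), (0, 5), (6, 0), (0, 6), (6, 3), (3, 6)]

def theta : SimpleGraph (Fin 7) where
  Adj i j := thetaRel i j = true
  symm := ⟨by decide⟩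
  loopless := ⟨by decide⟩

instance : DecidableRel theta.Adj := fun i j => inferInstanceAs (Decidable (thetaRel i j = true))

lemma theta_tf : ∀ a b c : Fin 7, theta.Adj a b → theta.Adj a c → ¬ theta.Adj b c := by decide

/-- voltages -/
def thv (i j : Fin 7) : ZMod 2 × ZMod 2 :=
  if (i = 1 ∧ j = 2) ∨ (i = 2 ∧ j = 1) then (1, 0)
  else if (i = 4 ∧ j = 5) ∨ (i = 5 ∧ j = 4) then (0, 1) else 0

lemma thv_symm : ∀ i j : Fin 7, thv i j + thv j i = 0 := by decide

lemma theta_sub : ∀ a b b' c : Fin 7, theta.Adj a b → theta.Adj b c → theta.Adj a b' →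
    theta.Adj b' c → thv a b + thv b c = thv a b' + thv b' c := by decide

/-- classes of the blow-up -/
def clsf {m : ℕ} : Option (Fin 6 × Fin m) → Fin 7
  | none => 6
  | some (i, _) => i.castSucc

/-- the blow-up -/
def blow (m : ℕ) : SimpleGraph (Option (Fin 6 × Fin m)) := theta.comap clsf

instance (m : ℕ) : DecidableRel (blow m).Adj := fun x y =>
  inferInstanceAs (Decidable (theta.Adj (clsf x) (clsf y)))

lemma blow_adj {m : ℕ} (x y : Option (Fin 6 × Fin m)) :
    (blow m).Adj x y ↔ theta.Adj (clsf x) (clsf y) := Iff.rfl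

lemma blow_flat (m : ℕ) : Flat (blow m)
    (fun x y => (Multiplicative.ofAdd (thv (clsf x) (clsf y)) : Q2)) := by
  constructor
  · intro a b _
    rw [← ofAdd_add, thv_symm]
    rfl
  · intro a b b' c h1 h2 h3 h4
    simp only [← ofAdd_add]
    rw [theta_sub _ _ _ _ h1 h2 h3 h4]

lemma two_nbr : ∀ i : Fin 7, ∃ j₁ j₂ : Fin 6, j₁ ≠ j₂ ∧ theta.Adj i j₁.castSucc ∧
    theta.Adj i j₂.castSucc := by decide

lemma blow_deg (m : ℕ) (x : Option (Fin 6 × Fin m)) : 2 * m ≤ (blow m).degree x := by
  classical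
  obtain ⟨j₁, j₂, hne, h1, h2⟩ := two_nbr (clsf x)
  have hsub : (univ.image (fun y : Fin m => (some (j₁, y) : Option (Fin 6 × Fin m)))) ∪
      (univ.image (fun y : Fin m => (some (j₂, y) : Option (Fin 6 × Fin m)))) ⊆
      (blow m).neighborFinset x := by
    intro z hz
    rw [mem_union, mem_image, mem_image] at hz
    rw [mem_neighborFinset, blow_adj]
    rcases hz with ⟨y, _, rfl⟩ | ⟨y, _, rfl⟩
    · exact h1
    · exact h2
  have h3 := Finset.card_le_card hsub
  rw [Finset.card_union_of_disjoint, Finset.card_image_of_injective, Finset.card_image_of_injective,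
    card_univ, Fintype.card_fin, card_neighborFinset_eq_degree] at h3
  · omega
  · intro y y' h
    simpa using h
  · intro y y' h
    simpa using h
  · rw [Finset.disjoint_left]
    intro z hz hz'
    rw [mem_image] at hz hz'
    obtain ⟨y, _, rfl⟩ := hz
    obtain ⟨y', _, h⟩ := hz'
    simp only [Option.some.injEq, Prod.mk.injEq] at h
    exact hne h.1.symm

lemma blow_not_cyclic (m : ℕ) : ¬ IsCyclic (Pi1 (blow (m + 1)) none) := by
  obtain ⟨y, hy⟩ : ∃ y : Fin (m + 1), y = 0 := ⟨0, rfl⟩
  have c1 : theta.Adj 6 (Fin.castSucc 0) := by decide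
  have c2 : theta.Adj (Fin.castSucc 0) (Fin.castSucc 1) := by decide
  have c3 : theta.Adj (Fin.castSucc 1) (Fin.castSucc 2) := by decide
  have c4 : theta.Adj (Fin.castSucc 2) (Fin.castSucc 3) := by decide
  have c5 : theta.Adj (Fin.castSucc 3) 6 := by decide
  have d2 : theta.Adj (Fin.castSucc 0) (Fin.castSucc 5) := by decide
  have d3 : theta.Adj (Fin.castSucc 5) (Fin.castSucc 4) := by decide
  have d4 : theta.Adj (Fin.castSucc 4) (Fin.castSucc 3) := by decide
  have a1 : (blow (m + 1)).Adj none (some (0, y)) := c1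
  have a2 : (blow (m + 1)).Adj (some (0, y)) (some (1, y)) := c2
  have a3 : (blow (m + 1)).Adj (some (1, y)) (some (2, y)) := c3
  have a4 : (blow (m + 1)).Adj (some (2, y)) (some (3, y)) := c4
  have a5 : (blow (m + 1)).Adj (some (3, y)) none := c5
  have b2 : (blow (m + 1)).Adj (some (0, y)) (some (5, y)) := d2
  have b3 : (blow (m + 1)).Adj (some (5, y)) (some (4, y)) := d3
  have b4 : (blow (m + 1)).Adj (some (4, y)) (some (3, y)) := d4
  refine not_cyclic _ (blow_flat (m + 1)) none
    (Walk.cons a1 (Walk.cons a2 (Walk.cons a3 (Walk.cons a4 (Walk.cons a5 Walk.nil)))))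
    (Walk.cons a1 (Walk.cons b2 (Walk.cons b3 (Walk.cons b4 (Walk.cons a5 Walk.nil))))) ?_ ?_
  · simp only [hol, clsf]
    decide
  · simp only [hol, clsf]
    decide

/-! ### The example for `K_r`, `r ≥ 4` -/

/-- adjacency -/
def joinRel {q : ℕ} : Fin (q + 3) ⊕ (Fin 2 × Fin (q + 2)) → Fin (q + 3) ⊕ (Fin 2 × Fin (q + 2)) →
    Prop
  | Sum.inl _, Sum.inl _ => False
  | Sum.inl _, Sum.inr _ => True
  | Sum.inr _, Sum.inl _ => True
  | Sum.inr x, Sum.inr y => x.1 = y.1 ∧ x.2 ≠ y.2

/-- the join of `q + 3` isolated vertices with two disjoint cliques of size `q + 2` -/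
def join (q : ℕ) : SimpleGraph (Fin (q + 3) ⊕ (Fin 2 × Fin (q + 2))) where
  Adj := joinRel
  symm := ⟨by
    rintro (x | x) (y | y) h
    · exact h.elim
    · exact trivial
    · exact trivial
    · exact ⟨h.1.symm, h.2.symm⟩⟩
  loopless := ⟨by
    rintro (x | x) h
    · exact h
    · exact h.2 rfl⟩

instance (q : ℕ) : DecidableRel (join q).Adj := by
  rintro (x | x) (y | y)
  · exact isFalse (fun h => h)
  · exact isTrue trivial
  · exact isTrue trivial
  · exact inferInstanceAs (Decidable (x.1 = y.1 ∧ x.2 ≠ y.2))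

/-- voltages -/
def ev (i : Fin 2) : ZMod 2 × ZMod 2 := if i = 0 then (1, 0) else (0, 1)

lemma ev_add (i : Fin 2) : ev i + ev i = 0 := by revert i; decide

def jv {q : ℕ} : Fin (q + 3) ⊕ (Fin 2 × Fin (q + 2)) → Fin (q + 3) ⊕ (Fin 2 × Fin (q + 2)) →
    ZMod 2 × ZMod 2
  | Sum.inr x, Sum.inr _ => ev x.1
  | _, _ => 0

lemma join_flat (q : ℕ) : Flat (join q) (fun x y => (Multiplicative.ofAdd (jv x y) : Q2)) := by
  constructor
  · intro a b h
    rw [← ofAdd_add]
    have : jv a b + jv b a = 0 := by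
      rcases a with a | a <;> rcases b with b | b
      · rfl
      · rfl
      · rfl
      · have h' : a.1 = b.1 := h.1
        simp only [jv]
        rw [h', ev_add]
    rw [this]
    rfl
  · intro a b b' c h1 h2 h3 h4
    simp only [← ofAdd_add]
    have : jv a b + jv b c = jv a b' + jv b' c := by
      rcases a with a | a <;> rcases c with c | c <;> rcases b with b | b <;>
        rcases b' with b' | b'
      · exact h1.elim
      · exact h1.elim
      · exact h3.elim
      · rfl
      · exact h1.elim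
      · exact h1.elim
      · exact h3.elim
      · have e1 : b.1 = c.1 := h2.1
        have e2 : b'.1 = c.1 := h4.1
        simp only [jv]
        rw [e1, e2]
      · exact h2.elim
      · exact h2.elim
      · exact h4.elim
      · simp only [jv]
      · rfl
      · have e1 : a.1 = b'.1 := h3.1
        simp only [jv]
        rw [e1, ev_add, add_zero]
      · have e1 : a.1 = b.1 := h1.1
        simp only [jv]
        rw [e1, ev_add, add_zero]
      · have e1 : a.1 = b.1 := h1.1
        have e2 : a.1 = b'.1 := h3.1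
        simp only [jv]
        rw [← e1, ← e2]
    rw [this]

lemma join_not_cyclic (q : ℕ) : ¬ IsCyclic (Pi1 (join q) (Sum.inl 0)) := by
  have hne : (0 : Fin (q + 2)) ≠ 1 := by simp
  have a1 : ∀ x, (join q).Adj (Sum.inl 0) (Sum.inr x) := fun _ => trivial
  have a2 : ∀ i : Fin 2, (join q).Adj (Sum.inr (i, 0)) (Sum.inr (i, 1)) := fun i => ⟨rfl, hne⟩
  have a3 : ∀ x, (join q).Adj (Sum.inr x) (Sum.inl 0) := fun _ => trivial
  refine not_cyclic _ (join_flat q) (Sum.inl 0)
    (Walk.cons (a1 (0, 0)) (Walk.cons (a2 0) (Walk.cons (a3 (0, 1)) Walk.nil)))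
    (Walk.cons (a1 (1, 0)) (Walk.cons (a2 1) (Walk.cons (a3 (1, 1)) Walk.nil))) ?_ ?_
  · simp [hol, jv, ev]
  · simp [hol, jv, ev]

lemma join_deg (q : ℕ) (x : Fin (q + 3) ⊕ (Fin 2 × Fin (q + 2))) :
    2 * q + 4 ≤ (join q).degree x := by
  classical
  rcases x with x | ⟨i, x⟩
  · have hsub : (univ : Finset (Fin 2 × Fin (q + 2))).image
        (fun z => (Sum.inr z : Fin (q + 3) ⊕ (Fin 2 × Fin (q + 2)))) ⊆
        (join q).neighborFinset (Sum.inl x) := by
      intro z hz
      rw [mem_image] at hz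
      obtain ⟨y, _, rfl⟩ := hz
      rw [mem_neighborFinset]
      exact trivial
    have h3 := Finset.card_le_card hsub
    rw [Finset.card_image_of_injective _ Sum.inr_injective, card_univ, Fintype.card_prod,
      Fintype.card_fin, Fintype.card_fin, card_neighborFinset_eq_degree] at h3
    omega
  · have hsub : (univ : Finset (Fin (q + 3))).image
        (fun z => (Sum.inl z : Fin (q + 3) ⊕ (Fin 2 × Fin (q + 2)))) ∪
        ((univ : Finset (Fin (q + 2))).erase x).image
        (fun z => (Sum.inr (i, z) : Fin (q + 3) ⊕ (Fin 2 × Fin (q + 2)))) ⊆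
        (join q).neighborFinset (Sum.inr (i, x)) := by
      intro z hz
      rw [mem_union, mem_image, mem_image] at hz
      rw [mem_neighborFinset]
      rcases hz with ⟨y, _, rfl⟩ | ⟨y, hy, rfl⟩
      · exact trivial
      · exact ⟨rfl, (Finset.ne_of_mem_erase hy).symm⟩
    have h3 := Finset.card_le_card hsub
    rw [Finset.card_union_of_disjoint, Finset.card_image_of_injective _ Sum.inl_injective,
      Finset.card_image_of_injective, card_univ, Fintype.card_fin,
      Finset.card_erase_of_mem (mem_univ _), card_univ, Fintype.card_fin,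
      card_neighborFinset_eq_degree] at h3
    · omega
    · intro y y' h
      simpa using h
    · rw [Finset.disjoint_left]
      intro z hz hz'
      rw [mem_image] at hz hz'
      obtain ⟨y, _, rfl⟩ := hz
      obtain ⟨y', _, h⟩ := hz'
      exact absurd h (by simp)

lemma join_colorable (q : ℕ) : (join q).Colorable (q + 3) := by
  have C : (join q).Coloring (Option (Fin (q + 2))) := Coloring.mk
    (fun x => match x with
      | Sum.inl _ => none
      | Sum.inr y => some y.2) (by
      rintro (x | x) (y | y) h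
      · exact h.elim
      · simp
      · simp
      · have : x.2 ≠ y.2 := h.2
        simpa using this)
  have := C.colorable
  simpa using this

end Pool.Agent.V11181.Cyc
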