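import Pool.Agent.V11181.Cyc4

/-!
# Thresholds for complete graphs: the values
-/

set_option autoImplicit false

namespace Pool.Agent.V11181.Cyc

open SimpleGraph Finset

lemma adm_one {W : Type} (H : SimpleGraph W) : Adm H 1 := by
  intro V _ G _ _ h v
  exfalso
  have : Nonempty V := ⟨v⟩
  have h1 : G.minDegree < Fintype.card V := G.minDegree_lt_card
  have h2 : (G.minDegree : ℝ) < (Fintype.card V : ℝ) := by exact_mod_cast h1
  linarith

lemma le_deltaCyc {W : Type} (H : SimpleGraph W) (α₀ : ℝ)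
    (h2 : ∀ α, 0 ≤ α → α < α₀ → ¬ Adm H α) : α₀ ≤ deltaCyc H := by
  have hm : (1 : ℝ) ∈ {α : ℝ | 0 ≤ α ∧ Adm H α} := ⟨by norm_num, adm_one H⟩
  apply le_csInf ⟨1, hm⟩
  intro α hα
  by_contra hlt
  exact h2 α hα.1 (not_le.1 hlt) hα.2

/-- below `1/3` no `α` is admissible for a graph with a triangle -/
lemma not_adm_three {W : Type} (H : SimpleGraph W) (hH : ¬ H.CliqueFree 3) (α : ℝ) (h0 : 0 ≤ α)
    (h1 : α < 1 / 3) : ¬ Adm H α := by
  classical
  intro hadm
  obtain ⟨m, hm⟩ := exists_nat_gt (α / (2 - 6 * α))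
  have hpos : 0 < 2 - 6 * α := by linarith
  have hm' : α < m * (2 - 6 * α) := by rwa [div_lt_iff₀ hpos] at hm
  have hfree : H.Free (blow (m + 1)) := by
    intro hcon
    apply hH
    have hb : (blow (m + 1)).CliqueFree 3 := by
      intro s hs
      rw [is3Clique_iff] at hs
      obtain ⟨a, b, c, hab, hac, hbc, _⟩ := hs
      exact theta_tf _ _ _ hab hac hbc
    exact hb.comap hcon
  have hdeg : 2 * (m + 1) ≤ (blow (m + 1)).minDegree :=
    le_minDegree_of_forall_le_degree _ _ (fun v => blow_deg (m + 1) v)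
  have hcard : Fintype.card (Option (Fin 6 × Fin (m + 1))) = 6 * (m + 1) + 1 := by
    simp
  have h2 : α * (Fintype.card (Option (Fin 6 × Fin (m + 1))) : ℝ) <
      ((blow (m + 1)).minDegree : ℝ) := by
    have h3 : ((2 * (m + 1) : ℕ) : ℝ) ≤ ((blow (m + 1)).minDegree : ℝ) := by exact_mod_cast hdeg
    rw [hcard]
    push_cast at h3 ⊢
    nlinarith
  exact blow_not_cyclic m (hadm _ (blow (m + 1)) hfree h2 none)

/-- below `(2r-4)/(3r-5)` no `α` is admissible for a graph which is not `(r-1)`-colourable -/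
lemma not_adm_clique {W : Type} (H : SimpleGraph W) (q : ℕ) (hH : ¬ H.Colorable (q + 3)) (α : ℝ)
    (h1 : α < (2 * q + 4) / (3 * q + 7)) : ¬ Adm H α := by
  intro hadm
  have hfree : H.Free (join q) := by
    rintro ⟨f⟩
    exact hH ((join_colorable q).of_hom f.toHom)
  have hdeg : 2 * q + 4 ≤ (join q).minDegree :=
    le_minDegree_of_forall_le_degree _ _ (fun v => join_deg q v)
  have hcard : Fintype.card (Fin (q + 3) ⊕ (Fin 2 × Fin (q + 2))) = 3 * q + 7 := by
    simp
    omega
  have h2 : α * (Fintype.card (Fin (q + 3) ⊕ (Fin 2 × Fin (q + 2))) : ℝ) <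
      ((join q).minDegree : ℝ) := by
    have h3 : ((2 * q + 4 : ℕ) : ℝ) ≤ ((join q).minDegree : ℝ) := by exact_mod_cast hdeg
    rw [hcard]
    rw [lt_div_iff₀ (by positivity)] at h1
    push_cast at h3 ⊢
    linarith
  exact join_not_cyclic q (hadm _ (join q) hfree h2 (Sum.inl 0))

lemma adm_three : Adm (⊤ : SimpleGraph (Fin 3)) (1 / 3) := by
  intro V _ G _ hfree h v
  have : Nonempty V := ⟨v⟩
  have hcf : G.CliqueFree 3 := by
    have := cliqueFree_iff_top_free (G := G) (β := Fin 3)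
    rw [Fintype.card_fin] at this
    exact this.2 hfree
  have hδ : Fintype.card V < 3 * G.minDegree := by
    have : (Fintype.card V : ℝ) < 3 * (G.minDegree : ℝ) := by linarith
    exact_mod_cast this
  refine cyclic_three (fun w => ?_) (fun a b c hab hac hbc => ?_) v
  · have := G.minDegree_le_degree w
    omega
  · classical
    exact hcf {a, b, c} (is3Clique_triple_iff.2 ⟨hab, hac, hbc⟩)

lemma adm_clique (q : ℕ) :
    Adm (⊤ : SimpleGraph (Fin (q + 4))) ((2 * q + 4) / (3 * q + 7)) := by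
  intro V _ G _ hfree h v
  have : Nonempty V := ⟨v⟩
  have hcf : G.CliqueFree (q + 4) := by
    have := cliqueFree_iff_top_free (G := G) (β := Fin (q + 4))
    rw [Fintype.card_fin] at this
    exact this.2 hfree
  have hδ : (2 * q + 4) * Fintype.card V < (3 * q + 7) * G.minDegree := by
    have h7 : (0 : ℝ) < 3 * q + 7 := by positivity
    have h8 : (2 * (q : ℝ) + 4) * (Fintype.card V : ℝ) < (3 * q + 7) * (G.minDegree : ℝ) := by
      rw [div_mul_eq_mul_div, div_lt_iff₀ h7] at h
      linarith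
    exact_mod_cast h8
  exact cyclic_clique hcf (fun w => G.minDegree_le_degree w) hδ v

theorem deltaCyc_three : deltaCyc (⊤ : SimpleGraph (Fin 3)) = 1 / 3 := by
  refine deltaCyc_eq _ _ (by norm_num) adm_three (fun α h0 h1 => not_adm_three _ ?_ α h0 h1)
  have h := cliqueFree_iff_top_free (G := (⊤ : SimpleGraph (Fin 3))) (β := Fin 3)
  rw [Fintype.card_fin] at h
  rw [h]
  exact fun hfree => hfree (IsContained.refl _)

theorem deltaCyc_clique (q : ℕ) :
    deltaCyc (⊤ : SimpleGraph (Fin (q + 4))) = (2 * q + 4) / (3 * q + 7) := by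
  refine deltaCyc_eq _ _ (by positivity) (adm_clique q)
    (fun α _ h1 => not_adm_clique _ q ?_ α h1)
  intro hcol
  have h1 := hcol.chromaticNumber_le
  rw [chromaticNumber_top] at h1
  simp only [Fintype.card_fin] at h1
  have : ((q + 4 : ℕ) : ℕ∞) ≤ ((q + 3 : ℕ) : ℕ∞) := by exact_mod_cast h1
  rw [Nat.cast_le] at this
  omega

end Pool.Agent.V11181.Cyc
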