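import Mathlib

/-!
# Sums of identical dice modulo `n`: optimal dice have two values
-/

set_option autoImplicit false

namespace Pool.Agent.V11181.Dice

open Finset

variable {n : ℕ} [NeZero n]

/-- convolution powers -/
noncomputable def cp (p : ZMod n → ℝ) : ℕ → ZMod n → ℝ
  | 0, x => if x = 0 then 1 else 0
  | N + 1, x => ∑ y, p y * cp p N (x - y)

lemma cp_zero (p : ZMod n → ℝ) (x : ZMod n) : cp p 0 x = if x = 0 then 1 else 0 := rfl

lemma cp_succ (p : ZMod n → ℝ) (N : ℕ) (x : ZMod n) :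
    cp p (N + 1) x = ∑ y, p y * cp p N (x - y) := rfl

lemma cp_nonneg (p : ZMod n → ℝ) (hp : ∀ y, 0 ≤ p y) : ∀ (N : ℕ) (x : ZMod n), 0 ≤ cp p N x := by
  intro N
  induction N with
  | zero => intro x; rw [cp_zero]; split_ifs <;> norm_num
  | succ N ih => intro x; rw [cp_succ]; exact Finset.sum_nonneg fun y _ => mul_nonneg (hp y) (ih _)

lemma cp_sum (p : ZMod n → ℝ) (hp : ∑ y, p y = 1) : ∀ N : ℕ, ∑ x, cp p N x = 1 := by
  intro N
  induction N with
  | zero => simp [cp_zero]
  | succ N ih =>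
    simp_rw [cp_succ]
    rw [Finset.sum_comm]
    have h1 : ∀ y : ZMod n, ∑ x, p y * cp p N (x - y) = p y := by
      intro y
      rw [← Finset.mul_sum]
      have : ∑ x, cp p N (x - y) = ∑ x, cp p N x :=
        Fintype.sum_equiv (Equiv.subRight y) _ _ (fun x => rfl)
      rw [this, ih, mul_one]
    rw [Finset.sum_congr rfl fun y _ => h1 y, hp]

lemma cp_cont : ∀ (N : ℕ) (x : ZMod n), Continuous (fun p : ZMod n → ℝ => cp p N x) := by
  intro N
  induction N with
  | zero => intro x; simp only [cp_zero]; exact continuous_const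
  | succ N ih =>
    intro x
    simp only [cp_succ]
    exact continuous_finsetSum _ fun y _ => (continuous_apply y).mul (ih _)

/-- lower bound after moving a little mass to `j` -/
lemma cp_mix (p : ZMod n → ℝ) (hp : ∀ y, 0 ≤ p y) (ε : ℝ) (h0 : 0 ≤ ε) (h1 : ε ≤ 1)
    (j : ZMod n) : ∀ (N : ℕ) (x : ZMod n),
    (1 - ε) ^ (N + 1) * cp p (N + 1) x + (N + 1) * (ε * (1 - ε) ^ N) * cp p N (x - j) ≤
      cp (fun y => (1 - ε) * p y + ε * (if y = j then 1 else 0)) (N + 1) x := by
  have hexp : ∀ (q : ZMod n → ℝ) (x : ZMod n),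
      ∑ y, ((1 - ε) * p y + ε * (if y = j then 1 else 0)) * q (x - y) =
        (1 - ε) * ∑ y, p y * q (x - y) + ε * q (x - j) := by
    intro q x
    rw [Finset.mul_sum]
    have : ∀ y, ((1 - ε) * p y + ε * (if y = j then 1 else 0)) * q (x - y) =
        (1 - ε) * (p y * q (x - y)) + (if y = j then ε * q (x - y) else 0) := by
      intro y
      split_ifs <;> ring
    rw [Finset.sum_congr rfl fun y _ => this y, Finset.sum_add_distrib]
    simp
  have hone : 0 ≤ 1 - ε := by linarith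
  intro N
  induction N with
  | zero =>
    intro x
    rw [cp_succ, cp_succ, hexp]
    simp only [cp_zero]
    norm_num
  | succ N ih =>
    intro x
    rw [cp_succ (fun y => (1 - ε) * p y + ε * (if y = j then 1 else 0)), hexp]
    -- lower bound for the two parts
    have hA : ∑ y, p y * ((1 - ε) ^ (N + 1) * cp p (N + 1) (x - y) +
        (N + 1) * (ε * (1 - ε) ^ N) * cp p N (x - y - j)) ≤
        ∑ y, p y * cp (fun y => (1 - ε) * p y + ε * (if y = j then 1 else 0)) (N + 1) (x - y) :=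
      Finset.sum_le_sum fun y _ => mul_le_mul_of_nonneg_left (ih (x - y)) (hp y)
    have hB : ∑ y, p y * ((1 - ε) ^ (N + 1) * cp p (N + 1) (x - y) +
        (N + 1) * (ε * (1 - ε) ^ N) * cp p N (x - y - j)) =
        (1 - ε) ^ (N + 1) * cp p (N + 2) x +
        (N + 1) * (ε * (1 - ε) ^ N) * cp p (N + 1) (x - j) := by
      rw [cp_succ p (N + 1), cp_succ p N, Finset.mul_sum, Finset.mul_sum, ← Finset.sum_add_distrib]
      refine Finset.sum_congr rfl fun y _ => ?_
      have : x - y - j = x - j - y := by ring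
      rw [this]
      ring
    have hC : (1 - ε) ^ (N + 1) * cp p (N + 1) (x - j) ≤
        cp (fun y => (1 - ε) * p y + ε * (if y = j then 1 else 0)) (N + 1) (x - j) := by
      have h2 := ih (x - j)
      have h3 : 0 ≤ ((N : ℝ) + 1) * (ε * (1 - ε) ^ N) * cp p N (x - j - j) := by
        have := cp_nonneg p hp N (x - j - j)
        positivity
      linarith
    have hD := mul_le_mul_of_nonneg_left (hB ▸ hA) hone
    have hE := mul_le_mul_of_nonneg_left hC h0
    push_cast
    calc (1 - ε) ^ (N + 1 + 1) * cp p (N + 1 + 1) x +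
          ((N : ℝ) + 1 + 1) * (ε * (1 - ε) ^ (N + 1)) * cp p (N + 1) (x - j)
        = (1 - ε) * ((1 - ε) ^ (N + 1) * cp p (N + 2) x +
          (N + 1) * (ε * (1 - ε) ^ N) * cp p (N + 1) (x - j)) +
          ε * ((1 - ε) ^ (N + 1) * cp p (N + 1) (x - j)) := by ring
      _ ≤ _ := add_le_add hD hE

/-- an optimal distribution -/
lemma exists_opt (N : ℕ) (k : ZMod n) : ∃ p : ZMod n → ℝ, (∀ y, 0 ≤ p y) ∧ ∑ y, p y = 1 ∧
    ∀ p' : ZMod n → ℝ, (∀ y, 0 ≤ p' y) → ∑ y, p' y = 1 → cp p' N k ≤ cp p N k := by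
  have hne : (stdSimplex ℝ (ZMod n)).Nonempty := ⟨Pi.single 0 1, single_mem_stdSimplex ℝ 0⟩
  obtain ⟨p, hp, hmax⟩ := (isCompact_stdSimplex ℝ (ZMod n)).exists_isMaxOn hne
    (cp_cont N k).continuousOn
  exact ⟨p, hp.1, hp.2, fun p' h1 h2 => hmax ⟨h1, h2⟩⟩

/-- the first order condition -/
lemma grad_le (N : ℕ) (k : ZMod n) (p : ZMod n → ℝ) (hp : ∀ y, 0 ≤ p y) (hs : ∑ y, p y = 1)
    (hmax : ∀ p' : ZMod n → ℝ, (∀ y, 0 ≤ p' y) → ∑ y, p' y = 1 → cp p' (N + 1) k ≤ cp p (N + 1) k)
    (j : ZMod n) : cp p N (k - j) ≤ cp p (N + 1) k := by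
  obtain ⟨F, hF⟩ : ∃ F, F = cp p (N + 1) k := ⟨_, rfl⟩
  obtain ⟨g, hg⟩ : ∃ g, g = cp p N (k - j) := ⟨_, rfl⟩
  have hg0 : 0 ≤ g := by rw [hg]; exact cp_nonneg p hp _ _
  have key : ∀ ε : ℝ, 0 < ε → ε < 1 → (1 - ε) ^ N * g ≤ F := by
    intro ε h0 h1
    have h2 := cp_mix p hp ε h0.le h1.le j N k
    have h3 := hmax (fun y => (1 - ε) * p y + ε * (if y = j then 1 else 0))
      (fun y => by
        have := hp y
        have h4 : 0 ≤ 1 - ε := by linarith
        split_ifs <;> positivity)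
      (by
        rw [Finset.sum_add_distrib, ← Finset.mul_sum, ← Finset.mul_sum, hs]
        simp)
    have h4 := h2.trans h3
    rw [← hF, ← hg] at h4
    have h5 : 1 + ((N + 1 : ℕ) : ℝ) * (-ε) ≤ (1 + -ε) ^ (N + 1) :=
      one_add_mul_le_pow (by linarith) (N + 1)
    have hF0 : 0 ≤ F := by rw [hF]; exact cp_nonneg p hp _ _
    have h6 : (1 - ((N : ℝ) + 1) * ε) * F ≤ (1 - ε) ^ (N + 1) * F := by
      apply mul_le_mul_of_nonneg_right _ hF0
      push_cast at h5
      have : (1 + -ε) = 1 - ε := by ring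
      rw [this] at h5
      linarith
    have h7 : ((N : ℝ) + 1) * ε * ((1 - ε) ^ N * g) ≤ ((N : ℝ) + 1) * ε * F := by
      have : ((N : ℝ) + 1) * ε * ((1 - ε) ^ N * g) = (N + 1) * (ε * (1 - ε) ^ N) * g := by ring
      rw [this]
      linarith
    exact le_of_mul_le_mul_left h7 (by positivity)
  rw [← hF, ← hg]
  refine le_of_forall_pos_le_add fun δ hδ => ?_
  obtain ⟨m, hm⟩ := exists_nat_gt ((N * g + 1) / δ)
  have hNg : 0 ≤ (N : ℝ) * g := by positivity
  have hm0 : (0 : ℝ) < m := lt_trans (by positivity) hm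
  have h1 := key (1 / ((m : ℝ) + 1)) (by positivity) (by
    rw [div_lt_one (by positivity)]; linarith)
  have h2 : 1 + (N : ℝ) * (-(1 / ((m : ℝ) + 1))) ≤ (1 + -(1 / ((m : ℝ) + 1))) ^ N := by
    apply one_add_mul_le_pow
    have : 1 / ((m : ℝ) + 1) ≤ 1 := by
      rw [div_le_one (by positivity)]; linarith
    linarith
  have h3 : (1 + -(1 / ((m : ℝ) + 1))) = 1 - 1 / ((m : ℝ) + 1) := by ring
  rw [h3] at h2
  have h4 := mul_le_mul_of_nonneg_right h2 hg0
  have h5 : (N : ℝ) * g / ((m : ℝ) + 1) ≤ δ := by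
    rw [div_le_iff₀ (by positivity)]
    rw [div_lt_iff₀ hδ] at hm
    nlinarith
  have h6 : (1 + (N : ℝ) * (-(1 / ((m : ℝ) + 1)))) * g = g - N * g / ((m : ℝ) + 1) := by ring
  rw [h6] at h4
  linarith

/-- on the support the partial derivatives agree -/
lemma grad_eq (N : ℕ) (k : ZMod n) (p : ZMod n → ℝ) (hp : ∀ y, 0 ≤ p y) (hs : ∑ y, p y = 1)
    (hmax : ∀ p' : ZMod n → ℝ, (∀ y, 0 ≤ p' y) → ∑ y, p' y = 1 → cp p' (N + 1) k ≤ cp p (N + 1) k)
    (j : ZMod n) (hj : p j ≠ 0) : cp p N (k - j) = cp p (N + 1) k := by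
  obtain ⟨F, hF⟩ : ∃ F, F = cp p (N + 1) k := ⟨_, rfl⟩
  have h1 : ∀ y, 0 ≤ p y * (F - cp p N (k - y)) := by
    intro y
    apply mul_nonneg (hp y)
    have := grad_le N k p hp hs hmax y
    rw [← hF] at this
    linarith
  have h2 : ∑ y, p y * (F - cp p N (k - y)) = 0 := by
    simp_rw [mul_sub]
    rw [Finset.sum_sub_distrib, ← Finset.sum_mul, hs, one_mul, ← cp_succ, hF, sub_self]
  have h3 := (Finset.sum_eq_zero_iff_of_nonneg fun y _ => h1 y).1 h2 j (Finset.mem_univ j)
  rcases mul_eq_zero.1 h3 with h4 | h4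
  · exact absurd h4 hj
  · rw [← hF]; linarith

/-- few values -/
lemma supp_card (N : ℕ) (k : ZMod n) (p : ZMod n → ℝ) (hp : ∀ y, 0 ≤ p y) (hs : ∑ y, p y = 1)
    (hmax : ∀ p' : ZMod n → ℝ, (∀ y, 0 ≤ p' y) → ∑ y, p' y = 1 → cp p' (N + 1) k ≤ cp p (N + 1) k) :
    ((univ.filter (fun y => p y ≠ 0)).card : ℝ) * cp p (N + 1) k ≤ 1 := by
  have h1 : ∑ y, cp p N (k - y) = 1 := by
    rw [← cp_sum p hs N]
    exact Fintype.sum_equiv (Equiv.subLeft k) _ _ (fun x => rfl)
  have h2 : ∑ y ∈ univ.filter (fun y => p y ≠ 0), cp p N (k - y) ≤ 1 := by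
    rw [← h1]
    exact Finset.sum_le_sum_of_subset_of_nonneg (Finset.filter_subset _ _)
      (fun y _ _ => cp_nonneg p hp _ _)
  have h3 : ∑ y ∈ univ.filter (fun y => p y ≠ 0), cp p N (k - y) =
      ∑ y ∈ univ.filter (fun y => p y ≠ 0), cp p (N + 1) k := by
    refine Finset.sum_congr rfl fun y hy => ?_
    rw [mem_filter] at hy
    exact grad_eq N k p hp hs hmax y hy.2
  rw [h3, Finset.sum_const, nsmul_eq_mul] at h2
  exact h2

/-- binomial probabilities -/
noncomputable def bin (q : ℝ) (N j : ℕ) : ℝ := (N.choose j : ℝ) * q ^ j * (1 - q) ^ (N - j)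

lemma bin_zero_succ (q : ℝ) (N : ℕ) : bin q (N + 1) 0 = (1 - q) * bin q N 0 := by
  unfold bin
  simp [pow_succ]
  ring

lemma bin_succ_succ (q : ℝ) (N j : ℕ) (hj : j ≤ N) :
    bin q (N + 1) (j + 1) = (1 - q) * bin q N (j + 1) + q * bin q N j := by
  unfold bin
  rw [Nat.choose_succ_succ]
  push_cast
  rcases Nat.lt_or_ge j N with h | h
  · obtain ⟨i, rfl⟩ := Nat.exists_eq_add_of_lt h
    have h2 : j + i + 1 - (j + 1) = i := by omega
    have h3 : j + i + 1 - j = i + 1 := by omega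
    simp only [Nat.succ_eq_add_one, h2, h3]
    ring
  · have : j = N := by omega
    subst this
    simp
    ring

lemma bin_gt (q : ℝ) (N j : ℕ) (h : N < j) : bin q N j = 0 := by
  unfold bin
  rw [Nat.choose_eq_zero_of_lt h]
  simp

lemma bin_nonneg (q : ℝ) (h0 : 0 ≤ q) (h1 : q ≤ 1) (N j : ℕ) : 0 ≤ bin q N j := by
  unfold bin
  have : 0 ≤ 1 - q := by linarith
  positivity

lemma bin_sum (q : ℝ) (N : ℕ) : ∑ j ∈ range (N + 1), bin q N j = 1 := by
  have h := add_pow q (1 - q) N
  have h2 : q + (1 - q) = 1 := by ring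
  rw [h2, one_pow] at h
  rw [h]
  refine Finset.sum_congr rfl fun j _ => ?_
  unfold bin
  ring

/-- convolution powers of two valued distributions -/
lemma cp_two (a c : ZMod n) (q : ℝ) : ∀ (N : ℕ) (x : ZMod n),
    cp (fun y => (if y = a then 1 - q else 0) + (if y = a + c then q else 0)) N x =
      ∑ j ∈ range (N + 1), if (N : ZMod n) * a + j * c = x then bin q N j else 0 := by
  intro N
  induction N with
  | zero =>
    intro x
    rw [cp_zero]
    simp [bin, eq_comm]
  | succ N ih =>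
    intro x
    rw [cp_succ]
    have h1 : ∀ f : ZMod n → ℝ, ∑ y, ((if y = a then 1 - q else 0) +
        (if y = a + c then q else 0)) * f y = (1 - q) * f a + q * f (a + c) := by
      intro f
      simp_rw [add_mul, ite_mul, zero_mul]
      rw [Finset.sum_add_distrib]
      simp
    rw [h1 (fun y => cp _ N (x - y))]
    simp only [ih]
    rw [Finset.sum_range_succ' (fun j => if ((N + 1 : ℕ) : ZMod n) * a + (j : ZMod n) * c = x
      then bin q (N + 1) j else 0) (N + 1)]
    have h2 : ∑ j ∈ range (N + 1), (if ((N + 1 : ℕ) : ZMod n) * a + ((j + 1 : ℕ) : ZMod n) * c = x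
        then bin q (N + 1) (j + 1) else 0) =
        (1 - q) * (∑ j ∈ range (N + 1), if ((N + 1 : ℕ) : ZMod n) * a + ((j + 1 : ℕ) : ZMod n) * c = x
          then bin q N (j + 1) else 0) +
        q * ∑ j ∈ range (N + 1), if ((N + 1 : ℕ) : ZMod n) * a + ((j + 1 : ℕ) : ZMod n) * c = x
          then bin q N j else 0 := by
      rw [Finset.mul_sum, Finset.mul_sum, ← Finset.sum_add_distrib]
      refine Finset.sum_congr rfl fun j hj => ?_
      rw [mem_range] at hj
      split_ifs
      · exact bin_succ_succ q N j (by omega)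
      · ring
    rw [h2]
    have h3 : ∑ j ∈ range (N + 1), (if (N : ZMod n) * a + (j : ZMod n) * c = x - a
        then bin q N j else 0) =
        (∑ j ∈ range (N + 1), if ((N + 1 : ℕ) : ZMod n) * a + ((j + 1 : ℕ) : ZMod n) * c = x
          then bin q N (j + 1) else 0) +
        if ((N + 1 : ℕ) : ZMod n) * a + ((0 : ℕ) : ZMod n) * c = x then bin q N 0 else 0 := by
      rw [← Finset.sum_range_succ' (fun j => if ((N + 1 : ℕ) : ZMod n) * a + (j : ZMod n) * c = x
        then bin q N j else 0) (N + 1)]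
      rw [Finset.sum_range_succ _ (N + 1), bin_gt q N (N + 1) (by omega)]
      simp only [ite_self, add_zero]
      refine Finset.sum_congr rfl fun j _ => ?_
      have : ((N : ZMod n) * a + (j : ZMod n) * c = x - a) ↔
          (((N + 1 : ℕ) : ZMod n) * a + (j : ZMod n) * c = x) := by
        push_cast
        constructor
        · intro h; linear_combination h
        · intro h; linear_combination h
      simp only [this]
    have h4 : ∑ j ∈ range (N + 1), (if (N : ZMod n) * a + (j : ZMod n) * c = x - (a + c)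
        then bin q N j else 0) =
        ∑ j ∈ range (N + 1), if ((N + 1 : ℕ) : ZMod n) * a + ((j + 1 : ℕ) : ZMod n) * c = x
          then bin q N j else 0 := by
      refine Finset.sum_congr rfl fun j _ => ?_
      have : ((N : ZMod n) * a + (j : ZMod n) * c = x - (a + c)) ↔
          (((N + 1 : ℕ) : ZMod n) * a + ((j + 1 : ℕ) : ZMod n) * c = x) := by
        push_cast
        constructor
        · intro h; linear_combination h
        · intro h; linear_combination h
      simp only [this]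
    rw [h3, h4, bin_zero_succ]
    split_ifs <;> ring

end Pool.Agent.V11181.Dice
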