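import Pool.Agent.V11181.Dice

/-!
# Two valued dice: the analysis of the possible patterns
-/

set_option autoImplicit false

namespace Pool.Agent.V11181.Dice

open Finset

lemma bin_ratio (q : ℝ) (N j : ℕ) (hj : j < N) :
    bin q N (j + 1) * ((j : ℝ) + 1) * (1 - q) = bin q N j * ((N : ℝ) - j) * q := by
  obtain ⟨l, rfl⟩ := Nat.exists_eq_add_of_lt hj
  unfold bin
  have h1 : j + l + 1 - (j + 1) = l := by omega
  have h2 : j + l + 1 - j = l + 1 := by omega
  have h3 : (((j + l + 1).choose (j + 1) : ℕ) : ℝ) * ((j : ℝ) + 1) =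
      ((j + l + 1).choose j : ℕ) * ((l : ℝ) + 1) := by
    have := Nat.choose_succ_right_eq (j + l + 1) j
    rw [h2] at this
    exact_mod_cast this
  rw [h1, h2]
  push_cast
  have h4 : ((j : ℝ) + l + 1 - j) = l + 1 := by ring
  rw [h4]
  linear_combination q ^ (j + 1) * (1 - q) ^ (l + 1) * h3

lemma four_aux (i l q b0 b1 b2 : ℝ) (hi : 0 ≤ i) (hl : 0 ≤ l) (h0 : 0 < q) (h1 : q < 1)
    (hb2 : 0 < b2) (R1 : b1 * (i + 1) * (1 - q) = b0 * (l + 3) * q)
    (R2 : b2 * (i + 2) * (1 - q) = b1 * (l + 2) * q) :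
    (i + l + 2) * (2 * b1 - b2) ≤ 2 * (i + l + 3) * b0 := by
  have hq : 0 < 1 - q := by linarith
  have E1 : b0 * b2 * ((i + 2) * (l + 3)) = b1 ^ 2 * ((i + 1) * (l + 2)) := by
    have h : (q * (1 - q)) * (b0 * b2 * ((i + 2) * (l + 3))) =
        (q * (1 - q)) * (b1 ^ 2 * ((i + 1) * (l + 2))) := by
      linear_combination (-(b2 * (i + 2) * (1 - q))) * R1 + (b1 * (i + 1) * (1 - q)) * R2
    exact mul_left_cancel₀ (by positivity) h
  have h2 : (i + l + 2) * ((i + 2) * (l + 3)) ≤ 2 * (i + l + 3) * ((i + 1) * (l + 2)) := by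
    have : 2 * (i + l + 3) * ((i + 1) * (l + 2)) - (i + l + 2) * ((i + 2) * (l + 3)) =
      i ^ 2 * l + i * l ^ 2 + i ^ 2 + 5 * (i * l) + 4 * i := by ring
    have h3 : 0 ≤ i ^ 2 * l + i * l ^ 2 + i ^ 2 + 5 * (i * l) + 4 * i := by positivity
    linarith
  have h4 : (2 * b1 - b2) * b2 ≤ b1 ^ 2 := by nlinarith [sq_nonneg (b1 - b2)]
  have h5 : (i + l + 2) * (2 * b1 - b2) * (b2 * ((i + 2) * (l + 3))) ≤
      2 * (i + l + 3) * b0 * (b2 * ((i + 2) * (l + 3))) := by
    calc (i + l + 2) * (2 * b1 - b2) * (b2 * ((i + 2) * (l + 3)))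
        = ((i + l + 2) * ((i + 2) * (l + 3))) * ((2 * b1 - b2) * b2) := by ring
      _ ≤ ((i + l + 2) * ((i + 2) * (l + 3))) * b1 ^ 2 :=
          mul_le_mul_of_nonneg_left h4 (by positivity)
      _ ≤ (2 * (i + l + 3) * ((i + 1) * (l + 2))) * b1 ^ 2 :=
          mul_le_mul_of_nonneg_right h2 (by positivity)
      _ = 2 * (i + l + 3) * (b1 ^ 2 * ((i + 1) * (l + 2))) := by ring
      _ = 2 * (i + l + 3) * (b0 * b2 * ((i + 2) * (l + 3))) := by rw [E1]
      _ = _ := by ring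
  exact le_of_mul_le_mul_right h5 (by positivity)

lemma bin_pos (q : ℝ) (h0 : 0 < q) (h1 : q < 1) (N j : ℕ) (hj : j ≤ N) : 0 < bin q N j := by
  unfold bin
  have h2 : 0 < 1 - q := by linarith
  have h3 : 0 < N.choose j := Nat.choose_pos hj
  positivity

lemma four (q : ℝ) (h0 : 0 < q) (h1 : q < 1) (i l : ℕ) :
    (3 * ((i : ℝ) + l + 3) - 1) * (bin q (i + l + 3) (i + 1) + bin q (i + l + 3) (i + 2)) ≤
      2 * ((i : ℝ) + l + 3) * (bin q (i + l + 3) i + bin q (i + l + 3) (i + 1) +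
        bin q (i + l + 3) (i + 2) + bin q (i + l + 3) (i + 3)) := by
  have r1 := bin_ratio q (i + l + 3) i (by omega)
  have r2 := bin_ratio q (i + l + 3) (i + 1) (by omega)
  have r3 := bin_ratio q (i + l + 3) (i + 2) (by omega)
  have p1 := bin_pos q h0 h1 (i + l + 3) (i + 1) (by omega)
  have p2 := bin_pos q h0 h1 (i + l + 3) (i + 2) (by omega)
  obtain ⟨b0, hb0⟩ : ∃ b, b = bin q (i + l + 3) i := ⟨_, rfl⟩
  obtain ⟨b1, hb1⟩ : ∃ b, b = bin q (i + l + 3) (i + 1) := ⟨_, rfl⟩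
  obtain ⟨b2, hb2⟩ : ∃ b, b = bin q (i + l + 3) (i + 2) := ⟨_, rfl⟩
  obtain ⟨b3, hb3⟩ : ∃ b, b = bin q (i + l + 3) (i + 3) := ⟨_, rfl⟩
  rw [show i + 1 + 1 = i + 2 from rfl] at r2
  rw [show i + 2 + 1 = i + 3 from rfl] at r3
  rw [← hb0, ← hb1] at r1
  rw [← hb1, ← hb2] at r2
  rw [← hb2, ← hb3] at r3
  rw [← hb1] at p1
  rw [← hb2] at p2
  rw [← hb0, ← hb1, ← hb2, ← hb3]
  push_cast at r1 r2 r3
  have hi : (0 : ℝ) ≤ i := Nat.cast_nonneg i
  have hl : (0 : ℝ) ≤ l := Nat.cast_nonneg l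
  have D1 := four_aux i l q b0 b1 b2 hi hl h0 h1 p2 (by linear_combination r1)
    (by linear_combination r2)
  have D2 := four_aux l i (1 - q) b3 b2 b1 hl hi (by linarith) (by linarith) p1
    (by linear_combination -r3) (by linear_combination -r2)
  nlinarith [D1, D2]

variable {n : ℕ}

lemma spacing (k c : ZMod n) (hk : k ≠ 0) (hc : k ≠ c) (hc' : k ≠ -c) (j1 j2 : ℕ)
    (h1 : (j1 : ZMod n) * c = k) (h2 : (j2 : ZMod n) * c = k) (hlt : j1 < j2) : j1 + 4 ≤ j2 := by
  by_contra hcon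
  have h3 : j2 = j1 + 1 ∨ j2 = j1 + 2 ∨ j2 = j1 + 3 := by omega
  rcases h3 with rfl | rfl | rfl
  · push_cast at h2
    have : c = 0 := by linear_combination h2 - h1
    rw [this, mul_zero] at h1
    exact hk h1.symm
  · push_cast at h2
    have h4 : 2 * c = 0 := by linear_combination h2 - h1
    obtain ⟨s, hs | hs⟩ := Nat.even_or_odd' j1
    · rw [hs] at h1
      push_cast at h1
      exact hk (by linear_combination -h1 + (s : ZMod n) * h4)
    · rw [hs] at h1
      push_cast at h1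
      exact hc (by linear_combination -h1 + (s : ZMod n) * h4)
  · push_cast at h2
    have h4 : 3 * c = 0 := by linear_combination h2 - h1
    obtain ⟨s, hs⟩ : ∃ s, s = j1 / 3 := ⟨_, rfl⟩
    have h5 : j1 = 3 * s ∨ j1 = 3 * s + 1 ∨ j1 = 3 * s + 2 := by omega
    rcases h5 with h5 | h5 | h5
    · rw [h5] at h1
      push_cast at h1
      exact hk (by linear_combination -h1 + (s : ZMod n) * h4)
    · rw [h5] at h1
      push_cast at h1
      exact hc (by linear_combination -h1 + (s : ZMod n) * h4)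
    · rw [h5] at h1
      push_cast at h1
      exact hc' (by linear_combination -h1 + ((s : ZMod n) + 1) * h4)

lemma other_pattern (N : ℕ) (hN : n = N + 1) (k c : ZMod n) (hk : k ≠ 0) (hc : k ≠ c)
    (hc' : k ≠ -c) (q : ℝ) (h0 : 0 < q) (h1 : q < 1) (F : ℝ)
    (hF1 : ∑ j ∈ range (N + 1), (if (j : ZMod n) * c = k then bin q N j else 0) = F)
    (hF2 : ∑ j ∈ range (N + 1), (if ((j + 1 : ℕ) : ZMod n) * c = k then bin q N j else 0) = F)
    (hF : 0 < F) : 3 ≤ N ∧ (3 * (N : ℝ) - 1) * F ≤ N := by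
  classical
  have hn0 : ((N + 1 : ℕ) : ZMod n) = 0 := by rw [← hN]; exact ZMod.natCast_self n
  obtain ⟨J, hJ⟩ : ∃ J : Finset ℕ, J = (range (N + 1)).filter
      (fun j : ℕ => (j : ZMod n) * c = k) := ⟨_, rfl⟩
  have hmem : ∀ j, j ∈ J → (j : ZMod n) * c = k ∧ 2 ≤ j ∧ j + 1 ≤ N := by
    intro j hj
    rw [hJ, mem_filter, mem_range] at hj
    refine ⟨hj.2, ?_, ?_⟩
    · by_contra h
      have h2 : j = 0 ∨ j = 1 := by omega
      rcases h2 with rfl | rfl
      · have := hj.2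
        push_cast at this
        rw [zero_mul] at this
        exact hk this.symm
      · have := hj.2
        push_cast at this
        rw [one_mul] at this
        exact hc this.symm
    · by_contra h
      have h2 : j = N := by omega
      have h3 := hj.2
      rw [h2] at h3
      push_cast at hn0
      exact hc' (by linear_combination -h3 + c * hn0)
  have hs1 : ∑ j ∈ J, bin q N j = F := by
    rw [← hF1, hJ, Finset.sum_filter]
  have hs2 : ∑ j ∈ J, bin q N (j - 1) = F := by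
    rw [← hF2, hJ, Finset.sum_filter]
    have e1 := Finset.sum_range_succ' (fun j => if (j : ZMod n) * c = k then bin q N (j - 1) else 0)
      (N + 1)
    have e2 := Finset.sum_range_succ (fun j => if (j : ZMod n) * c = k then bin q N (j - 1) else 0)
      (N + 1)
    have e3 : (if ((N + 1 : ℕ) : ZMod n) * c = k then bin q N (N + 1 - 1) else 0) = 0 := by
      rw [hn0, zero_mul, if_neg (Ne.symm hk)]
    have e4 : (if ((0 : ℕ) : ZMod n) * c = k then bin q N (0 - 1) else 0) = 0 := by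
      rw [Nat.cast_zero, zero_mul, if_neg (Ne.symm hk)]
    rw [e3, add_zero] at e2
    rw [e4, add_zero] at e1
    rw [← e2, e1]
    refine Finset.sum_congr rfl fun j _ => ?_
    simp
  have hJne : J.Nonempty := by
    by_contra h
    rw [Finset.not_nonempty_iff_eq_empty] at h
    rw [h, Finset.sum_empty] at hs1
    linarith
  obtain ⟨j0, hj0⟩ := hJne
  have hN3 : 3 ≤ N := by
    have := hmem j0 hj0
    omega
  refine ⟨hN3, ?_⟩
  -- the four terms
  have hinj : Set.InjOn (fun x : ℕ × ℕ => x.1 - 2 + x.2) (J ×ˢ range 4 : Finset (ℕ × ℕ)) := by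
    intro x hx y hy hxy
    rw [Finset.mem_coe, mem_product, mem_range] at hx hy
    obtain ⟨x1, x2⟩ := x
    obtain ⟨y1, y2⟩ := y
    simp only at hx hy hxy
    have a1 := hmem x1 hx.1
    have a2 := hmem y1 hy.1
    have a3 : x1 = y1 := by
      by_contra hne
      rcases lt_or_gt_of_ne hne with h | h
      · have := spacing k c hk hc hc' x1 y1 a1.1 a2.1 h
        omega
      · have := spacing k c hk hc hc' y1 x1 a2.1 a1.1 h
        omega
    subst a3
    have : x2 = y2 := by omega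
    rw [this]
  have hsum : ∑ x ∈ J ×ˢ range 4, bin q N (x.1 - 2 + x.2) ≤ 1 := by
    rw [← bin_sum q N, ← Finset.sum_image (f := fun i => bin q N i) hinj]
    refine Finset.sum_le_sum_of_subset_of_nonneg ?_ fun i _ _ => bin_nonneg q h0.le h1.le N i
    intro i hi
    rw [mem_image] at hi
    obtain ⟨x, hx, rfl⟩ := hi
    rw [mem_product, mem_range] at hx
    have := hmem x.1 hx.1
    rw [mem_range]
    omega
  rw [Finset.sum_product] at hsum
  have hfour : ∀ j ∈ J, (3 * (N : ℝ) - 1) * (bin q N (j - 1) + bin q N j) ≤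
      2 * (N : ℝ) * ∑ y ∈ range 4, bin q N (j - 2 + y) := by
    intro j hj
    obtain ⟨_, h2, h3⟩ := hmem j hj
    obtain ⟨i, rfl⟩ := Nat.exists_eq_add_of_le h2
    obtain ⟨l, rfl⟩ := Nat.exists_eq_add_of_le h3
    have e1 : 2 + i - 1 = i + 1 := by omega
    have e2 : 2 + i = i + 2 := by omega
    have e3 : 2 + i - 2 = i := by omega
    have e4 : 2 + i + 1 + l = i + l + 3 := by omega
    have h5 := four q h0 h1 i l
    rw [e3, e1, e2]
    have e5 : i + 2 + 1 + l = i + l + 3 := by omega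
    rw [e5]
    have e6 : ∑ y ∈ range 4, bin q (i + l + 3) (i + y) = bin q (i + l + 3) i +
        bin q (i + l + 3) (i + 1) + bin q (i + l + 3) (i + 2) + bin q (i + l + 3) (i + 3) := by
      simp [Finset.sum_range_succ]
    rw [e6]
    push_cast
    exact h5
  have hfin := Finset.sum_le_sum hfour
  rw [← Finset.mul_sum, ← Finset.mul_sum, Finset.sum_add_distrib, hs1, hs2] at hfin
  have hN0 : (0 : ℝ) ≤ N := Nat.cast_nonneg N
  have h6 : 2 * (N : ℝ) * ∑ j ∈ J, ∑ y ∈ range 4, bin q N (j - 2 + y) ≤ 2 * N * 1 :=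
    mul_le_mul_of_nonneg_left hsum (by positivity)
  nlinarith [hfin, h6]

end Pool.Agent.V11181.Dice
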