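import Pool.Agent.V11181.Dice2

/-!
# The optimal dice
-/

set_option autoImplicit false

namespace Pool.Agent.V11181.Dice

open Finset

/-- `(1 - 1/(N+1))^N` is at least `1/e` -/
lemma pow_lower (N : ℕ) : Real.exp (-1) ≤ (1 - 1 / ((N : ℝ) + 1)) ^ N := by
  rcases Nat.eq_zero_or_pos N with rfl | hN
  · simp
  have hN0 : (0 : ℝ) < N := by exact_mod_cast hN
  have h1 : 1 + 1 / (N : ℝ) ≤ Real.exp (1 / N) := by
    have := Real.add_one_le_exp (1 / (N : ℝ))
    linarith
  have h2 : (1 + 1 / (N : ℝ)) ^ N ≤ Real.exp 1 := by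
    calc (1 + 1 / (N : ℝ)) ^ N ≤ (Real.exp (1 / N)) ^ N :=
          pow_le_pow_left₀ (by positivity) h1 N
      _ = Real.exp 1 := by
          rw [← Real.exp_nat_mul]
          congr 1
          field_simp
  have h3 : (1 - 1 / ((N : ℝ) + 1)) * (1 + 1 / (N : ℝ)) = 1 := by
    field_simp
    ring
  have h4 : (1 - 1 / ((N : ℝ) + 1)) ^ N * (1 + 1 / (N : ℝ)) ^ N = 1 := by
    rw [← mul_pow, h3, one_pow]
  have h5 : 0 < (1 + 1 / (N : ℝ)) ^ N := by positivity
  have h6 : (1 - 1 / ((N : ℝ) + 1)) ^ N = 1 / (1 + 1 / (N : ℝ)) ^ N := by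
    rw [eq_div_iff h5.ne']
    exact h4
  rw [h6, Real.exp_neg, ← one_div]
  exact one_div_le_one_div_of_le h5 h2

lemma exp_gt : (4 : ℝ) / 11 < Real.exp (-1) := by
  rw [Real.exp_neg, lt_inv_comm₀ (by norm_num) (Real.exp_pos 1)]
  have := Real.exp_one_lt_d9
  norm_num
  linarith

/-- numerical comparison -/
lemma other_small (N : ℕ) (hN : 3 ≤ N) (F : ℝ) (h1 : (3 * (N : ℝ) - 1) * F ≤ N)
    (h2 : (1 - 1 / ((N : ℝ) + 1)) ^ N ≤ F) : False := by
  rcases Nat.lt_or_ge N 4 with h | h
  · have : N = 3 := by omega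
    subst this
    norm_num at h1 h2
    linarith
  · have h3 := pow_lower N
    have h4 := exp_gt
    have h5 : (4 : ℝ) / 11 < F := by linarith
    have h6 : (4 : ℝ) ≤ N := by exact_mod_cast h
    nlinarith

variable {n : ℕ} [NeZero n]

lemma lower_cp (N : ℕ) (k : ZMod n) (p : ZMod n → ℝ)
    (hmax : ∀ p' : ZMod n → ℝ, (∀ y, 0 ≤ p' y) → ∑ y, p' y = 1 → cp p' (N + 1) k ≤ cp p (N + 1) k)
    (q : ℝ) (h0 : 0 ≤ q) (h1 : q ≤ 1) :
    ∑ j ∈ range (N + 1 + 1), (if (j : ZMod n) * k = k then bin q (N + 1) j else 0) ≤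
      cp p (N + 1) k := by
  have h2 := hmax (fun y => (if y = 0 then 1 - q else 0) + (if y = 0 + k then q else 0))
    (fun y => by
      have : 0 ≤ 1 - q := by linarith
      split_ifs <;> positivity)
    (by rw [Finset.sum_add_distrib]; simp)
  rw [cp_two 0 k q (N + 1) k] at h2
  simpa using h2

lemma one_term (N : ℕ) (k : ZMod n) (q : ℝ) (h0 : 0 ≤ q) (h1 : q ≤ 1) :
    ((N : ℝ) + 1) * q * (1 - q) ^ N ≤
      ∑ j ∈ range (N + 1 + 1), (if (j : ZMod n) * k = k then bin q (N + 1) j else 0) := by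
  have h2 : (if ((1 : ℕ) : ZMod n) * k = k then bin q (N + 1) 1 else 0) =
      ((N : ℝ) + 1) * q * (1 - q) ^ N := by
    rw [Nat.cast_one, one_mul, if_pos rfl]
    unfold bin
    simp
  rw [← h2]
  refine Finset.single_le_sum (f := fun j : ℕ => if (j : ZMod n) * k = k then bin q (N + 1) j else 0)
    (fun j _ => ?_) (mem_range.2 (by omega))
  have := bin_nonneg q h0 h1 (N + 1) j
  split_ifs
  · exact this
  · exact le_rfl

lemma opt_lower (N : ℕ) (k : ZMod n) (p : ZMod n → ℝ)
    (hmax : ∀ p' : ZMod n → ℝ, (∀ y, 0 ≤ p' y) → ∑ y, p' y = 1 → cp p' (N + 1) k ≤ cp p (N + 1) k) :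
    (1 - 1 / ((N : ℝ) + 1)) ^ N ≤ cp p (N + 1) k := by
  have hN0 : (0 : ℝ) ≤ N := Nat.cast_nonneg N
  have h1 : 1 / ((N : ℝ) + 1) ≤ 1 := by
    rw [div_le_one (by positivity)]
    linarith
  have h2 := one_term N k (1 / ((N : ℝ) + 1)) (by positivity) h1
  have h3 := lower_cp N k p hmax (1 / ((N : ℝ) + 1)) (by positivity) h1
  have h4 : ((N : ℝ) + 1) * (1 / ((N : ℝ) + 1)) = 1 := by field_simp
  rw [h4, one_mul] at h2
  linarith

/-- the reflected sum -/
lemma reflect (N : ℕ) (hN : n = N + 1) (k : ZMod n) (q : ℝ) :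
    ∑ j ∈ range (N + 1 + 1), (if (j : ZMod n) * (-k) = k then bin q (N + 1) j else 0) =
    ∑ j ∈ range (N + 1 + 1), (if (j : ZMod n) * k = k then bin (1 - q) (N + 1) j else 0) := by
  have hn0 : ((N + 1 : ℕ) : ZMod n) = 0 := by rw [← hN]; exact ZMod.natCast_self n
  rw [← Finset.sum_range_reflect (fun j => if (j : ZMod n) * (-k) = k then bin q (N + 1) j else 0)]
  refine Finset.sum_congr rfl fun j hj => ?_
  rw [mem_range] at hj
  have h1 : N + 1 + 1 - 1 - j = N + 1 - j := by omega
  simp only [h1]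
  have h2 : ((N + 1 - j : ℕ) : ZMod n) * (-k) = (j : ZMod n) * k := by
    rw [Nat.cast_sub (by omega), hn0]
    ring
  rw [h2]
  congr 1
  unfold bin
  have h3 : N + 1 - (N + 1 - j) = j := by omega
  rw [h3, Nat.choose_symm (by omega)]
  ring

theorem opt_form (N : ℕ) (hN : n = N + 1) (k : ZMod n) (hk : k ≠ 0)
    (p : ZMod n → ℝ) (hp : ∀ y, 0 ≤ p y) (hs : ∑ y, p y = 1)
    (hmax : ∀ p' : ZMod n → ℝ, (∀ y, 0 ≤ p' y) → ∑ y, p' y = 1 →
      cp p' (N + 1) k ≤ cp p (N + 1) k) :
    ∃ q : ℝ, 0 ≤ q ∧ q ≤ 1 ∧ cp p (N + 1) k =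
      ∑ j ∈ range (N + 1 + 1), (if (j : ZMod n) * k = k then bin q (N + 1) j else 0) := by
  classical
  have hn0 : ((N + 1 : ℕ) : ZMod n) = 0 := by rw [← hN]; exact ZMod.natCast_self n
  have hlow := opt_lower N k p hmax
  have hexp := pow_lower N
  have h411 := exp_gt
  have hF0 : (4 : ℝ) / 11 < cp p (N + 1) k := by linarith
  have hsupp := supp_card N k p hp hs hmax
  obtain ⟨S, hS⟩ : ∃ S : Finset (ZMod n), S = univ.filter (fun y => p y ≠ 0) := ⟨_, rfl⟩
  rw [← hS] at hsupp
  have hmemS : ∀ y, y ∈ S ↔ p y ≠ 0 := by intro y; rw [hS]; simp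
  have hcard : S.card ≤ 2 := by
    by_contra h
    have h3 : (3 : ℝ) ≤ S.card := by exact_mod_cast (by omega : 3 ≤ S.card)
    nlinarith
  have hSsum : ∑ y ∈ S, p y = 1 := by
    rw [hS, Finset.sum_filter_ne_zero, hs]
  have hcard1 : S.card = 0 ∨ S.card = 1 ∨ S.card = 2 := by omega
  rcases hcard1 with hc | hc | hc
  · rw [Finset.card_eq_zero] at hc
    rw [hc, Finset.sum_empty] at hSsum
    norm_num at hSsum
  · obtain ⟨a, ha⟩ := Finset.card_eq_one.1 hc
    exfalso
    rw [ha, Finset.sum_singleton] at hSsum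
    have hpf : p = fun y => (if y = a then 1 - 0 else 0) + (if y = a + k then (0 : ℝ) else 0) := by
      funext y
      by_cases hy : y = a
      · simp [hy, hSsum]
      · have h2 : p y = 0 := by
          by_contra h
          have := (hmemS y).2 h
          rw [ha, mem_singleton] at this
          exact hy this
        simp [hy, h2]
    have h5 : cp p (N + 1) k = 0 := by
      rw [hpf, cp_two a k 0 (N + 1) k]
      refine Finset.sum_eq_zero fun j _ => ?_
      rcases Nat.eq_zero_or_pos j with rfl | hj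
      · rw [hn0]
        simp only [zero_mul, Nat.cast_zero, add_zero]
        rw [if_neg (Ne.symm hk)]
      · have : bin 0 (N + 1) j = 0 := by
          unfold bin
          rw [zero_pow (by omega)]
          ring
        rw [this, ite_self]
    linarith
  · obtain ⟨a, b, hab, hSab⟩ := Finset.card_eq_two.1 hc
    obtain ⟨c, hcb⟩ : ∃ c, b = a + c := ⟨b - a, by ring⟩
    have hc0 : c ≠ 0 := by
      rintro rfl
      exact hab (by rw [hcb, add_zero])
    have hpa : p a ≠ 0 := (hmemS a).1 (by rw [hSab]; simp)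
    have hpb : p b ≠ 0 := (hmemS b).1 (by rw [hSab]; simp)
    rw [hSab, Finset.sum_pair hab] at hSsum
    obtain ⟨q, hq⟩ : ∃ q, q = p b := ⟨_, rfl⟩
    have hpa' : p a = 1 - q := by rw [hq]; linarith
    have hpapos : 0 < p a := lt_of_le_of_ne (hp a) (Ne.symm hpa)
    have hq0 : 0 < q := by rw [hq]; exact lt_of_le_of_ne (hp b) (Ne.symm hpb)
    have hq1 : q < 1 := by linarith
    have hpf : p = fun y => (if y = a then 1 - q else 0) + (if y = a + c then q else 0) := by
      funext y
      by_cases hy : y = a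
      · subst hy
        have : ¬ (y = y + c) := by
          intro h
          exact hc0 (by linear_combination -h)
        rw [if_pos rfl, if_neg this, add_zero, hpa']
      · by_cases hy2 : y = a + c
        · rw [if_neg hy, if_pos hy2, zero_add, hy2, ← hcb, hq]
        · rw [if_neg hy, if_neg hy2, add_zero]
          by_contra h
          have := (hmemS y).2 h
          rw [hSab, mem_insert, mem_singleton] at this
          rcases this with h3 | h3
          · exact hy h3
          · exact hy2 (h3.trans hcb)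
    have e1 : cp p (N + 1) k =
        ∑ j ∈ range (N + 1 + 1), (if (j : ZMod n) * c = k then bin q (N + 1) j else 0) := by
      rw [hpf, cp_two a c q (N + 1) k]
      refine Finset.sum_congr rfl fun j _ => ?_
      rw [hn0, zero_mul, zero_add]
    by_cases hkc : k = c
    · refine ⟨q, hq0.le, hq1.le, ?_⟩
      rw [e1, ← hkc]
    by_cases hkc' : k = -c
    · refine ⟨1 - q, by linarith, by linarith, ?_⟩
      rw [e1, ← reflect N hN k q]
      have : c = -k := by rw [hkc', neg_neg]
      rw [this]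
    exfalso
    have g1 := grad_eq N k p hp hs hmax a hpa
    have g2 := grad_eq N k p hp hs hmax b hpb
    have hn0' : (N : ZMod n) + 1 = 0 := by exact_mod_cast hn0
    have f1 : ∑ j ∈ range (N + 1), (if (j : ZMod n) * c = k then bin q N j else 0) =
        cp p (N + 1) k := by
      rw [← g1]
      conv_rhs => rw [hpf]
      rw [cp_two a c q N (k - a)]
      refine Finset.sum_congr rfl fun j _ => ?_
      have : ((j : ZMod n) * c = k) ↔ ((N : ZMod n) * a + j * c = k - a) := by
        constructor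
        · intro h; linear_combination h + a * hn0'
        · intro h; linear_combination h - a * hn0'
      simp only [this]
    have f2 : ∑ j ∈ range (N + 1), (if ((j + 1 : ℕ) : ZMod n) * c = k then bin q N j else 0) =
        cp p (N + 1) k := by
      rw [← g2]
      conv_rhs => rw [hpf]
      rw [cp_two a c q N (k - b)]
      refine Finset.sum_congr rfl fun j _ => ?_
      have : (((j + 1 : ℕ) : ZMod n) * c = k) ↔ ((N : ZMod n) * a + j * c = k - b) := by
        rw [hcb]
        push_cast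
        constructor
        · intro h; linear_combination h + a * hn0'
        · intro h; linear_combination h - a * hn0'
      simp only [this]
    obtain ⟨hN3, hle⟩ := other_pattern N hN k c hk hkc hkc' q hq0 hq1 _ f1 f2 (by linarith)
    exact other_small N hN3 _ hle hlow

end Pool.Agent.V11181.Dice
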