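import Mathlib

/-!
# Complete flags and simultaneous generation: definitions and the lower bound
-/

set_option autoImplicit false

namespace Pool.Agent.V11181

open Finset

universe u

/-- A complete flag in `K ^ d`: subspaces `sub 0 ≤ sub 1 ≤ ... ≤ sub d` with `dim (sub i) = i`
(the values `sub i` for `i > d` are irrelevant). -/
structure Flag (K : Type u) [Field K] (d : ℕ) where
  /-- the subspaces -/
  sub : ℕ → Submodule K (Fin d → K)
  /-- they are nested -/
  mono : ∀ i, i < d → sub i ≤ sub (i + 1)
  /-- they have the right dimension -/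
  finrank_eq : ∀ i, i ≤ d → Module.finrank K (sub i) = i

/-- A finite set of vectors generates the flag if each of its subspaces is spanned by a subset. -/
def Flag.GeneratedBy {K : Type u} [Field K] {d : ℕ} (F : Flag K d) (S : Finset (Fin d → K)) :
    Prop :=
  ∀ i, i ≤ d → ∃ T : Set (Fin d → K), T ⊆ S ∧ Submodule.span K T = F.sub i

variable {K : Type u} [Field K] {d : ℕ}

/-- The vector `v` has level `i` in the flag `F`. -/
def Flag.Lev (F : Flag K d) (i : ℕ) (v : Fin d → K) : Prop := v ∈ F.sub (i + 1) ∧ v ∉ F.sub i

theorem Flag.mono' (F : Flag K d) {i j : ℕ} (hij : i ≤ j) (hj : j ≤ d) : F.sub i ≤ F.sub j := by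
  induction hij with
  | refl => exact le_rfl
  | step h ih => exact (ih (by omega)).trans (F.mono _ (by omega))

theorem Flag.sub_zero (F : Flag K d) : F.sub 0 = ⊥ :=
  Submodule.finrank_eq_zero.1 (F.finrank_eq 0 (Nat.zero_le _))

theorem Flag.sub_top (F : Flag K d) : F.sub d = ⊤ := by
  apply Submodule.eq_top_of_finrank_eq
  rw [F.finrank_eq d le_rfl]
  simp

theorem Flag.lev_iff_generated (F : Flag K d) (S : Finset (Fin d → K)) :
    F.GeneratedBy S ↔ ∀ i, i < d → ∃ v ∈ S, F.Lev i v := by
  constructor
  · intro h i hi
    obtain ⟨T, hTS, hT⟩ := h (i + 1) (by omega)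
    by_contra hcon
    push Not at hcon
    have h1 : F.sub (i + 1) ≤ F.sub i := by
      rw [← hT, Submodule.span_le]
      intro v hv
      by_contra hv'
      refine hcon v (hTS hv) ⟨?_, hv'⟩
      rw [← hT]
      exact Submodule.subset_span hv
    have h2 := Submodule.finrank_mono h1
    rw [F.finrank_eq i hi.le, F.finrank_eq (i + 1) hi] at h2
    omega
  · intro h i hi
    refine ⟨{v | v ∈ S ∧ v ∈ F.sub i}, fun v hv => hv.1, ?_⟩
    induction i with
    | zero =>
      rw [F.sub_zero, Submodule.span_eq_bot]
      rintro v ⟨-, hv⟩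
      exact (Submodule.mem_bot K).1 hv
    | succ i ih =>
      have ih' := ih (by omega)
      have hle : Submodule.span K {v | v ∈ S ∧ v ∈ F.sub (i + 1)} ≤ F.sub (i + 1) := by
        rw [Submodule.span_le]
        rintro v ⟨-, hv⟩
        exact hv
      have hsub : F.sub i ≤ Submodule.span K {v | v ∈ S ∧ v ∈ F.sub (i + 1)} := by
        rw [← ih']
        apply Submodule.span_mono
        rintro v ⟨h1, h2⟩
        exact ⟨h1, F.mono i (by omega) h2⟩
      obtain ⟨v, hvS, hv1, hv2⟩ := h i (by omega)
      have hvm : v ∈ Submodule.span K {v | v ∈ S ∧ v ∈ F.sub (i + 1)} :=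
        Submodule.subset_span ⟨hvS, hv1⟩
      have hlt : F.sub i < Submodule.span K {v | v ∈ S ∧ v ∈ F.sub (i + 1)} :=
        lt_of_le_of_ne hsub fun h => hv2 (by rw [h]; exact hvm)
      have h3 := Submodule.finrank_lt_finrank_of_lt hlt
      rw [F.finrank_eq i (by omega)] at h3
      apply Submodule.eq_of_le_of_finrank_le hle
      rw [F.finrank_eq (i + 1) hi]
      omega

/-! ### Standard flags -/

/-- The vectors whose coordinates from `n` on vanish. -/
def coordSub (K : Type u) [Field K] (d n : ℕ) : Submodule K (Fin d → K) where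
  carrier := {x | ∀ t : Fin d, n ≤ t.1 → x t = 0}
  add_mem' := by
    intro x y hx hy t ht
    show x t + y t = 0
    rw [hx t ht, hy t ht, add_zero]
  zero_mem' := by intro t _; rfl
  smul_mem' := by
    intro c x hx t ht
    show c * x t = 0
    rw [hx t ht, mul_zero]

theorem mem_coordSub {n : ℕ} {x : Fin d → K} :
    x ∈ coordSub K d n ↔ ∀ t : Fin d, n ≤ t.1 → x t = 0 := Iff.rfl

theorem coordSub_mono {n n' : ℕ} (h : n ≤ n') : coordSub K d n ≤ coordSub K d n' :=
  fun _ hx t ht => hx t (h.trans ht)

theorem finrank_coordSub {n : ℕ} (hn : n ≤ d) : Module.finrank K (coordSub K d n) = n := by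
  let e : coordSub K d n ≃ₗ[K] (Fin n → K) :=
    { toFun := fun x t => x.1 ⟨t.1, by omega⟩
      map_add' := by intro x y; rfl
      map_smul' := by intro c x; rfl
      invFun := fun y => ⟨fun t => if h : t.1 < n then y ⟨t.1, h⟩ else 0, by
        intro t ht
        show (if h : t.1 < n then y ⟨t.1, h⟩ else 0) = 0
        rw [dif_neg (by omega)]⟩
      left_inv := by
        intro x
        apply Subtype.ext
        funext t
        show (if h : t.1 < n then x.1 ⟨t.1, _⟩ else 0) = x.1 t
        by_cases h : t.1 < n
        · rw [dif_pos h]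
        · rw [dif_neg h]
          exact (x.2 t (by omega)).symm
      right_inv := by
        intro y
        funext t
        show (if h : t.1 < n then y ⟨t.1, h⟩ else 0) = y t
        rw [dif_pos t.2] }
  rw [e.finrank_eq]
  simp

/-- The flag obtained from the standard one by a linear automorphism. -/
def flagOf (ψ : (Fin d → K) ≃ₗ[K] (Fin d → K)) : Flag K d where
  sub := fun n => (coordSub K d n).comap ψ.toLinearMap
  mono := fun i _ => Submodule.comap_mono (coordSub_mono (Nat.le_succ i))
  finrank_eq := by
    intro i hi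
    have h : (coordSub K d i).comap ψ.toLinearMap = (coordSub K d i).map ψ.symm.toLinearMap := by
      rw [Submodule.map_equiv_eq_comap_symm, LinearEquiv.symm_symm]
    rw [h, LinearEquiv.finrank_map_eq, finrank_coordSub hi]

theorem mem_flagOf {ψ : (Fin d → K) ≃ₗ[K] (Fin d → K)} {n : ℕ} {x : Fin d → K} :
    x ∈ (flagOf ψ).sub n ↔ ∀ t : Fin d, n ≤ t.1 → ψ x t = 0 := Iff.rfl

/-! ### Commuting operators with injective differences -/

theorem exists_ops (K : Type u) [Field K] (m E : ℕ) (hE : m ≤ E) :
    ∃ T : Fin m → (Fin E → K) →ₗ[K] (Fin E → K),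
      (∀ i j x, T i (T j x) = T j (T i x)) ∧ ∀ i j, i ≠ j → ∀ x, T i x = T j x → x = 0 := by
  rcases finite_or_infinite K with hK | hK
  · rcases Nat.eq_zero_or_pos E with hE0 | hE0
    · subst hE0
      obtain rfl : m = 0 := by omega
      exact ⟨fun i => i.elim0, fun i => i.elim0, fun i => i.elim0⟩
    · obtain ⟨p, hp⟩ := CharP.exists K
      haveI : Fact p.Prime := ⟨CharP.char_is_prime K p⟩
      haveI : NeZero E := ⟨hE0.ne'⟩
      let L := FiniteField.Extension K p E
      haveI : Fintype L := Fintype.ofFinite L
      let e : L ≃ₗ[K] (Fin E → K) :=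
        (Module.finBasisOfFinrankEq K L (FiniteField.finrank_extension K p E)).equivFun
      have hcard : Fintype.card (Fin m) ≤ Fintype.card L := by
        rw [Fintype.card_fin, Fintype.card_eq_nat_card, FiniteField.natCard_extension]
        have h2 : 2 ≤ Nat.card K := Finite.one_lt_card
        calc m ≤ E := hE
          _ ≤ 2 ^ E := Nat.lt_two_pow_self.le
          _ ≤ Nat.card K ^ E := Nat.pow_le_pow_left h2 E
      obtain ⟨t⟩ := Function.Embedding.nonempty_of_card_le hcard
      refine ⟨fun i => e.toLinearMap ∘ₗ (LinearMap.mul K L (t i)) ∘ₗ e.symm.toLinearMap, ?_, ?_⟩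
      · intro i j x
        simp only [LinearMap.comp_apply, LinearEquiv.coe_coe, LinearEquiv.symm_apply_apply,
          LinearMap.mul_apply']
        rw [mul_left_comm]
      · intro i j hij x hx
        simp only [LinearMap.comp_apply, LinearEquiv.coe_coe, LinearMap.mul_apply'] at hx
        have h1 := e.injective hx
        have h2 : (t i - t j) * e.symm x = 0 := by rw [sub_mul, h1, sub_self]
        rcases mul_eq_zero.1 h2 with h3 | h3
        · exact absurd (t.injective (sub_eq_zero.1 h3)) hij
        · exact (LinearEquiv.map_eq_zero_iff e.symm).1 h3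
  · refine ⟨fun i => (Infinite.natEmbedding K i.1) • LinearMap.id, ?_, ?_⟩
    · intro i j x
      simp only [LinearMap.smul_apply, LinearMap.id_apply]
      rw [smul_comm]
    · intro i j hij x hx
      simp only [LinearMap.smul_apply, LinearMap.id_apply] at hx
      have h2 : (Infinite.natEmbedding K i.1 - Infinite.natEmbedding K j.1) • x = 0 := by
        rw [sub_smul, hx, sub_self]
      rcases smul_eq_zero.1 h2 with h3 | h3
      · exact absurd (Fin.ext ((Infinite.natEmbedding K).injective (sub_eq_zero.1 h3))) hij
      · exact h3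

/-! ### The lower bound -/

section lower

variable {E w : ℕ}

/-- first block -/
def pa (K : Type u) [Field K] (E w : ℕ) : (Fin (E + w + E) → K) →ₗ[K] (Fin E → K) where
  toFun := fun x t => x ⟨t.1, by omega⟩
  map_add' := by intro x y; rfl
  map_smul' := by intro c x; rfl

/-- middle block, embedded in `K ^ E` -/
def pc (K : Type u) [Field K] (E w : ℕ) (hw : w ≤ E) :
    (Fin (E + w + E) → K) →ₗ[K] (Fin E → K) where
  toFun := fun x t => if t.1 < w then x ⟨E + t.1, by omega⟩ else 0
  map_add' := by
    intro x y
    funext t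
    by_cases h : t.1 < w
    · simp [h]
    · simp [h]
  map_smul' := by
    intro c x
    funext t
    by_cases h : t.1 < w
    · simp [h]
    · simp [h]

/-- embedding in the last block -/
def ib (K : Type u) [Field K] (E w : ℕ) : (Fin E → K) →ₗ[K] (Fin (E + w + E) → K) where
  toFun := fun y t => if h : E + w ≤ t.1 then y ⟨t.1 - (E + w), by omega⟩ else 0
  map_add' := by
    intro x y
    funext t
    by_cases h : E + w ≤ t.1
    · simp [h]
    · simp [h]
  map_smul' := by
    intro c x
    funext t
    by_cases h : E + w ≤ t.1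
    · simp [h]
    · simp [h]

theorem ib_low {y : Fin E → K} {t : Fin (E + w + E)} (h : t.1 < E + w) : ib K E w y t = 0 := by
  show (if h : E + w ≤ t.1 then y ⟨t.1 - (E + w), by omega⟩ else 0) = 0
  rw [dif_neg (by omega)]

theorem ib_high {y : Fin E → K} (t : Fin E) : ib K E w y ⟨E + w + t.1, by omega⟩ = y t := by
  show (if h : E + w ≤ E + w + t.1 then y ⟨E + w + t.1 - (E + w), by omega⟩ else 0) = y t
  rw [dif_pos (by omega)]
  congr 1
  apply Fin.ext
  show E + w + t.1 - (E + w) = t.1
  omega

theorem pa_ib (y : Fin E → K) : pa K E w (ib K E w y) = 0 := by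
  funext t
  exact ib_low (t := ⟨t.1, by omega⟩) (by show t.1 < E + w; omega)

theorem pc_ib (hw : w ≤ E) (y : Fin E → K) : pc K E w hw (ib K E w y) = 0 := by
  funext t
  show (if t.1 < w then ib K E w y ⟨E + t.1, by omega⟩ else 0) = 0
  split_ifs with h
  · exact ib_low (by show E + t.1 < E + w; omega)
  · rfl

/-- the nilpotent part -/
def nil (hw : w ≤ E) (T : (Fin E → K) →ₗ[K] (Fin E → K)) :
    (Fin (E + w + E) → K) →ₗ[K] (Fin (E + w + E) → K) :=
  ib K E w ∘ₗ (T ∘ₗ pa K E w + T ∘ₗ T ∘ₗ pc K E w hw)

theorem nil_apply (hw : w ≤ E) (T : (Fin E → K) →ₗ[K] (Fin E → K)) (x : Fin (E + w + E) → K) :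
    nil hw T x = ib K E w (T (pa K E w x) + T (T (pc K E w hw x))) := rfl

theorem nil_nil (hw : w ≤ E) (T : (Fin E → K) →ₗ[K] (Fin E → K)) (x : Fin (E + w + E) → K) :
    nil hw T (nil hw T x) = 0 := by
  rw [nil_apply, nil_apply, pa_ib, pc_ib]
  simp

/-- the shear -/
def shear (hw : w ≤ E) (T : (Fin E → K) →ₗ[K] (Fin E → K)) :
    (Fin (E + w + E) → K) ≃ₗ[K] (Fin (E + w + E) → K) where
  toFun := fun x => x - nil hw T x
  map_add' := by
    intro x y
    rw [map_add]
    abel
  map_smul' := by
    intro c x
    rw [map_smul, RingHom.id_apply, smul_sub]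
  invFun := fun x => x + nil hw T x
  left_inv := by
    intro x
    show x - nil hw T x + nil hw T (x - nil hw T x) = x
    rw [map_sub, nil_nil]
    abel
  right_inv := by
    intro x
    show x + nil hw T x - nil hw T (x + nil hw T x) = x
    rw [map_add, nil_nil]
    abel

theorem shear_low (hw : w ≤ E) (T : (Fin E → K) →ₗ[K] (Fin E → K)) (x : Fin (E + w + E) → K)
    {t : Fin (E + w + E)} (h : t.1 < E + w) : shear hw T x t = x t := by
  show x t - nil hw T x t = x t
  rw [nil_apply, ib_low h, sub_zero]

theorem shear_high (hw : w ≤ E) (T : (Fin E → K) →ₗ[K] (Fin E → K)) (x : Fin (E + w + E) → K)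
    (t : Fin E) : shear hw T x ⟨E + w + t.1, by omega⟩ = x ⟨E + w + t.1, by omega⟩ -
      (T (pa K E w x) + T (T (pc K E w hw x))) t := by
  show x _ - nil hw T x _ = _
  rw [nil_apply, ib_high]

/-- membership in a subspace of level at most `E + w` gives the value of the last block -/
theorem last_block (hw : w ≤ E) (T : (Fin E → K) →ₗ[K] (Fin E → K)) {x : Fin (E + w + E) → K}
    {n : ℕ} (hn : n ≤ E + w) (hx : x ∈ (flagOf (shear hw T)).sub n) (t : Fin E) :
    x ⟨E + w + t.1, by omega⟩ = (T (pa K E w x) + T (T (pc K E w hw x))) t := by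
  have h := (mem_flagOf.1 hx) ⟨E + w + t.1, by omega⟩ (by show n ≤ E + w + t.1; omega)
  rw [shear_high] at h
  exact sub_eq_zero.1 h

theorem mid_block (hw : w ≤ E) (T : (Fin E → K) →ₗ[K] (Fin E → K)) {x : Fin (E + w + E) → K}
    {n : ℕ} (hx : x ∈ (flagOf (shear hw T)).sub n) {s : ℕ} (hs : s < w) (hn : n ≤ E + s) :
    x ⟨E + s, by omega⟩ = 0 := by
  have h := (mem_flagOf.1 hx) ⟨E + s, by omega⟩ (by show n ≤ E + s; omega)
  rwa [shear_low hw T x (by show E + s < E + w; omega)] at h

theorem ext_blocks {x y : Fin (E + w + E) → K} (h1 : ∀ t : Fin (E + w + E), t.1 < E + w → x t = y t)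
    (h2 : ∀ t : Fin E, x ⟨E + w + t.1, by omega⟩ = y ⟨E + w + t.1, by omega⟩) : x = y := by
  funext t
  by_cases h : t.1 < E + w
  · exact h1 t h
  · have h3 := h2 ⟨t.1 - (E + w), by omega⟩
    have h4 : (⟨E + w + (t.1 - (E + w)), by omega⟩ : Fin (E + w + E)) = t := by
      apply Fin.ext
      show E + w + (t.1 - (E + w)) = t.1
      omega
    simp only at h3
    rw [h4] at h3
    exact h3

theorem Flag.lev_unique (F : Flag K d) {i j : ℕ} {v : Fin d → K} (hi : i < d) (hj : j < d)
    (h1 : F.Lev i v) (h2 : F.Lev j v) : i = j := by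
  by_contra hne
  rcases Nat.lt_or_gt_of_ne hne with h | h
  · exact h2.2 (F.mono' (by omega) (by omega) h1.1)
  · exact h1.2 (F.mono' (by omega) (by omega) h2.1)

theorem lower_bound {m : ℕ} (hw : w ≤ E) (T : Fin m → (Fin E → K) →ₗ[K] (Fin E → K))
    (hcomm : ∀ i j x, T i (T j x) = T j (T i x))
    (hinj : ∀ i j, i ≠ j → ∀ x, T i x = T j x → x = 0)
    (S : Finset (Fin (E + w + E) → K)) (hS : ∀ i, (flagOf (shear hw (T i))).GeneratedBy S) :
    m * E + w * ((m + 1) / 2) ≤ S.card := by
  classical
  have hlev : ∀ i : Fin m, ∀ n, n < E + w + E → ∃ v ∈ S, (flagOf (shear hw (T i))).Lev n v :=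
    fun i => ((flagOf (shear hw (T i))).lev_iff_generated S).1 (hS i)
  choose! pick hpS hpL using hlev
  let S0 : Finset (Fin (E + w + E) → K) := S.filter fun x => ∀ s, (hs : s < w) →
    x ⟨E + s, by omega⟩ = 0
  let S1 : Fin w → Finset (Fin (E + w + E) → K) := fun s => S.filter fun x =>
    x ⟨E + s.1, by omega⟩ ≠ 0 ∧ ∀ s', (hs : s' < w) → s.1 < s' → x ⟨E + s', by omega⟩ = 0
  -- the vectors in the `p_i`
  have hS0 : m * E ≤ S0.card := by
    have h1 : ((univ : Finset (Fin m × Fin E))).card ≤ S0.card := by
      apply card_le_card_of_injOn (fun q => pick q.1 q.2.1)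
      · rintro ⟨i, n⟩ _
        rw [mem_coe, mem_filter]
        refine ⟨hpS i n.1 (by omega), fun s hs => ?_⟩
        exact mid_block hw (T i) (hpL i n.1 (by omega)).1 hs (by omega)
      · rintro ⟨i, n⟩ _ ⟨i', n'⟩ _ h
        simp only at h
        have hL1 := hpL i n.1 (by omega)
        have hL2 := hpL i' n'.1 (by omega)
        rw [← h] at hL2
        set v := pick i n.1 with hv
        by_cases hii : i = i'
        · subst hii
          have := (flagOf (shear hw (T i))).lev_unique (by omega) (by omega) hL1 hL2
          exact Prod.ext rfl (Fin.ext this)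
        · exfalso
          have hc : pc K E w hw v = 0 := by
            funext t
            show (if t.1 < w then v ⟨E + t.1, by omega⟩ else 0) = 0
            split_ifs with ht
            · exact mid_block hw (T i) hL1.1 ht (by omega)
            · rfl
          have hb1 := last_block hw (T i) (by omega) hL1.1
          have hb2 := last_block hw (T i') (by omega) hL2.1
          rw [hc] at hb1 hb2
          simp only [map_zero, add_zero] at hb1 hb2
          have ha : pa K E w v = 0 := by
            apply hinj i i' hii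
            funext t
            rw [← hb1 t, hb2 t]
          rw [ha] at hb1
          simp only [map_zero] at hb1
          apply hL1.2
          rw [mem_flagOf]
          intro t _
          have hv0 : v = 0 := by
            apply ext_blocks
            · intro t ht
              by_cases ht' : t.1 < E
              · have := congrFun ha ⟨t.1, ht'⟩
                exact this
              · have := congrFun hc ⟨t.1 - E, by omega⟩
                have h5 : (if (t.1 - E) < w then v ⟨E + (t.1 - E), by omega⟩ else 0) = 0 := this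
                rw [if_pos (by omega)] at h5
                have h6 : (⟨E + (t.1 - E), by omega⟩ : Fin (E + w + E)) = t :=
                  Fin.ext (by show E + (t.1 - E) = t.1; omega)
                rw [h6] at h5
                exact h5
            · intro t
              exact hb1 t
          rw [hv0, map_zero]
          rfl
    rw [card_univ, Fintype.card_prod, Fintype.card_fin, Fintype.card_fin] at h1
    exact h1
  -- the vectors in the `ℓ_i`
  have hS1 : ∀ s : Fin w, (m + 1) / 2 ≤ (S1 s).card := by
    intro s
    have h1 : (univ : Finset (Fin m)).card ≤ 2 *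
        ((univ : Finset (Fin m)).image fun i => pick i (E + s.1)).card := by
      apply card_le_mul_card_image
      intro v _
      by_contra hcon
      rw [not_le, two_lt_card] at hcon
      obtain ⟨i, hi, j, hj, k, hk, hij, hik, hjk⟩ := hcon
      rw [mem_filter] at hi hj hk
      have hLi := hpL i (E + s.1) (by omega)
      have hLj := hpL j (E + s.1) (by omega)
      have hLk := hpL k (E + s.1) (by omega)
      rw [hi.2] at hLi
      rw [hj.2] at hLj
      rw [hk.2] at hLk
      have hbi := last_block hw (T i) (by omega) hLi.1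
      have hbj := last_block hw (T j) (by omega) hLj.1
      have hbk := last_block hw (T k) (by omega) hLk.1
      set a := pa K E w v with ha
      set c := pc K E w hw v with hc
      -- a = -(T i + T j) c
      have key : ∀ i j : Fin m, i ≠ j →
          (∀ t : Fin E, v ⟨E + w + t.1, by omega⟩ = (T i a + T i (T i c)) t) →
          (∀ t : Fin E, v ⟨E + w + t.1, by omega⟩ = (T j a + T j (T j c)) t) →
          a + (T i c + T j c) = 0 := by
        intro i j hij h1 h2
        apply hinj i j hij
        have h3 : T i a + T i (T i c) = T j a + T j (T j c) := by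
          funext t; rw [← h1 t, h2 t]
        rw [map_add, map_add, map_add, map_add, hcomm j i c]
        calc T i a + (T i (T i c) + T i (T j c)) = (T i a + T i (T i c)) + T i (T j c) := by
              rw [add_assoc]
          _ = (T j a + T j (T j c)) + T i (T j c) := by rw [h3]
          _ = T j a + (T i (T j c) + T j (T j c)) := by
              rw [add_assoc, add_comm (T j (T j c))]
      have h2 := key i j hij hbi hbj
      have h3 := key i k hik hbi hbk
      have h4 : T j c = T k c := by
        have h5 : a + (T i c + T j c) = a + (T i c + T k c) := by rw [h2, h3]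
        exact add_left_cancel (add_left_cancel h5)
      have hc0 : c = 0 := hinj j k hjk c h4
      -- but the coordinate `s` does not vanish
      apply hLi.2
      rw [mem_flagOf]
      intro t ht
      by_cases ht1 : t.1 = E + s.1
      · have h6 : t = ⟨E + s.1, by omega⟩ := Fin.ext ht1
        rw [h6, shear_low hw (T i) v (by show E + s.1 < E + w; omega)]
        have h7 : (if s.1 < w then v ⟨E + s.1, by omega⟩ else 0) = 0 :=
          congrFun (hc ▸ hc0 : pc K E w hw v = 0) ⟨s.1, by omega⟩
        rwa [if_pos s.2] at h7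
      · exact (mem_flagOf.1 hLi.1) t (by omega)
    have h2 : ((univ : Finset (Fin m)).image fun i => pick i (E + s.1)) ⊆ S1 s := by
      intro v hv
      rw [mem_image] at hv
      obtain ⟨i, -, rfl⟩ := hv
      have hL := hpL i (E + s.1) (by omega)
      rw [mem_filter]
      refine ⟨hpS i _ (by omega), ?_, fun s' hs' hss' => ?_⟩
      · intro h0
        apply hL.2
        rw [mem_flagOf]
        intro t ht
        by_cases ht1 : t.1 = E + s.1
        · have h6 : t = ⟨E + s.1, by omega⟩ := Fin.ext ht1
          rw [h6, shear_low hw (T i) _ (by show E + s.1 < E + w; omega)]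
          exact h0
        · exact (mem_flagOf.1 hL.1) t (by omega)
      · exact mid_block hw (T i) hL.1 hs' (by omega)
    have h3 := card_le_card h2
    rw [card_univ, Fintype.card_fin] at h1
    omega
  -- total
  let A : Option (Fin w) → Finset (Fin (E + w + E) → K) := fun o => o.elim S0 S1
  have hdisj : ∀ o ∈ (univ : Finset (Option (Fin w))), ∀ o' ∈ (univ : Finset (Option (Fin w))),
      o ≠ o' → Disjoint (A o) (A o') := by
    have hkey : ∀ s : Fin w, Disjoint S0 (S1 s) := by
      intro s
      rw [disjoint_left]
      intro x hx hx'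
      exact (mem_filter.1 hx').2.1 ((mem_filter.1 hx).2 s.1 s.2)
    have hkey2 : ∀ s s' : Fin w, s.1 < s'.1 → Disjoint (S1 s) (S1 s') := by
      intro s s' hss
      rw [disjoint_left]
      intro x hx hx'
      exact (mem_filter.1 hx').2.1 ((mem_filter.1 hx).2.2 s'.1 s'.2 hss)
    rintro (_ | s) - (_ | s') - hne
    · exact absurd rfl hne
    · exact hkey s'
    · exact (hkey s).symm
    · have hne' : s.1 ≠ s'.1 := fun h => hne (by rw [Fin.ext h])
      rcases Nat.lt_or_gt_of_ne hne' with h | h
      · exact hkey2 s s' h
      · exact (hkey2 s' s h).symm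
  have hsub : (univ : Finset (Option (Fin w))).biUnion A ⊆ S := by
    intro x hx
    rw [mem_biUnion] at hx
    obtain ⟨o, -, hx⟩ := hx
    rcases o with _ | s
    · exact (mem_filter.1 hx).1
    · exact (mem_filter.1 hx).1
  have hc := card_le_card hsub
  rw [card_biUnion hdisj, Fintype.sum_option] at hc
  have h5 : w * ((m + 1) / 2) ≤ ∑ s : Fin w, (A (some s)).card := by
    calc w * ((m + 1) / 2) = ∑ _s : Fin w, (m + 1) / 2 := by simp
      _ ≤ _ := sum_le_sum fun s _ => hS1 s
  have h6 : (A none).card = S0.card := rfl
  omega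

end lower

end Pool.Agent.V11181
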