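import Pool.Agent.V11181.Flags

/-!
# Three flags are generated by `d + ⌊2 d / 3⌋` vectors

The relative positions of the three flags give a permutation `τ` of the `3 d` levels. An even cycle
is covered by half as many vectors as it has levels; two odd cycles that are linked by a vector are
covered by half as many vectors as they have levels. A family of pairwise unlinked odd cycles, none
of which is covered by one vector, has at most `d / 3` members: the function
`g = dim (U_i ∩ V_j) + dim (V_j ∩ W_k) + dim (W_k ∩ U_i) - 2 dim (U_i ∩ V_j ∩ W_k)` increases by at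
least `3` across every member and is `d` at the top.
-/

set_option autoImplicit false

namespace Pool.Agent.V11181

open Finset

universe u

variable {K : Type u} [Field K] {d : ℕ}

/-! ### Relative position of two flags -/

theorem Flag.exists_lev (F : Flag K d) {i : ℕ} (hi : i < d) : ∃ v, F.Lev i v := by
  by_contra hcon
  push Not at hcon
  have h1 : F.sub (i + 1) ≤ F.sub i := by
    intro v hv
    by_contra hv'
    exact hcon v ⟨hv, hv'⟩
  have h2 := Submodule.finrank_mono h1
  rw [F.finrank_eq i hi.le, F.finrank_eq (i + 1) hi] at h2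
  omega

/-- a vector of `sub n` that is not zero has a level below `n`. -/
theorem Flag.exists_lev_lt (F : Flag K d) {n : ℕ} {v : Fin d → K} (hv : v ≠ 0)
    (h : v ∈ F.sub n) : ∃ j, j < n ∧ F.Lev j v := by
  classical
  have hex : ∃ n, v ∈ F.sub n := ⟨n, h⟩
  have h0 : Nat.find hex ≠ 0 := by
    intro h0
    have h1 := Nat.find_spec hex
    rw [h0, F.sub_zero] at h1
    exact hv ((Submodule.mem_bot K).1 h1)
  have hle : Nat.find hex ≤ n := Nat.find_min' hex h
  refine ⟨Nat.find hex - 1, by omega, ?_, Nat.find_min hex (by omega)⟩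
  have e : Nat.find hex - 1 + 1 = Nat.find hex := by omega
  rw [e]
  exact Nat.find_spec hex

/-- two vectors of the same level have a combination of lower level -/
theorem Flag.lev_sub (F : Flag K d) {j : ℕ} (hj : j < d) {x y : Fin d → K} (hx : x ∈ F.sub (j + 1))
    (hy : F.Lev j y) : ∃ c : K, x - c • y ∈ F.sub j := by
  have h1 : F.sub j ⊔ Submodule.span K {y} = F.sub (j + 1) := by
    apply Submodule.eq_of_le_of_finrank_le
    · apply sup_le (F.mono j hj)
      rw [Submodule.span_singleton_le_iff_mem]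
      exact hy.1
    · rw [F.finrank_eq (j + 1) hj]
      have h2 : F.sub j < F.sub j ⊔ Submodule.span K {y} := by
        apply lt_of_le_of_ne le_sup_left
        intro h
        apply hy.2
        rw [h]
        exact Submodule.mem_sup_right (Submodule.mem_span_singleton_self y)
      have h3 := Submodule.finrank_lt_finrank_of_lt h2
      rw [F.finrank_eq j hj.le] at h3
      omega
  rw [← h1, Submodule.mem_sup] at hx
  obtain ⟨z, hz, w, hw, hzw⟩ := hx
  obtain ⟨c, rfl⟩ := Submodule.mem_span_singleton.1 hw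
  refine ⟨c, ?_⟩
  rw [← hzw, add_sub_cancel_right]
  exact hz

/-- some vector has level `i` in `F` and level `j` in `G`. -/
def Link (F G : Flag K d) (i j : ℕ) : Prop := ∃ v, F.Lev i v ∧ G.Lev j v

theorem Link.symm {F G : Flag K d} {i j : ℕ} (h : Link F G i j) : Link G F j i := by
  obtain ⟨v, h1, h2⟩ := h
  exact ⟨v, h2, h1⟩

/-- key exchange step -/
theorem link_descend {F G : Flag K d} {i i₀ j : ℕ} (hi : i < i₀) (hi₀ : i₀ < d) (hj : j < d)
    (h : Link F G i j) (h₀ : Link F G i₀ j) : ∃ j', j' < j ∧ Link F G i₀ j' := by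
  obtain ⟨v, hv1, hv2⟩ := h
  obtain ⟨x, hx1, hx2⟩ := h₀
  obtain ⟨c, hc⟩ := G.lev_sub hj hx2.1 hv2
  have hcv : c • v ∈ F.sub i₀ :=
    Submodule.smul_mem _ c (F.mono' (by omega) (by omega) hv1.1)
  have hlev : F.Lev i₀ (x - c • v) := by
    refine ⟨Submodule.sub_mem _ hx1.1 (F.mono i₀ hi₀ hcv), fun h => hx1.2 ?_⟩
    have := Submodule.add_mem _ h hcv
    rwa [sub_add_cancel] at this
  have hne : x - c • v ≠ 0 := by
    intro h
    apply hlev.2
    rw [h]
    exact Submodule.zero_mem _
  obtain ⟨j', hj', hl⟩ := G.exists_lev_lt hne hc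
  exact ⟨j', hj', _, hlev, hl⟩

theorem exists_rel (F G : Flag K d) (i : Fin d) :
    ∃ j : Fin d, Link F G i j ∧ ∀ j' : ℕ, Link F G i j' → j.1 ≤ j' := by
  classical
  obtain ⟨v, hv⟩ := F.exists_lev i.2
  have hne : v ≠ 0 := by
    rintro rfl
    exact hv.2 (Submodule.zero_mem _)
  obtain ⟨j, hj, hl⟩ := G.exists_lev_lt hne (by rw [G.sub_top]; exact Submodule.mem_top : v ∈ G.sub d)
  have hex : ∃ j, Link F G i j := ⟨j, v, hv, hl⟩
  refine ⟨⟨Nat.find hex, lt_of_le_of_lt (Nat.find_min' hex ⟨v, hv, hl⟩) hj⟩, Nat.find_spec hex,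
    fun j' hj' => Nat.find_min' hex hj'⟩

/-- The relative position of two flags. -/
noncomputable def rel (F G : Flag K d) (i : Fin d) : Fin d := (exists_rel F G i).choose

theorem rel_link (F G : Flag K d) (i : Fin d) : Link F G i (rel F G i) :=
  (exists_rel F G i).choose_spec.1

theorem rel_le {F G : Flag K d} {i : Fin d} {j : ℕ} (h : Link F G i j) : (rel F G i).1 ≤ j :=
  (exists_rel F G i).choose_spec.2 j h

theorem rel_le' {F G : Flag K d} {i₀ : Fin d} {i : ℕ} (h : Link F G i (rel F G i₀)) :
    i₀.1 ≤ i := by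
  by_contra hcon
  rw [not_le] at hcon
  obtain ⟨j', hj', hl⟩ := link_descend hcon i₀.2 (rel F G i₀).2 h (rel_link F G i₀)
  have := rel_le hl
  omega

theorem rel_injective (F G : Flag K d) : Function.Injective (rel F G) := by
  intro i i' h
  have h1 := rel_le' (F := F) (G := G) (i₀ := i) (i := i'.1) (by rw [h]; exact rel_link F G i')
  have h2 := rel_le' (F := F) (G := G) (i₀ := i') (i := i.1) (by rw [← h]; exact rel_link F G i)
  exact Fin.ext (by omega)

/-- The relative position as a permutation. -/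
noncomputable def relE (F G : Flag K d) : Equiv.Perm (Fin d) :=
  Equiv.ofBijective (rel F G) (Finite.injective_iff_bijective.1 (rel_injective F G))

theorem relE_apply (F G : Flag K d) (i : Fin d) : relE F G i = rel F G i := rfl

/-- inverted pairs are linked crosswise -/
theorem link_of_inv {F G : Flag K d} {i i' : Fin d} (h : i < i') (h' : rel F G i' < rel F G i) :
    Link F G i' (rel F G i) := by
  obtain ⟨x, hx1, hx2⟩ := rel_link F G i
  obtain ⟨y, hy1, hy2⟩ := rel_link F G i'
  have hxi : x ∈ F.sub i' := F.mono' (by have : i.1 < i'.1 := h; omega) (by omega) hx1.1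
  have hyj : y ∈ G.sub (rel F G i) :=
    G.mono' (by have : (rel F G i').1 < (rel F G i).1 := h'; omega) (by omega) hy2.1
  refine ⟨x + y, ⟨Submodule.add_mem _ (F.mono _ i'.2 hxi) hy1.1, fun h => hy1.2 ?_⟩,
    ⟨Submodule.add_mem _ hx2.1 (G.mono _ (rel F G i).2 hyj), fun h => hx2.2 ?_⟩⟩
  · have := Submodule.sub_mem _ h hxi
    rwa [add_sub_cancel_left] at this
  · have := Submodule.sub_mem _ h hyj
    rwa [add_sub_cancel_right] at this

/-- Two flags are generated by `d` vectors. -/
theorem two_flags (F G : Flag K d) : ∃ S : Finset (Fin d → K), S.card ≤ d ∧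
    (∀ i, i < d → ∃ v ∈ S, F.Lev i v) ∧ ∀ j, j < d → ∃ v ∈ S, G.Lev j v := by
  classical
  choose e he1 he2 using fun i => rel_link F G i
  refine ⟨univ.image e, ?_, ?_, ?_⟩
  · exact card_image_le.trans (by rw [card_univ, Fintype.card_fin])
  · intro i hi
    exact ⟨e ⟨i, hi⟩, mem_image_of_mem _ (mem_univ _), he1 ⟨i, hi⟩⟩
  · intro j hj
    refine ⟨e ((relE F G).symm ⟨j, hj⟩), mem_image_of_mem _ (mem_univ _), ?_⟩
    have h1 := he2 ((relE F G).symm ⟨j, hj⟩)
    rw [← relE_apply, Equiv.apply_symm_apply] at h1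
    exact h1

/-! ### Three flags -/

section three

variable (F : Fin 3 → Flag K d)

/-- The levels of the three flags. -/
abbrev Node (d : ℕ) := Fin 3 × Fin d

/-- `v` covers the level `x`. -/
def Cov (x : Node d) (v : Fin d → K) : Prop := (F x.1).Lev x.2.1 v

/-- The permutation of the levels given by the relative positions. -/
noncomputable def tau : Equiv.Perm (Node d) :=
  Equiv.prodShear (Equiv.addRight (1 : Fin 3)) fun c => relE (F c) (F (c + 1))

theorem tau_fst (x : Node d) : (tau F x).1 = x.1 + 1 := rfl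

theorem tau_snd (x : Node d) : (tau F x).2 = rel (F x.1) (F (x.1 + 1)) x.2 := rfl

/-- some vector covers both levels -/
def NLink (x y : Node d) : Prop := ∃ v, Cov F x v ∧ Cov F y v

theorem nlink_tau (x : Node d) : NLink F x (tau F x) := rel_link (F x.1) (F (x.1 + 1)) x.2

theorem NLink.symm' {x y : Node d} (h : NLink F x y) : NLink F y x := by
  obtain ⟨v, h1, h2⟩ := h
  exact ⟨v, h2, h1⟩

/-- If `v` covers `x` and lies in the subspace of `tau x`, then it covers `tau x`. -/
theorem cov_tau {x : Node d} {v : Fin d → K} (h : Cov F x v)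
    (h' : v ∈ (F (tau F x).1).sub ((tau F x).2.1 + 1)) : Cov F (tau F x) v := by
  have hne : v ≠ 0 := by
    rintro rfl
    exact h.2 (Submodule.zero_mem _)
  obtain ⟨j, hj, hl⟩ := (F (tau F x).1).exists_lev_lt hne h'
  have h1 : (rel (F x.1) (F (x.1 + 1)) x.2).1 ≤ j := rel_le ⟨v, h, hl⟩
  have h2 : (tau F x).2.1 = (rel (F x.1) (F (x.1 + 1)) x.2).1 := rfl
  have h3 : j = (tau F x).2.1 := by omega
  rw [h3] at hl
  exact hl

/-- the order of two levels in the same class -/
def NLt (x y : Node d) : Prop := x.1 = y.1 ∧ x.2 < y.2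

/-- If no crosswise link exists then `tau` preserves the order. -/
theorem nlt_tau {x y : Node d} (h : NLt x y) (hn : ¬ NLink F y (tau F x)) :
    NLt (tau F x) (tau F y) := by
  obtain ⟨c, i⟩ := x
  obtain ⟨c', i'⟩ := y
  obtain ⟨h1, h2⟩ := h
  simp only at h1 h2
  subst h1
  refine ⟨rfl, ?_⟩
  show rel (F c) (F (c + 1)) i < rel (F c) (F (c + 1)) i'
  by_contra hcon
  rw [not_lt] at hcon
  have hne : rel (F c) (F (c + 1)) i' ≠ rel (F c) (F (c + 1)) i := fun h =>
    h2.ne' (rel_injective _ _ h)
  exact hn (link_of_inv h2 (lt_of_le_of_ne hcon hne))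

/-! ### The function `g` -/

/-- The level `x` is included in the state `P`. -/
def Inc (P : Fin 3 → ℕ) (x : Node d) : Prop := x.2.1 < P x.1

instance (P : Fin 3 → ℕ) (x : Node d) : Decidable (Inc P x) :=
  inferInstanceAs (Decidable (x.2.1 < P x.1))

/-- The intersection of the three subspaces. -/
def cap (P : Fin 3 → ℕ) : Submodule K (Fin d → K) := ⨅ c, (F c).sub (P c)

theorem mem_cap {P : Fin 3 → ℕ} {v : Fin d → K} : v ∈ cap F P ↔ ∀ c, v ∈ (F c).sub (P c) :=
  Submodule.mem_iInf _

/-- The function `g`. -/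
noncomputable def gfun (P : Fin 3 → ℕ) : ℤ :=
  ((univ.filter fun x : Node d => Inc P x ∧ Inc P (tau F x)).card : ℤ) -
    2 * (Module.finrank K (cap F P) : ℤ)

/-- One step: raise the state of the class `c` from `i` to `i + 1`. -/
theorem step (P : Fin 3 → ℕ) (x : Node d) (hx : P x.1 = x.2.1) (_hP : ∀ c, P c ≤ d) :
    let P' := Function.update P x.1 (x.2.1 + 1)
    ((univ.filter fun y : Node d => Inc P' y ∧ Inc P' (tau F y)).card : ℤ) =
      ((univ.filter fun y : Node d => Inc P y ∧ Inc P (tau F y)).card : ℤ) +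
        (if Inc P (tau F x) then 1 else 0) + (if Inc P ((tau F).symm x) then 1 else 0) ∧
    ((Module.finrank K (cap F P') : ℤ) ≤ Module.finrank K (cap F P) +
      (if Inc P (tau F x) ∧ Inc P ((tau F).symm x) then 1 else 0)) := by
  classical
  intro P'
  have hP'x : P' x.1 = x.2.1 + 1 := Function.update_self _ _ _
  have hP'c : ∀ c, c ≠ x.1 → P' c = P c := fun c hc => Function.update_of_ne hc _ _
  have h1 : x.1 + 1 ≠ x.1 := by
    intro h
    have : (1 : Fin 3) = 0 := by
      have h2 : x.1 + 1 = x.1 + 0 := by rw [h, add_zero]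
      exact add_left_cancel h2
    exact absurd this (by decide)
  have htx : (tau F x).1 ≠ x.1 := h1
  have hsx : ((tau F).symm x).1 ≠ x.1 := by
    intro h
    have h2 : (tau F ((tau F).symm x)).1 = ((tau F).symm x).1 + 1 := rfl
    rw [Equiv.apply_symm_apply, h] at h2
    exact h1 h2.symm
  -- nodes of the class of `x`
  have hIncP' : ∀ y : Node d, Inc P' y ↔ Inc P y ∨ y = x := by
    intro y
    unfold Inc
    by_cases hy : y.1 = x.1
    · rw [hy, hP'x, hx]
      constructor
      · intro h
        by_cases h3 : y.2.1 < x.2.1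
        · exact Or.inl h3
        · right
          exact Prod.ext hy (Fin.ext (by omega))
      · rintro (h | h)
        · omega
        · rw [h]; omega
    · rw [hP'c _ hy]
      constructor
      · exact Or.inl
      · rintro (h | h)
        · exact h
        · rw [h] at hy
          exact absurd rfl hy
  have hnot : ¬ Inc P x := by
    unfold Inc
    rw [hx]
    omega
  constructor
  · -- edges
    have h2 : (univ.filter fun y : Node d => Inc P' y ∧ Inc P' (tau F y)) =
        (univ.filter fun y : Node d => Inc P y ∧ Inc P (tau F y)) ∪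
        ((if Inc P (tau F x) then {x} else ∅) ∪
          (if Inc P ((tau F).symm x) then {(tau F).symm x} else ∅)) := by
      ext y
      rw [mem_filter, mem_union, mem_union, mem_filter, hIncP', hIncP']
      constructor
      · rintro ⟨-, h3, h4⟩
        rcases h3 with h3 | h3 <;> rcases h4 with h4 | h4
        · exact Or.inl ⟨mem_univ _, h3, h4⟩
        · right; right
          have h5 : y = (tau F).symm x := by rw [← h4, Equiv.symm_apply_apply]
          rw [← h5, if_pos h3]
          exact mem_singleton_self _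
        · right; left
          rw [← h3, if_pos h4]
          exact mem_singleton_self _
        · exfalso
          rw [h3] at h4
          exact htx (by rw [h4])
      · rintro (⟨-, h3, h4⟩ | h3 | h3)
        · exact ⟨mem_univ _, Or.inl h3, Or.inl h4⟩
        · split_ifs at h3 with h4
          · rw [mem_singleton] at h3
            rw [h3]
            exact ⟨mem_univ _, Or.inr rfl, Or.inl h4⟩
          · exact absurd h3 (notMem_empty _)
        · split_ifs at h3 with h4
          · rw [mem_singleton] at h3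
            rw [h3, Equiv.apply_symm_apply]
            exact ⟨mem_univ _, Or.inl h4, Or.inr rfl⟩
          · exact absurd h3 (notMem_empty _)
    rw [h2, card_union_of_disjoint, card_union_of_disjoint]
    · push_cast
      have e1 : (((if Inc P (tau F x) then {x} else ∅ : Finset (Node d)).card : ℕ) : ℤ) =
          (if Inc P (tau F x) then 1 else 0) := by split_ifs <;> simp
      have e2 : (((if Inc P ((tau F).symm x) then {(tau F).symm x} else ∅ : Finset (Node d)).card :
          ℕ) : ℤ) = (if Inc P ((tau F).symm x) then 1 else 0) := by split_ifs <;> simp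
      rw [e1, e2]
      ring
    · rw [disjoint_left]
      intro y h3 h4
      split_ifs at h3 with h5
      · split_ifs at h4 with h6
        · rw [mem_singleton] at h3 h4
          rw [h3] at h4
          exact hsx (by rw [← h4])
        · exact absurd h4 (notMem_empty _)
      · exact absurd h3 (notMem_empty _)
    · rw [disjoint_left]
      intro y h3 h4
      rw [mem_filter] at h3
      rcases mem_union.1 h4 with h4 | h4
      · split_ifs at h4 with h5
        · rw [mem_singleton] at h4
          rw [h4] at h3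
          exact hnot h3.2.1
        · exact absurd h4 (notMem_empty _)
      · split_ifs at h4 with h5
        · rw [mem_singleton] at h4
          rw [h4, Equiv.apply_symm_apply] at h3
          exact hnot h3.2.2
        · exact absurd h4 (notMem_empty _)
  · -- dimension
    have hle : cap F P ≤ cap F P' := by
      intro v hv
      rw [mem_cap] at hv ⊢
      intro c
      by_cases hc : c = x.1
      · subst hc
        rw [hP'x]
        have := hv x.1
        rw [hx] at this
        exact (F x.1).mono _ x.2.2 this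
      · rw [hP'c c hc]
        exact hv c
    by_cases heq : cap F P' ≤ cap F P
    · have h3 := Submodule.finrank_mono heq
      have h4 : (Module.finrank K (cap F P') : ℤ) ≤ Module.finrank K (cap F P) := by
        exact_mod_cast h3
      split_ifs <;> linarith
    · obtain ⟨v, hv', hv⟩ := Set.not_subset.1 heq
      have hv'2 := (mem_cap F).1 hv'
      have hlev : Cov F x v := by
        refine ⟨?_, fun h => hv ?_⟩
        · have := hv'2 x.1
          rwa [hP'x] at this
        · rw [SetLike.mem_coe, mem_cap]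
          intro c
          by_cases hc : c = x.1
          · subst hc; rw [hx]; exact h
          · have := hv'2 c
            rwa [hP'c c hc] at this
      have hne : v ≠ 0 := by
        rintro rfl
        exact hlev.2 (Submodule.zero_mem _)
      -- neighbours are included
      have hA : Inc P (tau F x) := by
        have h3 := hv'2 (tau F x).1
        rw [hP'c _ htx] at h3
        obtain ⟨j, hj, hl⟩ := (F (tau F x).1).exists_lev_lt hne h3
        have h4 : (rel (F x.1) (F (x.1 + 1)) x.2).1 ≤ j := rel_le ⟨v, hlev, hl⟩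
        show (rel (F x.1) (F (x.1 + 1)) x.2).1 < P (tau F x).1
        omega
      have hB : Inc P ((tau F).symm x) := by
        set y := (tau F).symm x with hy
        have hyx : tau F y = x := Equiv.apply_symm_apply _ _
        have h3 := hv'2 y.1
        rw [hP'c _ hsx] at h3
        obtain ⟨j, hj, hl⟩ := (F y.1).exists_lev_lt hne h3
        have h4 : y.2.1 ≤ j := by
          apply rel_le' (F := F y.1) (G := F (y.1 + 1))
          refine ⟨v, hl, ?_⟩
          have h5 : Cov F (tau F y) v := by rw [hyx]; exact hlev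
          exact h5
        show y.2.1 < P y.1
        omega
      rw [if_pos ⟨hA, hB⟩]
      -- one more dimension at most
      have h3 : cap F P' ≤ cap F P ⊔ Submodule.span K {v} := by
        intro z hz
        have hz2 := (mem_cap F).1 hz
        have hz3 : z ∈ (F x.1).sub (x.2.1 + 1) := by
          have := hz2 x.1
          rwa [hP'x] at this
        obtain ⟨c, hc⟩ := (F x.1).lev_sub x.2.2 hz3 hlev
        rw [Submodule.mem_sup]
        refine ⟨z - c • v, ?_, c • v, Submodule.smul_mem _ _ (Submodule.mem_span_singleton_self v),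
          sub_add_cancel _ _⟩
        rw [mem_cap]
        intro c'
        by_cases hc' : c' = x.1
        · subst hc'; rw [hx]; exact hc
        · have h4 := hz2 c'
          have h5 := hv'2 c'
          rw [hP'c _ hc'] at h4 h5
          exact Submodule.sub_mem _ h4 (Submodule.smul_mem _ _ h5)
      have h4 := Submodule.finrank_mono h3
      have h5 := Submodule.finrank_add_le_finrank_add_finrank (cap F P) (Submodule.span K {v})
      rw [finrank_span_singleton hne] at h5
      exact_mod_cast h4.trans h5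

theorem step_mono (P : Fin 3 → ℕ) (x : Node d) (hx : P x.1 = x.2.1) (hP : ∀ c, P c ≤ d) :
    gfun F P ≤ gfun F (Function.update P x.1 (x.2.1 + 1)) := by
  obtain ⟨h1, h2⟩ := step F P x hx hP
  unfold gfun
  rw [h1]
  by_cases hA : Inc P (tau F x) <;> by_cases hB : Inc P ((tau F).symm x) <;>
    simp only [hA, hB, if_true, if_false, and_true, and_false] at h2 ⊢ <;> linarith

theorem step_one (P : Fin 3 → ℕ) (x : Node d) (hx : P x.1 = x.2.1) (hP : ∀ c, P c ≤ d)
    (hA : ¬ Inc P (tau F x)) (hB : Inc P ((tau F).symm x)) :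
    gfun F P + 1 ≤ gfun F (Function.update P x.1 (x.2.1 + 1)) := by
  obtain ⟨h1, h2⟩ := step F P x hx hP
  unfold gfun
  rw [h1]
  simp only [hA, hB, if_true, if_false, false_and] at h2 ⊢
  linarith

/-- Raise the class `c` from `P c` to `n`; each level of the class whose successor is not included
and whose predecessor is included contributes one. -/
theorem raise (P : Fin 3 → ℕ) (hP : ∀ c, P c ≤ d) (c : Fin 3) :
    ∀ n, P c ≤ n → n ≤ d → gfun F P + ((univ.filter fun x : Node d => x.1 = c ∧ P c ≤ x.2.1 ∧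
      x.2.1 < n ∧ ¬ Inc P (tau F x) ∧ Inc P ((tau F).symm x)).card : ℤ) ≤
      gfun F (Function.update P c n) := by
  classical
  intro n hn
  induction n, hn using Nat.le_induction with
  | base =>
    intro _
    rw [Function.update_eq_self]
    have : (univ.filter fun x : Node d => x.1 = c ∧ P c ≤ x.2.1 ∧
      x.2.1 < P c ∧ ¬ Inc P (tau F x) ∧ Inc P ((tau F).symm x)) = ∅ := by
      rw [filter_eq_empty_iff]
      rintro x - ⟨-, h1, h2, -⟩
      omega
    rw [this]
    simp
  | succ n hn ih =>
    intro hnd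
    have ih' := ih (by omega)
    set P₁ := Function.update P c n with hP₁
    let x : Node d := (c, ⟨n, by omega⟩)
    have hx : P₁ x.1 = x.2.1 := Function.update_self _ _ _
    have hP₁d : ∀ c', P₁ c' ≤ d := by
      intro c'
      by_cases hc : c' = c
      · rw [hc]; show Function.update P c n c ≤ d; rw [Function.update_self]; omega
      · rw [hP₁, Function.update_of_ne hc]; exact hP c'
    have hupd : Function.update P₁ x.1 (x.2.1 + 1) = Function.update P c (n + 1) := by
      show Function.update (Function.update P c n) c (n + 1) = _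
      rw [Function.update_idem]
    have hIncEq : ∀ y : Node d, y.1 ≠ c → (Inc P₁ y ↔ Inc P y) := by
      intro y hy
      unfold Inc
      rw [hP₁, Function.update_of_ne hy]
    have h1 : c + 1 ≠ c := by
      intro h
      have : (1 : Fin 3) = 0 := by
        have h2 : c + 1 = c + 0 := by rw [h, add_zero]
        exact add_left_cancel h2
      exact absurd this (by decide)
    have htx : (tau F x).1 ≠ c := h1
    have hsx : ((tau F).symm x).1 ≠ c := by
      intro h
      have h2 : (tau F ((tau F).symm x)).1 = ((tau F).symm x).1 + 1 := rfl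
      rw [Equiv.apply_symm_apply, h] at h2
      exact h1 h2.symm
    by_cases hc : ¬ Inc P (tau F x) ∧ Inc P ((tau F).symm x)
    · have h2 := step_one F P₁ x hx hP₁d (by rw [hIncEq _ htx]; exact hc.1)
        (by rw [hIncEq _ hsx]; exact hc.2)
      rw [hupd] at h2
      have h3 : (univ.filter fun x : Node d => x.1 = c ∧ P c ≤ x.2.1 ∧
          x.2.1 < n + 1 ∧ ¬ Inc P (tau F x) ∧ Inc P ((tau F).symm x)) ⊆
          insert x (univ.filter fun x : Node d => x.1 = c ∧ P c ≤ x.2.1 ∧
          x.2.1 < n ∧ ¬ Inc P (tau F x) ∧ Inc P ((tau F).symm x)) := by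
        intro y hy
        rw [mem_filter] at hy
        rw [mem_insert, mem_filter]
        by_cases hyn : y.2.1 < n
        · exact Or.inr ⟨mem_univ _, hy.2.1, hy.2.2.1, hyn, hy.2.2.2.2⟩
        · left
          exact Prod.ext hy.2.1 (Fin.ext (by have := hy.2.2.2.1; show y.2.1 = n; omega))
      have h4 := (card_le_card h3).trans (card_insert_le _ _)
      have h5 : ((univ.filter fun x : Node d => x.1 = c ∧ P c ≤ x.2.1 ∧
          x.2.1 < n + 1 ∧ ¬ Inc P (tau F x) ∧ Inc P ((tau F).symm x)).card : ℤ) ≤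
          ((univ.filter fun x : Node d => x.1 = c ∧ P c ≤ x.2.1 ∧
          x.2.1 < n ∧ ¬ Inc P (tau F x) ∧ Inc P ((tau F).symm x)).card : ℤ) + 1 := by
        exact_mod_cast h4
      linarith
    · have h2 := step_mono F P₁ x hx hP₁d
      rw [hupd] at h2
      have h3 : (univ.filter fun x : Node d => x.1 = c ∧ P c ≤ x.2.1 ∧
          x.2.1 < n + 1 ∧ ¬ Inc P (tau F x) ∧ Inc P ((tau F).symm x)) ⊆
          (univ.filter fun x : Node d => x.1 = c ∧ P c ≤ x.2.1 ∧
          x.2.1 < n ∧ ¬ Inc P (tau F x) ∧ Inc P ((tau F).symm x)) := by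
        intro y hy
        rw [mem_filter] at hy ⊢
        by_cases hyn : y.2.1 < n
        · exact ⟨mem_univ _, hy.2.1, hy.2.2.1, hyn, hy.2.2.2.2⟩
        · exfalso
          have h6 : y = x := Prod.ext hy.2.1 (Fin.ext (by
            have := hy.2.2.2.1; show y.2.1 = n; omega))
          apply hc
          rw [← h6]
          exact hy.2.2.2.2
      have h4 := card_le_card h3
      have h5 : ((univ.filter fun x : Node d => x.1 = c ∧ P c ≤ x.2.1 ∧
          x.2.1 < n + 1 ∧ ¬ Inc P (tau F x) ∧ Inc P ((tau F).symm x)).card : ℤ) ≤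
          ((univ.filter fun x : Node d => x.1 = c ∧ P c ≤ x.2.1 ∧
          x.2.1 < n ∧ ¬ Inc P (tau F x) ∧ Inc P ((tau F).symm x)).card : ℤ) := by
        exact_mod_cast h4
      linarith

theorem raise_mono (P : Fin 3 → ℕ) (hP : ∀ c, P c ≤ d) (c : Fin 3) {n : ℕ} (hn : P c ≤ n)
    (hnd : n ≤ d) : gfun F P ≤ gfun F (Function.update P c n) := by
  have h := raise F P hP c n hn hnd
  have h2 : (0 : ℤ) ≤ ((univ.filter fun x : Node d => x.1 = c ∧ P c ≤ x.2.1 ∧
      x.2.1 < n ∧ ¬ Inc P (tau F x) ∧ Inc P ((tau F).symm x)).card : ℤ) := Nat.cast_nonneg _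
  linarith

theorem gfun_mono {P Q : Fin 3 → ℕ} (hPQ : ∀ c, P c ≤ Q c) (hQ : ∀ c, Q c ≤ d) :
    gfun F P ≤ gfun F Q := by
  have h1 := raise_mono F P (fun c => (hPQ c).trans (hQ c)) 0 (hPQ 0) (hQ 0)
  set P₁ := Function.update P 0 (Q 0) with hP₁
  have hb1 : ∀ c, P₁ c ≤ Q c := by
    intro c
    by_cases hc : c = 0
    · rw [hc, hP₁, Function.update_self]
    · rw [hP₁, Function.update_of_ne hc]; exact hPQ c
  have h2 := raise_mono F P₁ (fun c => (hb1 c).trans (hQ c)) 1 (hb1 1) (hQ 1)
  set P₂ := Function.update P₁ 1 (Q 1) with hP₂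
  have hb2 : ∀ c, P₂ c ≤ Q c := by
    intro c
    by_cases hc : c = 1
    · rw [hc, hP₂, Function.update_self]
    · rw [hP₂, Function.update_of_ne hc]; exact hb1 c
  have h3 := raise_mono F P₂ (fun c => (hb2 c).trans (hQ c)) 2 (hb2 2) (hQ 2)
  have h4 : Function.update P₂ 2 (Q 2) = Q := by
    funext c
    fin_cases c <;> simp [hP₂, hP₁, Function.update]
  rw [h4] at h3
  exact h1.trans (h2.trans h3)

theorem gfun_zero : gfun F (fun _ => 0) = 0 := by
  unfold gfun
  have h1 : cap F (fun _ => 0) = ⊥ := by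
    rw [eq_bot_iff]
    intro v hv
    have := (mem_cap F).1 hv 0
    rwa [(F 0).sub_zero] at this
  have h2 : (univ.filter fun x : Node d => Inc (fun _ => 0) x ∧ Inc (fun _ => 0) (tau F x)) = ∅ := by
    rw [filter_eq_empty_iff]
    rintro x - ⟨h, -⟩
    exact absurd h (Nat.not_lt_zero _)
  rw [h1, h2, finrank_bot]
  simp

theorem gfun_top : gfun F (fun _ => d) = d := by
  unfold gfun
  have h1 : cap F (fun _ => d) = ⊤ := by
    rw [eq_top_iff]
    intro v _
    rw [mem_cap]
    intro c
    rw [(F c).sub_top]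
    exact Submodule.mem_top
  have h2 : (univ.filter fun x : Node d => Inc (fun _ => d) x ∧ Inc (fun _ => d) (tau F x)) = univ := by
    rw [filter_eq_self]
    intro x _
    exact ⟨x.2.2, (tau F x).2.2⟩
  rw [h1, h2, finrank_top, card_univ, Fintype.card_prod, Fintype.card_fin, Fintype.card_fin]
  simp
  ring

/-- A union of cycles between two states raises `g` by its number of levels in the class `1`. -/
theorem block_big {A T : Fin 3 → ℕ} (hAT : ∀ c, A c ≤ T c) (hT : ∀ c, T c ≤ d)
    (o : Finset (Node d)) (ho : ∀ x ∈ o, tau F x ∈ o) (ho' : ∀ x ∈ o, (tau F).symm x ∈ o)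
    (hA : ∀ x ∈ o, A x.1 ≤ x.2.1) (hT' : ∀ x ∈ o, x.2.1 < T x.1) :
    gfun F A + ((o.filter fun x => x.1 = 1).card : ℤ) ≤ gfun F T := by
  classical
  have h1 := raise_mono F A (fun c => (hAT c).trans (hT c)) 0 (hAT 0) (hT 0)
  set P₁ := Function.update A 0 (T 0) with hP₁
  have hb1 : ∀ c, P₁ c ≤ T c := by
    intro c
    by_cases hc : c = 0
    · rw [hc, hP₁, Function.update_self]
    · rw [hP₁, Function.update_of_ne hc]; exact hAT c
  have h2 := raise F P₁ (fun c => (hb1 c).trans (hT c)) 1 (T 1) (hb1 1) (hT 1)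
  set P₂ := Function.update P₁ 1 (T 1) with hP₂
  have hb2 : ∀ c, P₂ c ≤ T c := by
    intro c
    by_cases hc : c = 1
    · rw [hc, hP₂, Function.update_self]
    · rw [hP₂, Function.update_of_ne hc]; exact hb1 c
  have h3 := raise_mono F P₂ (fun c => (hb2 c).trans (hT c)) 2 (hb2 2) (hT 2)
  have h4 : Function.update P₂ 2 (T 2) = T := by
    funext c
    fin_cases c <;> simp [hP₂, hP₁, Function.update]
  rw [h4] at h3
  have h5 : (o.filter fun x => x.1 = 1) ⊆ (univ.filter fun x : Node d => x.1 = 1 ∧ P₁ 1 ≤ x.2.1 ∧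
      x.2.1 < T 1 ∧ ¬ Inc P₁ (tau F x) ∧ Inc P₁ ((tau F).symm x)) := by
    intro x hx
    rw [mem_filter] at hx
    obtain ⟨hxo, hx1⟩ := hx
    rw [mem_filter]
    have ht1 : (tau F x).1 = 2 := by rw [tau_fst, hx1]; rfl
    have hs1 : ((tau F).symm x).1 = 0 := by
      have h6 : (tau F ((tau F).symm x)).1 = ((tau F).symm x).1 + 1 := rfl
      rw [Equiv.apply_symm_apply, hx1] at h6
      have h7 : ((tau F).symm x).1 + 1 = 0 + 1 := by rw [← h6]; rfl
      exact add_right_cancel h7
    refine ⟨mem_univ _, hx1, ?_, ?_, ?_, ?_⟩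
    · have := hA x hxo
      rw [hx1] at this
      rwa [hP₁, Function.update_of_ne (by decide)]
    · have := hT' x hxo
      rwa [hx1] at this
    · intro hinc
      unfold Inc at hinc
      have := hA _ (ho x hxo)
      rw [ht1] at hinc this
      rw [hP₁, Function.update_of_ne (by decide)] at hinc
      omega
    · unfold Inc
      have := hT' _ (ho' x hxo)
      rw [hs1] at this ⊢
      rwa [hP₁, Function.update_self]
  have h6 : ((o.filter fun x => x.1 = 1).card : ℤ) ≤ ((univ.filter fun x : Node d => x.1 = 1 ∧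
      P₁ 1 ≤ x.2.1 ∧ x.2.1 < T 1 ∧ ¬ Inc P₁ (tau F x) ∧ Inc P₁ ((tau F).symm x)).card : ℤ) := by
    exact_mod_cast card_le_card h5
  linarith

/-- A triangle not covered by one vector raises `g` by three. -/
theorem block_tri {A T : Fin 3 → ℕ} (hT : ∀ c, T c ≤ d)
    (x₀ x₁ x₂ : Node d) (hx₀ : x₀.1 = 0) (h01 : tau F x₀ = x₁) (h12 : tau F x₁ = x₂)
    (h20 : tau F x₂ = x₀) (hbad : ¬ ∃ v, Cov F x₀ v ∧ Cov F x₁ v ∧ Cov F x₂ v)
    (hA0 : A 0 ≤ x₀.2.1) (hA1 : A 1 ≤ x₁.2.1) (hA2 : A 2 ≤ x₂.2.1)
    (hT0 : x₀.2.1 < T 0) (hT1 : x₁.2.1 < T 1) (hT2 : x₂.2.1 < T 2) :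
    gfun F A + 3 ≤ gfun F T := by
  classical
  have hx₁ : x₁.1 = 1 := by rw [← h01, tau_fst, hx₀]; rfl
  have hx₂ : x₂.1 = 2 := by rw [← h12, tau_fst, hx₁]; rfl
  let P0 : Fin 3 → ℕ := ![x₀.2.1, x₁.2.1, x₂.2.1]
  let P1 : Fin 3 → ℕ := ![x₀.2.1 + 1, x₁.2.1, x₂.2.1]
  let P2 : Fin 3 → ℕ := ![x₀.2.1 + 1, x₁.2.1 + 1, x₂.2.1]
  let P3 : Fin 3 → ℕ := ![x₀.2.1 + 1, x₁.2.1 + 1, x₂.2.1 + 1]
  have hd0 := x₀.2.2
  have hd1 := x₁.2.2
  have hd2 := x₂.2.2
  have hP0 : ∀ c, P0 c ≤ d := by intro c; fin_cases c <;> simp [P0]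
  have hP1 : ∀ c, P1 c ≤ d := by intro c; fin_cases c <;> simp [P1]
  have hP2 : ∀ c, P2 c ≤ d := by intro c; fin_cases c <;> simp [P2]
  have hP3 : ∀ c, P3 c ≤ d := by intro c; fin_cases c <;> simp [P3]
  have hs0 : (tau F).symm x₀ = x₂ := by rw [← h20, Equiv.symm_apply_apply]
  have hs1 : (tau F).symm x₁ = x₀ := by rw [← h01, Equiv.symm_apply_apply]
  have hs2 : (tau F).symm x₂ = x₁ := by rw [← h12, Equiv.symm_apply_apply]
  have e0 : P0 x₀.1 = x₀.2.1 := by rw [hx₀]; rfl
  have e1 : P1 x₁.1 = x₁.2.1 := by rw [hx₁]; rfl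
  have e2 : P2 x₂.1 = x₂.2.1 := by rw [hx₂]; rfl
  have u0 : Function.update P0 x₀.1 (x₀.2.1 + 1) = P1 := by
    rw [hx₀]; funext c; fin_cases c <;> simp [P0, P1, Function.update]
  have u1 : Function.update P1 x₁.1 (x₁.2.1 + 1) = P2 := by
    rw [hx₁]; funext c; fin_cases c <;> simp [P1, P2, Function.update]
  have u2 : Function.update P2 x₂.1 (x₂.2.1 + 1) = P3 := by
    rw [hx₂]; funext c; fin_cases c <;> simp [P2, P3, Function.update]
  obtain ⟨c0, -⟩ := step F P0 x₀ e0 hP0
  obtain ⟨c1, -⟩ := step F P1 x₁ e1 hP1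
  obtain ⟨c2, -⟩ := step F P2 x₂ e2 hP2
  rw [u0, h01, hs0] at c0
  rw [u1, h12, hs1] at c1
  rw [u2, h20, hs2] at c2
  have i1 : ¬ Inc P0 x₁ := by unfold Inc; rw [hx₁]; show ¬ x₁.2.1 < x₁.2.1; omega
  have i2 : ¬ Inc P0 x₂ := by unfold Inc; rw [hx₂]; show ¬ x₂.2.1 < x₂.2.1; omega
  have i3 : ¬ Inc P1 x₂ := by unfold Inc; rw [hx₂]; show ¬ x₂.2.1 < x₂.2.1; omega
  have i4 : Inc P1 x₀ := by unfold Inc; rw [hx₀]; show x₀.2.1 < x₀.2.1 + 1; omega
  have i5 : Inc P2 x₀ := by unfold Inc; rw [hx₀]; show x₀.2.1 < x₀.2.1 + 1; omega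
  have i6 : Inc P2 x₁ := by unfold Inc; rw [hx₁]; show x₁.2.1 < x₁.2.1 + 1; omega
  rw [if_neg i1, if_neg i2] at c0
  rw [if_neg i3, if_pos i4] at c1
  rw [if_pos i5, if_pos i6] at c2
  have hcap : cap F P3 ≤ cap F P0 := by
    intro v hv
    have hv' := (mem_cap F).1 hv
    have hv0 : v ∈ (F x₀.1).sub (x₀.2.1 + 1) := by have := hv' 0; rw [hx₀]; exact this
    have hv1 : v ∈ (F x₁.1).sub (x₁.2.1 + 1) := by have := hv' 1; rw [hx₁]; exact this
    have hv2 : v ∈ (F x₂.1).sub (x₂.2.1 + 1) := by have := hv' 2; rw [hx₂]; exact this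
    have k01 : Cov F x₀ v → Cov F x₁ v := fun h => by
      have := cov_tau F h (by rw [h01]; exact hv1)
      rwa [h01] at this
    have k12 : Cov F x₁ v → Cov F x₂ v := fun h => by
      have := cov_tau F h (by rw [h12]; exact hv2)
      rwa [h12] at this
    have k20 : Cov F x₂ v → Cov F x₀ v := fun h => by
      have := cov_tau F h (by rw [h20]; exact hv0)
      rwa [h20] at this
    have n0 : ¬ Cov F x₀ v := fun h => hbad ⟨v, h, k01 h, k12 (k01 h)⟩
    have n1 : ¬ Cov F x₁ v := fun h => n0 (k20 (k12 h))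
    have n2 : ¬ Cov F x₂ v := fun h => n0 (k20 h)
    rw [mem_cap]
    intro c
    fin_cases c
    · by_contra h
      refine n0 ⟨hv0, ?_⟩
      rw [hx₀]; exact h
    · by_contra h
      refine n1 ⟨hv1, ?_⟩
      rw [hx₁]; exact h
    · by_contra h
      refine n2 ⟨hv2, ?_⟩
      rw [hx₂]; exact h
  have hfr : (Module.finrank K (cap F P3) : ℤ) ≤ Module.finrank K (cap F P0) := by
    exact_mod_cast Submodule.finrank_mono hcap
  have hmid : gfun F P0 + 3 ≤ gfun F P3 := by
    unfold gfun
    linarith
  have hlow : gfun F A ≤ gfun F P0 := gfun_mono F (by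
    intro c; fin_cases c
    · exact hA0
    · exact hA1
    · exact hA2) hP0
  have hhigh : gfun F P3 ≤ gfun F T := gfun_mono F (by
    intro c; fin_cases c
    · exact hT0
    · exact hT1
    · exact hT2) hT
  linarith

end three

end Pool.Agent.V11181
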