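import Pool.Agent.V11181.Flags2

/-!
# Cycles of levels, and the bound for three flags
-/

set_option autoImplicit false

namespace Pool.Agent.V11181

open Finset Function

universe u

variable {K : Type u} [Field K] {d : ℕ}

section three

variable (F : Fin 3 → Flag K d)

/-! ### Orbits -/

theorem period_pos (x : Node d) : 0 < minimalPeriod (tau F) x := by
  apply minimalPeriod_pos_of_mem_periodicPts
  refine ⟨orderOf (tau F), orderOf_pos _, ?_⟩
  unfold IsPeriodicPt IsFixedPt
  rw [← Equiv.Perm.coe_pow, pow_orderOf_eq_one]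
  rfl

/-- The cycle of a level. -/
noncomputable def orb (x : Node d) : Finset (Node d) :=
  (range (minimalPeriod (tau F) x)).image fun n => (tau F)^[n] x

theorem mem_orb {x y : Node d} : y ∈ orb F x ↔ ∃ n : ℕ, (tau F)^[n] x = y := by
  unfold orb
  rw [mem_image]
  constructor
  · rintro ⟨n, -, h⟩
    exact ⟨n, h⟩
  · rintro ⟨n, h⟩
    refine ⟨n % minimalPeriod (tau F) x, mem_range.2 (Nat.mod_lt _ (period_pos F x)), ?_⟩
    rw [iterate_mod_minimalPeriod_eq, h]

theorem self_mem_orb (x : Node d) : x ∈ orb F x := (mem_orb F).2 ⟨0, rfl⟩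

theorem card_orb (x : Node d) : (orb F x).card = minimalPeriod (tau F) x := by
  unfold orb
  rw [card_image_of_injOn, card_range]
  intro a ha b hb h
  exact (iterate_injOn_Iio_minimalPeriod (f := tau F) (x := x)) (by simpa using ha)
    (by simpa using hb) h

theorem orb_symm {x y : Node d} (h : y ∈ orb F x) : x ∈ orb F y := by
  obtain ⟨n, hn⟩ := (mem_orb F).1 h
  rw [mem_orb]
  -- go around
  refine ⟨n * (minimalPeriod (tau F) x - 1), ?_⟩
  rw [← hn, ← iterate_add_apply]
  have h1 := period_pos F x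
  have h2 : n * (minimalPeriod (tau F) x - 1) + n = n * minimalPeriod (tau F) x := by
    obtain ⟨L, hL⟩ : ∃ L, minimalPeriod (tau F) x = L + 1 :=
      ⟨minimalPeriod (tau F) x - 1, by omega⟩
    rw [hL, Nat.add_sub_cancel]
    ring
  rw [h2, ← iterate_mod_minimalPeriod_eq, Nat.mul_mod_left]
  rfl

theorem orb_trans {x y z : Node d} (h1 : y ∈ orb F x) (h2 : z ∈ orb F y) : z ∈ orb F x := by
  obtain ⟨n, hn⟩ := (mem_orb F).1 h1
  obtain ⟨m, hm⟩ := (mem_orb F).1 h2
  rw [mem_orb]
  refine ⟨m + n, ?_⟩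
  rw [iterate_add_apply, hn, hm]

theorem orb_eq {x y : Node d} (h : y ∈ orb F x) : orb F y = orb F x := by
  ext z
  exact ⟨fun hz => orb_trans F h hz, fun hz => orb_trans F (orb_symm F h) hz⟩

theorem tau_mem_orb {x y : Node d} (h : y ∈ orb F x) : tau F y ∈ orb F x :=
  orb_trans F h ((mem_orb F).2 ⟨1, rfl⟩)

theorem symm_mem_orb {x y : Node d} (h : y ∈ orb F x) : (tau F).symm y ∈ orb F x := by
  have h1 : y ∈ orb F ((tau F).symm y) := (mem_orb F).2 ⟨1, by
    show tau F ((tau F).symm y) = y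
    exact Equiv.apply_symm_apply _ _⟩
  exact orb_trans F h (orb_symm F h1)

theorem iter_mem_orb {x y : Node d} (h : y ∈ orb F x) (n : ℕ) : (tau F)^[n] y ∈ orb F x :=
  orb_trans F h ((mem_orb F).2 ⟨n, rfl⟩)

/-- The set of all cycles. -/
noncomputable def orbits : Finset (Finset (Node d)) := univ.image (orb F)

theorem mem_orbits {o : Finset (Node d)} : o ∈ orbits F ↔ ∃ x, orb F x = o := by
  unfold orbits
  rw [mem_image]
  exact ⟨fun ⟨x, _, h⟩ => ⟨x, h⟩, fun ⟨x, h⟩ => ⟨x, mem_univ _, h⟩⟩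

theorem eq_orb_of_mem {o : Finset (Node d)} (ho : o ∈ orbits F) {x : Node d} (hx : x ∈ o) :
    o = orb F x := by
  obtain ⟨y, rfl⟩ := (mem_orbits F).1 ho
  exact (orb_eq F hx).symm

theorem orbits_disjoint {o o' : Finset (Node d)} (ho : o ∈ orbits F) (ho' : o' ∈ orbits F)
    (hne : o ≠ o') : Disjoint o o' := by
  rw [disjoint_left]
  intro x hx hx'
  exact hne ((eq_orb_of_mem F ho hx).trans (eq_orb_of_mem F ho' hx').symm)

theorem sum_card_orbits : ∑ o ∈ orbits F, o.card = 3 * d := by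
  rw [← card_biUnion fun o ho o' ho' hne => orbits_disjoint F ho ho' hne]
  have : (orbits F).biUnion (fun o => o) = univ := by
    rw [eq_univ_iff_forall]
    intro x
    rw [mem_biUnion]
    exact ⟨orb F x, (mem_orbits F).2 ⟨x, rfl⟩, self_mem_orb F x⟩
  have h2 : ((orbits F).biUnion fun o => o).card = 3 * d := by
    rw [this, card_univ, Fintype.card_prod, Fintype.card_fin, Fintype.card_fin]
  exact h2

theorem iter_fst (x : Node d) (n : ℕ) : ((tau F)^[n] x).1.1 = (x.1.1 + n) % 3 := by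
  induction n with
  | zero =>
    show x.1.1 = _
    have := x.1.2
    omega
  | succ n ih =>
    rw [iterate_succ_apply', tau_fst, Fin.val_add, ih]
    show ((x.1.1 + n) % 3 + 1) % 3 = _
    omega

theorem three_dvd_card (x : Node d) : 3 ∣ (orb F x).card := by
  rw [card_orb]
  have h1 := iter_fst F x (minimalPeriod (tau F) x)
  rw [iterate_minimalPeriod] at h1
  have := x.1.2
  omega

/-! ### Covering cycles -/

/-- all levels in `o` are covered by vectors of `S` -/
def Covers (S : Finset (Fin d → K)) (o : Finset (Node d)) : Prop := ∀ y ∈ o, ∃ v ∈ S, Cov F y v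

theorem cover_all (x : Node d) : ∃ S : Finset (Fin d → K), Covers F S (orb F x) ∧
    S.card ≤ ((orb F x).card + 1) / 2 := by
  classical
  choose e he1 he2 using nlink_tau F
  refine ⟨(range (((orb F x).card + 1) / 2)).image fun s => e ((tau F)^[2 * s] x), ?_, ?_⟩
  · intro y hy
    unfold orb at hy
    rw [mem_image] at hy
    obtain ⟨n, hn, rfl⟩ := hy
    rw [mem_range, ← card_orb] at hn
    refine ⟨e ((tau F)^[2 * (n / 2)] x), mem_image.2 ⟨n / 2, mem_range.2 (by omega), rfl⟩, ?_⟩
    rcases Nat.even_or_odd' n with ⟨s, hs | hs⟩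
    · have : 2 * (n / 2) = n := by omega
      rw [this]
      exact he1 _
    · have : n = 2 * (n / 2) + 1 := by omega
      have h2 := he2 ((tau F)^[2 * (n / 2)] x)
      rw [← iterate_succ_apply' (⇑(tau F)), ← Nat.add_one, ← this] at h2
      exact h2
  · exact card_image_le.trans (by rw [card_range])

theorem cover_rest (x : Node d) (hodd : Odd (orb F x).card) : ∃ S : Finset (Fin d → K),
    (∀ y ∈ orb F x, y ≠ x → ∃ v ∈ S, Cov F y v) ∧ S.card ≤ (orb F x).card / 2 := by
  classical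
  choose e he1 he2 using nlink_tau F
  refine ⟨(range ((orb F x).card / 2)).image fun s => e ((tau F)^[2 * s + 1] x), ?_, ?_⟩
  · intro y hy hne
    unfold orb at hy
    rw [mem_image] at hy
    obtain ⟨n, hn, rfl⟩ := hy
    rw [mem_range, ← card_orb] at hn
    have hn0 : n ≠ 0 := by
      rintro rfl
      exact hne rfl
    obtain ⟨m, hm⟩ := hodd
    refine ⟨e ((tau F)^[2 * ((n - 1) / 2) + 1] x),
      mem_image.2 ⟨(n - 1) / 2, mem_range.2 (by omega), rfl⟩, ?_⟩
    rcases Nat.even_or_odd' n with ⟨s, hs | hs⟩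
    · have : n = (2 * ((n - 1) / 2) + 1) + 1 := by omega
      have h2 := he2 ((tau F)^[2 * ((n - 1) / 2) + 1] x)
      rw [← iterate_succ_apply' (⇑(tau F)), ← Nat.add_one, ← this] at h2
      exact h2
    · have : 2 * ((n - 1) / 2) + 1 = n := by omega
      rw [this]
      exact he1 _
  · exact card_image_le.trans (by rw [card_range])

/-- Two cycles are unlinked. -/
def Unlinked (o o' : Finset (Node d)) : Prop := ∀ x ∈ o, ∀ y ∈ o', ¬ NLink F x y

theorem cover_family : ∀ (n : ℕ) (O : Finset (Finset (Node d))), O.card = n → O ⊆ orbits F →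
    (∀ o ∈ O, Odd o.card) → ∃ Q ⊆ O, (∀ o ∈ Q, ∀ o' ∈ Q, o ≠ o' → Unlinked F o o') ∧
      ∃ S : Finset (Fin d → K), (∀ o ∈ O, Covers F S o) ∧ 2 * S.card ≤ ∑ o ∈ O, o.card + Q.card := by
  classical
  intro n
  induction n using Nat.strong_induction_on with
  | _ n ih =>
    intro O hOn hO hodd
    by_cases hun : ∀ o ∈ O, ∀ o' ∈ O, o ≠ o' → Unlinked F o o'
    · refine ⟨O, Subset.refl _, hun, ?_⟩
      have h1 : ∀ o ∈ O, ∃ S : Finset (Fin d → K), Covers F S o ∧ S.card ≤ (o.card + 1) / 2 := by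
        intro o ho
        obtain ⟨x, rfl⟩ := (mem_orbits F).1 (hO ho)
        exact cover_all F x
      choose! S hS1 hS2 using h1
      refine ⟨O.biUnion S, ?_, ?_⟩
      · intro o ho y hy
        obtain ⟨v, hv, hc⟩ := hS1 o ho y hy
        exact ⟨v, mem_biUnion.2 ⟨o, ho, hv⟩, hc⟩
      · calc 2 * (O.biUnion S).card ≤ 2 * ∑ o ∈ O, (S o).card := Nat.mul_le_mul_left _ card_biUnion_le
          _ = ∑ o ∈ O, 2 * (S o).card := by rw [mul_sum]
          _ ≤ ∑ o ∈ O, (o.card + 1) := by
              apply sum_le_sum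
              intro o ho
              have := hS2 o ho
              omega
          _ = ∑ o ∈ O, o.card + O.card := by rw [sum_add_distrib, sum_const, smul_eq_mul, mul_one]
    · unfold Unlinked at hun
      push Not at hun
      obtain ⟨o, ho, o', ho', hne, x, hx, y, hy, v, hv1, hv2⟩ := hun
      have ho'2 : o' ∈ O.erase o := mem_erase.2 ⟨hne.symm, ho'⟩
      have hc1 : (O.erase o).card = n - 1 := by rw [card_erase_of_mem ho, hOn]
      have hc2 : ((O.erase o).erase o').card = n - 1 - 1 := by rw [card_erase_of_mem ho'2, hc1]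
      have hn2 : 0 < n := by rw [← hOn]; exact card_pos.2 ⟨o, ho⟩
      obtain ⟨Q, hQ, hQun, S, hS, hScard⟩ := ih (n - 1 - 1) (by omega) ((O.erase o).erase o') hc2
        (((erase_subset _ _).trans (erase_subset _ _)).trans hO)
        (fun a ha => hodd a (mem_of_mem_erase (mem_of_mem_erase ha)))
      have hox := eq_orb_of_mem F (hO ho) hx
      have hoy := eq_orb_of_mem F (hO ho') hy
      obtain ⟨S1, hS1, hS1c⟩ := cover_rest F x (hox ▸ hodd o ho)
      obtain ⟨S2, hS2, hS2c⟩ := cover_rest F y (hoy ▸ hodd o' ho')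
      refine ⟨Q, hQ.trans ((erase_subset _ _).trans (erase_subset _ _)), hQun,
        insert v (S ∪ (S1 ∪ S2)), ?_, ?_⟩
      · intro a ha z hz
        by_cases hao : a = o
        · subst hao
          rw [hox] at hz
          by_cases hzx : z = x
          · rw [hzx]
            exact ⟨v, mem_insert_self _ _, hv1⟩
          · obtain ⟨u, hu, hcu⟩ := hS1 z hz hzx
            exact ⟨u, mem_insert_of_mem (mem_union_right _ (mem_union_left _ hu)), hcu⟩
        · by_cases hao' : a = o'
          · subst hao'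
            rw [hoy] at hz
            by_cases hzy : z = y
            · rw [hzy]
              exact ⟨v, mem_insert_self _ _, hv2⟩
            · obtain ⟨u, hu, hcu⟩ := hS2 z hz hzy
              exact ⟨u, mem_insert_of_mem (mem_union_right _ (mem_union_right _ hu)), hcu⟩
          · obtain ⟨u, hu, hcu⟩ := hS a (mem_erase.2 ⟨hao', mem_erase.2 ⟨hao, ha⟩⟩) z hz
            exact ⟨u, mem_insert_of_mem (mem_union_left _ hu), hcu⟩
      · have h3 : (insert v (S ∪ (S1 ∪ S2))).card ≤ S.card + (S1.card + S2.card) + 1 :=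
          (card_insert_le _ _).trans (Nat.add_le_add_right ((card_union_le _ _).trans
            (Nat.add_le_add_left (card_union_le _ _) _)) _)
        have h4 : ∑ a ∈ O, a.card = o.card + (o'.card + ∑ a ∈ (O.erase o).erase o', a.card) := by
          rw [← add_sum_erase O (fun a => a.card) ho,
            ← add_sum_erase (O.erase o) (fun a => a.card) ho'2]
        rw [h4]
        obtain ⟨m1, hm1⟩ := hodd o ho
        obtain ⟨m2, hm2⟩ := hodd o' ho'
        rw [← hox] at hS1c
        rw [← hoy] at hS2c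
        omega

/-! ### Unlinked cycles are ordered -/

theorem nlt_iter {o o' : Finset (Node d)} (ho : o ∈ orbits F) (ho' : o' ∈ orbits F)
    (hun : Unlinked F o' o) {x y : Node d} (hx : x ∈ o) (hy : y ∈ o') (h : NLt x y) (n : ℕ) :
    NLt ((tau F)^[n] x) ((tau F)^[n] y) := by
  obtain rfl := eq_orb_of_mem F ho hx
  obtain rfl := eq_orb_of_mem F ho' hy
  induction n with
  | zero => exact h
  | succ n ih =>
    rw [iterate_succ_apply', iterate_succ_apply']
    exact nlt_tau F ih (hun _ (iter_mem_orb F (self_mem_orb F y) n) _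
      (tau_mem_orb F (iter_mem_orb F (self_mem_orb F x) n)))

theorem nlt_or {o o' : Finset (Node d)} (ho : o ∈ orbits F) (ho' : o' ∈ orbits F) (hne : o ≠ o')
    {x y : Node d} (hx : x ∈ o) (hy : y ∈ o') (h : x.1 = y.1) : NLt x y ∨ NLt y x := by
  rcases lt_trichotomy x.2 y.2 with h1 | h1 | h1
  · exact Or.inl ⟨h, h1⟩
  · exfalso
    have h2 : x = y := Prod.ext h h1
    subst h2
    exact hne ((eq_orb_of_mem F ho hx).trans (eq_orb_of_mem F ho' hy).symm)
  · exact Or.inr ⟨h.symm, h1⟩

theorem all_lt {o o' : Finset (Node d)} (ho : o ∈ orbits F) (ho' : o' ∈ orbits F) (hne : o ≠ o')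
    (hun : Unlinked F o o') (hun' : Unlinked F o' o) {x y : Node d} (hx : x ∈ o) (hy : y ∈ o')
    (h : NLt x y) {x₁ y₁ : Node d} (hx₁ : x₁ ∈ o) (hy₁ : y₁ ∈ o') (h₁ : x₁.1 = y₁.1) :
    NLt x₁ y₁ := by
  rcases nlt_or F ho ho' hne hx₁ hy₁ h₁ with h2 | h2
  · exact h2
  · exfalso
    -- `t = x₁ = τ^a x`
    have hox := eq_orb_of_mem F ho hx
    obtain ⟨a, ha⟩ := (mem_orb F).1 (hox ▸ hx₁)
    have h3 := nlt_iter F ho ho' hun' hx hy h a
    rw [ha] at h3
    set y₂ := (tau F)^[a] y with hy₂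
    have hy₂o : y₂ ∈ o' := by
      have hoy := eq_orb_of_mem F ho' hy
      rw [hoy]
      exact iter_mem_orb F (self_mem_orb F y) a
    have hoy₁ := eq_orb_of_mem F ho' hy₁
    obtain ⟨e, he⟩ := (mem_orb F).1 (hoy₁ ▸ hy₂o)
    -- y₁ < x₁ < τ^e y₁
    have hstep : ∀ n : ℕ, n ≤ ((tau F)^[n * e] y₁).2.1 := by
      intro n
      induction n with
      | zero => exact Nat.zero_le _
      | succ n ih =>
        have k1 := nlt_iter F ho' ho hun hy₁ hx₁ h2 (n * e)
        have k2 := nlt_iter F ho ho' hun' hx₁ hy₂o h3 (n * e)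
        rw [← he, ← iterate_add_apply] at k2
        have e1 : (n + 1) * e = n * e + e := by ring
        rw [e1]
        have k3 : ((tau F)^[n * e] y₁).2.1 < ((tau F)^[n * e] x₁).2.1 := k1.2
        have k4 : ((tau F)^[n * e] x₁).2.1 < ((tau F)^[n * e + e] y₁).2.1 := k2.2
        omega
    have h4 := hstep d
    have h5 := ((tau F)^[d * e] y₁).2.2
    omega

theorem exists_class {o : Finset (Node d)} (ho : o ∈ orbits F) (c : Fin 3) : ∃ x ∈ o, x.1 = c := by
  obtain ⟨x, rfl⟩ := (mem_orbits F).1 ho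
  refine ⟨(tau F)^[(c.1 + 3 - x.1.1)] x, iter_mem_orb F (self_mem_orb F x) _, ?_⟩
  apply Fin.ext
  rw [iter_fst]
  have := x.1.2
  have := c.2
  omega

/-- A bad odd cycle raises `g` by at least three. -/
theorem block {A T : Fin 3 → ℕ} (hAT : ∀ c, A c ≤ T c) (hT : ∀ c, T c ≤ d)
    {o : Finset (Node d)} (ho : o ∈ orbits F) (hodd : Odd o.card) (hbad : ¬ ∃ v, ∀ y ∈ o, Cov F y v)
    (hA : ∀ x ∈ o, A x.1 ≤ x.2.1) (hT' : ∀ x ∈ o, x.2.1 < T x.1) :
    gfun F A + 3 ≤ gfun F T := by
  classical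
  obtain ⟨x₀, hx₀o, hx₀⟩ := exists_class F ho 0
  have hox := eq_orb_of_mem F ho hx₀o
  have h3 : 3 ∣ o.card := by rw [hox]; exact three_dvd_card F x₀
  by_cases hc3 : o.card = 3
  · -- a triangle
    have hper : minimalPeriod (tau F) x₀ = 3 := by rw [← card_orb, ← hox, hc3]
    set x₁ := tau F x₀ with hx₁
    set x₂ := tau F x₁ with hx₂
    have h20 : tau F x₂ = x₀ := by
      have := iterate_minimalPeriod (f := tau F) (x := x₀)
      rw [hper] at this
      exact this
    have hx₁o : x₁ ∈ o := by rw [hox]; exact tau_mem_orb F (self_mem_orb F x₀)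
    have hx₂o : x₂ ∈ o := by
      rw [hox]; exact tau_mem_orb F (tau_mem_orb F (self_mem_orb F x₀))
    have hmem : ∀ y ∈ o, y = x₀ ∨ y = x₁ ∨ y = x₂ := by
      intro y hy
      rw [hox] at hy
      unfold orb at hy
      rw [mem_image] at hy
      obtain ⟨n, hn, rfl⟩ := hy
      rw [mem_range, hper] at hn
      interval_cases n
      · exact Or.inl rfl
      · exact Or.inr (Or.inl rfl)
      · exact Or.inr (Or.inr rfl)
    have hx₁c : x₁.1 = 1 := by rw [hx₁, tau_fst, hx₀]; rfl
    have hx₂c : x₂.1 = 2 := by rw [hx₂, tau_fst, hx₁c]; rfl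
    apply block_tri F hT x₀ x₁ x₂ hx₀ rfl rfl h20
    · rintro ⟨v, hv0, hv1, hv2⟩
      refine hbad ⟨v, fun y hy => ?_⟩
      rcases hmem y hy with rfl | rfl | rfl
      · exact hv0
      · exact hv1
      · exact hv2
    · have := hA x₀ hx₀o; rwa [hx₀] at this
    · have := hA x₁ hx₁o; rwa [hx₁c] at this
    · have := hA x₂ hx₂o; rwa [hx₂c] at this
    · have := hT' x₀ hx₀o; rwa [hx₀] at this
    · have := hT' x₁ hx₁o; rwa [hx₁c] at this
    · have := hT' x₂ hx₂o; rwa [hx₂c] at this
  · -- a long cycle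
    have hc9 : 9 ≤ o.card := by
      obtain ⟨m, hm⟩ := hodd
      obtain ⟨k, hk⟩ := h3
      omega
    have h1 := block_big F hAT hT o (fun x hx => by
        rw [hox] at hx ⊢; exact tau_mem_orb F hx) (fun x hx => by
        rw [hox] at hx ⊢; exact symm_mem_orb F hx) hA hT'
    have h2 : 3 ≤ (o.filter fun x => x.1 = 1).card := by
      have hper : 9 ≤ minimalPeriod (tau F) x₀ := by rw [← card_orb, ← hox]; exact hc9
      have hinj := iterate_injOn_Iio_minimalPeriod (f := tau F) (x := x₀)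
      have hcl : ∀ n, n % 3 = 1 → (tau F)^[n] x₀ ∈ o.filter fun x => x.1 = 1 := by
        intro n hn
        rw [mem_filter]
        refine ⟨by rw [hox]; exact iter_mem_orb F (self_mem_orb F x₀) n, ?_⟩
        apply Fin.ext
        rw [iter_fst, hx₀]
        show (0 + n) % 3 = 1
        omega
      have h4 : ((range 3).image fun s => (tau F)^[3 * s + 1] x₀).card = 3 := by
        rw [card_image_of_injOn, card_range]
        intro a ha b hb hab
        have ha' := mem_range.1 (mem_coe.1 ha)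
        have hb' := mem_range.1 (mem_coe.1 hb)
        have := hinj (by simp; omega : 3 * a + 1 ∈ Set.Iio _) (by simp; omega : 3 * b + 1 ∈ Set.Iio _) hab
        omega
      refine h4.symm.le.trans (card_le_card ?_)
      intro y hy
      obtain ⟨s, -, rfl⟩ := mem_image.1 hy
      exact hcl _ (by omega)
    have h5 : (3 : ℤ) ≤ ((o.filter fun x => x.1 = 1).card : ℤ) := by exact_mod_cast h2
    linarith

/-- Pairwise unlinked bad odd cycles: at most a third of the dimension. -/
theorem chain : ∀ (n : ℕ) (Q : Finset (Finset (Node d))), Q.card = n → Q ⊆ orbits F →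
    (∀ o ∈ Q, Odd o.card ∧ ¬ ∃ v, ∀ y ∈ o, Cov F y v) →
    (∀ o ∈ Q, ∀ o' ∈ Q, o ≠ o' → Unlinked F o o') →
    ∀ T : Fin 3 → ℕ, (∀ c, T c ≤ d) → (∀ o ∈ Q, ∀ x ∈ o, x.2.1 < T x.1) →
      3 * (n : ℤ) ≤ gfun F T := by
  classical
  intro n
  induction n with
  | zero =>
    intro Q _ _ _ _ T hT _
    have h1 := gfun_mono F (P := fun _ => 0) (Q := T) (fun c => Nat.zero_le _) hT
    rw [gfun_zero] at h1
    simpa using h1
  | succ n ih =>
    intro Q hQn hQ hbad hun T hT hQT
    have hne : Q.Nonempty := by rw [← card_pos, hQn]; omega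
    obtain ⟨o, ho, hmax⟩ := Q.exists_max_image
      (fun o => (o.filter fun x => x.1 = 0).sup fun x => x.2.1 + 1) hne
    -- all others are below `o`
    have hbelow : ∀ o' ∈ Q, o' ≠ o → ∀ y ∈ o', ∀ x ∈ o, y.1 = x.1 → NLt y x := by
      intro o' ho' hne' y hy x hx hyx
      obtain ⟨x₀, hx₀, hx₀c⟩ := exists_class F (hQ ho) 0
      obtain ⟨y₀, hy₀, hy₀c⟩ := exists_class F (hQ ho') 0
      rcases nlt_or F (hQ ho) (hQ ho') hne'.symm hx₀ hy₀ (hx₀c.trans hy₀c.symm) with h | h
      · exfalso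
        have h1 := hmax o' ho'
        have h2 : (o.filter fun x => x.1 = 0).sup (fun x => x.2.1 + 1) < y₀.2.1 + 1 := by
          rw [Finset.sup_lt_iff (by show 0 < y₀.2.1 + 1; omega)]
          intro z hz
          rw [mem_filter] at hz
          have h3 := all_lt F (hQ ho) (hQ ho') hne'.symm (hun o ho o' ho' hne'.symm)
            (hun o' ho' o ho hne') hx₀ hy₀ h hz.1 hy₀ (hz.2.trans hy₀c.symm)
          have : z.2.1 < y₀.2.1 := h3.2
          omega
        have h3 : y₀.2.1 + 1 ≤ (o'.filter fun x => x.1 = 0).sup (fun x => x.2.1 + 1) :=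
          Finset.le_sup (f := fun x : Node d => x.2.1 + 1) (mem_filter.2 ⟨hy₀, hy₀c⟩)
        omega
      · exact all_lt F (hQ ho') (hQ ho) hne' (hun o' ho' o ho hne')
          (hun o ho o' ho' hne'.symm) hy₀ hx₀ h hy hx hyx
    let A : Fin 3 → ℕ := fun c =>
      (((Q.erase o).biUnion fun o' => o').filter fun x => x.1 = c).sup fun x => x.2.1 + 1
    have hAT : ∀ c, A c ≤ T c := by
      intro c
      apply Finset.sup_le
      intro x hx
      rw [mem_filter, mem_biUnion] at hx
      obtain ⟨⟨o', ho', hxo'⟩, hxc⟩ := hx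
      have := hQT o' (mem_of_mem_erase ho') x hxo'
      rw [hxc] at this
      exact this
    have hA : ∀ x ∈ o, A x.1 ≤ x.2.1 := by
      intro x hx
      apply Finset.sup_le
      intro y hy
      rw [mem_filter, mem_biUnion] at hy
      obtain ⟨⟨o', ho', hyo'⟩, hyc⟩ := hy
      have := (hbelow o' (mem_of_mem_erase ho') (ne_of_mem_erase ho') y hyo' x hx hyc).2
      exact this
    have h1 := ih (Q.erase o) (by rw [card_erase_of_mem ho, hQn]; rfl)
      ((erase_subset _ _).trans hQ) (fun a ha => hbad a (mem_of_mem_erase ha))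
      (fun a ha b hb => hun a (mem_of_mem_erase ha) b (mem_of_mem_erase hb)) A
      (fun c => (hAT c).trans (hT c)) (fun o' ho' x hx => by
        have : x.2.1 + 1 ≤ A x.1 := Finset.le_sup (f := fun x : Node d => x.2.1 + 1)
          (mem_filter.2 ⟨mem_biUnion.2 ⟨o', ho', hx⟩, rfl⟩)
        exact this)
    have h2 := block F hAT hT (hQ ho) (hbad o ho).1 (hbad o ho).2 hA (hQT o ho)
    push_cast
    linarith

/-- **Three flags.** -/
theorem three_flags : ∃ S : Finset (Fin d → K), S.card ≤ d + 2 * d / 3 ∧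
    ∀ c i, i < d → ∃ v ∈ S, (F c).Lev i v := by
  classical
  let Ob := (orbits F).filter fun o => Odd o.card ∧ ¬ ∃ v, ∀ y ∈ o, Cov F y v
  let Og := (orbits F).filter fun o => ¬ (Odd o.card ∧ ¬ ∃ v, ∀ y ∈ o, Cov F y v)
  obtain ⟨Q, hQ, hun, S, hS, hScard⟩ := cover_family F Ob.card Ob rfl (filter_subset _ _)
    (fun o ho => (mem_filter.1 ho).2.1)
  have hgood : ∀ o ∈ Og, ∃ S : Finset (Fin d → K), Covers F S o ∧ 2 * S.card ≤ o.card := by
    intro o ho
    rw [mem_filter] at ho
    obtain ⟨x, rfl⟩ := (mem_orbits F).1 ho.1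
    by_cases hodd : Odd (orb F x).card
    · have h1 : ∃ v, ∀ y ∈ orb F x, Cov F y v := by
        by_contra h
        exact ho.2 ⟨hodd, h⟩
      obtain ⟨v, hv⟩ := h1
      refine ⟨{v}, fun y hy => ⟨v, mem_singleton_self _, hv y hy⟩, ?_⟩
      rw [card_singleton]
      have h2 := three_dvd_card F x
      have h3 : 0 < (orb F x).card := card_pos.2 ⟨x, self_mem_orb F x⟩
      omega
    · obtain ⟨S, hS1, hS2⟩ := cover_all F x
      refine ⟨S, hS1, ?_⟩
      rw [Nat.not_odd_iff_even] at hodd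
      obtain ⟨m, hm⟩ := hodd
      omega
  choose! S' hS'1 hS'2 using hgood
  refine ⟨S ∪ Og.biUnion S', ?_, ?_⟩
  · have h1 : (S ∪ Og.biUnion S').card ≤ S.card + ∑ o ∈ Og, (S' o).card :=
      (card_union_le _ _).trans (Nat.add_le_add_left card_biUnion_le _)
    have h2 : 2 * ∑ o ∈ Og, (S' o).card ≤ ∑ o ∈ Og, o.card := by
      rw [mul_sum]
      exact sum_le_sum fun o ho => hS'2 o ho
    have h3 : ∑ o ∈ Ob, o.card + ∑ o ∈ Og, o.card = 3 * d := by
      rw [← sum_card_orbits F]
      exact sum_filter_add_sum_filter_not _ _ _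
    have h4 : 3 * (Q.card : ℤ) ≤ d := by
      have h5 := chain F Q.card Q rfl (hQ.trans (filter_subset _ _))
        (fun o ho => (mem_filter.1 (hQ ho)).2) hun (fun _ => d) (fun _ => le_rfl)
        (fun o _ x _ => x.2.2)
      rwa [gfun_top] at h5
    have h5 : 3 * Q.card ≤ d := by exact_mod_cast h4
    omega
  · intro c i hi
    let x : Node d := (c, ⟨i, hi⟩)
    have hx : orb F x ∈ orbits F := (mem_orbits F).2 ⟨x, rfl⟩
    by_cases hb : Odd (orb F x).card ∧ ¬ ∃ v, ∀ y ∈ orb F x, Cov F y v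
    · obtain ⟨v, hv, hc⟩ := hS (orb F x) (mem_filter.2 ⟨hx, hb⟩) x (self_mem_orb F x)
      exact ⟨v, mem_union_left _ hv, hc⟩
    · have hog : orb F x ∈ Og := mem_filter.2 ⟨hx, hb⟩
      obtain ⟨v, hv, hc⟩ := hS'1 (orb F x) hog x (self_mem_orb F x)
      exact ⟨v, mem_union_right _ (mem_biUnion.2 ⟨_, hog, hv⟩), hc⟩

end three

end Pool.Agent.V11181
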