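import Mathlib

/-!
# EF1 plus Pareto optimality with EF1 under a common valuation (Q1)

A two-agent, four-good instance with strictly positive subjective values and strictly positive
reference values in which no allocation is EF1 and Pareto optimal for the subjective utilities and
at the same time EF1 for the reference valuation.
-/

namespace Pool.Agent.Results.MP_e74e46_co.NoTriple

open Finset

variable {R : Type*} {n m : ℕ}

/-- The bundle of agent `i` in the allocation `A` (which sends each good to its owner). -/
def bundle (A : Fin m → Fin n) (i : Fin n) : Finset (Fin m) :=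
  Finset.univ.filter fun g => A g = i

/-- The additive value of a set of goods. -/
def value [AddCommMonoid R] (w : Fin m → R) (S : Finset (Fin m)) : R := ∑ g ∈ S, w g

/-- EF1 with respect to the profile `w`. -/
def EF1 [AddCommMonoid R] [LE R] (w : Fin n → Fin m → R) (A : Fin m → Fin n) : Prop :=
  ∀ i j, bundle A j = ∅ ∨
    ∃ g ∈ bundle A j, value (w i) ((bundle A j).erase g) ≤ value (w i) (bundle A i)

/-- Pareto optimality (among integral allocations) with respect to `u`. -/
def PO [AddCommMonoid R] [LE R] [LT R] (u : Fin n → Fin m → R) (A : Fin m → Fin n) : Prop :=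
  ¬ ∃ A' : Fin m → Fin n, (∀ i, value (u i) (bundle A i) ≤ value (u i) (bundle A' i)) ∧
    ∃ i, value (u i) (bundle A i) < value (u i) (bundle A' i)

/-- the subjective utilities, over the naturals -/
def uN : Fin 2 → Fin 4 → ℕ := ![![2, 1, 1, 3], ![1, 1, 1, 1]]

/-- the reference valuation, over the naturals -/
def vN : Fin 4 → ℕ := ![1, 3, 3, 1]

lemma value_cast (w : Fin m → ℕ) (S : Finset (Fin m)) :
    value (fun g => (w g : ℝ)) S = ((value w S : ℕ) : ℝ) := by
  simp [value]

lemma EF1_cast (w : Fin n → Fin m → ℕ) (A : Fin m → Fin n) :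
    EF1 (fun i g => (w i g : ℝ)) A ↔ EF1 w A := by
  simp only [EF1, value_cast, Nat.cast_le]

lemma PO_cast (w : Fin n → Fin m → ℕ) (A : Fin m → Fin n) :
    PO (fun i g => (w i g : ℝ)) A ↔ PO w A := by
  simp only [PO, value_cast, Nat.cast_le, Nat.cast_lt]

instance (w : Fin n → Fin m → ℕ) (A : Fin m → Fin n) : Decidable (EF1 w A) := by
  unfold EF1; infer_instance

instance (w : Fin n → Fin m → ℕ) (A : Fin m → Fin n) : Decidable (PO w A) := by
  unfold PO; infer_instance

lemma check : ∀ A : Fin 4 → Fin 2, ¬ (EF1 uN A ∧ PO uN A ∧ EF1 (fun _ => vN) A) := by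
  decide +kernel

/-- Some instance has no allocation that is EF1 and PO for the subjective utilities and EF1 for the
common reference valuation. -/
theorem result :
    ∃ (u : Fin 2 → Fin 4 → ℝ) (v : Fin 4 → ℝ), (∀ i g, 0 < u i g) ∧ (∀ g, 0 < v g) ∧
      ¬ ∃ A : Fin 4 → Fin 2, EF1 u A ∧ PO u A ∧ EF1 (fun _ => v) A := by
  refine ⟨fun i g => (uN i g : ℝ), fun g => (vN g : ℝ), ?_, ?_, ?_⟩
  · intro i g
    have : 0 < uN i g := by
      revert i g; decide
    exact Nat.cast_pos.2 this
  · intro g
    have : 0 < vN g := by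
      revert g; decide
    exact Nat.cast_pos.2 this
  · rintro ⟨A, h1, h2, h3⟩
    exact check A ⟨(EF1_cast _ _).1 h1, (PO_cast _ _).1 h2, (EF1_cast _ _).1 h3⟩

end Pool.Agent.Results.MP_e74e46_co.NoTriple
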