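import Mathlib

set_option autoImplicit false

/-!
Stanley sequences: from a finite set `T` that is `3`-free modulo `N` and covers the other residues
in an ordered way, the set `T + N * S0` (`S0` the numbers with ternary digits `0, 1`) is an
independent Stanley sequence of character `2 * max T + 1 - N`.
-/

namespace Pool.Agent.V11181.Stan

open Finset Nat

/-- numbers whose ternary digits are `0` or `1` -/
inductive S0 : ℕ → Prop
  | zero : S0 0
  | d0 {n : ℕ} (h : S0 n) : S0 (3 * n)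
  | d1 {n : ℕ} (h : S0 n) : S0 (3 * n + 1)

theorem S0.inv {m : ℕ} (h : S0 m) : m % 3 ≠ 2 ∧ S0 (m / 3) := by
  cases h with
  | zero => exact ⟨by norm_num, by simpa using S0.zero⟩
  | @d0 n h => exact ⟨by omega, by rw [show 3 * n / 3 = n by omega]; exact h⟩
  | @d1 n h => exact ⟨by omega, by rw [show (3 * n + 1) / 3 = n by omega]; exact h⟩

theorem S0.mk {m : ℕ} (h2 : m % 3 ≠ 2) (h : S0 (m / 3)) : S0 m := by
  have h3 : m % 3 = 0 ∨ m % 3 = 1 := by omega
  rcases h3 with h3 | h3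
  · have := S0.d0 h
    rwa [show 3 * (m / 3) = m by omega] at this
  · have := S0.d1 h
    rwa [show 3 * (m / 3) + 1 = m by omega] at this

theorem S0.lt {j : ℕ} : ∀ {v : ℕ}, S0 v → v < 3 ^ j → 2 * v < 3 ^ j := by
  induction j with
  | zero => intro v _ h; simp at h; subst h; norm_num
  | succ j ih =>
    intro v hv h
    have h1 := hv.inv
    rw [pow_succ] at h ⊢
    have h2 := ih h1.2 (by omega)
    omega

theorem S0.comb {j : ℕ} : ∀ {t w : ℕ}, S0 t → t < 3 ^ j → S0 w → S0 (t + 3 ^ j * w) := by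
  induction j with
  | zero => intro t w _ h hw; simp at h; subst h; simpa using hw
  | succ j ih =>
    intro t w ht h hw
    have h1 := ht.inv
    rw [pow_succ] at h ⊢
    have h2 := ih h1.2 (by omega) hw
    have e : t + 3 ^ j * 3 * w = 3 * (t / 3 + 3 ^ j * w) + t % 3 := by
      have := Nat.div_add_mod t 3
      calc t + 3 ^ j * 3 * w = (3 * (t / 3) + t % 3) + 3 ^ j * 3 * w := by rw [this]
        _ = _ := by ring
    rw [e]
    have h3 : t % 3 = 0 ∨ t % 3 = 1 := by omega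
    rcases h3 with h3 | h3
    · rw [h3]; exact S0.d0 h2
    · rw [h3]; exact S0.d1 h2

theorem S0.split {j : ℕ} : ∀ {t w : ℕ}, t < 3 ^ j → S0 (t + 3 ^ j * w) → S0 t ∧ S0 w := by
  induction j with
  | zero => intro t w h hw; simp at h; subst h; exact ⟨S0.zero, by simpa using hw⟩
  | succ j ih =>
    intro t w h hw
    rw [pow_succ] at h
    have e : t + 3 ^ (j + 1) * w = 3 * (t / 3 + 3 ^ j * w) + t % 3 := by
      have := Nat.div_add_mod t 3
      calc t + 3 ^ (j + 1) * w = (3 * (t / 3) + t % 3) + 3 ^ (j + 1) * w := by rw [this]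
        _ = _ := by ring
    rw [e] at hw
    have h1 := hw.inv
    rw [show (3 * (t / 3 + 3 ^ j * w) + t % 3) / 3 = t / 3 + 3 ^ j * w by omega] at h1
    have h2 := ih (by omega) h1.2
    exact ⟨S0.mk (by omega) h2.1, h2.2⟩

theorem S0.pow (j : ℕ) : S0 (3 ^ j) := by
  induction j with
  | zero => exact S0.d1 S0.zero
  | succ j ih => rw [pow_succ, mul_comm]; exact S0.d0 ih

theorem S0.addPow {j v : ℕ} (h : S0 v) (hv : v < 3 ^ j) : S0 (v + 3 ^ j) := by
  have := S0.comb h hv (S0.d1 S0.zero)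
  simpa using this

theorem S0.free_mod {j : ℕ} : ∀ {a b c : ℕ}, S0 a → S0 b → S0 c →
    a + b ≡ 2 * c [MOD 3 ^ j] → a ≡ c [MOD 3 ^ j] ∧ b ≡ c [MOD 3 ^ j] := by
  induction j with
  | zero => intro a b c _ _ _ _; simp [Nat.ModEq, Nat.mod_one]
  | succ j ih =>
    intro a b c ha hb hc h
    have ha1 := ha.inv
    have hb1 := hb.inv
    have hc1 := hc.inv
    have h3 : a + b ≡ 2 * c [MOD 3] := h.of_dvd (dvd_pow_self 3 (by omega))
    unfold Nat.ModEq at h3
    have key : a % 3 = c % 3 ∧ b % 3 = c % 3 := by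
      have ha2 : a % 3 = 0 ∨ a % 3 = 1 := by omega
      have hb2 : b % 3 = 0 ∨ b % 3 = 1 := by omega
      have hc2 : c % 3 = 0 ∨ c % 3 = 1 := by omega
      rcases ha2 with ha2 | ha2 <;> rcases hb2 with hb2 | hb2 <;> rcases hc2 with hc2 | hc2 <;>
        omega
    have h4 : a / 3 + b / 3 ≡ 2 * (c / 3) [MOD 3 ^ j] := by
      have h5 : 3 * (a / 3 + b / 3) + 2 * (c % 3) ≡ 3 * (2 * (c / 3)) + 2 * (c % 3)
          [MOD 3 ^ (j + 1)] := by
        have e1 : 3 * (a / 3 + b / 3) + 2 * (c % 3) = a + b := by omega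
        have e2 : 3 * (2 * (c / 3)) + 2 * (c % 3) = 2 * c := by omega
        rw [e1, e2]; exact h
      have h6 := Nat.ModEq.add_right_cancel' _ h5
      rw [pow_succ, mul_comm (3 ^ j) 3] at h6
      exact Nat.ModEq.mul_left_cancel' (by norm_num) h6
    have h7 := ih ha1.2 hb1.2 hc1.2 h4
    have up : ∀ {x y : ℕ}, x % 3 = y % 3 → x / 3 ≡ y / 3 [MOD 3 ^ j] → x ≡ y [MOD 3 ^ (j + 1)] := by
      intro x y hxy h
      have h8 : 3 * (x / 3) ≡ 3 * (y / 3) [MOD 3 * 3 ^ j] := Nat.ModEq.mul_left' 3 h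
      have h9 := h8.add_right (x % 3)
      rw [show 3 * (x / 3) + x % 3 = x by omega, hxy,
        show 3 * (y / 3) + y % 3 = y by omega] at h9
      rwa [pow_succ, mul_comm]
    exact ⟨up key.1 h7.1, up key.2 h7.2⟩

theorem S0.free {a b c : ℕ} (ha : S0 a) (hb : S0 b) (hc : S0 c) (h : a + b = 2 * c) :
    a = c ∧ b = c := by
  have hlt : ∀ n : ℕ, n < 3 ^ n := fun n => Nat.lt_pow_self (by norm_num)
  have h1 := S0.free_mod (j := a + b + c) ha hb hc (by rw [h])
  have hM := hlt (a + b + c)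
  unfold Nat.ModEq at h1
  rw [Nat.mod_eq_of_lt (by omega), Nat.mod_eq_of_lt (by omega), Nat.mod_eq_of_lt (by omega)] at h1
  exact h1

/-- every `v` is `2u - w` with `w ≤ u` in `S0` -/
theorem S0.rep (v : ℕ) : ∃ u w, S0 u ∧ S0 w ∧ w ≤ u ∧ 2 * u = v + w := by
  induction v using Nat.strong_induction_on with
  | _ v ih =>
    by_cases hv : v = 0
    · subst hv; exact ⟨0, 0, S0.zero, S0.zero, le_rfl, rfl⟩
    · obtain ⟨u, w, hu, hw, hle, he⟩ := ih (v / 3) (by omega)
      have h3 : v % 3 = 0 ∨ v % 3 = 1 ∨ v % 3 = 2 := by omega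
      rcases h3 with h3 | h3 | h3
      · exact ⟨3 * u, 3 * w, S0.d0 hu, S0.d0 hw, by omega, by omega⟩
      · exact ⟨3 * u + 1, 3 * w + 1, S0.d1 hu, S0.d1 hw, by omega, by omega⟩
      · exact ⟨3 * u + 1, 3 * w, S0.d1 hu, S0.d0 hw, by omega, by omega⟩

/-- balanced representation, no wrap -/
theorem S0.balPos {i : ℕ} : ∀ {x : ℕ}, 2 * x < 3 ^ i →
    ∃ u w, S0 u ∧ S0 w ∧ u ≤ w ∧ w < 3 ^ i ∧ 2 * u = x + w := by
  induction i with
  | zero => intro x h; simp at h; subst h; exact ⟨0, 0, S0.zero, S0.zero, le_rfl, by simp, rfl⟩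
  | succ i ih =>
    intro x h
    have hodd : 3 ^ i % 2 = 1 := by
      rw [Nat.pow_mod]; norm_num
    rw [pow_succ] at h ⊢
    have h3 : x % 3 = 0 ∨ x % 3 = 1 ∨ x % 3 = 2 := by omega
    rcases h3 with h3 | h3 | h3
    · obtain ⟨u, w, hu, hw, hle, hlt, he⟩ := ih (x := x / 3) (by omega)
      exact ⟨3 * u, 3 * w, S0.d0 hu, S0.d0 hw, by omega, by omega, by omega⟩
    · obtain ⟨u, w, hu, hw, hle, hlt, he⟩ := ih (x := x / 3) (by omega)
      exact ⟨3 * u + 1, 3 * w + 1, S0.d1 hu, S0.d1 hw, by omega, by omega, by omega⟩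
    · obtain ⟨u, w, hu, hw, hle, hlt, he⟩ := ih (x := x / 3 + 1) (by omega)
      exact ⟨3 * u, 3 * w + 1, S0.d0 hu, S0.d1 hw, by omega, by omega, by omega⟩

/-- balanced representation with wrap -/
theorem S0.balNeg {i : ℕ} : ∀ {x : ℕ}, 3 ^ i < 2 * x → x ≤ 3 ^ i →
    ∃ u w, S0 u ∧ S0 w ∧ w < 3 ^ i ∧ u < 3 ^ i ∧ 2 * u + 3 ^ i = x + w := by
  induction i with
  | zero =>
    intro x h h'
    simp at h h'
    have : x = 1 := by omega
    subst this
    exact ⟨0, 0, S0.zero, S0.zero, by simp, by simp, rfl⟩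
  | succ i ih =>
    intro x h h'
    have hodd : 3 ^ i % 2 = 1 := by
      rw [Nat.pow_mod]; norm_num
    rw [pow_succ] at h h' ⊢
    have h3 : x % 3 = 0 ∨ x % 3 = 1 ∨ x % 3 = 2 := by omega
    rcases h3 with h3 | h3 | h3
    · obtain ⟨u, w, hu, hw, hle, hlt, he⟩ := ih (x := x / 3) (by omega) (by omega)
      exact ⟨3 * u, 3 * w, S0.d0 hu, S0.d0 hw, by omega, by omega, by omega⟩
    · obtain ⟨u, w, hu, hw, hle, hlt, he⟩ := ih (x := x / 3) (by omega) (by omega)
      exact ⟨3 * u + 1, 3 * w + 1, S0.d1 hu, S0.d1 hw, by omega, by omega, by omega⟩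
    · obtain ⟨u, w, hu, hw, hle, hlt, he⟩ := ih (x := x / 3 + 1) (by omega) (by omega)
      exact ⟨3 * u, 3 * w + 1, S0.d0 hu, S0.d1 hw, by omega, by omega, by omega⟩

/-- the members of `S0` below `3 ^ i` -/
def TT : ℕ → Finset ℕ
  | 0 => {0}
  | i + 1 => (TT i).image (fun v => 3 * v) ∪ (TT i).image (fun v => 3 * v + 1)

theorem mem_TT {i : ℕ} : ∀ {v : ℕ}, v ∈ TT i ↔ S0 v ∧ v < 3 ^ i := by
  induction i with
  | zero =>
    intro v
    simp only [TT, Finset.mem_singleton, pow_zero]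
    constructor
    · rintro rfl; exact ⟨S0.zero, by norm_num⟩
    · rintro ⟨_, h⟩; omega
  | succ i ih =>
    intro v
    simp only [TT, Finset.mem_union, Finset.mem_image]
    constructor
    · rintro (⟨w, hw, rfl⟩ | ⟨w, hw, rfl⟩)
      · have := ih.1 hw
        exact ⟨S0.d0 this.1, by rw [pow_succ]; omega⟩
      · have := ih.1 hw
        exact ⟨S0.d1 this.1, by rw [pow_succ]; omega⟩
    · rintro ⟨hS, hlt⟩
      rw [pow_succ] at hlt
      have h1 := hS.inv
      have h2 : v / 3 ∈ TT i := ih.2 ⟨h1.2, by omega⟩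
      have h3 : v % 3 = 0 ∨ v % 3 = 1 := by omega
      rcases h3 with h3 | h3
      · left; exact ⟨v / 3, h2, by omega⟩
      · right; exact ⟨v / 3, h2, by omega⟩

theorem card_TT (i : ℕ) : (TT i).card = 2 ^ i := by
  induction i with
  | zero => simp [TT]
  | succ i ih =>
    rw [TT, Finset.card_union_of_disjoint, Finset.card_image_of_injective,
      Finset.card_image_of_injective, ih, pow_succ]
    · ring
    · intro a b h; simp at h; omega
    · intro a b h; simp at h; omega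
    · rw [Finset.disjoint_left]
      intro x hx hy
      simp only [Finset.mem_image] at hx hy
      obtain ⟨a, _, ha⟩ := hx
      obtain ⟨b, _, hb⟩ := hy
      omega

/-- a finite set generating an independent Stanley sequence -/
structure Good (N : ℕ) (T : Finset ℕ) (m : ℕ) : Prop where
  posN : 0 < N
  zero : 0 ∈ T
  top : m ∈ T
  le : ∀ x ∈ T, x ≤ m
  pos : 0 < m
  card : ∃ k, T.card = 2 ^ k
  free : ∀ x ∈ T, ∀ y ∈ T, ∀ z ∈ T, x + z ≡ 2 * y [MOD N] → x = y ∧ z = y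
  cov : ∀ x : ℕ, (∃ t ∈ T, t ≡ x [MOD N]) ∨ ∃ y ∈ T, ∃ z ∈ T, z < y ∧ 2 * y ≡ x + z [MOD N]

theorem Good.inj {N : ℕ} {T : Finset ℕ} {m : ℕ} (h : Good N T m) {x y : ℕ} (hx : x ∈ T)
    (hy : y ∈ T) (hxy : x ≡ y [MOD N]) : x = y := by
  refine (h.free x hx y hy x hx ?_).1
  have := hxy.add hxy
  rwa [show y + y = 2 * y by ring] at this

end Pool.Agent.V11181.Stan
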