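import Pool.Agent.V11181.Stan

set_option autoImplicit false

namespace Pool.Agent.V11181.Stan

open Finset Nat

/-- membership in `T + N * S0` -/
def Mem (N : ℕ) (T : Finset ℕ) (x : ℕ) : Prop := ∃ t ∈ T, ∃ v, S0 v ∧ x = t + N * v

section
variable {N : ℕ} {T : Finset ℕ} {m : ℕ}

theorem Good.mul_lt (h : Good N T m) {j t v : ℕ} (hj : m ≤ j) (ht : t ∈ T) (hv : S0 v)
    (hlt : v < 3 ^ j) : t + N * v < N * 3 ^ j := by
  have h1 := h.le t ht
  have h2 := hv.lt hlt
  have h3 : m < 3 ^ m := Nat.lt_pow_self (by norm_num)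
  have h4 : 3 ^ m ≤ 3 ^ j := Nat.pow_le_pow_right (by norm_num) hj
  have h5 : 2 * m < 3 ^ m := by
    clear h1 h3 h4 h hj
    induction m with
    | zero => norm_num
    | succ n ih => rw [pow_succ]; have : 1 ≤ 3 ^ n := Nat.one_le_pow _ _ (by norm_num)
                   omega
  have h6 : N * (2 * v + 1) ≤ N * 3 ^ j := Nat.mul_le_mul_left _ h2
  have h7 : 3 ^ j ≤ N * 3 ^ j := Nat.le_mul_of_pos_left _ h.posN
  have h8 : N * (2 * v + 1) = 2 * (N * v) + N := by ring
  rw [h8] at h6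
  have := h.posN
  omega

theorem Good.mem_lt (h : Good N T m) {j x : ℕ} (hj : m ≤ j) :
    (Mem N T x ∧ x < N * 3 ^ j) ↔ ∃ t ∈ T, ∃ v, S0 v ∧ v < 3 ^ j ∧ x = t + N * v := by
  constructor
  · rintro ⟨⟨t, ht, v, hv, rfl⟩, hlt⟩
    refine ⟨t, ht, v, hv, ?_, rfl⟩
    have : N * v < N * 3 ^ j := by omega
    exact lt_of_mul_lt_mul_left this (Nat.zero_le _)
  · rintro ⟨t, ht, v, hv, hlt, rfl⟩
    exact ⟨⟨t, ht, v, hv, rfl⟩, h.mul_lt hj ht hv hlt⟩

theorem Good.mem_add (h : Good N T m) {j x : ℕ} (hj : m ≤ j) (hx : x < N * 3 ^ j) :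
    Mem N T (N * 3 ^ j + x) ↔ Mem N T x := by
  constructor
  · rintro ⟨t, ht, v, hv, he⟩
    have h1 : 3 ^ j ≤ v := by
      by_contra hlt
      push Not at hlt
      have := h.mul_lt hj ht hv hlt
      omega
    have h2 : v < 2 * 3 ^ j := by
      by_contra hge
      push Not at hge
      have : N * (2 * 3 ^ j) ≤ N * v := Nat.mul_le_mul_left _ hge
      have h3 : N * (2 * 3 ^ j) = N * 3 ^ j + N * 3 ^ j := by ring
      omega
    obtain ⟨w, rfl⟩ := Nat.exists_eq_add_of_le h1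
    have h3 : S0 (w + 3 ^ j * 1) := by rwa [mul_one, add_comm]
    have h4 := S0.split (j := j) (t := w) (w := 1) (by omega) h3
    refine ⟨t, ht, w, h4.1, ?_⟩
    have h5 : N * (3 ^ j + w) = N * 3 ^ j + N * w := by ring
    omega
  · rintro ⟨t, ht, v, hv, rfl⟩
    have h1 : v < 3 ^ j := by
      have : N * v < N * 3 ^ j := by omega
      exact lt_of_mul_lt_mul_left this (Nat.zero_le _)
    exact ⟨t, ht, v + 3 ^ j, hv.addPow h1, by ring⟩

theorem Good.infinite (h : Good N T m) : (setOf (Mem N T)).Infinite := by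
  apply Set.infinite_of_forall_exists_gt
  intro n
  refine ⟨N * 3 ^ n, ⟨0, h.zero, 3 ^ n, S0.pow n, by simp⟩, ?_⟩
  have h3 : n < 3 ^ n := Nat.lt_pow_self (by norm_num)
  have h7 : 3 ^ n ≤ N * 3 ^ n := Nat.le_mul_of_pos_left _ h.posN
  omega

open Classical in
theorem Good.count_pow (h : Good N T m) {j : ℕ} (hj : m ≤ j) :
    Nat.count (Mem N T) (N * 3 ^ j) = T.card * 2 ^ j := by
  rw [Nat.count_eq_card_filter_range]
  have e : (Finset.range (N * 3 ^ j)).filter (Mem N T) =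
      (T ×ˢ TT j).image (fun p => p.1 + N * p.2) := by
    ext x
    simp only [Finset.mem_filter, Finset.mem_range, Finset.mem_image, Finset.mem_product,
      mem_TT, Prod.exists]
    rw [and_comm, h.mem_lt hj]
    constructor
    · rintro ⟨t, ht, v, hv, hlt, rfl⟩
      exact ⟨t, v, ⟨ht, hv, hlt⟩, rfl⟩
    · rintro ⟨t, v, ⟨ht, hv, hlt⟩, rfl⟩
      exact ⟨t, ht, v, hv, hlt, rfl⟩
  rw [e, Finset.card_image_of_injOn, Finset.card_product, card_TT]
  rintro ⟨t, v⟩ h1 ⟨t', v'⟩ h2 he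
  simp only [Finset.coe_product, Set.mem_prod, Finset.mem_coe] at h1 h2
  simp only at he
  have h3 : t ≡ t' [MOD N] := by
    have h4 : (t + N * v) % N = (t' + N * v') % N := by rw [he]
    rwa [Nat.add_mul_mod_self_left, Nat.add_mul_mod_self_left] at h4
  have h5 := h.inj h1.1 h2.1 h3
  subst h5
  have h6 : N * v = N * v' := by omega
  have := Nat.eq_of_mul_eq_mul_left h.posN h6
  rw [this]

open Classical in
theorem Good.count_add (h : Good N T m) {j x : ℕ} (hj : m ≤ j) (hx : x ≤ N * 3 ^ j) :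
    Nat.count (Mem N T) (N * 3 ^ j + x) = Nat.count (Mem N T) (N * 3 ^ j) +
      Nat.count (Mem N T) x := by
  rw [Nat.count_add]
  congr 1
  rw [Nat.count_eq_card_filter_range, Nat.count_eq_card_filter_range]
  congr 1
  apply Finset.filter_congr
  intro y hy
  exact h.mem_add hj (lt_of_lt_of_le (Finset.mem_range.1 hy) hx)

/-- half of `3 ^ j` -/
theorem half_S0 (j : ℕ) : S0 ((3 ^ j - 1) / 2) := by
  induction j with
  | zero => exact S0.zero
  | succ j ih =>
    have h1 : 1 ≤ 3 ^ j := Nat.one_le_pow _ _ (by norm_num)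
    have hodd : 3 ^ j % 2 = 1 := by rw [Nat.pow_mod]; norm_num
    have : (3 ^ (j + 1) - 1) / 2 = 3 * ((3 ^ j - 1) / 2) + 1 := by rw [pow_succ]; omega
    rw [this]
    exact S0.d1 ih

open Classical in
theorem Good.count_max (h : Good N T m) {j : ℕ} (hj : m ≤ j) :
    Mem N T (m + N * ((3 ^ j - 1) / 2)) ∧
    Nat.count (Mem N T) (m + N * ((3 ^ j - 1) / 2)) + 1 = T.card * 2 ^ j := by
  have h1 : 1 ≤ 3 ^ j := Nat.one_le_pow _ _ (by norm_num)
  have hodd : 3 ^ j % 2 = 1 := by rw [Nat.pow_mod]; norm_num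
  have hM : Mem N T (m + N * ((3 ^ j - 1) / 2)) := ⟨m, h.top, _, half_S0 j, rfl⟩
  refine ⟨hM, ?_⟩
  rw [← h.count_pow hj]
  have h2 : Nat.count (Mem N T) (m + N * ((3 ^ j - 1) / 2) + 1) =
      Nat.count (Mem N T) (m + N * ((3 ^ j - 1) / 2)) + 1 := by
    rw [Nat.count_succ, if_pos hM]
  rw [← h2, Nat.count_eq_card_filter_range, Nat.count_eq_card_filter_range]
  congr 1
  ext x
  simp only [Finset.mem_filter, Finset.mem_range]
  constructor
  · rintro ⟨hx, hxM⟩
    refine ⟨lt_of_lt_of_le hx ?_, hxM⟩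
    have := h.mul_lt hj h.top (half_S0 j) (by omega)
    omega
  · rintro ⟨hx, hxM⟩
    refine ⟨?_, hxM⟩
    obtain ⟨t, ht, v, hv, hlt, rfl⟩ := (h.mem_lt hj).1 ⟨hxM, hx⟩
    have h3 := hv.lt hlt
    have h4 := h.le t ht
    have h5 : v ≤ (3 ^ j - 1) / 2 := by omega
    have h6 : N * v ≤ N * ((3 ^ j - 1) / 2) := Nat.mul_le_mul_left _ h5
    omega

theorem Good.main (h : Good N T m) {lam : ℕ} (hl : 2 * m + 1 = N + lam) :
    ∃ a : ℕ → ℕ, ∃ t : ℕ, StrictMono a ∧
      (∀ i j k : ℕ, i < j → j < k → a i + a k ≠ 2 * a j) ∧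
      (∀ n : ℕ, t < n → ∀ m : ℕ, a (n - 1) < m → m < a n →
        ∃ i j : ℕ, i < j ∧ j < n ∧ a i + m = 2 * a j) ∧
      (∃ k : ℕ, ∀ k' : ℕ, k ≤ k' →
        (∀ i : ℕ, i < 2 ^ k' → a (2 ^ k' + i) = a (2 ^ k') + a i) ∧
        ((a (2 ^ k') : ℤ) = 2 * (a (2 ^ k' - 1) : ℤ) - (lam : ℤ) + 1)) := by
  classical
  have hinf := h.infinite
  have hmono : StrictMono (Nat.nth (Mem N T)) := Nat.nth_strictMono hinf
  have hmem : ∀ n, Mem N T (Nat.nth (Mem N T) n) := fun n => Nat.nth_mem_of_infinite hinf n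
  have hcount : ∀ n, Nat.count (Mem N T) (Nat.nth (Mem N T) n) = n :=
    fun n => Nat.count_nth_of_infinite hinf n
  refine ⟨Nat.nth (Mem N T), 2 * m + N + 1, hmono, ?_, ?_, ?_⟩
  · intro i j k hij hjk he
    obtain ⟨t1, ht1, v1, hv1, e1⟩ := hmem i
    obtain ⟨t2, ht2, v2, hv2, e2⟩ := hmem j
    obtain ⟨t3, ht3, v3, hv3, e3⟩ := hmem k
    have hlt := hmono hij
    rw [e1, e2] at hlt
    rw [e1, e2, e3] at he
    have h1 : t1 + t3 ≡ 2 * t2 [MOD N] := by
      have h2 : (t1 + t3 + N * (v1 + v3)) % N = (2 * t2 + N * (2 * v2)) % N := by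
        rw [show t1 + t3 + N * (v1 + v3) = t1 + N * v1 + (t3 + N * v3) by ring, he]
        congr 1; ring
      rwa [Nat.add_mul_mod_self_left, Nat.add_mul_mod_self_left] at h2
    obtain ⟨h3, h4⟩ := h.free t1 ht1 t2 ht2 t3 ht3 h1
    subst h3
    subst h4
    have h5 : N * (v1 + v3) = N * (2 * v2) := by
      have e4 : N * (v1 + v3) = N * v1 + N * v3 := by ring
      have e5 : N * (2 * v2) = 2 * (N * v2) := by ring
      omega
    have h6 := Nat.eq_of_mul_eq_mul_left h.posN h5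
    obtain ⟨h7, _⟩ := hv1.free hv3 hv2 h6
    rw [h7] at hlt
    exact lt_irrefl _ hlt
  · intro n hn x hx1 hx2
    have hge : n - 1 ≤ Nat.nth (Mem N T) (n - 1) := hmono.le_apply
    have hnot : ¬ Mem N T x := by
      intro hM
      have h1 : n - 1 < Nat.count (Mem N T) x := by
        have := Nat.count_strict_mono (hmem (n - 1)) hx1
        rwa [hcount] at this
      have h2 : Nat.count (Mem N T) x < n := by
        have := Nat.count_strict_mono hM hx2
        rwa [hcount] at this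
      omega
    have key : ∃ z y, Mem N T z ∧ Mem N T y ∧ z < y ∧ z + x = 2 * y := by
      rcases h.cov x with ⟨t, ht, htx⟩ | ⟨y, hy, z, hz, hzy, hyz⟩
      · have htm := h.le t ht
        obtain ⟨v, hv⟩ := (Nat.modEq_iff_dvd' (show t ≤ x by omega)).1 htx
        obtain ⟨u, w, hu, hw, hle, he⟩ := S0.rep v
        have hxv : x = t + N * v := by omega
        have hne : w ≠ u := by
          rintro rfl
          apply hnot
          have : v = w := by omega
          subst this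
          exact ⟨t, ht, v, hu, hxv⟩
        refine ⟨t + N * w, t + N * u, ⟨t, ht, w, hw, rfl⟩, ⟨t, ht, u, hu, rfl⟩, ?_, ?_⟩
        · have := Nat.mul_lt_mul_of_pos_left (show w < u by omega) h.posN
          omega
        · have e4 : N * (2 * u) = N * (v + w) := by rw [he]
          have e5 : N * (2 * u) = 2 * (N * u) := by ring
          have e6 : N * (v + w) = N * v + N * w := by ring
          omega
      · have hym := h.le y hy
        obtain ⟨v, hv⟩ := (Nat.modEq_iff_dvd' (show 2 * y ≤ x + z by omega)).1 hyz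
        obtain ⟨u, w, hu, hw, hle, he⟩ := S0.rep v
        refine ⟨z + N * w, y + N * u, ⟨z, hz, w, hw, rfl⟩, ⟨y, hy, u, hu, rfl⟩, ?_, ?_⟩
        · have := Nat.mul_le_mul_left N hle
          omega
        · have e4 : N * (2 * u) = N * (v + w) := by rw [he]
          have e5 : N * (2 * u) = 2 * (N * u) := by ring
          have e6 : N * (v + w) = N * v + N * w := by ring
          omega
    obtain ⟨z, y, hz, hy, hzy, he⟩ := key
    refine ⟨Nat.count (Mem N T) z, Nat.count (Mem N T) y, Nat.count_strict_mono hz hzy, ?_, ?_⟩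
    · have := Nat.count_strict_mono hy (show y < Nat.nth (Mem N T) n by omega)
      rwa [hcount] at this
    · rw [Nat.nth_count hz, Nat.nth_count hy]
      exact he
  · obtain ⟨k, hk⟩ := h.card
    refine ⟨k + m, fun k' hk' => ?_⟩
    obtain ⟨j, rfl⟩ := Nat.exists_eq_add_of_le (show k ≤ k' by omega)
    have hj : m ≤ j := by omega
    have hcp := h.count_pow hj
    rw [hk, ← pow_add] at hcp
    have hpow : Mem N T (N * 3 ^ j) := ⟨0, h.zero, 3 ^ j, S0.pow j, by simp⟩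
    have hnth : Nat.nth (Mem N T) (2 ^ (k + j)) = N * 3 ^ j := by
      rw [← hcp, Nat.nth_count hpow]
    refine ⟨fun i hi => ?_, ?_⟩
    · have hlt : Nat.nth (Mem N T) i < N * 3 ^ j := Nat.nth_lt_of_lt_count (by rw [hcp]; exact hi)
      have hM : Mem N T (N * 3 ^ j + Nat.nth (Mem N T) i) := (h.mem_add hj hlt).2 (hmem i)
      have hc : Nat.count (Mem N T) (N * 3 ^ j + Nat.nth (Mem N T) i) = 2 ^ (k + j) + i := by
        rw [h.count_add hj hlt.le, hcp, hcount]
      rw [hnth, ← hc, Nat.nth_count hM]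
    · obtain ⟨hM, hc⟩ := h.count_max hj
      rw [hk, ← pow_add] at hc
      have h1 : Nat.nth (Mem N T) (2 ^ (k + j) - 1) = m + N * ((3 ^ j - 1) / 2) := by
        rw [show 2 ^ (k + j) - 1 = Nat.count (Mem N T) (m + N * ((3 ^ j - 1) / 2)) by omega,
          Nat.nth_count hM]
      rw [hnth, h1]
      have h2 : 1 ≤ 3 ^ j := Nat.one_le_pow _ _ (by norm_num)
      have hodd : 3 ^ j % 2 = 1 := by rw [Nat.pow_mod]; norm_num
      have h3 : 2 * ((3 ^ j - 1) / 2) + 1 = 3 ^ j := by omega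
      have h4 : N * 3 ^ j = 2 * (N * ((3 ^ j - 1) / 2)) + N := by
        nth_rewrite 1 [← h3]; ring
      rw [h4]
      push_cast
      have h5 : (2 * (m : ℤ) + 1) = N + lam := by exact_mod_cast hl
      linarith

end

/-- character `lam` is reached with modulus `N` -/
def Att (N lam : ℕ) : Prop := ∃ T m, Good N T m ∧ 2 * m + 1 = N + lam

theorem Att.main {N lam : ℕ} (h : Att N lam) :
    ∃ a : ℕ → ℕ, ∃ t : ℕ, StrictMono a ∧
      (∀ i j k : ℕ, i < j → j < k → a i + a k ≠ 2 * a j) ∧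
      (∀ n : ℕ, t < n → ∀ m : ℕ, a (n - 1) < m → m < a n →
        ∃ i j : ℕ, i < j ∧ j < n ∧ a i + m = 2 * a j) ∧
      (∃ k : ℕ, ∀ k' : ℕ, k ≤ k' →
        (∀ i : ℕ, i < 2 ^ k' → a (2 ^ k' + i) = a (2 ^ k') + a i) ∧
        ((a (2 ^ k') : ℤ) = 2 * (a (2 ^ k' - 1) : ℤ) - (lam : ℤ) + 1)) := by
  obtain ⟨T, m, hG, hl⟩ := h
  exact hG.main hl

end Pool.Agent.V11181.Stan
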