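import Pool.Agent.V11181.Stan2

set_option autoImplicit false

namespace Pool.Agent.V11181.Stan

open Finset Nat

/-- the top element may be raised by multiples of `N` -/
theorem Good.shift {N : ℕ} {T : Finset ℕ} {m : ℕ} (h : Good N T m) (c : ℕ) :
    Good N (insert (m + N * c) (T.erase m)) (m + N * c) := by
  have hnot : m + N * c ∉ T.erase m := by
    intro hx
    rw [Finset.mem_erase] at hx
    have := h.le _ hx.2
    omega
  have hmod : m + N * c ≡ m [MOD N] := by
    unfold Nat.ModEq; rw [Nat.add_mul_mod_self_left]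
  have hback : ∀ x ∈ insert (m + N * c) (T.erase m), ∃ x0 ∈ T, x ≡ x0 [MOD N] ∧
      ((x = m + N * c ∧ x0 = m) ∨ (x = x0 ∧ x0 ≠ m)) := by
    intro x hx
    rw [Finset.mem_insert, Finset.mem_erase] at hx
    rcases hx with rfl | ⟨h1, h2⟩
    · exact ⟨m, h.top, hmod, Or.inl ⟨rfl, rfl⟩⟩
    · exact ⟨x, h2, Nat.ModEq.refl _, Or.inr ⟨rfl, h1⟩⟩
  refine ⟨h.posN, ?_, Finset.mem_insert_self _ _, ?_, ?_, ?_, ?_, ?_⟩
  · exact Finset.mem_insert_of_mem (Finset.mem_erase.2 ⟨h.pos.ne, h.zero⟩)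
  · intro x hx
    rw [Finset.mem_insert, Finset.mem_erase] at hx
    rcases hx with rfl | ⟨_, h2⟩
    · exact le_rfl
    · exact (h.le x h2).trans (Nat.le_add_right _ _)
  · have := h.pos; omega
  · obtain ⟨k, hk⟩ := h.card
    refine ⟨k, ?_⟩
    rw [Finset.card_insert_of_notMem hnot, Finset.card_erase_of_mem h.top, hk]
    have : 1 ≤ 2 ^ k := Nat.one_le_pow _ _ (by norm_num)
    omega
  · intro x hx y hy z hz he
    obtain ⟨x0, hx0, hxm, hxc⟩ := hback x hx
    obtain ⟨y0, hy0, hym, hyc⟩ := hback y hy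
    obtain ⟨z0, hz0, hzm, hzc⟩ := hback z hz
    have h1 : x0 + z0 ≡ 2 * y0 [MOD N] :=
      ((hxm.symm.add hzm.symm).trans he).trans (hym.mul_left 2)
    obtain ⟨h2, h3⟩ := h.free x0 hx0 y0 hy0 z0 hz0 h1
    subst h2
    subst h3
    constructor
    · rcases hxc with ⟨h4, h5⟩ | ⟨h4, h5⟩ <;> rcases hyc with ⟨h6, h7⟩ | ⟨h6, h7⟩
      · rw [h4, h6]
      · exact absurd h5 h7
      · exact absurd h7 h5
      · rw [h4, h6]
    · rcases hzc with ⟨h4, h5⟩ | ⟨h4, h5⟩ <;> rcases hyc with ⟨h6, h7⟩ | ⟨h6, h7⟩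
      · rw [h4, h6]
      · exact absurd h5 h7
      · exact absurd h7 h5
      · rw [h4, h6]
  · intro x
    rcases h.cov x with ⟨t, ht, htx⟩ | ⟨y, hy, z, hz, hzy, hyz⟩
    · left
      by_cases htm : t = m
      · subst htm
        exact ⟨_, Finset.mem_insert_self _ _, hmod.trans htx⟩
      · exact ⟨t, Finset.mem_insert_of_mem (Finset.mem_erase.2 ⟨htm, ht⟩), htx⟩
    · right
      have hym := h.le y hy
      have hz' : z ∈ insert (m + N * c) (T.erase m) :=
        Finset.mem_insert_of_mem (Finset.mem_erase.2 ⟨by omega, hz⟩)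
      by_cases hym : y = m
      · subst hym
        exact ⟨_, Finset.mem_insert_self _ _, z, hz', by omega, (hmod.mul_left 2).trans hyz⟩
      · exact ⟨y, Finset.mem_insert_of_mem (Finset.mem_erase.2 ⟨hym, hy⟩), z, hz', hzy, hyz⟩

theorem Att.shift {N l : ℕ} (h : Att N l) (c : ℕ) : Att N (l + 2 * N * c) := by
  obtain ⟨T, m, hG, hl⟩ := h
  refine ⟨_, _, hG.shift c, ?_⟩
  have : 2 * (m + N * c) = 2 * m + 2 * N * c := by ring
  omega

/-- the product of two good sets -/
theorem Good.mul {N1 N2 : ℕ} {T1 T2 : Finset ℕ} {m1 m2 : ℕ} (h1 : Good N1 T1 m1)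
    (h2 : Good N2 T2 m2) :
    Good (N1 * N2) ((T1 ×ˢ T2).image (fun p => p.1 + N1 * p.2)) (m1 + N1 * m2) := by
  have hmem : ∀ x, x ∈ (T1 ×ˢ T2).image (fun p : ℕ × ℕ => p.1 + N1 * p.2) ↔
      ∃ a ∈ T1, ∃ b ∈ T2, x = a + N1 * b := by
    intro x
    simp only [Finset.mem_image, Finset.mem_product, Prod.exists]
    constructor
    · rintro ⟨a, b, ⟨ha, hb⟩, rfl⟩; exact ⟨a, ha, b, hb, rfl⟩
    · rintro ⟨a, ha, b, hb, rfl⟩; exact ⟨a, b, ⟨ha, hb⟩, rfl⟩
  have hcov2 : ∀ q, ∃ y ∈ T2, ∃ z ∈ T2, z ≤ y ∧ 2 * y ≡ q + z [MOD N2] := by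
    intro q
    rcases h2.cov q with ⟨t, ht, htq⟩ | ⟨y, hy, z, hz, hzy, hyz⟩
    · refine ⟨t, ht, t, ht, le_rfl, ?_⟩
      have := htq.add_right t
      rwa [show t + t = 2 * t by ring] at this
    · exact ⟨y, hy, z, hz, hzy.le, hyz⟩
  refine ⟨Nat.mul_pos h1.posN h2.posN, ?_, ?_, ?_, ?_, ?_, ?_, ?_⟩
  · exact (hmem _).2 ⟨0, h1.zero, 0, h2.zero, by simp⟩
  · exact (hmem _).2 ⟨m1, h1.top, m2, h2.top, rfl⟩
  · intro x hx
    obtain ⟨a, ha, b, hb, rfl⟩ := (hmem x).1 hx
    exact Nat.add_le_add (h1.le a ha) (Nat.mul_le_mul_left _ (h2.le b hb))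
  · exact Nat.add_pos_left h1.pos _
  · obtain ⟨k1, hk1⟩ := h1.card
    obtain ⟨k2, hk2⟩ := h2.card
    refine ⟨k1 + k2, ?_⟩
    rw [Finset.card_image_of_injOn, Finset.card_product, hk1, hk2, pow_add]
    rintro ⟨t, v⟩ g1 ⟨t', v'⟩ g2 he
    simp only [Finset.coe_product, Set.mem_prod, Finset.mem_coe] at g1 g2
    simp only at he
    have h3 : t ≡ t' [MOD N1] := by
      have h4 : (t + N1 * v) % N1 = (t' + N1 * v') % N1 := by rw [he]
      rwa [Nat.add_mul_mod_self_left, Nat.add_mul_mod_self_left] at h4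
    have h5 := h1.inj g1.1 g2.1 h3
    subst h5
    have h6 : N1 * v = N1 * v' := by omega
    have := Nat.eq_of_mul_eq_mul_left h1.posN h6
    rw [this]
  · intro x hx y hy z hz he
    obtain ⟨a, ha, b, hb, rfl⟩ := (hmem x).1 hx
    obtain ⟨e, he', f, hf, rfl⟩ := (hmem y).1 hy
    obtain ⟨c, hc, d, hd, rfl⟩ := (hmem z).1 hz
    have g1 : a + c ≡ 2 * e [MOD N1] := by
      have g2 := he.of_dvd (Dvd.intro _ rfl)
      have g3 : (a + c + N1 * (b + d)) % N1 = (2 * e + N1 * (2 * f)) % N1 := by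
        rw [show a + c + N1 * (b + d) = a + N1 * b + (c + N1 * d) by ring,
          show 2 * e + N1 * (2 * f) = 2 * (e + N1 * f) by ring]
        exact g2
      rwa [Nat.add_mul_mod_self_left, Nat.add_mul_mod_self_left] at g3
    obtain ⟨g4, g5⟩ := h1.free a ha e he' c hc g1
    subst g4
    subst g5
    have g6 : c + N1 * b + (c + N1 * d) = N1 * (b + d) + 2 * c := by ring
    have g7 : 2 * (c + N1 * f) = N1 * (2 * f) + 2 * c := by ring
    rw [g6, g7] at he
    have g8 := Nat.ModEq.add_right_cancel' _ he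
    have g9 := Nat.ModEq.mul_left_cancel' h1.posN.ne' g8
    obtain ⟨g10, g11⟩ := h2.free b hb f hf d hd g9
    rw [g10, g11]; exact ⟨rfl, rfl⟩
  · intro x
    have up : ∀ u v : ℕ, u ≡ v [MOD N2] → N1 * u ≡ N1 * v [MOD N1 * N2] :=
      fun u v h => Nat.ModEq.mul_left' N1 h
    have big : ∀ k, x + N1 * N2 * k ≡ x [MOD N1 * N2] := by
      intro k; unfold Nat.ModEq; rw [Nat.add_mul_mod_self_left]
    have pos : 0 < N1 * N2 := Nat.mul_pos h1.posN h2.posN
    rcases h1.cov x with ⟨t, ht, htx⟩ | ⟨y, hy, z, hz, hzy, hyz⟩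
    · have hle : t ≤ x + N1 * N2 * t := by
        have := Nat.le_mul_of_pos_left t pos
        omega
      have hmod : t ≡ x + N1 * N2 * t [MOD N1] := by
        refine htx.trans ?_
        unfold Nat.ModEq
        rw [mul_assoc, Nat.add_mul_mod_self_left]
      obtain ⟨q, hq⟩ := (Nat.modEq_iff_dvd' hle).1 hmod
      have hx : x + N1 * N2 * t = t + N1 * q := by omega
      rcases h2.cov q with ⟨t2, ht2, htq⟩ | ⟨y, hy, z, hz, hzy, hyz⟩
      · left
        refine ⟨t + N1 * t2, (hmem _).2 ⟨t, ht, t2, ht2, rfl⟩, ?_⟩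
        refine ((up _ _ htq).add_left t).trans ?_
        rw [← hx]; exact big t
      · right
        refine ⟨t + N1 * y, (hmem _).2 ⟨t, ht, y, hy, rfl⟩, t + N1 * z,
          (hmem _).2 ⟨t, ht, z, hz, rfl⟩, ?_, ?_⟩
        · have := Nat.mul_lt_mul_of_pos_left hzy h1.posN
          omega
        · have e1 : 2 * (t + N1 * y) = 2 * t + N1 * (2 * y) := by ring
          have e2 : 2 * t + N1 * (q + z) = (x + N1 * N2 * t) + (t + N1 * z) := by
            rw [hx]; ring
          rw [e1]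
          refine ((up _ _ hyz).add_left (2 * t)).trans ?_
          rw [e2]
          exact (big t).add_right _
    · right
      have hle : 2 * y ≤ x + N1 * N2 * (2 * y) + z := by
        have := Nat.le_mul_of_pos_left (2 * y) pos
        omega
      have hmod : 2 * y ≡ x + N1 * N2 * (2 * y) + z [MOD N1] := by
        refine hyz.trans ?_
        unfold Nat.ModEq
        rw [show x + N1 * N2 * (2 * y) + z = x + z + N1 * (N2 * (2 * y)) by ring,
          Nat.add_mul_mod_self_left]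
      obtain ⟨q, hq⟩ := (Nat.modEq_iff_dvd' hle).1 hmod
      have hx : x + N1 * N2 * (2 * y) + z = 2 * y + N1 * q := by omega
      obtain ⟨y2, hy2, z2, hz2, hle2, he2⟩ := hcov2 q
      refine ⟨y + N1 * y2, (hmem _).2 ⟨y, hy, y2, hy2, rfl⟩, z + N1 * z2,
        (hmem _).2 ⟨z, hz, z2, hz2, rfl⟩, ?_, ?_⟩
      · have := Nat.mul_le_mul_left N1 hle2
        omega
      · have e1 : 2 * (y + N1 * y2) = 2 * y + N1 * (2 * y2) := by ring
        have e2 : 2 * y + N1 * (q + z2) = (x + N1 * N2 * (2 * y)) + (z + N1 * z2) := by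
          rw [show 2 * y + N1 * (q + z2) = 2 * y + N1 * q + N1 * z2 by ring, ← hx]; ring
        rw [e1]
        refine ((up _ _ he2).add_left (2 * y)).trans ?_
        rw [e2]
        exact (big _).add_right _

theorem Att.mul {N1 N2 l1 l2 : ℕ} (h1 : Att N1 l1) (h2 : Att N2 l2) :
    Att (N1 * N2) (l1 + N1 * l2) := by
  obtain ⟨T1, m1, hG1, hl1⟩ := h1
  obtain ⟨T2, m2, hG2, hl2⟩ := h2
  refine ⟨_, _, hG1.mul hG2, ?_⟩
  have e : N1 * (2 * m2 + 1) = N1 * (N2 + l2) := by rw [hl2]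
  have e1 : N1 * (2 * m2 + 1) = 2 * (N1 * m2) + N1 := by ring
  have e2 : N1 * (N2 + l2) = N1 * N2 + N1 * l2 := by ring
  omega

/-- modulus three -/
theorem att_three {m : ℕ} (hm : m % 3 ≠ 0) : Att 3 (2 * m - 2) := by
  refine ⟨{0, m}, m, ⟨by norm_num, by simp, by simp, ?_, by omega, ⟨1, ?_⟩, ?_, ?_⟩, by omega⟩
  · intro x hx; simp at hx; omega
  · rw [Finset.card_pair (by omega)]; norm_num
  · intro x hx y hy z hz h
    simp only [Finset.mem_insert, Finset.mem_singleton] at hx hy hz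
    unfold Nat.ModEq at h
    rcases hx with rfl | rfl <;> rcases hy with rfl | rfl <;> rcases hz with rfl | rfl <;>
      omega
  · intro x
    by_cases h0 : x % 3 = 0
    · left; exact ⟨0, by simp, by unfold Nat.ModEq; omega⟩
    · by_cases h1 : x % 3 = m % 3
      · left; exact ⟨m, by simp, by unfold Nat.ModEq; omega⟩
      · right
        refine ⟨m, by simp, 0, by simp, by omega, ?_⟩
        unfold Nat.ModEq
        have hm3 : m % 3 = 1 ∨ m % 3 = 2 := by omega
        have hx3 : x % 3 = 1 ∨ x % 3 = 2 := by omega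
        rcases hm3 with hm3 | hm3 <;> rcases hx3 with hx3 | hx3 <;> omega

/-- the finite check -/
def chk (N : ℕ) (L : List ℕ) (m k : ℕ) : Bool :=
  decide (0 < N) && decide (0 ∈ L) && decide (m ∈ L) && L.all (fun x => decide (x ≤ m)) &&
  decide (0 < m) && decide (L.Nodup) && decide (L.length = 2 ^ k) &&
  L.all (fun x => L.all fun y => L.all fun z =>
    !(decide ((x + z) % N = (2 * y) % N)) || (decide (x = y) && decide (z = y))) &&
  (List.range N).all (fun s => L.any (fun t => decide (t % N = s)) ||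
    L.any (fun y => L.any fun z => decide (z < y) && decide ((2 * y) % N = (s + z) % N)))

theorem att_of_chk {N : ℕ} {L : List ℕ} {m k l : ℕ} (h : chk N L m k = true)
    (hl : 2 * m + 1 = N + l) : Att N l := by
  unfold chk at h
  simp only [Bool.and_eq_true, decide_eq_true_eq, List.all_eq_true, Bool.or_eq_true,
    Bool.not_eq_true', decide_eq_false_iff_not, List.any_eq_true, List.mem_range] at h
  obtain ⟨⟨⟨⟨⟨⟨⟨⟨hN, h0⟩, hm⟩, hle⟩, hpos⟩, hnd⟩, hlen⟩, hfree⟩, hcov⟩ := h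
  refine ⟨L.toFinset, m, ⟨hN, by simpa using h0, by simpa using hm, ?_, hpos, ⟨k, ?_⟩, ?_, ?_⟩, hl⟩
  · intro x hx; exact hle x (by simpa using hx)
  · rw [List.toFinset_card_of_nodup hnd, hlen]
  · intro x hx y hy z hz he
    rcases hfree x (by simpa using hx) y (by simpa using hy) z (by simpa using hz) with h1 | h1
    · exact absurd he h1
    · exact h1
  · intro x
    rcases hcov (x % N) (Nat.mod_lt _ hN) with ⟨t, ht, h1⟩ | ⟨y, hy, z, hz, h1, h2⟩
    · left
      exact ⟨t, by simpa using ht, h1⟩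
    · right
      refine ⟨y, by simpa using hy, z, by simpa using hz, h1, ?_⟩
      unfold Nat.ModEq
      rw [h2, Nat.mod_add_mod]

theorem att_10_7 : Att 10 7 :=
  att_of_chk (L := [0, 1, 7, 8]) (m := 8) (k := 2) (by decide +kernel) (by norm_num)

end Pool.Agent.V11181.Stan
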