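import Pool.Agent.V11181.Stan3

set_option autoImplicit false

namespace Pool.Agent.V11181.Stan

open Finset Nat

theorem good_of_label {i m : ℕ} (p : ℕ → ℕ)
    (hrel : ∀ a b c : ℕ, S0 a → S0 b → S0 c → a < 3 ^ (i + 1) → b < 3 ^ (i + 1) →
      c < 3 ^ (i + 1) → (p a + p b ≡ 2 * p c [MOD 3 ^ (i + 1)] → a + b ≡ 2 * c [MOD 3 ^ (i + 1)]))
    (h0 : ∃ a, S0 a ∧ a < 3 ^ (i + 1) ∧ p a = 0) (htop : ∃ a, S0 a ∧ a < 3 ^ (i + 1) ∧ p a = m)
    (hle : ∀ a, S0 a → a < 3 ^ (i + 1) → p a ≤ m) (hpos : 0 < m)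
    (hcov : ∀ x : ℕ, (∃ t, S0 t ∧ t < 3 ^ (i + 1) ∧ p t ≡ x [MOD 3 ^ (i + 1)]) ∨
      ∃ y z, S0 y ∧ y < 3 ^ (i + 1) ∧ S0 z ∧ z < 3 ^ (i + 1) ∧ p z < p y ∧
        2 * p y ≡ x + p z [MOD 3 ^ (i + 1)]) :
    Good (3 ^ (i + 1)) ((TT (i + 1)).image p) m := by
  have hfree : ∀ a b c : ℕ, S0 a → S0 b → S0 c → a < 3 ^ (i + 1) → b < 3 ^ (i + 1) →
      c < 3 ^ (i + 1) → p a + p b ≡ 2 * p c [MOD 3 ^ (i + 1)] → a = c ∧ b = c := by
    intro a b c ha hb hc hal hbl hcl h
    have h1 := S0.free_mod ha hb hc (hrel a b c ha hb hc hal hbl hcl h)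
    unfold Nat.ModEq at h1
    rwa [Nat.mod_eq_of_lt hal, Nat.mod_eq_of_lt hbl, Nat.mod_eq_of_lt hcl] at h1
  have hmem : ∀ x, x ∈ (TT (i + 1)).image p ↔ ∃ a, S0 a ∧ a < 3 ^ (i + 1) ∧ x = p a := by
    intro x
    simp only [Finset.mem_image, mem_TT]
    constructor
    · rintro ⟨a, ⟨h1, h2⟩, rfl⟩; exact ⟨a, h1, h2, rfl⟩
    · rintro ⟨a, h1, h2, rfl⟩; exact ⟨a, ⟨h1, h2⟩, rfl⟩
  refine ⟨by positivity, ?_, ?_, ?_, hpos, ⟨i + 1, ?_⟩, ?_, ?_⟩
  · obtain ⟨a, h1, h2, h3⟩ := h0
    exact (hmem _).2 ⟨a, h1, h2, h3.symm⟩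
  · obtain ⟨a, h1, h2, h3⟩ := htop
    exact (hmem _).2 ⟨a, h1, h2, h3.symm⟩
  · intro x hx
    obtain ⟨a, h1, h2, rfl⟩ := (hmem x).1 hx
    exact hle a h1 h2
  · rw [Finset.card_image_of_injOn, card_TT]
    intro a ha b hb hab
    rw [Finset.mem_coe, mem_TT] at ha hb
    refine (hfree a a b ha.1 ha.1 hb.1 ha.2 ha.2 hb.2 ?_).1
    rw [hab, two_mul]
  · intro x hx y hy z hz h
    obtain ⟨a, ha, hal, rfl⟩ := (hmem x).1 hx
    obtain ⟨c, hc, hcl, rfl⟩ := (hmem y).1 hy
    obtain ⟨b, hb, hbl, rfl⟩ := (hmem z).1 hz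
    obtain ⟨h1, h2⟩ := hfree a b c ha hb hc hal hbl hcl h
    rw [h1, h2]; exact ⟨rfl, rfl⟩
  · intro x
    rcases hcov x with ⟨t, ht, htl, h⟩ | ⟨y, z, hy, hyl, hz, hzl, hlt, h⟩
    · left; exact ⟨p t, (hmem _).2 ⟨t, ht, htl, rfl⟩, h⟩
    · right; exact ⟨p y, (hmem _).2 ⟨y, hy, hyl, rfl⟩, p z, (hmem _).2 ⟨z, hz, hzl, rfl⟩, hlt, h⟩

/-- labels with `p s ≡ s` -/
theorem good_pos {i m : ℕ} (p : ℕ → ℕ)
    (hp : ∀ a, S0 a → a < 3 ^ (i + 1) → p a ≡ a [MOD 3 ^ (i + 1)])
    (h0 : ∃ a, S0 a ∧ a < 3 ^ (i + 1) ∧ p a = 0) (htop : ∃ a, S0 a ∧ a < 3 ^ (i + 1) ∧ p a = m)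
    (hle : ∀ a, S0 a → a < 3 ^ (i + 1) → p a ≤ m) (hpos : 0 < m)
    (hcov : ∀ s : ℕ, s < 3 ^ (i + 1) → ¬ S0 s →
      ∃ y z, S0 y ∧ y < 3 ^ (i + 1) ∧ S0 z ∧ z < 3 ^ (i + 1) ∧ p z < p y ∧ 2 * y = s + z) :
    Good (3 ^ (i + 1)) ((TT (i + 1)).image p) m := by
  refine good_of_label p ?_ h0 htop hle hpos ?_
  · intro a b c ha hb hc hal hbl hcl h
    exact (((hp a ha hal).symm.add (hp b hb hbl).symm).trans h).trans ((hp c hc hcl).mul_left 2)
  · intro x
    have hN : 0 < 3 ^ (i + 1) := by positivity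
    have hx : x % 3 ^ (i + 1) ≡ x [MOD 3 ^ (i + 1)] := Nat.mod_modEq _ _
    by_cases hs : S0 (x % 3 ^ (i + 1))
    · left
      exact ⟨_, hs, Nat.mod_lt _ hN, (hp _ hs (Nat.mod_lt _ hN)).trans hx⟩
    · right
      obtain ⟨y, z, hy, hyl, hz, hzl, hlt, he⟩ := hcov _ (Nat.mod_lt _ hN) hs
      refine ⟨y, z, hy, hyl, hz, hzl, hlt, ?_⟩
      refine ((hp y hy hyl).mul_left 2).trans ?_
      rw [he]
      exact hx.add (hp z hz hzl).symm

/-- labels with `p s ≡ -s` -/
theorem good_neg {i m : ℕ} (p : ℕ → ℕ)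
    (hp : ∀ a, S0 a → a < 3 ^ (i + 1) → p a + a ≡ 0 [MOD 3 ^ (i + 1)])
    (h0 : ∃ a, S0 a ∧ a < 3 ^ (i + 1) ∧ p a = 0) (htop : ∃ a, S0 a ∧ a < 3 ^ (i + 1) ∧ p a = m)
    (hle : ∀ a, S0 a → a < 3 ^ (i + 1) → p a ≤ m) (hpos : 0 < m)
    (hcov : ∀ s : ℕ, s < 3 ^ (i + 1) → ¬ S0 s →
      ∃ y z, S0 y ∧ y < 3 ^ (i + 1) ∧ S0 z ∧ z < 3 ^ (i + 1) ∧ p z < p y ∧ 2 * y = s + z) :
    Good (3 ^ (i + 1)) ((TT (i + 1)).image p) m := by
  refine good_of_label p ?_ h0 htop hle hpos ?_
  · intro a b c ha hb hc hal hbl hcl h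
    have h1 : (p a + p b) + (a + b) ≡ 0 [MOD 3 ^ (i + 1)] := by
      have := (hp a ha hal).add (hp b hb hbl)
      rwa [show p a + a + (p b + b) = (p a + p b) + (a + b) by ring] at this
    have h2 : 2 * p c + 2 * c ≡ 0 [MOD 3 ^ (i + 1)] := by
      have := (hp c hc hcl).mul_left 2
      rwa [mul_add] at this
    have h3 : (p a + p b) + (a + b) ≡ (p a + p b) + 2 * c [MOD 3 ^ (i + 1)] :=
      (h1.trans h2.symm).trans (h.symm.add_right _)
    exact Nat.ModEq.add_left_cancel' _ h3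
  · intro x
    have hN : 0 < 3 ^ (i + 1) := by positivity
    obtain ⟨s, hsl, hs⟩ : ∃ s, s < 3 ^ (i + 1) ∧ x + s ≡ 0 [MOD 3 ^ (i + 1)] := by
      by_cases h : x % 3 ^ (i + 1) = 0
      · exact ⟨0, hN, h⟩
      · refine ⟨3 ^ (i + 1) - x % 3 ^ (i + 1), by omega, ?_⟩
        have h1 := Nat.mod_lt x hN
        have h2 : x % 3 ^ (i + 1) + (3 ^ (i + 1) - x % 3 ^ (i + 1)) ≡ 0 [MOD 3 ^ (i + 1)] := by
          rw [Nat.add_sub_cancel' h1.le]
          unfold Nat.ModEq; simp
        exact ((Nat.mod_modEq x _).symm.add_right _).trans h2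
    by_cases hS : S0 s
    · left
      refine ⟨s, hS, hsl, ?_⟩
      exact Nat.ModEq.add_right_cancel' s ((hp s hS hsl).trans hs.symm)
    · right
      obtain ⟨y, z, hy, hyl, hz, hzl, hlt, he⟩ := hcov s hsl hS
      refine ⟨y, z, hy, hyl, hz, hzl, hlt, ?_⟩
      have h1 : 2 * p y + 2 * y ≡ 0 [MOD 3 ^ (i + 1)] := by
        have := (hp y hy hyl).mul_left 2
        rwa [mul_add] at this
      have h2 : (x + p z) + (s + z) ≡ 0 [MOD 3 ^ (i + 1)] := by
        have := hs.add (hp z hz hzl)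
        rwa [show x + s + (p z + z) = (x + p z) + (s + z) by ring] at this
      rw [← he] at h2
      exact Nat.ModEq.add_right_cancel' _ (h1.trans h2.symm)

theorem S0.one : S0 1 := S0.d1 S0.zero
theorem S0.three : S0 3 := S0.d0 S0.one
theorem S0.four : S0 4 := S0.d1 S0.one

theorem S0.le_one_or {v : ℕ} (h : v < 3) : S0 v ↔ v ≠ 2 := by
  constructor
  · rintro hS rfl
    exact hS.inv.1 rfl
  · intro h2
    have : v = 0 ∨ v = 1 := by omega
    rcases this with rfl | rfl
    · exact S0.zero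
    · exact S0.one

/-- the second family -/
theorem att_fam2 {i c : ℕ} (hc : 1 ≤ c) : Att (3 ^ (i + 1)) (1 + 3 ^ i * (6 * c + 1)) := by
  obtain ⟨K, hK⟩ : ∃ K, K = 3 ^ i := ⟨_, rfl⟩
  have hK1 : 1 ≤ K := by rw [hK]; exact Nat.one_le_pow _ _ (by norm_num)
  have hN : 3 ^ (i + 1) = 3 * K := by rw [hK, pow_succ]; ring
  obtain ⟨m, hm⟩ : ∃ m, m = K * (3 * c + 2) := ⟨_, rfl⟩
  have hKc : K ≤ K * c := Nat.le_mul_of_pos_right _ (by omega)
  have hm' : m = 3 * (K * c) + 2 * K := by rw [hm]; ring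
  obtain ⟨p, p0, p1, p2⟩ : ∃ p : ℕ → ℕ, p 0 = 0 ∧ (∀ t, 0 < t → t < K → p t = 3 * K - t) ∧
      (∀ t, t < K → p (t + K) = m - t) := by
    refine ⟨fun s => if s = 0 then 0 else if s < K then 3 * K - s else m + K - s, by simp, ?_, ?_⟩
    · intro t h0 h1
      show (if t = 0 then 0 else if t < K then 3 * K - t else m + K - t) = _
      rw [if_neg (by omega), if_pos h1]
    · intro t h1
      show (if t + K = 0 then 0 else if t + K < K then 3 * K - (t + K) else m + K - (t + K)) = _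
      rw [if_neg (by omega), if_neg (by omega)]
      omega
  have plow : ∀ t, t < K → p t < 3 * K := by
    intro t ht
    by_cases h : t = 0
    · rw [h, p0]; omega
    · rw [p1 t (by omega) ht]; omega
  have hlab : ∀ a, S0 a → a < 3 ^ (i + 1) → a < K ∨ ∃ t, t < K ∧ a = t + K := by
    intro a ha hal
    have := ha.lt hal
    rw [hN] at this
    by_cases h : a < K
    · exact Or.inl h
    · exact Or.inr ⟨a - K, by omega, by omega⟩
  refine ⟨(TT (i + 1)).image p, m, good_neg p ?_ ?_ ?_ ?_ ?_ ?_, ?_⟩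
  · intro a ha hal
    rcases hlab a ha hal with h | ⟨t, ht, rfl⟩
    · by_cases h0 : a = 0
      · subst h0; rw [p0]
      · rw [p1 a (by omega) h, hN, show 3 * K - a + a = 3 * K by omega]
        unfold Nat.ModEq; simp
    · rw [p2 t ht, hN, show m - t + (t + K) = 3 * K * (c + 1) by
          rw [show 3 * K * (c + 1) = 3 * (K * c) + 3 * K by ring]; omega]
      unfold Nat.ModEq; simp
  · exact ⟨0, S0.zero, by positivity, p0⟩
  · refine ⟨0 + K, ?_, by rw [hN]; omega, by rw [p2 0 (by omega)]; rfl⟩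
    rw [zero_add, hK]; exact S0.pow i
  · intro a ha hal
    rcases hlab a ha hal with h | ⟨t, ht, rfl⟩
    · have := plow a h; omega
    · rw [p2 t ht]; omega
  · omega
  · intro s hs hS
    rw [hN] at hs
    obtain ⟨d, hd⟩ : ∃ d, d = s / K := ⟨_, rfl⟩
    obtain ⟨r, hr⟩ : ∃ r, r = s % K := ⟨_, rfl⟩
    have hsr : s = r + K * d := by rw [hd, hr]; exact (Nat.mod_add_div s K).symm
    have hrl : r < K := by rw [hr]; exact Nat.mod_lt _ (by omega)
    have hd3 : d < 3 := by rw [hd]; exact Nat.div_lt_of_lt_mul (by linarith)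
    have comb1 : ∀ t, S0 t → t < K → S0 (t + K) := by
      intro t ht htl
      rw [hK] at htl ⊢
      exact ht.addPow htl
    rw [hN]
    by_cases hSr : S0 r
    · have hd2 : d = 2 := by
        by_contra hne
        apply hS
        rw [hsr, hK]
        exact S0.comb hSr (by rw [← hK]; exact hrl) ((S0.le_one_or hd3).2 hne)
      subst hd2
      refine ⟨r + K, r, comb1 r hSr hrl, by omega, hSr, by omega, ?_, by omega⟩
      have := plow r hrl
      rw [p2 r hrl]
      omega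
    · have hr0 : r ≠ 0 := by rintro rfl; exact hSr S0.zero
      have hd' : d = 0 ∨ d = 1 ∨ d = 2 := by omega
      have htop : ∀ u w, u < K → w < K → p w < p (u + K) := by
        intro u w hu hw
        have := plow w hw
        rw [p2 u hu]
        omega
      rcases hd' with rfl | rfl | rfl
      · rcases Nat.lt_or_ge (2 * r) K with h2 | h2
        · obtain ⟨u, w, hu, hw, huw, hwl, he⟩ := S0.balPos (i := i) (x := r)
            (by rw [← hK]; exact h2)
          rw [← hK] at hwl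
          have hne : u ≠ w := by
            rintro rfl
            apply hSr
            rwa [show r = u by omega]
          refine ⟨u, w, hu, by omega, hw, by omega, ?_, by omega⟩
          rw [p1 u (by omega) (by omega), p1 w (by omega) hwl]
          omega
        · have hodd : K % 2 = 1 := by rw [hK, Nat.pow_mod]; norm_num
          obtain ⟨u, w, hu, hw, hwl, hul, he⟩ := S0.balNeg (i := i) (x := r)
            (by rw [← hK]; omega) (by rw [← hK]; exact hrl.le)
          rw [← hK] at hwl hul he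
          refine ⟨u + K, w + K, comb1 u hu hul, by omega, comb1 w hw hwl, by omega, ?_, by omega⟩
          rw [p2 u hul, p2 w hwl]
          omega
      · rcases Nat.lt_or_ge (2 * r) K with h2 | h2
        · obtain ⟨u, w, hu, hw, huw, hwl, he⟩ := S0.balPos (i := i) (x := r)
            (by rw [← hK]; exact h2)
          rw [← hK] at hwl
          have hne : u ≠ w := by
            rintro rfl
            apply hSr
            rwa [show r = u by omega]
          refine ⟨u + K, w + K, comb1 u hu (by omega), by omega, comb1 w hw hwl, by omega, ?_,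
            by omega⟩
          rw [p2 u (by omega), p2 w hwl]
          omega
        · have hodd : K % 2 = 1 := by rw [hK, Nat.pow_mod]; norm_num
          obtain ⟨u, w, hu, hw, hwl, hul, he⟩ := S0.balNeg (i := i) (x := r)
            (by rw [← hK]; omega) (by rw [← hK]; exact hrl.le)
          rw [← hK] at hwl hul he
          exact ⟨u + K, w, comb1 u hu hul, by omega, hw, by omega, htop u w hul hwl, by omega⟩
      · obtain ⟨u, w, hu, hw, hwu, he⟩ := S0.rep r
        exact ⟨u + K, w, comb1 u hu (by omega), by omega, hw, by omega,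
          htop u w (by omega) (by omega), by omega⟩
  · rw [hN, ← hK, hm']
    ring

/-- the layer of a label in the first family -/
theorem layer : ∃ cc : ℕ → ℕ, (∀ t, cc t ≤ 1) ∧
    (∀ t g, 3 ^ (g + 1) ≤ t → t < 4 * 3 ^ g → cc t = 1) ∧
    (∀ t g, 4 * 3 ^ g ≤ t → t < 6 * 3 ^ g → cc t = 0) := by
  classical
  refine ⟨fun t => if ∃ k, 4 * 3 ^ k ≤ t ∧ t < 6 * 3 ^ k then 0 else 1, ?_, ?_, ?_⟩
  · intro t
    show (if ∃ k, 4 * 3 ^ k ≤ t ∧ t < 6 * 3 ^ k then 0 else 1) ≤ 1
    split_ifs <;> omega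
  · intro t g h1 h2
    show (if ∃ k, 4 * 3 ^ k ≤ t ∧ t < 6 * 3 ^ k then 0 else 1) = 1
    rw [if_neg]
    rintro ⟨k, hk1, hk2⟩
    rcases Nat.lt_or_ge k g with h | h
    · have h3 : 3 ^ (k + 1) ≤ 3 ^ g := Nat.pow_le_pow_right (by norm_num) h
      rw [pow_succ] at h1 h3
      omega
    · have h3 : 3 ^ g ≤ 3 ^ k := Nat.pow_le_pow_right (by norm_num) h
      omega
  · intro t g h1 h2
    show (if ∃ k, 4 * 3 ^ k ≤ t ∧ t < 6 * 3 ^ k then 0 else 1) = 0
    rw [if_pos ⟨g, h1, h2⟩]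

/-- the layered representation -/
theorem layered {cc : ℕ → ℕ} (c1 : ∀ t, cc t ≤ 1)
    (c2 : ∀ t g, 3 ^ (g + 1) ≤ t → t < 4 * 3 ^ g → cc t = 1)
    (c3 : ∀ t g, 4 * 3 ^ g ≤ t → t < 6 * 3 ^ g → cc t = 0) {i s : ℕ} (hs : 2 * s < 3 ^ i)
    (hS : ¬ S0 s) :
    ∃ u w, S0 u ∧ S0 w ∧ u < 3 ^ i ∧ w < 3 ^ i ∧ w ≠ 0 ∧ 2 * u = s + w ∧
      (cc w < cc u ∨ (cc w = cc u ∧ w < u)) := by
  have hs0 : s ≠ 0 := by rintro rfl; exact hS S0.zero
  obtain ⟨h, hh1, hh2⟩ : ∃ h, 3 ^ h ≤ s ∧ s < 3 ^ (h + 1) :=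
    ⟨Nat.log 3 s, Nat.pow_log_le_self 3 hs0, Nat.lt_pow_succ_log_self (by norm_num) s⟩
  have hhi : h < i := by
    by_contra hge
    push Not at hge
    have := Nat.pow_le_pow_right (show 1 ≤ 3 by norm_num) hge
    omega
  have hhi' : 3 ^ (h + 1) ≤ 3 ^ i := Nat.pow_le_pow_right (by norm_num) hhi
  obtain ⟨H, hH⟩ : ∃ H, H = 3 ^ h := ⟨_, rfl⟩
  have hH1 : 3 ^ (h + 1) = 3 * H := by rw [hH, pow_succ]; ring
  rcases Nat.lt_or_ge s (2 * H) with h2 | h2
  · -- leading digit one
    obtain ⟨r, hr⟩ : ∃ r, r = s - H := ⟨_, rfl⟩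
    rw [← hH] at hh1
    have hsr : s = r + H := by omega
    have hrS : ¬ S0 r := by
      intro hr'
      apply hS
      rw [hsr, hH]
      exact hr'.addPow (by rw [← hH]; omega)
    obtain ⟨g, rfl⟩ : ∃ g, h = g + 1 := by
      rcases h with _ | g
      · exfalso
        apply hrS
        rw [hH] at hsr h2
        have : r = 0 := by simp at h2 hsr; omega
        rw [this]; exact S0.zero
      · exact ⟨g, rfl⟩
    obtain ⟨G, hG⟩ : ∃ G, G = 3 ^ g := ⟨_, rfl⟩
    have hG1 : 1 ≤ G := by rw [hG]; exact Nat.one_le_pow _ _ (by norm_num)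
    have hHG : H = 3 * G := by rw [hH, hG, pow_succ]; ring
    obtain ⟨e, he⟩ : ∃ e, e = r / G := ⟨_, rfl⟩
    obtain ⟨r', hr'⟩ : ∃ r', r' = r % G := ⟨_, rfl⟩
    have hrr : r = r' + G * e := by rw [he, hr']; exact (Nat.mod_add_div r G).symm
    have hrl : r' < G := by rw [hr']; exact Nat.mod_lt _ (by omega)
    have he3 : e < 3 := by rw [he]; exact Nat.div_lt_of_lt_mul (by linarith)
    obtain ⟨u, w, hu, hw, hwu, huw⟩ := S0.rep r'
    have he' : e = 2 ∨ e = 0 ∨ e = 1 := by omega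
    have cmb : ∀ t v, S0 t → t < G → S0 v → S0 (t + G * v) := by
      intro t v ht htl hv
      rw [hG] at htl ⊢
      exact S0.comb ht htl hv
    rcases he' with rfl | he'
    · refine ⟨u + G * 3, w + G * 1, cmb _ _ hu (by omega) S0.three, cmb _ _ hw (by omega) S0.one,
        by omega, by omega, by omega, by omega, ?_⟩
      have h3 : cc (u + G * 3) = 1 := c2 _ g (by rw [pow_succ, ← hG]; omega) (by rw [← hG]; omega)
      have h4 := c1 (w + G * 1)
      rcases Nat.lt_or_ge (cc (w + G * 1)) 1 with h5 | h5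
      · left; omega
      · right; exact ⟨by omega, by omega⟩
    · have hr'S : ¬ S0 r' := by
        intro h3
        apply hrS
        rw [hrr]
        exact cmb _ _ h3 hrl ((S0.le_one_or he3).2 (by omega))
      have hne : w ≠ u := by
        rintro rfl
        apply hr'S
        rwa [show r' = w by omega]
      rcases he' with rfl | rfl
      · refine ⟨u + G * 3, w + G * 3, cmb _ _ hu (by omega) S0.three,
          cmb _ _ hw (by omega) S0.three, by omega, by omega, by omega, by omega, ?_⟩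
        right
        refine ⟨?_, by omega⟩
        rw [c2 (w + G * 3) g (by rw [pow_succ, ← hG]; omega) (by rw [← hG]; omega),
          c2 (u + G * 3) g (by rw [pow_succ, ← hG]; omega) (by rw [← hG]; omega)]
      · refine ⟨u + G * 4, w + G * 4, cmb _ _ hu (by omega) S0.four,
          cmb _ _ hw (by omega) S0.four, by omega, by omega, by omega, by omega, ?_⟩
        right
        refine ⟨?_, by omega⟩
        rw [c3 (w + G * 4) g (by rw [← hG]; omega) (by rw [← hG]; omega),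
          c3 (u + G * 4) g (by rw [← hG]; omega) (by rw [← hG]; omega)]
  · -- leading digit two
    have hhi2 : 3 ^ (h + 2) ≤ 3 ^ i := by
      apply Nat.pow_le_pow_right (by norm_num)
      by_contra hge
      push Not at hge
      have hi : i = h + 1 := by omega
      rw [hi, hH1] at hs
      omega
    have hH2 : 3 ^ (h + 2) = 9 * H := by rw [hH, pow_succ, pow_succ]; ring
    obtain ⟨r, hr⟩ : ∃ r, r = s - 2 * H := ⟨_, rfl⟩
    have hH0 : 1 ≤ H := by rw [hH]; exact Nat.one_le_pow _ _ (by norm_num)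
    obtain ⟨u, w, hu, hw, hwu, huw⟩ := S0.rep r
    have cmb : ∀ t v, S0 t → t < H → S0 v → S0 (t + H * v) := by
      intro t v ht htl hv
      rw [hH] at htl ⊢
      exact S0.comb ht htl hv
    refine ⟨u + H * 3, w + H * 4, cmb _ _ hu (by omega) S0.three,
      cmb _ _ hw (by omega) S0.four, by omega, by omega, by omega, by omega, ?_⟩
    left
    rw [c2 (u + H * 3) h (by rw [pow_succ, ← hH]; omega) (by rw [← hH]; omega),
      c3 (w + H * 4) h (by rw [← hH]; omega) (by rw [← hH]; omega)]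
    norm_num

/-- the first family -/
theorem att_fam1 {i q : ℕ} (hq : 2 ≤ q) : Att (3 ^ (i + 1)) (1 + 3 ^ i * (6 * q - 1)) := by
  obtain ⟨K, hK⟩ : ∃ K, K = 3 ^ i := ⟨_, rfl⟩
  have hK1 : 1 ≤ K := by rw [hK]; exact Nat.one_le_pow _ _ (by norm_num)
  have hN : 3 ^ (i + 1) = 3 * K := by rw [hK, pow_succ]; ring
  obtain ⟨m, hm⟩ : ∃ m, m = K + 3 * K * q := ⟨_, rfl⟩
  have hKq : K * 2 ≤ K * q := Nat.mul_le_mul_left _ hq
  have hm' : m = K + 3 * (K * q) := by rw [hm]; ring
  obtain ⟨cc, c1, c2, c3⟩ := layer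
  obtain ⟨p, p0, p1, p2⟩ : ∃ p : ℕ → ℕ, p (0 + K) = m ∧ (∀ t, t < K → p t = t) ∧
      (∀ t, 0 < t → t < K → p (t + K) = t + K + 3 * K * cc t) := by
    refine ⟨fun s => if s < K then s else if s = K then m else s + 3 * K * cc (s - K), ?_, ?_, ?_⟩
    · show (if 0 + K < K then 0 + K else if 0 + K = K then m else _) = _
      rw [if_neg (by omega), if_pos (by omega)]
    · intro t ht
      show (if t < K then t else _) = _
      rw [if_pos ht]
    · intro t h0 ht
      show (if t + K < K then t + K else if t + K = K then m else t + K + 3 * K * cc (t + K - K)) = _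
      rw [if_neg (by omega), if_neg (by omega), Nat.add_sub_cancel]
  have hlab : ∀ a, S0 a → a < 3 ^ (i + 1) → a < K ∨ ∃ t, t < K ∧ a = t + K := by
    intro a ha hal
    have := ha.lt hal
    rw [hN] at this
    by_cases h : a < K
    · exact Or.inl h
    · exact Or.inr ⟨a - K, by omega, by omega⟩
  have hcc : ∀ t, 3 * K * cc t ≤ 3 * K := fun t => by
    calc 3 * K * cc t ≤ 3 * K * 1 := Nat.mul_le_mul_left _ (c1 t)
      _ = 3 * K := by ring
  have pup : ∀ t, t < K → K ≤ p (t + K) := by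
    intro t ht
    by_cases h : t = 0
    · rw [h, p0]; omega
    · rw [p2 t (by omega) ht]; omega
  refine ⟨(TT (i + 1)).image p, m, good_pos p ?_ ?_ ?_ ?_ ?_ ?_, ?_⟩
  · intro a ha hal
    rcases hlab a ha hal with h | ⟨t, ht, rfl⟩
    · rw [p1 a h]
    · by_cases h : t = 0
      · subst h
        rw [p0, hN, hm]
        unfold Nat.ModEq
        rw [Nat.add_mul_mod_self_left, zero_add]
      · rw [p2 t (by omega) ht, hN]
        unfold Nat.ModEq
        rw [Nat.add_mul_mod_self_left]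
  · exact ⟨0, S0.zero, by positivity, p1 0 (by omega)⟩
  · refine ⟨0 + K, ?_, by rw [hN]; omega, p0⟩
    rw [zero_add, hK]; exact S0.pow i
  · intro a ha hal
    rcases hlab a ha hal with h | ⟨t, ht, rfl⟩
    · rw [p1 a h]; omega
    · by_cases h : t = 0
      · subst h; rw [p0]
      · rw [p2 t (by omega) ht]
        have := hcc t
        omega
  · omega
  · intro s hs hS
    rw [hN] at hs
    obtain ⟨d, hd⟩ : ∃ d, d = s / K := ⟨_, rfl⟩
    obtain ⟨r, hr⟩ : ∃ r, r = s % K := ⟨_, rfl⟩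
    have hsr : s = r + K * d := by rw [hd, hr]; exact (Nat.mod_add_div s K).symm
    have hrl : r < K := by rw [hr]; exact Nat.mod_lt _ (by omega)
    have hd3 : d < 3 := by rw [hd]; exact Nat.div_lt_of_lt_mul (by linarith)
    have comb1 : ∀ t, S0 t → t < K → S0 (t + K) := by
      intro t ht htl
      rw [hK] at htl ⊢
      exact ht.addPow htl
    rw [hN]
    have htop : ∀ u w, u < K → w < K → p w < p (u + K) := by
      intro u w hu hw
      have := pup u hu
      rw [p1 w hw]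
      omega
    by_cases hSr : S0 r
    · have hd2 : d = 2 := by
        by_contra hne
        apply hS
        rw [hsr, hK]
        exact S0.comb hSr (by rw [← hK]; exact hrl) ((S0.le_one_or hd3).2 hne)
      subst hd2
      exact ⟨r + K, r, comb1 r hSr hrl, by omega, hSr, by omega, htop r r hrl hrl, by omega⟩
    · have hd' : d = 0 ∨ d = 1 ∨ d = 2 := by omega
      rcases hd' with rfl | rfl | rfl
      · obtain ⟨u, w, hu, hw, hwu, he⟩ := S0.rep r
        have hne : w ≠ u := by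
          rintro rfl
          apply hSr
          rwa [show r = w by omega]
        refine ⟨u, w, hu, by omega, hw, by omega, ?_, by omega⟩
        rw [p1 u (by omega), p1 w (by omega)]
        omega
      · rcases Nat.lt_or_ge (2 * r) K with h2 | h2
        · obtain ⟨u, w, hu, hw, hul, hwl, hw0, he, hlt⟩ := layered c1 c2 c3 (i := i) (s := r)
            (by rw [← hK]; exact h2) hSr
          rw [← hK] at hul hwl
          refine ⟨u + K, w + K, comb1 u hu (by omega), by omega, comb1 w hw hwl, by omega, ?_,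
            by omega⟩
          rw [p2 u (by omega) (by omega), p2 w (by omega) hwl]
          rcases hlt with h3 | ⟨h3, h4⟩
          · have h4 := c1 u
            have h5 : cc w = 0 := by omega
            have h6 : cc u = 1 := by omega
            rw [h5, h6]
            omega
          · rw [h3]; omega
        · have hodd : K % 2 = 1 := by rw [hK, Nat.pow_mod]; norm_num
          obtain ⟨u, w, hu, hw, hwl, hul, he⟩ := S0.balNeg (i := i) (x := r)
            (by rw [← hK]; omega) (by rw [← hK]; exact hrl.le)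
          rw [← hK] at hwl hul he
          exact ⟨u + K, w, comb1 u hu hul, by omega, hw, by omega, htop u w hul hwl, by omega⟩
      · obtain ⟨u, w, hu, hw, hwu, he⟩ := S0.rep r
        exact ⟨u + K, w, comb1 u hu (by omega), by omega, hw, by omega,
          htop u w (by omega) (by omega), by omega⟩
  · rw [hN, ← hK, hm', Nat.mul_sub]
    have : K * (6 * q) = 6 * (K * q) := by ring
    omega

end Pool.Agent.V11181.Stan
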