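import Pool.Agent.V11181.Stan4

set_option autoImplicit false

namespace Pool.Agent.V11181.Stan

theorem t29_58 : Att 29 58 :=
  att_of_chk (L := [0, 1, 3, 4, 10, 13, 40, 43]) (m := 43) (k := 3) (by decide +kernel) (by norm_num)

theorem t29_60 : Att 29 60 :=
  att_of_chk (L := [0, 5, 12, 13, 20, 36, 37, 44]) (m := 44) (k := 3) (by decide +kernel) (by norm_num)

theorem t29_62 : Att 29 62 :=
  att_of_chk (L := [0, 18, 19, 28, 34, 35, 44, 45]) (m := 45) (k := 3) (by decide +kernel) (by norm_num)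

theorem t29_64 : Att 29 64 :=
  att_of_chk (L := [0, 1, 19, 20, 26, 27, 45, 46]) (m := 46) (k := 3) (by decide +kernel) (by norm_num)

theorem t29_66 : Att 29 66 :=
  att_of_chk (L := [0, 1, 20, 21, 26, 27, 46, 47]) (m := 47) (k := 3) (by decide +kernel) (by norm_num)

theorem t29_10 : Att 29 10 :=
  att_of_chk (L := [0, 2, 6, 8, 11, 13, 17, 19]) (m := 19) (k := 3) (by decide +kernel) (by norm_num)

theorem t29_70 : Att 29 70 :=
  att_of_chk (L := [0, 25, 26, 28, 45, 46, 48, 49]) (m := 49) (k := 3) (by decide +kernel) (by norm_num)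

theorem t29_14 : Att 29 14 :=
  att_of_chk (L := [0, 4, 6, 10, 11, 15, 17, 21]) (m := 21) (k := 3) (by decide +kernel) (by norm_num)

theorem t29_74 : Att 29 74 :=
  att_of_chk (L := [0, 3, 20, 23, 28, 31, 48, 51]) (m := 51) (k := 3) (by decide +kernel) (by norm_num)

theorem t29_18 : Att 29 18 :=
  att_of_chk (L := [0, 4, 7, 11, 12, 16, 19, 23]) (m := 23) (k := 3) (by decide +kernel) (by norm_num)

theorem t29_20 : Att 29 20 :=
  att_of_chk (L := [0, 1, 3, 4, 20, 21, 23, 24]) (m := 24) (k := 3) (by decide +kernel) (by norm_num)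

theorem t29_22 : Att 29 22 :=
  att_of_chk (L := [0, 2, 3, 5, 20, 22, 23, 25]) (m := 25) (k := 3) (by decide +kernel) (by norm_num)

theorem t29_24 : Att 29 24 :=
  att_of_chk (L := [0, 2, 10, 12, 15, 16, 25, 26]) (m := 26) (k := 3) (by decide +kernel) (by norm_num)

theorem t29_26 : Att 29 26 :=
  att_of_chk (L := [0, 1, 10, 11, 16, 17, 26, 27]) (m := 27) (k := 3) (by decide +kernel) (by norm_num)

theorem t29_86 : Att 29 86 :=
  att_of_chk (L := [0, 16, 17, 25, 26, 48, 49, 57]) (m := 57) (k := 3) (by decide +kernel) (by norm_num)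

theorem t29_32 : Att 29 32 :=
  att_of_chk (L := [0, 8, 10, 17, 18, 22, 25, 30]) (m := 30) (k := 3) (by decide +kernel) (by norm_num)

theorem t29_92 : Att 29 92 :=
  att_of_chk (L := [0, 3, 20, 23, 28, 48, 51, 60]) (m := 60) (k := 3) (by decide +kernel) (by norm_num)

theorem t29_36 : Att 29 36 :=
  att_of_chk (L := [0, 1, 4, 20, 21, 23, 24, 32]) (m := 32) (k := 3) (by decide +kernel) (by norm_num)

theorem t29_38 : Att 29 38 :=
  att_of_chk (L := [0, 3, 9, 10, 12, 13, 30, 33]) (m := 33) (k := 3) (by decide +kernel) (by norm_num)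

theorem t29_40 : Att 29 40 :=
  att_of_chk (L := [0, 2, 3, 20, 22, 23, 25, 34]) (m := 34) (k := 3) (by decide +kernel) (by norm_num)

theorem t29_42 : Att 29 42 :=
  att_of_chk (L := [0, 5, 14, 16, 19, 21, 30, 35]) (m := 35) (k := 3) (by decide +kernel) (by norm_num)

theorem t29_44 : Att 29 44 :=
  att_of_chk (L := [0, 2, 11, 13, 23, 25, 34, 36]) (m := 36) (k := 3) (by decide +kernel) (by norm_num)

theorem t29_46 : Att 29 46 :=
  att_of_chk (L := [0, 1, 10, 11, 26, 27, 36, 37]) (m := 37) (k := 3) (by decide +kernel) (by norm_num)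

theorem t29_48 : Att 29 48 :=
  att_of_chk (L := [0, 10, 13, 15, 23, 25, 28, 38]) (m := 38) (k := 3) (by decide +kernel) (by norm_num)

theorem t29_50 : Att 29 50 :=
  att_of_chk (L := [0, 4, 6, 17, 18, 21, 22, 39]) (m := 39) (k := 3) (by decide +kernel) (by norm_num)

theorem t29_52 : Att 29 52 :=
  att_of_chk (L := [0, 1, 3, 4, 10, 13, 14, 40]) (m := 40) (k := 3) (by decide +kernel) (by norm_num)

theorem t29_54 : Att 29 54 :=
  att_of_chk (L := [0, 1, 9, 10, 13, 32, 33, 41]) (m := 41) (k := 3) (by decide +kernel) (by norm_num)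

theorem t29_56 : Att 29 56 :=
  att_of_chk (L := [0, 1, 3, 9, 10, 12, 33, 42]) (m := 42) (k := 3) (by decide +kernel) (by norm_num)

theorem att_29 {l : ℕ} (h2 : l % 2 = 0) (hl : 92 ≤ l) (h29 : l % 29 ≠ 1) : Att 29 l := by
  have key : ∀ b, Att 29 b → b ≤ l → l % 58 = b % 58 → Att 29 l := by
    intro b hb hbl hm
    have h := hb.shift ((l - b) / 58)
    rwa [show b + 2 * 29 * ((l - b) / 58) = l by omega] at h
  have hr : l % 58 = 0 ∨ l % 58 = 2 ∨ l % 58 = 4 ∨ l % 58 = 6 ∨ l % 58 = 8 ∨ l % 58 = 10 ∨ l % 58 = 12 ∨ l % 58 = 14 ∨ l % 58 = 16 ∨ l % 58 = 18 ∨ l % 58 = 20 ∨ l % 58 = 22 ∨ l % 58 = 24 ∨ l % 58 = 26 ∨ l % 58 = 28 ∨ l % 58 = 32 ∨ l % 58 = 34 ∨ l % 58 = 36 ∨ l % 58 = 38 ∨ l % 58 = 40 ∨ l % 58 = 42 ∨ l % 58 = 44 ∨ l % 58 = 46 ∨ l % 58 = 48 ∨ l % 58 = 50 ∨ l % 58 = 52 ∨ l % 58 = 54 ∨ l % 58 = 56 := by omega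
  rcases hr with h | h | h | h | h | h | h | h | h | h | h | h | h | h | h | h | h | h | h | h | h | h | h | h | h | h | h | h

  · exact key 58 t29_58 (by omega) (by omega)
  · exact key 60 t29_60 (by omega) (by omega)
  · exact key 62 t29_62 (by omega) (by omega)
  · exact key 64 t29_64 (by omega) (by omega)
  · exact key 66 t29_66 (by omega) (by omega)
  · exact key 10 t29_10 (by omega) (by omega)
  · exact key 70 t29_70 (by omega) (by omega)
  · exact key 14 t29_14 (by omega) (by omega)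
  · exact key 74 t29_74 (by omega) (by omega)
  · exact key 18 t29_18 (by omega) (by omega)
  · exact key 20 t29_20 (by omega) (by omega)
  · exact key 22 t29_22 (by omega) (by omega)
  · exact key 24 t29_24 (by omega) (by omega)
  · exact key 26 t29_26 (by omega) (by omega)
  · exact key 86 t29_86 (by omega) (by omega)
  · exact key 32 t29_32 (by omega) (by omega)
  · exact key 92 t29_92 (by omega) (by omega)
  · exact key 36 t29_36 (by omega) (by omega)
  · exact key 38 t29_38 (by omega) (by omega)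
  · exact key 40 t29_40 (by omega) (by omega)
  · exact key 42 t29_42 (by omega) (by omega)
  · exact key 44 t29_44 (by omega) (by omega)
  · exact key 46 t29_46 (by omega) (by omega)
  · exact key 48 t29_48 (by omega) (by omega)
  · exact key 50 t29_50 (by omega) (by omega)
  · exact key 52 t29_52 (by omega) (by omega)
  · exact key 54 t29_54 (by omega) (by omega)
  · exact key 56 t29_56 (by omega) (by omega)

theorem s_4 : Att 9 4 :=
  att_of_chk (L := [0, 2, 5, 6]) (m := 6) (k := 2) (by decide +kernel) (by norm_num)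

theorem s_10 : Att 27 10 :=
  att_of_chk (L := [0, 1, 6, 7, 10, 15, 16, 18]) (m := 18) (k := 3) (by decide +kernel) (by norm_num)

theorem s_28 : Att 31 28 :=
  att_of_chk (L := [0, 1, 7, 8, 21, 22, 28, 29]) (m := 29) (k := 3) (by decide +kernel) (by norm_num)

theorem s_82 : Att 29 82 :=
  att_of_chk (L := [0, 2, 10, 12, 15, 16, 25, 55]) (m := 55) (k := 3) (by decide +kernel) (by norm_num)

theorem s_16 : Att 9 16 :=
  att_of_chk (L := [0, 1, 4, 12]) (m := 12) (k := 2) (by decide +kernel) (by norm_num)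

theorem s_46 : Att 27 46 :=
  att_of_chk (L := [0, 3, 8, 11, 12, 26, 29, 36]) (m := 36) (k := 3) (by decide +kernel) (by norm_num)

theorem s_17 : Att 28 17 :=
  att_of_chk (L := [0, 4, 5, 9, 15, 17, 20, 22]) (m := 22) (k := 3) (by decide +kernel) (by norm_num)

theorem s_7 : Att 10 7 :=
  att_of_chk (L := [0, 1, 7, 8]) (m := 8) (k := 2) (by decide +kernel) (by norm_num)

theorem s_13 : Att 30 13 :=
  att_of_chk (L := [0, 1, 3, 4, 10, 13, 14, 21]) (m := 21) (k := 3) (by decide +kernel) (by norm_num)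

theorem s_19 : Att 10 19 :=
  att_of_chk (L := [0, 3, 11, 14]) (m := 14) (k := 2) (by decide +kernel) (by norm_num)

theorem s_25 : Att 32 25 :=
  att_of_chk (L := [0, 2, 3, 5, 23, 25, 26, 28]) (m := 28) (k := 3) (by decide +kernel) (by norm_num)

theorem s_31 : Att 28 31 :=
  att_of_chk (L := [0, 5, 11, 13, 16, 18, 24, 29]) (m := 29) (k := 3) (by decide +kernel) (by norm_num)

theorem s_37 : Att 28 37 :=
  att_of_chk (L := [0, 1, 9, 10, 12, 13, 31, 32]) (m := 32) (k := 3) (by decide +kernel) (by norm_num)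

theorem s_43 : Att 10 43 :=
  att_of_chk (L := [0, 7, 9, 26]) (m := 26) (k := 2) (by decide +kernel) (by norm_num)

theorem s_49 : Att 28 49 :=
  att_of_chk (L := [0, 1, 9, 12, 13, 31, 32, 38]) (m := 38) (k := 3) (by decide +kernel) (by norm_num)

theorem s_55 : Att 10 55 :=
  att_of_chk (L := [0, 9, 13, 32]) (m := 32) (k := 2) (by decide +kernel) (by norm_num)

theorem s_61 : Att 28 61 :=
  att_of_chk (L := [0, 5, 11, 13, 18, 24, 29, 44]) (m := 44) (k := 3) (by decide +kernel) (by norm_num)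

theorem s_73 : Att 28 73 :=
  att_of_chk (L := [0, 4, 5, 9, 15, 17, 20, 50]) (m := 50) (k := 3) (by decide +kernel) (by norm_num)

theorem s_91 : Att 28 91 :=
  att_of_chk (L := [0, 5, 11, 15, 16, 20, 26, 59]) (m := 59) (k := 3) (by decide +kernel) (by norm_num)

theorem s_109 : Att 30 109 :=
  att_of_chk (L := [0, 7, 10, 17, 19, 26, 36, 69]) (m := 69) (k := 3) (by decide +kernel) (by norm_num)

theorem s_127 : Att 10 127 :=
  att_of_chk (L := [0, 1, 7, 68]) (m := 68) (k := 2) (by decide +kernel) (by norm_num)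

theorem s_145 : Att 30 145 :=
  att_of_chk (L := [0, 7, 9, 20, 29, 36, 56, 87]) (m := 87) (k := 3) (by decide +kernel) (by norm_num)

theorem s_163 : Att 10 163 :=
  att_of_chk (L := [0, 7, 9, 86]) (m := 86) (k := 2) (by decide +kernel) (by norm_num)

theorem s_181 : Att 28 181 :=
  att_of_chk (L := [0, 3, 4, 19, 22, 23, 29, 104]) (m := 104) (k := 3) (by decide +kernel) (by norm_num)

theorem s_199 : Att 10 199 :=
  att_of_chk (L := [0, 3, 11, 104]) (m := 104) (k := 2) (by decide +kernel) (by norm_num)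

theorem s_217 : Att 28 217 :=
  att_of_chk (L := [0, 1, 9, 12, 13, 31, 32, 122]) (m := 122) (k := 3) (by decide +kernel) (by norm_num)

theorem s_235 : Att 10 235 :=
  att_of_chk (L := [0, 9, 13, 122]) (m := 122) (k := 2) (by decide +kernel) (by norm_num)

theorem s_253 : Att 30 253 :=
  att_of_chk (L := [0, 1, 3, 4, 10, 13, 14, 141]) (m := 141) (k := 3) (by decide +kernel) (by norm_num)

theorem s_271 : Att 28 271 :=
  att_of_chk (L := [0, 5, 15, 17, 20, 22, 32, 149]) (m := 149) (k := 3) (by decide +kernel) (by norm_num)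

theorem s_289 : Att 28 289 :=
  att_of_chk (L := [0, 5, 11, 13, 16, 24, 29, 158]) (m := 158) (k := 3) (by decide +kernel) (by norm_num)

end Pool.Agent.V11181.Stan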