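import Mathlib

/-!
# Counting subtrees of a large tree: paths, stars and the rest

For `k = j + 4` and every `ε > 0` there are `C` and `N` such that in every tree with at least `N`
vertices the number of `k`-vertex subtrees which are not stars is at most `ε` times the number of
stars plus `C` times the number of paths.
-/

set_option autoImplicit false

namespace Pool.Agent.V11181.TP

open Finset SimpleGraph

variable {V : Type} [Fintype V] (T : SimpleGraph V)

/-- `U` induces a connected subgraph -/
def Conn (U : Finset V) : Prop := (T.induce (U : Set V)).Connected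

omit [Fintype V] in
/-- an edge leaving a proper part of a connected set -/
lemma edge_out {U A : Finset V} (hU : Conn T U) (hA : A ⊆ U) (hne : A.Nonempty) (hAU : A ≠ U) :
    ∃ u ∈ A, ∃ x ∈ U, x ∉ A ∧ T.Adj u x := by
  classical
  obtain ⟨a, ha⟩ := hne
  obtain ⟨b, hb, hbA⟩ : ∃ b ∈ U, b ∉ A := by
    by_contra h
    push Not at h
    exact hAU (Finset.Subset.antisymm hA h)
  obtain ⟨p⟩ := hU.preconnected (⟨a, hA ha⟩ : (U : Set V)) ⟨b, hb⟩
  obtain ⟨d, _, h1, h2⟩ := p.exists_boundary_dart {x | (x : V) ∈ A} ha hbA
  exact ⟨d.fst, h1, d.snd, d.snd.2, h2, d.adj⟩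

open Classical in
/-- the number of neighbours -/
noncomputable def dg (v : V) : ℕ := (univ.filter (fun w => T.Adj v w)).card

open Classical in
/-- the neighbours -/
noncomputable def nb (v : V) : Finset V := univ.filter (fun w => T.Adj v w)

lemma mem_nb (v w : V) : w ∈ nb T v ↔ T.Adj v w := by simp [nb]

lemma card_nb (v : V) : (nb T v).card = dg T v := rfl

open Classical in
/-- connected supersets of a given size with bounded degrees -/
noncomputable def fam (U₀ : Finset V) (i D : ℕ) : Finset (Finset V) :=
  univ.filter (fun U => U₀ ⊆ U ∧ U.card = U₀.card + i ∧ Conn T U ∧ ∀ x ∈ U, dg T x ≤ D)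

lemma fam_card (k D : ℕ) : ∀ (i : ℕ) (U₀ : Finset V), U₀.Nonempty → U₀.card + i ≤ k →
    (fam T U₀ i D).card ≤ (k * D) ^ i := by
  classical
  intro i
  induction i with
  | zero =>
    intro U₀ _ _
    rw [pow_zero]
    refine Finset.card_le_one.2 fun U hU W hW => ?_
    simp only [fam, mem_filter, mem_univ, true_and, add_zero] at hU hW
    have h1 := Finset.eq_of_subset_of_card_le hU.1 hU.2.1.le
    have h2 := Finset.eq_of_subset_of_card_le hW.1 hW.2.1.le
    rw [← h1, ← h2]
  | succ i ih =>
    intro U₀ hne hk
    have hsub : fam T U₀ (i + 1) D ⊆ (U₀.filter (fun x => dg T x ≤ D)).biUnion (fun x =>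
        (nb T x \ U₀).biUnion (fun y => fam T (insert y U₀) i D)) := by
      intro U hU
      simp only [fam, mem_filter, mem_univ, true_and] at hU
      obtain ⟨h1, h2, h3, h4⟩ := hU
      have hne2 : U₀ ≠ U := by
        rintro rfl
        omega
      obtain ⟨u, hu, x, hx, hxA, hux⟩ := edge_out T h3 h1 hne hne2
      simp only [mem_biUnion, mem_filter, mem_sdiff]
      refine ⟨u, ⟨hu, h4 u (h1 hu)⟩, x, ⟨(mem_nb T u x).2 hux, hxA⟩, ?_⟩
      simp only [fam, mem_filter, mem_univ, true_and]
      refine ⟨Finset.insert_subset hx h1, ?_, h3, h4⟩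
      rw [Finset.card_insert_of_notMem hxA, h2]
      omega
    refine (Finset.card_le_card hsub).trans ?_
    refine (Finset.card_biUnion_le).trans ?_
    have hb : ∀ x ∈ U₀.filter (fun x => dg T x ≤ D),
        ((nb T x \ U₀).biUnion (fun y => fam T (insert y U₀) i D)).card ≤ D * (k * D) ^ i := by
      intro x hx
      rw [mem_filter] at hx
      refine (Finset.card_biUnion_le).trans ?_
      have h5 : ∀ y ∈ nb T x \ U₀, (fam T (insert y U₀) i D).card ≤ (k * D) ^ i := by
        intro y hy
        rw [mem_sdiff] at hy
        apply ih _ (Finset.insert_nonempty _ _)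
        rw [Finset.card_insert_of_notMem hy.2]
        omega
      refine (Finset.sum_le_card_nsmul _ _ _ h5).trans ?_
      rw [smul_eq_mul]
      apply Nat.mul_le_mul_right
      exact (Finset.card_le_card Finset.sdiff_subset).trans (by rw [card_nb]; exact hx.2)
    refine (Finset.sum_le_card_nsmul _ _ _ hb).trans ?_
    rw [smul_eq_mul]
    have h6 : (U₀.filter (fun x => dg T x ≤ D)).card ≤ k :=
      (Finset.card_le_card (Finset.filter_subset _ _)).trans (by omega)
    calc _ ≤ k * (D * (k * D) ^ i) := Nat.mul_le_mul_right _ h6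
      _ = (k * D) ^ (i + 1) := by ring

/-- `U` is a star -/
def IsStar (U : Finset V) : Prop := ∃ c ∈ U, ∀ x ∈ U, x ≠ c → T.Adj c x

open Classical in
/-- connected sets which are not stars -/
noncomputable def nonstars (k : ℕ) : Finset (Finset V) :=
  univ.filter (fun U => U.card = k ∧ Conn T U ∧ ¬ IsStar T U)

open Classical in
/-- the double sum -/
noncomputable def Phi (j : ℕ) : ℕ :=
  ∑ w : V, ∑ u ∈ (nb T w).filter (fun u => dg T u ≤ dg T w), (dg T u - 1) * dg T w ^ (j + 1)

lemma nonstars_card (j : ℕ) : (nonstars T (j + 4)).card ≤ (j + 4) ^ (j + 1) * Phi T j := by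
  classical
  have hsub : nonstars T (j + 4) ⊆ (univ : Finset V).biUnion (fun w =>
      ((nb T w).filter (fun u => dg T u ≤ dg T w)).biUnion (fun u =>
        ((nb T u).erase w).biUnion (fun x => fam T {w, u, x} (j + 1) (dg T w)))) := by
    intro U hU
    simp only [nonstars, mem_filter, mem_univ, true_and] at hU
    obtain ⟨h1, h2, h3⟩ := hU
    have hne : U.Nonempty := by rw [← Finset.card_pos]; omega
    obtain ⟨w, hw, hmax⟩ := Finset.exists_max_image U (dg T) hne
    have h4 : ∃ z ∈ U, z ≠ w ∧ ¬ T.Adj w z := by
      by_contra h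
      push Not at h
      exact h3 ⟨w, hw, h⟩
    obtain ⟨z, hz, hzw, hza⟩ := h4
    obtain ⟨u, hu, x, hx, hxA, hux⟩ := edge_out T (A := U.filter (fun y => y = w ∨ T.Adj w y)) h2
      (Finset.filter_subset _ _) ⟨w, by simp [hw]⟩ (by
        intro h
        rw [← h] at hz
        simp only [mem_filter] at hz
        rcases hz.2 with h5 | h5
        · exact hzw h5
        · exact hza h5)
    simp only [mem_filter, not_and, not_or] at hu hxA
    obtain ⟨hxw, hxa⟩ := hxA hx
    have hwu : T.Adj w u := by
      rcases hu.2 with h5 | h5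
      · rw [h5] at hux
        exact absurd hux hxa
      · exact h5
    simp only [mem_biUnion, mem_univ, true_and]
    refine ⟨w, u, ?_, x, ?_, ?_⟩
    · rw [mem_filter, mem_nb]
      exact ⟨hwu, hmax u hu.1⟩
    · rw [mem_erase, mem_nb]
      exact ⟨hxw, hux⟩
    · simp only [fam, mem_filter, mem_univ, true_and]
      refine ⟨?_, ?_, h2, hmax⟩
      · intro y hy
        simp only [mem_insert, mem_singleton] at hy
        rcases hy with rfl | rfl | rfl
        · exact hw
        · exact hu.1
        · exact hx
      · rw [Finset.card_insert_of_notMem, Finset.card_insert_of_notMem, Finset.card_singleton]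
        · omega
        · rw [mem_singleton]
          exact hux.ne
        · simp only [mem_insert, mem_singleton, not_or]
          exact ⟨hwu.ne, fun h => hxw h.symm⟩
  refine (Finset.card_le_card hsub).trans ?_
  refine (Finset.card_biUnion_le).trans ?_
  unfold Phi
  rw [Finset.mul_sum]
  refine Finset.sum_le_sum fun w _ => ?_
  refine (Finset.card_biUnion_le).trans ?_
  rw [Finset.mul_sum]
  refine Finset.sum_le_sum fun u hu => ?_
  rw [mem_filter, mem_nb] at hu
  refine (Finset.card_biUnion_le).trans ?_
  have h5 : ∀ x ∈ (nb T u).erase w, (fam T {w, u, x} (j + 1) (dg T w)).card ≤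
      ((j + 4) * dg T w) ^ (j + 1) := by
    intro x hx
    rw [mem_erase, mem_nb] at hx
    apply fam_card T (j + 4)
    · exact Finset.insert_nonempty _ _
    · rw [Finset.card_insert_of_notMem, Finset.card_insert_of_notMem, Finset.card_singleton]
      · omega
      · rw [mem_singleton]
        exact hx.2.ne
      · simp only [mem_insert, mem_singleton, not_or]
        exact ⟨hu.1.ne, hx.1.symm⟩
  refine (Finset.sum_le_card_nsmul _ _ _ h5).trans ?_
  have h6 : ((nb T u).erase w).card = dg T u - 1 := by
    rw [Finset.card_erase_of_mem ((mem_nb T u w).2 hu.1.symm), card_nb]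
  rw [smul_eq_mul, h6, mul_pow]
  apply le_of_eq
  ring

omit [Fintype V] in
/-- an orientation of a tree with outdegree at most one -/
lemma exists_par (hT : T.IsTree) : ∃ par : V → V, ∀ v w, T.Adj v w → par v = w ∨ par w = v := by
  classical
  obtain ⟨ρ⟩ := hT.connected.nonempty
  choose f hf hf' using (hT.existsUnique_path · ρ)
  refine ⟨fun v => (f v).snd, fun v w hvw => ?_⟩
  by_cases h : v ∈ (f w).support
  · right
    exact (hT.isAcyclic.eq_snd_of_adj_start (hf w) hvw.symm h).symm
  · left
    have h1 : (Walk.cons hvw (f w)).IsPath := (Walk.cons_isPath_iff _ _).2 ⟨hf w, h⟩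
    have h2 := hf' v _ h1
    show (f v).snd = w
    rw [← h2]
    simp

open Classical in
/-- the number of vertices of degree at least two -/
noncomputable def nint : ℕ := (univ.filter (fun v => 2 ≤ dg T v)).card

open Classical in
/-- power sums of degrees -/
noncomputable def pw (e : ℕ) : ℕ := ∑ v ∈ univ.filter (fun v => 2 ≤ dg T v), dg T v ^ e


end Pool.Agent.V11181.TP
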