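import Mathlib
import Pool.Agent.V11181.TP

/-!
# Counting subtrees of a large tree, part 2
-/

set_option autoImplicit false

namespace Pool.Agent.V11181.TP

open Finset SimpleGraph

variable {V : Type} [Fintype V] (T : SimpleGraph V)

lemma pair_sum (par : V → V) (hpar : ∀ v w, T.Adj v w → par v = w ∨ par w = v)
    (f : V → V → ℕ) :
    ∑ w : V, ∑ u ∈ nb T w, f w u ≤ (∑ v, f v (par v)) + ∑ v, f (par v) v := by
  classical
  have h1 : ∀ w : V, ∑ u ∈ nb T w, f w u ≤
      ∑ u : V, ((if par w = u then f w u else 0) + (if par u = w then f w u else 0)) := by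
    intro w
    refine le_trans (Finset.sum_le_sum fun u hu => ?_)
      (Finset.sum_le_sum_of_subset (Finset.subset_univ (nb T w)))
    rw [mem_nb] at hu
    rcases hpar w u hu with h | h
    · rw [if_pos h]; omega
    · rw [if_pos h]; omega
  refine (Finset.sum_le_sum fun w _ => h1 w).trans ?_
  simp_rw [Finset.sum_add_distrib]
  apply le_of_eq
  congr 1
  · refine Finset.sum_congr rfl fun w _ => ?_
    rw [Finset.sum_ite_eq]
    simp
  · rw [Finset.sum_comm]
    refine Finset.sum_congr rfl fun u _ => ?_
    rw [Finset.sum_ite_eq]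
    simp

lemma Phi_le (hT : T.IsTree) (j m : ℕ) :
    m * Phi T j ≤ pw T (j + 3) + 2 * m ^ (j + 3) * pw T (j + 2) := by
  classical
  obtain ⟨par, hpar⟩ := exists_par T hT
  obtain ⟨g, hg⟩ : ∃ g : V → ℕ, g = fun w => if 2 ≤ dg T w then dg T w ^ (j + 2) else 0 :=
    ⟨_, rfl⟩
  obtain ⟨f, hf⟩ : ∃ f : V → V → ℕ, f = fun w u =>
      if 2 ≤ dg T u ∧ dg T u ≤ dg T w ∧ dg T w < m * dg T u then m * dg T w ^ (j + 2) else 0 :=
    ⟨_, rfl⟩
  have h1 : m * Phi T j ≤ ∑ w : V, ∑ u ∈ nb T w, (g w + f w u) := by
    unfold Phi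
    rw [Finset.mul_sum]
    refine Finset.sum_le_sum fun w _ => ?_
    rw [Finset.mul_sum]
    refine le_trans (Finset.sum_le_sum fun u hu => ?_)
      (Finset.sum_le_sum_of_subset (Finset.filter_subset _ _))
    rw [mem_filter] at hu
    rcases Nat.lt_or_ge (dg T u) 2 with h2 | h2
    · have : dg T u - 1 = 0 := by omega
      rw [this]
      simp
    · have h3 : 2 ≤ dg T w := h2.trans hu.2
      rcases Nat.lt_or_ge (dg T w) (m * dg T u) with h4 | h4
      · have h5 : f w u = m * dg T w ^ (j + 2) := by
          rw [hf]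
          exact if_pos ⟨h2, hu.2, h4⟩
        rw [h5]
        have h6 : (dg T u - 1) * dg T w ^ (j + 1) ≤ dg T w ^ (j + 2) := by
          calc _ ≤ dg T w * dg T w ^ (j + 1) := Nat.mul_le_mul_right _ (by omega)
            _ = dg T w ^ (j + 2) := by ring
        calc m * ((dg T u - 1) * dg T w ^ (j + 1)) ≤ m * dg T w ^ (j + 2) :=
              Nat.mul_le_mul_left _ h6
          _ ≤ _ := Nat.le_add_left _ _
      · have h5 : g w = dg T w ^ (j + 2) := by
          rw [hg]
          exact if_pos h3
        rw [h5]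
        calc m * ((dg T u - 1) * dg T w ^ (j + 1)) = (m * (dg T u - 1)) * dg T w ^ (j + 1) := by
              ring
          _ ≤ dg T w * dg T w ^ (j + 1) := by
              apply Nat.mul_le_mul_right
              exact (Nat.mul_le_mul_left m (by omega)).trans h4
          _ = dg T w ^ (j + 2) := by ring
          _ ≤ _ := Nat.le_add_right _ _
  refine h1.trans ?_
  simp_rw [Finset.sum_add_distrib]
  apply Nat.add_le_add
  · unfold pw
    rw [Finset.sum_filter]
    refine Finset.sum_le_sum fun w _ => ?_
    rw [Finset.sum_const, card_nb, smul_eq_mul, hg]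
    simp only
    split_ifs with h
    · apply le_of_eq; ring
    · simp
  · refine (pair_sum T par hpar f).trans ?_
    have hm3 : m ≤ m ^ (j + 3) := Nat.le_self_pow (by omega) m
    have h2 : ∑ v, f v (par v) ≤ m ^ (j + 3) * pw T (j + 2) := by
      unfold pw
      rw [Finset.mul_sum, Finset.sum_filter]
      refine Finset.sum_le_sum fun v _ => ?_
      rw [hf]
      simp only
      split_ifs with h3 h4 h4
      · exact Nat.mul_le_mul_right _ hm3
      · exact absurd (h3.1.trans h3.2.1) h4
      · exact Nat.zero_le _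
      · exact Nat.zero_le _
    have h3 : ∑ v, f (par v) v ≤ m ^ (j + 3) * pw T (j + 2) := by
      unfold pw
      rw [Finset.mul_sum, Finset.sum_filter]
      refine Finset.sum_le_sum fun v _ => ?_
      rw [hf]
      simp only
      split_ifs with h3 h4 h4
      · calc m * dg T (par v) ^ (j + 2) ≤ m * (m * dg T v) ^ (j + 2) :=
              Nat.mul_le_mul_left _ (Nat.pow_le_pow_left h3.2.2.le _)
          _ = m ^ (j + 3) * dg T v ^ (j + 2) := by ring
      · exact absurd h3.1 h4
      · exact Nat.zero_le _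
      · exact Nat.zero_le _
    calc _ ≤ m ^ (j + 3) * pw T (j + 2) + m ^ (j + 3) * pw T (j + 2) := Nat.add_le_add h2 h3
      _ = _ := by ring

lemma pw_le (j M : ℕ) : M * pw T (j + 2) ≤ pw T (j + 3) + M ^ (j + 3) * nint T := by
  classical
  unfold pw nint
  rw [Finset.mul_sum, Finset.card_eq_sum_ones, Finset.mul_sum, ← Finset.sum_add_distrib]
  refine Finset.sum_le_sum fun v _ => ?_
  rcases Nat.le_total M (dg T v) with h | h
  · calc M * dg T v ^ (j + 2) ≤ dg T v * dg T v ^ (j + 2) := Nat.mul_le_mul_right _ h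
      _ = dg T v ^ (j + 3) := by ring
      _ ≤ _ := Nat.le_add_right _ _
  · calc M * dg T v ^ (j + 2) ≤ M * M ^ (j + 2) := Nat.mul_le_mul_left _ (Nat.pow_le_pow_left h _)
      _ = M ^ (j + 3) * 1 := by ring
      _ ≤ _ := Nat.le_add_left _ _

/-! ### stars -/

open Classical in
/-- the stars with `k` vertices -/
noncomputable def stars (k : ℕ) : Finset (Finset V) :=
  univ.filter (fun U => U.card = k ∧ Conn T U ∧ IsStar T U)

omit [Fintype V] in
lemma conn_star (U : Finset V) (c : V) (hc : c ∈ U) (h : ∀ x ∈ U, x ≠ c → T.Adj c x) :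
    Conn T U := by
  have : Nonempty (U : Set V) := ⟨⟨c, hc⟩⟩
  refine Connected.mk ?_
  have h1 : ∀ x : (U : Set V), (T.induce (U : Set V)).Reachable ⟨c, hc⟩ x := by
    rintro ⟨x, hx⟩
    by_cases hxc : x = c
    · subst hxc
      exact Reachable.refl _
    · apply Adj.reachable
      exact h x hx hxc
  intro x y
  exact (h1 x).symm.trans (h1 y)

lemma choose_le (j : ℕ) : ∑ v : V, (dg T v).choose (j + 3) ≤ (j + 4) * (stars T (j + 4)).card := by
  classical
  have h1 : ∀ v : V, (dg T v).choose (j + 3) ≤
      ((stars T (j + 4)).filter (fun U => v ∈ U)).card := by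
    intro v
    rw [← card_nb, ← Finset.card_powersetCard]
    refine Finset.card_le_card_of_injOn (fun W => insert v W) ?_ ?_
    · intro W hW
      rw [Finset.mem_coe, mem_powersetCard] at hW
      have hv : v ∉ W := fun h => by
        have := (mem_nb T v v).1 (hW.1 h)
        exact this.ne rfl
      rw [Finset.mem_coe, mem_filter]
      refine ⟨?_, mem_insert_self _ _⟩
      simp only [stars, mem_filter, mem_univ, true_and]
      have hs : ∀ x ∈ insert v W, x ≠ v → T.Adj v x := by
        intro x hx hxv
        rcases mem_insert.1 hx with h | h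
        · exact absurd h hxv
        · exact (mem_nb T v x).1 (hW.1 h)
      refine ⟨?_, conn_star T _ v (mem_insert_self _ _) hs, v, mem_insert_self _ _, hs⟩
      rw [Finset.card_insert_of_notMem hv, hW.2]
    · intro W hW W' hW' hWW
      rw [Finset.mem_coe, mem_powersetCard] at hW hW'
      have hv : v ∉ W := fun h => by
        have := (mem_nb T v v).1 (hW.1 h)
        exact this.ne rfl
      have hv' : v ∉ W' := fun h => by
        have := (mem_nb T v v).1 (hW'.1 h)
        exact this.ne rfl
      simp only at hWW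
      rw [← Finset.erase_insert hv, hWW, Finset.erase_insert hv']
  refine (Finset.sum_le_sum fun v _ => h1 v).trans ?_
  simp_rw [Finset.card_filter]
  rw [Finset.sum_comm]
  have h2 : ∀ U ∈ stars T (j + 4), (∑ v : V, if v ∈ U then 1 else 0) = j + 4 := by
    intro U hU
    simp only [stars, mem_filter, mem_univ, true_and] at hU
    rw [← hU.1]
    simp
  rw [Finset.sum_congr rfl h2, Finset.sum_const, smul_eq_mul, mul_comm]

/-- the constant -/
def Kc (j : ℕ) : ℕ := (j + 3) ^ (j + 3) * (j + 3).factorial

lemma pow_le_choose (j d : ℕ) : d ^ (j + 3) ≤ Kc j * (d.choose (j + 3) + 1) := by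
  unfold Kc
  rcases Nat.lt_or_ge d (j + 3) with h | h
  · calc d ^ (j + 3) ≤ (j + 3) ^ (j + 3) := Nat.pow_le_pow_left h.le _
      _ ≤ (j + 3) ^ (j + 3) * (j + 3).factorial := Nat.le_mul_of_pos_right _ (Nat.factorial_pos _)
      _ ≤ _ := Nat.le_mul_of_pos_right _ (Nat.succ_pos _)
  · have h1 : (d + 1 - (j + 3)) ^ (j + 3) ≤ (j + 3).factorial * d.choose (j + 3) := by
      rw [← Nat.descFactorial_eq_factorial_mul_choose]
      exact Nat.pow_sub_le_descFactorial d (j + 3)
    have h2 : d ≤ (j + 3) * (d + 1 - (j + 3)) := by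
      obtain ⟨e, rfl⟩ := Nat.exists_eq_add_of_le h
      have : j + 3 + e + 1 - (j + 3) = e + 1 := by omega
      rw [this]
      nlinarith
    calc d ^ (j + 3) ≤ ((j + 3) * (d + 1 - (j + 3))) ^ (j + 3) := Nat.pow_le_pow_left h2 _
      _ = (j + 3) ^ (j + 3) * (d + 1 - (j + 3)) ^ (j + 3) := mul_pow _ _ _
      _ ≤ (j + 3) ^ (j + 3) * ((j + 3).factorial * d.choose (j + 3)) :=
          Nat.mul_le_mul_left _ h1
      _ = (j + 3) ^ (j + 3) * (j + 3).factorial * d.choose (j + 3) := by ring
      _ ≤ _ := Nat.mul_le_mul_left _ (Nat.le_succ _)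

lemma pw_stars (j : ℕ) :
    pw T (j + 3) ≤ Kc j * ((j + 4) * (stars T (j + 4)).card + nint T) := by
  classical
  have h1 : pw T (j + 3) ≤ Kc j * ((∑ v : V, (dg T v).choose (j + 3)) + nint T) := by
    unfold pw nint
    rw [mul_add, Finset.card_eq_sum_ones, Finset.mul_sum, Finset.mul_sum]
    have h2 : ∑ v ∈ univ.filter (fun v => 2 ≤ dg T v), dg T v ^ (j + 3) ≤
        ∑ v ∈ univ.filter (fun v => 2 ≤ dg T v), (Kc j * (dg T v).choose (j + 3) + Kc j * 1) := by
      refine Finset.sum_le_sum fun v _ => ?_
      rw [← mul_add]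
      exact pow_le_choose j _
    refine h2.trans ?_
    rw [Finset.sum_add_distrib]
    apply Nat.add_le_add_right
    exact Finset.sum_le_sum_of_subset (Finset.filter_subset _ _)
  exact h1.trans (Nat.mul_le_mul_left _ (Nat.add_le_add_right (choose_le T j) _))

/-! ### vertices near heavy vertices -/

open Classical in
/-- the vertices near a heavy vertex -/
noncomputable def Xs (M : ℕ) : ℕ → Finset V
  | 0 => univ.filter (fun v => M < dg T v)
  | r + 1 => Xs M r ∪ univ.filter (fun v => dg T v ≤ M ∧ ∃ x ∈ Xs M r, T.Adj v x)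

open Classical in
/-- the total degree of the heavy vertices -/
noncomputable def DH (M : ℕ) : ℕ := ∑ v ∈ univ.filter (fun v => M < dg T v), dg T v

lemma Xs_card (M : ℕ) : ∀ r : ℕ, (Xs T M r).card ≤ (M + 2) ^ r * DH T M := by
  classical
  intro r
  induction r with
  | zero =>
    unfold Xs DH
    rw [pow_zero, one_mul, Finset.card_eq_sum_ones]
    refine Finset.sum_le_sum fun v hv => ?_
    rw [mem_filter] at hv
    omega
  | succ r ih =>
    have h1 : (univ.filter (fun v => dg T v ≤ M ∧ ∃ x ∈ Xs T M r, T.Adj v x)) ⊆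
        ((univ.filter (fun v => M < dg T v)).biUnion (nb T)) ∪
        (((Xs T M r).filter (fun x => dg T x ≤ M)).biUnion (nb T)) := by
      intro v hv
      simp only [mem_filter, mem_univ, true_and] at hv
      obtain ⟨_, x, hx, hvx⟩ := hv
      rw [mem_union, mem_biUnion, mem_biUnion]
      rcases Nat.lt_or_ge M (dg T x) with h2 | h2
      · left
        exact ⟨x, by simpa using h2, (mem_nb T x v).2 hvx.symm⟩
      · right
        exact ⟨x, by simp [hx, h2], (mem_nb T x v).2 hvx.symm⟩
    have h2 : (univ.filter (fun v => dg T v ≤ M ∧ ∃ x ∈ Xs T M r, T.Adj v x)).card ≤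
        DH T M + (Xs T M r).card * M := by
      refine (Finset.card_le_card h1).trans ((Finset.card_union_le _ _).trans ?_)
      apply Nat.add_le_add
      · exact Finset.card_biUnion_le
      · refine (Finset.card_biUnion_le).trans ?_
        refine (Finset.sum_le_card_nsmul _ _ M ?_).trans ?_
        · intro x hx
          rw [mem_filter] at hx
          exact hx.2
        · rw [smul_eq_mul]
          exact Nat.mul_le_mul_right _ (Finset.card_le_card (Finset.filter_subset _ _))
    have h3 : (Xs T M (r + 1)).card ≤ (Xs T M r).card + (DH T M + (Xs T M r).card * M) := by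
      show (Xs T M r ∪ univ.filter (fun v => dg T v ≤ M ∧ ∃ x ∈ Xs T M r, T.Adj v x)).card ≤ _
      exact (Finset.card_union_le _ _).trans (Nat.add_le_add_left h2 _)
    have h4 : 1 ≤ (M + 2) ^ r := Nat.one_le_pow _ _ (by omega)
    calc (Xs T M (r + 1)).card ≤ (M + 1) * (Xs T M r).card + DH T M := by
          refine h3.trans (le_of_eq ?_); ring
      _ ≤ (M + 1) * ((M + 2) ^ r * DH T M) + (M + 2) ^ r * DH T M := by
          apply Nat.add_le_add
          · exact Nat.mul_le_mul_left _ ih
          · exact Nat.le_mul_of_pos_left _ h4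
      _ = (M + 2) ^ (r + 1) * DH T M := by ring

lemma DH_le (j M : ℕ) (hM : 1 ≤ M) : M ^ (j + 2) * DH T M ≤ pw T (j + 3) := by
  classical
  unfold DH pw
  rw [Finset.mul_sum]
  have hs : univ.filter (fun v => M < dg T v) ⊆ univ.filter (fun v => 2 ≤ dg T v) := by
    intro v hv
    simp only [mem_filter, mem_univ, true_and] at hv ⊢
    omega
  refine le_trans (Finset.sum_le_sum fun v hv => ?_) (Finset.sum_le_sum_of_subset hs)
  simp only [mem_filter, mem_univ, true_and] at hv
  calc M ^ (j + 2) * dg T v ≤ dg T v ^ (j + 2) * dg T v :=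
        Nat.mul_le_mul_right _ (Nat.pow_le_pow_left hv.le _)
    _ = dg T v ^ (j + 3) := by ring

lemma Xs_le (j M : ℕ) (hM : 1 ≤ M) : M ^ 2 * (Xs T M j).card ≤ 3 ^ j * pw T (j + 3) := by
  have h1 := Xs_card T M j
  have h2 := DH_le T j M hM
  have h3 : (M + 2) ^ j ≤ (3 * M) ^ j := Nat.pow_le_pow_left (by omega) _
  calc M ^ 2 * (Xs T M j).card ≤ M ^ 2 * ((3 * M) ^ j * DH T M) :=
        Nat.mul_le_mul_left _ (h1.trans (Nat.mul_le_mul_right _ h3))
    _ = 3 ^ j * (M ^ (j + 2) * DH T M) := by rw [mul_pow]; ring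
    _ ≤ _ := Nat.mul_le_mul_left _ h2

lemma light_near (M : ℕ) : ∀ (r : ℕ) (v y : V), v ∉ Xs T M r → (p : T.Walk v y) →
    p.length ≤ r → dg T y ≤ M := by
  classical
  intro r
  induction r with
  | zero =>
    intro v y hv p hp
    cases p with
    | nil =>
      simp only [Xs, mem_filter, mem_univ, true_and, not_lt] at hv
      exact hv
    | cons h p => simp at hp
  | succ r ih =>
    intro v y hv p hp
    have hv' : v ∉ Xs T M r ∪ univ.filter (fun v => dg T v ≤ M ∧ ∃ x ∈ Xs T M r, T.Adj v x) := hv
    rw [mem_union, not_or] at hv'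
    obtain ⟨h1, h2⟩ := hv'
    have h3 : dg T v ≤ M := ih v v h1 Walk.nil (by simp)
    cases p with
    | nil => exact h3
    | @cons _ x _ h p =>
      have h4 : x ∉ Xs T M r := by
        intro hx
        apply h2
        simp only [mem_filter, mem_univ, true_and]
        exact ⟨h3, x, hx, h⟩
      simp only [Walk.length_cons] at hp
      exact ih x y h4 p (by omega)

open Classical in
/-- balls -/
noncomputable def Bl (v : V) (r : ℕ) : Finset V :=
  univ.filter (fun y => ∃ p : T.Walk v y, p.length ≤ r)

lemma Bl_card (M : ℕ) (v : V) : ∀ r : ℕ,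
    (∀ y, (∃ p : T.Walk v y, p.length < r) → dg T y ≤ M) → (Bl T v r).card ≤ (M + 1) ^ r := by
  classical
  intro r
  induction r with
  | zero =>
    intro _
    rw [pow_zero]
    refine Finset.card_le_one.2 fun x hx y hy => ?_
    simp only [Bl, mem_filter, mem_univ, true_and] at hx hy
    obtain ⟨p, hp⟩ := hx
    obtain ⟨q, hq⟩ := hy
    rw [← Walk.eq_of_length_eq_zero (by omega : p.length = 0),
      ← Walk.eq_of_length_eq_zero (by omega : q.length = 0)]
  | succ r ih =>
    intro hl
    have h1 : Bl T v (r + 1) ⊆ (Bl T v r).biUnion (fun x => insert x (nb T x)) := by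
      intro y hy
      simp only [Bl, mem_filter, mem_univ, true_and] at hy
      obtain ⟨p, hp⟩ := hy
      rw [mem_biUnion]
      rcases Nat.lt_or_ge p.length (r + 1) with h2 | h2
      · exact ⟨y, by simp only [Bl, mem_filter, mem_univ, true_and]; exact ⟨p, by omega⟩,
          mem_insert_self _ _⟩
      · have h3 : p.length = r + 1 := by omega
        refine ⟨p.getVert r, ?_, ?_⟩
        · simp only [Bl, mem_filter, mem_univ, true_and]
          exact ⟨p.take r, by rw [Walk.take_length]; omega⟩
        · apply mem_insert_of_mem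
          rw [mem_nb]
          have := p.adj_getVert_succ (i := r) (by omega)
          rwa [← h3, Walk.getVert_length] at this
    refine (Finset.card_le_card h1).trans ((Finset.card_biUnion_le).trans ?_)
    have h2 : ∀ x ∈ Bl T v r, (insert x (nb T x)).card ≤ M + 1 := by
      intro x hx
      simp only [Bl, mem_filter, mem_univ, true_and] at hx
      obtain ⟨p, hp⟩ := hx
      refine (Finset.card_insert_le _ _).trans ?_
      rw [card_nb]
      have := hl x ⟨p, by omega⟩
      omega
    refine (Finset.sum_le_card_nsmul _ _ _ h2).trans ?_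
    rw [smul_eq_mul, pow_succ]
    exact Nat.mul_le_mul_right _ (ih fun y ⟨p, hp⟩ => hl y ⟨p, by omega⟩)

/-! ### paths -/

open Classical in
/-- the vertex sets of the induced paths with `k` vertices -/
noncomputable def paths (k : ℕ) : Finset (Finset V) :=
  univ.filter (fun U => Nonempty (pathGraph k ≃g T.induce (U : Set V)))

omit [Fintype V] in
lemma chord (hT : T.IsTree) {a b : V} (p : T.Walk a b) (hp : p.IsPath) (i i' : ℕ)
    (hi : i < i') (hi' : i' ≤ p.length) (h : T.Adj (p.getVert i) (p.getVert i')) : i' = i + 1 := by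
  have h1 : (p.drop i).IsPath := hp.drop i
  have h2 : p.getVert i' ∈ (p.drop i).support := by
    rw [Walk.mem_support_iff_exists_getVert]
    exact ⟨i' - i, by rw [Walk.drop_getVert]; congr 1; omega, by rw [Walk.drop_length]; omega⟩
  have h3 := hT.isAcyclic.eq_snd_of_adj_start h1 h h2
  have h4 : (p.drop i).snd = p.getVert (i + 1) := by
    show (p.drop i).getVert 1 = _
    rw [Walk.drop_getVert]
  rw [h4] at h3
  exact hp.getVert_injOn (by simp; omega) (by simp; omega) h3

lemma path_mem (hT : T.IsTree) (k : ℕ) {a b : V} (p : T.Walk a b) (hp : p.IsPath)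
    (hk : p.length + 1 = k) : ∃ U ∈ paths T k, ∀ x, x ∈ U ↔ x ∈ p.support := by
  classical
  refine ⟨p.support.toFinset, ?_, by simp⟩
  simp only [paths, mem_filter, mem_univ, true_and]
  have hmem : ∀ i : Fin k, p.getVert i ∈ (p.support.toFinset : Set V) := by
    intro i
    simp
  have hbij : Function.Bijective (fun i : Fin k =>
      (⟨p.getVert i, hmem i⟩ : ((p.support.toFinset : Finset V) : Set V))) := by
    constructor
    · intro i i' h
      have h2 : p.getVert i = p.getVert i' := congrArg Subtype.val h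
      have h3 := hp.getVert_injOn (by simp; omega) (by simp; omega) h2
      exact Fin.ext h3
    · rintro ⟨x, hx⟩
      have hx2 : x ∈ p.support := by simpa using hx
      rw [Walk.mem_support_iff_exists_getVert] at hx2
      obtain ⟨n, hn, hn2⟩ := hx2
      exact ⟨⟨n, by omega⟩, Subtype.ext hn⟩
  refine ⟨⟨Equiv.ofBijective _ hbij, ?_⟩⟩
  intro i i'
  simp only [Equiv.ofBijective_apply, comap_adj, Function.Embedding.subtype_apply, pathGraph_adj]
  constructor
  · intro h
    rcases lt_trichotomy (i : ℕ) i' with h1 | h1 | h1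
    · left
      exact (chord T hT p hp i i' h1 (by omega) h).symm
    · rw [h1] at h
      exact absurd rfl h.ne
    · right
      exact (chord T hT p hp i' i h1 (by omega) h.symm).symm
  · rintro (h | h)
    · rw [← h]
      exact p.adj_getVert_succ (by omega)
    · rw [← h]
      exact (p.adj_getVert_succ (by omega)).symm

lemma path_through (hT : T.IsTree) (j M : ℕ) (hV : (M + 1) ^ (j + 1) < Fintype.card V)
    (v : V) (hv : v ∉ Xs T M j) (h2 : 2 ≤ dg T v) : ∃ U ∈ paths T (j + 4), v ∈ U := by
  classical
  have h1 : (Bl T v (j + 1)).card ≤ (M + 1) ^ (j + 1) := by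
    apply Bl_card
    rintro y ⟨p, hp⟩
    exact light_near T M j v y hv p (by omega)
  obtain ⟨y, hy⟩ : ∃ y, y ∉ Bl T v (j + 1) := by
    by_contra hcon
    push Not at hcon
    have : Bl T v (j + 1) = univ := Finset.eq_univ_of_forall hcon
    rw [this, Finset.card_univ] at h1
    omega
  simp only [Bl, mem_filter, mem_univ, true_and, not_exists, not_le] at hy
  obtain ⟨p, hp, _⟩ := hT.existsUnique_path v y
  have hlen := hy p
  have hq : (p.take (j + 2)).IsPath := hp.take _
  have hql : (p.take (j + 2)).length = j + 2 := by rw [Walk.take_length]; omega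
  obtain ⟨u, hu, hne⟩ : ∃ u, T.Adj v u ∧ u ≠ (p.take (j + 2)).snd := by
    by_contra hcon
    push Not at hcon
    have h3 : nb T v ⊆ {(p.take (j + 2)).snd} := by
      intro u hu
      rw [mem_singleton]
      exact hcon u ((mem_nb T v u).1 hu)
    have h4 := Finset.card_le_card h3
    rw [card_nb, Finset.card_singleton] at h4
    omega
  have hun : u ∉ (p.take (j + 2)).support := by
    intro h3
    exact hne (hT.isAcyclic.eq_snd_of_adj_start hq hu h3)
  have hc : (Walk.cons hu.symm (p.take (j + 2))).IsPath := (Walk.cons_isPath_iff _ _).2 ⟨hq, hun⟩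
  obtain ⟨U, hU, hU2⟩ := path_mem T hT (j + 4) _ hc (by rw [Walk.length_cons, hql])
  refine ⟨U, hU, (hU2 v).2 ?_⟩
  simp

lemma paths_size (k : ℕ) (U : Finset V) (hU : U ∈ paths T k) : U.card = k := by
  classical
  simp only [paths, mem_filter, mem_univ, true_and] at hU
  obtain ⟨e⟩ := hU
  have := Fintype.card_congr e.toEquiv
  simpa using this.symm

lemma nint_le (hT : T.IsTree) (j M : ℕ) (hV : (M + 1) ^ (j + 1) < Fintype.card V) :
    nint T ≤ (Xs T M j).card + (j + 4) * (paths T (j + 4)).card := by
  classical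
  have h1 : univ.filter (fun v => 2 ≤ dg T v) ⊆ Xs T M j ∪ (paths T (j + 4)).biUnion id := by
    intro v hv
    simp only [mem_filter, mem_univ, true_and] at hv
    rw [mem_union]
    by_cases h : v ∈ Xs T M j
    · exact Or.inl h
    · right
      obtain ⟨U, hU, hvU⟩ := path_through T hT j M hV v h hv
      rw [mem_biUnion]
      exact ⟨U, hU, hvU⟩
  unfold nint
  refine (Finset.card_le_card h1).trans ((Finset.card_union_le _ _).trans ?_)
  apply Nat.add_le_add_left
  refine (Finset.card_biUnion_le).trans ?_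
  refine (Finset.sum_le_card_nsmul _ _ (j + 4) fun U hU => ?_).trans ?_
  · exact (paths_size T _ U hU).le
  · rw [smul_eq_mul, mul_comm]

end Pool.Agent.V11181.TP
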